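import Pool.Agent.Lib.MP_7d41f7_al.C.XDefs
import Pool.Agent.Lib.MP_7d41f7_al.L.SPerm
import Pool.Agent.Lib.MP_7d41f7_al.L.AZ

/-! Transfer of the data from the classical group to the unknown group. -/

set_option autoImplicit false

namespace Pool.Agent.Lib.MP_7d41f7_al

open Finset Subgroup Pool.Agent.Lib.MP_b6945b_al

/-- As `adj_Vo` in `L/SPerm.lean`: `g = x * y` with `x`, `y` powers of `g` of orders `r`, `m`. -/
theorem adj_Vo' {G : Type} [Group G] [Finite G] {m r : ℕ} (hr : r.Prime) (hm : m.Coprime r)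
    (hc : Cyc G r) (hV : r ∈ Vo G) (h : Adj G m r) : m * r ∈ Vo G := by
  have := Fintype.ofFinite G
  have := Fact.mk hr
  obtain ⟨I⟩ := exists_irrData G
  obtain ⟨x₀, h0, i, hi⟩ := (mem_Vo I r).1 hV
  obtain ⟨g, hg⟩ := h
  have hm0 : m ≠ 0 := fun e => (orderOf_pos g).ne' (by rw [hg, e, zero_mul])
  have hx : orderOf (g ^ m) = r := by
    rw [orderOf_pow_of_dvd hm0 (hg ▸ dvd_mul_right m r), hg,
      Nat.mul_div_cancel_left _ (Nat.pos_of_ne_zero hm0)]
  have hy : orderOf (g ^ r) = m := by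
    rw [orderOf_pow_of_dvd hr.ne_zero (hg ▸ dvd_mul_left r m), hg, Nat.mul_div_cancel _ hr.pos]
  obtain ⟨l, -, hl⟩ := cyc_conj hc ⊤ h0 hx trivial trivial
  obtain ⟨k, hk⟩ := mem_powers_iff_mem_zpowers.2 hl
  have h1 : orderOf (x₀ ^ k) = r :=
    (congrArg orderOf hk).trans ((MulEquiv.orderOf_eq (MulAut.conj l) _).trans hx)
  have h2 : I.χ i (g ^ m) = 0 := by
    rw [← I.χ_conj i l, ← hk]
    refine van_pow I i hi ?_
    rw [h0, Nat.coprime_comm, hr.coprime_iff_not_dvd, ← h0, orderOf_dvd_iff_pow_eq_one]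
    intro h3
    rw [h3, orderOf_one] at h1
    exact hr.ne_one h1.symm
  have hcm : Commute (g ^ m) (g ^ r) := Commute.pow_pow_self g m r
  refine (mem_Vo I _).2 ⟨g ^ m * g ^ r, ?_, i, lemV hc hx I i h2 hcm.symm ?_⟩
  · rw [hcm.orderOf_mul_eq_mul_orderOf_of_coprime (by rw [hx, hy]; exact hm.symm), hx, hy, mul_comm]
  · rw [hy]
    exact hr.coprime_iff_not_dvd.1 hm.symm

/-- A generator of a Sylow subgroup of `S` has order `r ^ c`; `cyc_of_order`.  If `c = 0` the Sylow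
subgroups of `G` are trivial. -/
theorem transfer_cyc {S G : Type} [Group S] [Finite S] [Group G] [Finite G] {r : ℕ} (hr : r.Prime)
    (hc : Nat.card G = Nat.card S) (hV : Vo G = Vo S) (h1 : Cyc S r)
    (h2 : ∀ g : S, r ∣ orderOf g → orderOf g ∈ Vo S) : Cyc G r := by
  have := Fact.mk hr
  have h0 := (Nat.card_pos (α := G)).ne'
  have hn := Nat.pow_succ_factorization_not_dvd h0 hr
  obtain ⟨P⟩ : Nonempty (Sylow r S) := inferInstance
  obtain ⟨g, hg⟩ := (h1 P).exists_ofOrder_eq_natCard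
  rw [P.card_eq_multiplicity, ← hc, ← Subgroup.orderOf_coe] at hg
  by_cases hz : (Nat.card G).factorization r = 0
  · exact cyc_of_order hr (g := 1) (by rw [hz, orderOf_one, pow_zero]) hn
  · obtain ⟨g', hg', -⟩ := hV ▸ h2 g (hg ▸ dvd_pow_self r hz)
    exact cyc_of_order hr (hg'.trans hg) hn

/-- `adj_Vo'`; Cauchy gives an element of order `r` of `S`. -/
theorem transfer_adj {S G : Type} [Group S] [Finite S] [Group G] [Finite G] {m r : ℕ}
    (hr : r.Prime) (hm : m.Coprime r) (hc : Nat.card G = Nat.card S) (hV : Vo G = Vo S)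
    (h1 : Cyc S r) (h2 : ∀ g : S, r ∣ orderOf g → orderOf g ∈ Vo S) : Adj G m r ↔ Adj S m r := by
  have := Fact.mk hr
  constructor
  · intro h
    obtain ⟨g, hg⟩ := id h
    obtain ⟨x, hx⟩ := exists_prime_orderOf_dvd_card' (G := S) r
      (hc ▸ (hg ▸ dvd_mul_left r m : r ∣ orderOf g).trans (orderOf_dvd_natCard g))
    have h3 : r ∈ Vo G := by
      rw [hV, ← hx]
      exact h2 x hx.symm.dvd
    obtain ⟨y, hy, -⟩ := hV ▸ adj_Vo' hr hm (transfer_cyc hr hc hV h1 h2) h3 h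
    exact ⟨y, hy⟩
  · rintro ⟨g, hg⟩
    obtain ⟨y, hy, -⟩ := hV ▸ h2 g (hg ▸ dvd_mul_left r m)
    exact ⟨y, hy.trans hg⟩

theorem transfer_aux1 {n q r : ℕ} (hn : 0 < n) (hq : 1 ≤ q) (h : Prim q (2 * n) r) :
    Ord ((q : ℤ) ^ 2) r = n := by
  have key : ∀ j, (((q : ℤ) ^ 2 : ℤ) : ZMod r) ^ j = 1 ↔ n ∣ j := by
    intro j
    rw [← Nat.mul_dvd_mul_iff_left two_pos, ← h.dvd_iff hq (by omega), ← ZMod.natCast_eq_zero_iff,
      Nat.cast_sub (Nat.one_le_pow _ _ hq), sub_eq_zero]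
    push_cast
    rw [pow_mul]
  exact Nat.dvd_antisymm (orderOf_dvd_of_pow_eq_one ((key n).2 dvd_rfl))
    ((key _).1 (pow_orderOf_eq_one _))

/-- A prime with `Prim q (2 * n) r` has `Ord (q ^ 2) r = n`. -/
theorem transfer {S G : Type} [Group S] [Finite S] [Group G] [Finite G] {t : Ty} {n q : ℕ}
    (hn : 4 < n) (hq : 2 ≤ q) (h : XData S t n q)
    (hv : ∀ r, r.Prime → n + 4 < 2 * Ord (t.kd.bs q) r → ∀ g : S, r ∣ orderOf g → orderOf g ∈ Vo S)
    (hc : Nat.card G = Nat.card S) (hV : Vo G = Vo S) : XData G t n q ∧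
      ∀ r m, r.Prime → n + 4 < 2 * Ord (t.kd.bs q) r → m.Coprime r → (Adj G m r ↔ Adj S m r) := by
  have hA : ∀ r m, r.Prime → n + 4 < 2 * Ord (t.kd.bs q) r → m.Coprime r →
      (Adj G m r ↔ Adj S m r) := fun r m hr ho hm =>
    transfer_adj hr hm hc hV (h.cyc r hr ho) (hv r hr ho)
  refine ⟨⟨hc ▸ h.card, fun r hr ho => transfer_cyc hr hc hV (h.cyc r hr ho) (hv r hr ho),
    fun r u hr hu hne ho hu' ha => h.adj r u hr hu hne ho hu'
      ((hA r u hr ho ((Nat.coprime_primes hu hr).2 hne)).1 ha), fun ht r u hr hu ha => ?_⟩, hA⟩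
  have hb : t.kd.bs q = (q : ℤ) ^ 2 := by rcases ht with rfl | rfl <;> rfl
  have hne : u ≠ r := fun e => hr.min n (by omega) (by omega) (e ▸ hu.dvd)
  refine h.adjL ht r u hr hu ((hA r u hr.pr ?_ ((Nat.coprime_primes hu.pr hr.pr).2 hne)).1 ha)
  rw [hb, transfer_aux1 (by omega) (by omega) hr]
  omega

theorem odd_cyc_conj {R : Type} [Group R] {a y : R} {s : ℤ} (hs : a ^ s = y * a * y⁻¹) (i : ℤ)
    (k : ℕ) : y ^ k * a ^ i = a ^ (i * s ^ k) * y ^ k := by
  induction k with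
  | zero => simp
  | succ k ih =>
    rw [pow_succ', mul_assoc, ih, pow_succ' s, mul_left_comm, zpow_mul a s, hs, conj_zpow]
    group

theorem odd_cyc_pow {R : Type} [Group R] {a y : R} {s : ℤ} (hs : a ^ s = y * a * y⁻¹) (i : ℤ)
    (k : ℕ) : (a ^ i * y) ^ k = a ^ (i * ∑ m ∈ range k, s ^ m) * y ^ k := by
  induction k with
  | zero => simp
  | succ k ih =>
    rw [pow_succ, ih, sum_range_succ, mul_add, zpow_add, mul_assoc, ← mul_assoc (y ^ k),
      odd_cyc_conj hs, pow_succ]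
    simp only [mul_assoc]

theorem odd_cyc_key {R : Type} [Group R] {r : ℕ} (hr : r.Prime) (h2 : r ≠ 2) (hR : IsPGroup r R)
    (h : ∀ a b : R, a ^ r = 1 → b ^ r = 1 → Commute a b → b ≠ 1 → a ∈ zpowers b) {a y : R}
    (h1 : y * a * y⁻¹ ∈ zpowers a) (h3 : y ^ r ∈ zpowers a) (h4 : y ∉ zpowers a) :
    a ∈ zpowers y := by
  have := Fact.mk hr
  have hp := Nat.prime_iff_prime_int.1 hr
  obtain ⟨s, hs⟩ := mem_zpowers_iff.1 h1
  obtain ⟨j, hj⟩ := mem_zpowers_iff.1 h3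
  obtain ⟨n, hn⟩ := IsPGroup.iff_orderOf.1 hR a
  have e0 : a ^ ((r : ℤ) ^ n) = 1 := by rw [← Nat.cast_pow, zpow_natCast, ← hn, pow_orderOf_eq_one]
  by_cases hd : (r : ℤ) ∣ j
  swap
  · obtain ⟨u, v, e⟩ := (hp.irreducible.coprime_iff_not_dvd.2 hd).pow_left (m := n)
    refine mem_zpowers_iff.2 ⟨r * v, ?_⟩
    rw [zpow_mul, zpow_natCast, ← hj, ← zpow_mul, mul_comm, eq_sub_of_add_eq' e, zpow_sub, mul_comm u,
      zpow_mul, e0, one_zpow, inv_one, mul_one, zpow_one]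
  rcases n with _ | n
  · rw [orderOf_eq_one_iff.1 hn]
    exact one_mem _
  obtain ⟨j, rfl⟩ := hd
  have e1 : (r : ℤ) ∣ s - 1 := by
    have e := odd_cyc_conj hs 1 r
    rw [← hj, ← zpow_add, ← zpow_add, zpow_eq_zpow_iff_modEq, hn, one_mul] at e
    have e' := (e.of_dvd (by simp [pow_succ] : (r : ℤ) ∣ (r ^ (n + 1) : ℕ))).dvd
    rw [← ZMod.intCast_zmod_eq_zero_iff_dvd] at e' ⊢
    simpa [ZMod.pow_card] using e'
  obtain ⟨t, ht⟩ := e1
  obtain ⟨c, hc⟩ := odd_sq_dvd_geom_sum₂_sub (1 : ℤ) t (hr.odd_of_ne_two h2)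
  simp only [one_pow, mul_one, ← ht, add_sub_cancel] at hc
  obtain ⟨u, v, e⟩ : IsCoprime ((r : ℤ) ^ (n + 1)) (1 + r * c) :=
    (isCoprime_one_right.add_mul_left_right c).pow_left
  have e2 : (a ^ (-j * v) * y) ^ r = 1 := by
    rw [odd_cyc_pow hs, ← hj, ← zpow_add, show -j * v * ∑ m ∈ range r, s ^ m + r * j =
      r ^ (n + 1) * (r * j * u) by linear_combination -j * v * hc - r * j * e, zpow_mul, e0, one_zpow]
  have e3 : (a ^ r ^ n) ^ r = 1 := by rw [← pow_mul, ← pow_succ, ← hn, pow_orderOf_eq_one]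
  have e4 : Commute y (a ^ r ^ n) := by
    have e := odd_cyc_conj hs (r ^ n) 1
    rwa [pow_one, pow_one, show (r : ℤ) ^ n * s = r ^ n + r ^ (n + 1) * t by
      linear_combination r ^ n * ht, zpow_add, zpow_mul, e0, one_zpow, mul_one, ← Nat.cast_pow,
      zpow_natCast] at e
  have e5 := h _ _ e2 e3 (((Commute.refl a).pow_right _).zpow_left _ |>.mul_left e4)
    (pow_ne_one_of_lt_orderOf (pow_pos hr.pos n).ne' (hn ▸ Nat.pow_lt_pow_right hr.one_lt n.lt_succ_self))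
  exact absurd ((mul_mem_cancel_left (zpow_mem (mem_zpowers a) _)).1
    (zpowers_le_of_mem (pow_mem (mem_zpowers a) _) e5)) h4

/-- A maximal cyclic normal subgroup is the whole group. -/
theorem odd_cyc {R : Type} [Group R] [Finite R] {r : ℕ} (hr : r.Prime) (h2 : r ≠ 2)
    (hR : IsPGroup r R)
    (h : ∀ a b : R, a ^ r = 1 → b ^ r = 1 → Commute a b → b ≠ 1 → a ∈ zpowers b) : IsCyclic R := by
  have := Fact.mk hr
  obtain ⟨a, ha, hm⟩ := Set.exists_max_image {a : R | (zpowers a).Normal} orderOf (Set.toFinite _)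
    ⟨1, by simp⟩
  have hn : (zpowers a).Normal := ha
  refine isCyclic_iff_exists_zpowers_eq_top.2 ⟨a, by_contra fun hc => ?_⟩
  have := QuotientGroup.nontrivial_iff.2 hc
  have hQ := hR.to_quotient (zpowers a)
  have := hQ.center_nontrivial
  obtain ⟨⟨z, hz⟩, ho⟩ := exists_prime_orderOf_dvd_card' r
    ((hQ.to_subgroup (center _)).card_eq_or_dvd.resolve_left Finite.one_lt_card.ne')
  obtain ⟨y, rfl⟩ := QuotientGroup.mk_surjective z
  rw [orderOf_mk, orderOf_eq_prime_iff, ← QuotientGroup.mk_pow, Ne, QuotientGroup.eq_one_iff,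
    QuotientGroup.eq_one_iff] at ho
  have h1 := zpowers_le_of_mem (odd_cyc_key hr h2 hR h (hn.conj_mem _ (mem_zpowers a) y) ho.1 ho.2)
  have h3 : (zpowers y).Normal := ⟨fun _ ⟨k, hk⟩ g => by
    have e : g * y * g⁻¹ * y⁻¹ ∈ zpowers a := by
      rw [← QuotientGroup.eq_one_iff]
      simp [mem_center_iff.1 hz g]
    rw [← hk, ← conj_zpow]
    exact zpow_mem ((mul_mem_cancel_right (inv_mem (mem_zpowers y))).1 (h1 e)) k⟩
  exact ho.2 ((eq_of_le_of_card_ge h1 (by simpa only [Nat.card_zpowers] using hm y h3)).ge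
    (mem_zpowers y))

end Pool.Agent.Lib.MP_7d41f7_al
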