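import Pool.Agent.Lib.MP_7d41f7_al.L.GA

/-! The section of a group with many primes with cyclic Sylow subgroups. -/

set_option autoImplicit false

namespace Pool.Agent.Lib.MP_7d41f7_al

open Subgroup

variable {G : Type} [Group G] [Finite G] {r s u n : ℕ} {o : ℕ → ℕ}

omit [Finite G] in
theorem Adj.of_sub {H : Subgroup G} (h : Adj H u r) : Adj G u r :=
  h.elim fun g e => ⟨g, (orderOf_coe g).trans e⟩

omit [Finite G] in
theorem Cyc.sub (hr : r.Prime) (h : Cyc G r) (H : Subgroup G) : Cyc H r := fun P => by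
  have := Fact.mk hr
  obtain ⟨S, hS⟩ := (P.isPGroup'.map H.subtype).exists_le_sylow
  have := h S
  exact isCyclic_of_injective ((H.subtype.comp (P : Subgroup H).subtype).codRestrict S
    fun x => hS ⟨x, x.2, rfl⟩) fun x y e =>
      Subtype.ext (Subtype.ext (congrArg (fun z : (S : Subgroup G) => (z : G)) e))

/- As `exists_core`, for a set of primes. -/
theorem exists_core' (π : ℕ → Prop) : ∃ K : Subgroup G, K.Normal ∧
    (∀ r, r.Prime → π r → ¬ r ∣ Nat.card K) ∧
    ∀ M : Subgroup G, M.Normal → (∀ r, r.Prime → π r → ¬ r ∣ Nat.card M) → M ≤ K := by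
  obtain ⟨K, ⟨h1, h2⟩, h3⟩ := Set.Finite.exists_maximal
    (Set.toFinite {K : Subgroup G | K.Normal ∧ ∀ r, r.Prime → π r → ¬ r ∣ Nat.card K})
    ⟨⊥, inferInstance, fun r hr _ => by simpa using hr.ne_one⟩
  refine ⟨K, h1, h2, fun M hM h => le_sup_right.trans
    (h3 ⟨inferInstance, fun r hr g h4 => ?_⟩ le_sup_left)⟩
  rw [← (K.subgroupOf (K ⊔ M)).card_mul_index,
    Nat.card_congr (subgroupOfEquivOfLe le_sup_left).toEquiv, hr.dvd_mul] at h4
  exact h4.elim (h2 r hr g) fun h5 =>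
    h r hr g ((h5.trans (relIndex_sup_left M K).dvd).trans (relIndex_dvd_card K M))

/- `H` minimal among the nontrivial normal subgroups, `s ∣ |H|` with `π s`. Simplicity as in
`exists_socle`: the core `exists_core` of `H` for `s` is characteristic and proper, hence trivial;
a nontrivial normal subgroup `N` of `H` has order divisible by `s`, by `Cyc.conj` it contains all
elements of order `s` of `H`, and these generate a nontrivial normal subgroup of `G` inside `H`. -/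
theorem exists_min_simple [Nontrivial G] (π : ℕ → Prop) (hc : ∀ r, r.Prime → π r → Cyc G r)
    (hall : ∀ M : Subgroup G, M.Normal → M ≠ ⊥ → ∃ r, r.Prime ∧ π r ∧ r ∣ Nat.card M) :
    ∃ H : Subgroup G, H.Normal ∧ H ≠ ⊥ ∧ IsSimpleGroup H := by
  obtain ⟨H, ⟨hn, h0⟩, hmin⟩ := exists_minimal_of_wellFoundedLT
    (fun M : Subgroup G => M.Normal ∧ M ≠ ⊥) ⟨⊤, inferInstance, top_ne_bot⟩
  obtain ⟨s, hs, g, d⟩ := hall H hn h0
  have := (nontrivial_iff_ne_bot H).2 h0
  refine ⟨H, hn, h0, ⟨fun N hN => or_iff_not_imp_left.2 fun h1 => ?_⟩⟩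
  have h2 : s ∣ Nat.card N := by
    by_contra h2
    obtain ⟨K, hK, h3, h4⟩ := exists_core (G := H) hs
    have : K.Characteristic := characteristic_iff_map_le.2 fun φ =>
      h4 _ (hK.map _ φ.surjective) (by rwa [card_map_of_injective φ.injective])
    refine h3 (d.trans ?_)
    rw [← card_map_of_injective H.subtype_injective]
    refine card_dvd_of_le (hmin ⟨inferInstance, fun h => h1 ?_⟩ (map_subtype_le K))
    exact le_bot_iff.1 ((map_eq_bot_iff_of_injective _ H.subtype_injective).1 h ▸ h4 N hN h2)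
  obtain ⟨x, hx, ox⟩ := exists_socle_elt hs h2
  have ox' := (orderOf_coe x).trans ox
  have h3 : H ≤ normalClosure {x.1} := hmin ⟨inferInstance, fun h => hs.ne_one (by
    rw [← ox', orderOf_eq_one_iff, ← mem_bot, ← h]
    exact subset_normalClosure rfl)⟩ (normalClosure_le_normal (Set.singleton_subset_iff.2 x.2))
  have h4 : normalClosure {x.1} ≤ N.map H.subtype := (closure_le _).2 fun y hy => by
    obtain ⟨_, rfl, hy⟩ := Group.mem_conjugatesOfSet_iff.1 hy
    obtain ⟨g, rfl⟩ := isConj_iff.1 hy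
    have h5 := hn.conj_mem _ x.2 g
    obtain ⟨m, hm, k, hk⟩ := (hc s hs ‹_›).conj hs H x.2 h5 ox'
      (((MulAut.conj g).orderOf_eq x.1).trans ox')
    have h6 : (⟨m, hm⟩ * ⟨_, h5⟩ * ⟨m, hm⟩⁻¹ : H) = x ^ k := Subtype.ext hk.symm
    exact ⟨⟨_, h5⟩, inv_mul_cancel_left ⟨m, hm⟩ (⟨_, h5⟩ : H) ▸
      hN.mem_comm (h6 ▸ N.zpow_mem hx k), rfl⟩
  exact top_le_iff.1 fun y _ => (mem_map_iff_mem H.subtype_injective).1 (h4 (h3 y.2))

/- As in `dvd_of_tight`. -/
theorem adj_of_index (L : Subgroup G) [L.Normal] (hc : commutator G ≤ L) (hu : u.Prime)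
    (hr : r.Prime) (hne : u ≠ r) (h1 : u ∣ L.index) (h2 : r ∣ L.index) : Adj G u r := by
  have := Fact.mk hu
  have := Fact.mk hr
  obtain ⟨x, hx⟩ := exists_prime_orderOf_dvd_card' (G := G ⧸ L) u h1
  obtain ⟨y, hy⟩ := exists_prime_orderOf_dvd_card' (G := G ⧸ L) r h2
  exact Adj.of_surj (QuotientGroup.mk'_surjective L) (adj_of_commute hu hr hne hx.symm.dvd
    hy.symm.dvd ((Normal.quotient_commutative_iff_commutator_le.2 hc).is_comm.comm x y))

/- As `free_mod`, with a Sylow `r`-subgroup `R` of the normaliser of `P`. Its order is the full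
`r`-part of `|G|`, and it acts freely on the nontrivial elements of `P`: a nontrivial element of `R`
has order divisible by `r` (`adj_of_commute`). `MulAction.selfEquivOrbitsQuotientProd`. -/
theorem free_pow (N : Subgroup G) [N.Normal] (hr : r.Prime) (hN : ¬ r ∣ Nat.card N) (hu : u.Prime)
    (hne : u ≠ r) (ha : ¬ Adj G u r) :
    u ^ (Nat.card N).factorization u ≡ 1 [MOD r ^ (Nat.card G).factorization r] := by
  have := Fact.mk hu
  have := Fact.mk hr
  obtain ⟨P⟩ : Nonempty (Sylow u N) := inferInstance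
  have h1 := P.normalizer_sup_eq_top
  have hQ : Nat.card (P.map N.subtype) = u ^ (Nat.card N).factorization u := by
    rw [card_map_of_injective N.subtype_injective, P.card_eq_multiplicity]
  generalize (P : Subgroup N).map N.subtype = Q at h1 hQ
  have h2 : r ^ (Nat.card G).factorization r ∣ Nat.card (normalizer (Q : Set G)) := by
    have hG := Nat.ordProj_dvd (Nat.card G) r
    generalize (Nat.card G).factorization r = c at hG
    rw [← N.card_mul_index, ← relIndex_top_right, ← h1, relIndex_sup_right] at hG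
    exact (((hr.coprime_iff_not_dvd.2 hN).pow_left c).dvd_of_dvd_mul_left hG).trans
      (relIndex_dvd_card _ _)
  obtain ⟨R, hR⟩ := Sylow.exists_subgroup_card_pow_prime r h2
  let X : SubMulAction R Q := ⟨{y | y ≠ 1}, fun g y hy e =>
    hy (((smul_eq_iff_eq_inv_smul g).1 e).trans (smul_one _))⟩
  have h3 : Nat.card R ∣ Nat.card X := by
    rw [Nat.card_congr (MulAction.selfEquivOrbitsQuotientProd (G := R) (X := X) fun y =>
      eq_bot_iff.2 fun x hx => ?_), Nat.card_prod]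
    · exact Dvd.intro_left _ rfl
    by_contra h0
    have h5 : ((x : normalizer (Q : Set G)) : G) * (y : Q) * ((x : normalizer (Q : Set G)) : G)⁻¹ =
      (y : Q) := congrArg (fun z : X => ((z : Q) : G)) hx
    have k : ∀ {H : Type} [Group H] [Finite H] {p k : ℕ} (z : H), p.Prime → Nat.card H = p ^ k →
        z ≠ 1 → p ∣ orderOf z := fun z hp e h => by
      obtain ⟨i, -, hi⟩ := (Nat.dvd_prime_pow hp).1 (e ▸ orderOf_dvd_natCard z)
      exact hi ▸ dvd_pow_self _ fun c => h (orderOf_eq_one_iff.1 (by rw [hi, c, pow_zero]))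
    refine ha (adj_of_commute hu hr hne ?_ ?_ (mul_inv_eq_iff_eq_mul.1 h5).symm)
    · rw [orderOf_coe]
      exact k _ hu hQ y.2
    · rw [orderOf_coe, orderOf_coe]
      exact k _ hr hR h0
  have h4 : Nat.card X + 1 = Nat.card Q := by
    classical
    have := Fintype.ofFinite Q
    change Nat.card {y : Q // ¬ y = 1} + 1 = _
    rw [Nat.card_eq_fintype_card, Fintype.card_subtype_compl, Fintype.card_subtype_eq,
      Nat.card_eq_fintype_card]
    exact Nat.sub_add_cancel Fintype.card_pos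
  rw [← hQ, ← h4, ← hR]
  exact (Nat.modEq_zero_iff_dvd.2 h3).add_right 1

/- If `2 r ≤ m` there are two disjoint `r`-cycles (for instance in the image of
`Perm (Fin r) × Perm (Fin r)`, or `Equiv.Perm.exists_with_cycleType_iff`); they are even as `r` is
odd, commute, have order `r`, and by `Cyc.conj_aux1` inside a Sylow subgroup containing both one is
a power of the other, impossible for disjoint supports. -/
theorem alt_lt {m : ℕ} (hr : r.Prime) (h2 : r ≠ 2) (hc : Cyc (alternatingGroup (Fin m)) r) :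
    m < 2 * r := by
  by_contra hm
  have := hr.two_le
  obtain ⟨x, hx⟩ := (Equiv.Perm.exists_with_cycleType_iff (α := Fin m) (m := {r})).2
    ⟨by simp; omega, by simpa using hr.two_le⟩
  obtain ⟨y, hy⟩ := (Equiv.Perm.exists_with_cycleType_iff (α := Fin m) (m := {r, r})).2
    ⟨by simp; omega, by simpa using hr.two_le⟩
  obtain ⟨c, -, k, hk⟩ := hc.conj hr ⊤
    (x := ⟨x, by simp [Equiv.Perm.sign_of_cycleType, hx, (hr.odd_of_ne_two h2).add_one.neg_one_pow]⟩)
    (y := ⟨y, by simp [Equiv.Perm.sign_of_cycleType, hy, pow_add]⟩) trivial trivial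
    (by rw [orderOf_mk, ← Equiv.Perm.lcm_cycleType, hx]; simp)
    (by rw [orderOf_mk, ← Equiv.Perm.lcm_cycleType, hy]; simp)
  have e : x ^ k = c.1 * y * c.1⁻¹ := congrArg Subtype.val hk
  have := Finset.card_le_card (Equiv.Perm.support_zpow_le x k)
  rw [e, Equiv.Perm.card_support_conj, ← Equiv.Perm.sum_cycleType, ← Equiv.Perm.sum_cycleType,
    hx, hy] at this
  simp at this
  omega

/-- What is known about the orders `k`, `h`, `a` of the three factors of a normal series. -/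
structure SData (k h a n : ℕ) (o : ℕ → ℕ) : Prop where
  kg : ∀ r, r.Prime → n + 4 < 2 * o r → ¬ r ∣ k
  free : ∀ r u, r.Prime → u.Prime → n + 4 < 2 * o r → n ≤ 2 * o u → ¬ o u ∣ o r →
    u ^ k.factorization u ≡ 1 [MOD r ^ (k * h * a).factorization r]
  one : ∀ r u, r.Prime → u.Prime → n + 4 < 2 * o r → n + 4 < 2 * o u → r ∣ a → u ∣ a → o r = o u
  top : ∀ r u, r.Prime → u.Prime → n + 4 < 2 * o r → n ≤ 2 * o u → ¬ o u ∣ o r → r ∣ h → u ∣ a →
    u ∣ r - 1
  two : ∀ r u v, r.Prime → u.Prime → v.Prime → n + 4 < 2 * o r → n ≤ 2 * o u → n + 4 < 2 * o v →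
    ¬ o u ∣ o r → ¬ o v ∣ o r → r ∣ h → u ∣ a → v ∣ a → o u ∣ o v

theorem gsec (cyc : ∀ r, r.Prime → n + 4 < 2 * o r → Cyc G r)
    (adj : ∀ r u, r.Prime → u.Prime → u ≠ r → n + 4 < 2 * o r → n ≤ 2 * o u → Adj G u r →
      o u ∣ o r)
    (ex : ∀ i j, ∃ r, r.Prime ∧ n + 4 < 2 * o r ∧ r ∣ Nat.card G ∧ o r ≠ i ∧ o r ≠ j)
    (hle : ∀ r, r.Prime → r ∣ Nat.card G → o r ≤ n) :
    ∃ (K : Subgroup G) (_ : K.Normal) (H : Subgroup (G ⧸ K)), H.Normal ∧ IsSimpleGroup H ∧
      ¬ IsMulCommutative H ∧ centralizer (H : Set (G ⧸ K)) = ⊥ ∧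
      SData (Nat.card K) (Nat.card H) H.index n o := by
  obtain ⟨K, _, kg, kmax⟩ := exists_core' (G := G) fun r => n + 4 < 2 * o r
  have sj := QuotientGroup.mk'_surjective K
  have cG : Nat.card G = Nat.card (G ⧸ K) * Nat.card K := card_eq_card_quotient_mul_card_subgroup K
  have dq : ∀ r, r.Prime → n + 4 < 2 * o r → r ∣ Nat.card G → r ∣ Nat.card (G ⧸ K) :=
    fun r hr g d => (hr.dvd_mul.1 (cG ▸ d)).resolve_right (kg r hr g)
  have na : ∀ r u, r.Prime → u.Prime → n + 4 < 2 * o r → n ≤ 2 * o u → ¬ o u ∣ o r →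
      u ≠ r ∧ ¬ Adj G u r := fun r u hr hu g1 g2 e =>
    have : u ≠ r := fun c => e (c ▸ dvd_rfl)
    ⟨this, fun a => e (adj r u hr hu this g1 g2 a)⟩
  have eq : ∀ r u, r.Prime → n + 4 < 2 * o r → n + 4 < 2 * o u → r ∣ Nat.card (G ⧸ K) →
      o u ∣ o r → o u = o r := fun r u hr g1 g2 d ⟨c, e⟩ => by
    have := hle r hr (cG ▸ d.mul_right _)
    rcases c with _ | _ | c
    · omega
    · omega
    · rw [mul_add, mul_add] at e
      omega
  have hall : ∀ M : Subgroup (G ⧸ K), M.Normal → M ≠ ⊥ →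
      ∃ r, r.Prime ∧ n + 4 < 2 * o r ∧ r ∣ Nat.card M := fun M hM h0 => by
    by_contra e
    push Not at e
    refine h0 (eq_bot_iff.2 fun x hx => ?_)
    obtain ⟨y, rfl⟩ := sj x
    refine (QuotientGroup.eq_one_iff y).2 (kmax (M.comap (QuotientGroup.mk' K)) inferInstance
      (fun r hr g d => ?_) hx)
    exact (hr.dvd_mul.1 (d.trans (QuotientGroup.card_preimage_mk K M).dvd)).elim (kg r hr g)
      (e r hr g)
  obtain ⟨r0, p0, g0, d0, -⟩ := ex 0 0
  have : Nontrivial (G ⧸ K) := Finite.one_lt_card_iff_nontrivial.1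
    (p0.one_lt.trans_le (Nat.le_of_dvd Nat.card_pos (dq r0 p0 g0 d0)))
  obtain ⟨H, hH, h0, h1⟩ := exists_min_simple (G := G ⧸ K) (fun r => n + 4 < 2 * o r)
    (fun r hr g => (cyc r hr g).of_surj sj hr) hall
  have cQ : Nat.card H * H.index = Nat.card (G ⧸ K) := H.card_mul_index
  have tp : ∀ r, r.Prime → n + 4 < 2 * o r → r ∣ Nat.card H → ∃ L : Subgroup (G ⧸ K), L.Normal ∧
      commutator (G ⧸ K) ≤ L ∧ L.index ∣ r - 1 ∧ ∀ u, u.Prime → n ≤ 2 * o u → ¬ o u ∣ o r →
        u ∣ H.index → u ∣ L.index := fun r hr g d => by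
    obtain ⟨L, l0, l1, l2, l3, l4⟩ := exists_top H hr ((cyc r hr g).of_surj sj hr) d
    refine ⟨L, l0, l2, l3, fun u hu g2 e d2 => ?_⟩
    rw [← relIndex_mul_index l1] at d2
    exact (hu.dvd_mul.1 d2).resolve_left fun c => (l4 u hu c).elim (na r u hr hu g g2 e).1
      fun a => (na r u hr hu g g2 e).2 (a.of_surj sj)
  have two : ∀ r u v, r.Prime → u.Prime → v.Prime → n + 4 < 2 * o r → n ≤ 2 * o u →
      n + 4 < 2 * o v → ¬ o u ∣ o r → ¬ o v ∣ o r → r ∣ Nat.card H → u ∣ H.index → v ∣ H.index →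
      o u ∣ o v := fun r u v hr hu hv g1 g2 g3 e1 e2 d1 d2 d3 => by
    obtain ⟨L, _, l2, -, l4⟩ := tp r hr g1 d1
    by_contra e
    exact (na v u hv hu g3 g2 e).2 ((adj_of_index L l2 hu hv (na v u hv hu g3 g2 e).1
      (l4 u hu g2 e1 d2) (l4 v hv (by omega) e2 d3)).of_surj sj)
  have tw : ∀ r u v, r.Prime → u.Prime → v.Prime → n + 4 < 2 * o r → n + 4 < 2 * o u →
      n + 4 < 2 * o v → o u ≠ o r → o v ≠ o r → r ∣ Nat.card H → u ∣ H.index → v ∣ H.index →
      o u = o v := fun r u v hr hu hv g1 g2 g3 e1 e2 d1 d2 d3 =>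
    eq v u hv g3 g2 (cQ ▸ d3.mul_left _) (two r u v hr hu hv g1 (by omega) g3
      (mt (eq r u hr g1 g2 (cQ ▸ d1.mul_right _)) e1)
      (mt (eq r v hr g1 g3 (cQ ▸ d1.mul_right _)) e2) d1 d2 d3)
  have one : ∀ r u, r.Prime → u.Prime → n + 4 < 2 * o r → n + 4 < 2 * o u → r ∣ H.index →
      u ∣ H.index → o r = o u := fun r u hr hu g1 g2 d1 d2 => by
    by_contra e
    obtain ⟨s, hs, g3, d3⟩ := hall H hH h0
    obtain ⟨t, ht, g4, d4, e1, e2⟩ := ex (o r) (o u)
    rcases ht.dvd_mul.1 (cQ ▸ dq t ht g4 d4) with d5 | d5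
    · exact e (tw t r u ht hr hu g4 g1 g2 e1.symm e2.symm d5 d1 d2)
    by_cases c1 : o r = o s
    · exact e2 (tw s t u hs ht hu g3 g4 g2 (c1 ▸ e1) (c1 ▸ Ne.symm e) d3 d5 d2)
    by_cases c2 : o u = o s
    · exact e1 (tw s t r hs ht hr g3 g4 g1 (c2 ▸ e2) c1 d3 d5 d1)
    · exact e (tw s r u hs hr hu g3 g1 g2 c1 c2 d3 d1 d2)
  have cen : centralizer (H : Set (G ⧸ K)) = ⊥ := by
    by_contra e
    obtain ⟨r, hr, g1, d1⟩ := hall _ inferInstance e
    obtain ⟨t, ht, g2, d2, e1⟩ : ∃ t, t.Prime ∧ n + 4 < 2 * o t ∧ t ∣ Nat.card H ∧ o t ≠ o r := by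
      obtain ⟨t, ht, g2, d2, e1, -⟩ := ex (o r) 0
      obtain ⟨v, hv, g3, d3, e2, e3⟩ := ex (o r) (o t)
      rcases ht.dvd_mul.1 (cQ ▸ dq t ht g2 d2) with d4 | d4
      · exact ⟨t, ht, g2, d4, e1⟩
      exact ⟨v, hv, g3, (hv.dvd_mul.1 (cQ ▸ dq v hv g3 d3)).resolve_right
        fun d5 => e3 (one v t hv ht g3 g2 d5 d4), e2⟩
    have := Fact.mk hr
    have := Fact.mk ht
    obtain ⟨x, hx⟩ := exists_prime_orderOf_dvd_card' r d1
    obtain ⟨y, hy⟩ := exists_prime_orderOf_dvd_card' t d2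
    have c := na r t hr ht g1 (by omega)
      (mt (eq r t hr g1 g2 (d1.trans (card_subgroup_dvd_card _))) e1)
    exact c.2 ((adj_of_commute (x := (y : G ⧸ K)) (y := (x : G ⧸ K)) ht hr c.1
      (by rw [orderOf_coe, hy]) (by rw [orderOf_coe, hx]) (x.2 y y.2)).of_surj sj)
  refine ⟨K, inferInstance, H, hH, h1, fun c => h0 (eq_bot_iff.2 (cen ▸ H.le_centralizer)), cen,
    kg, fun r u hr hu g1 g2 e => ?_, one, fun r u hr hu g1 g2 e d1 d2 => ?_, two⟩
  · rw [mul_assoc, cQ, mul_comm, ← cG]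
    exact free_pow K hr (kg r hr g1) hu (na r u hr hu g1 g2 e).1 (na r u hr hu g1 g2 e).2
  · obtain ⟨L, -, -, l3, l4⟩ := tp r hr g1 d1
    exact (l4 u hu g2 e d2).trans l3

end Pool.Agent.Lib.MP_7d41f7_al
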