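import Pool.Agent.Lib.MP_7d41f7_al.C.AO
import Pool.Agent.Lib.MP_7d41f7_al.C.GS

/-! The order of the section of a group with the data of a classical group. -/

set_option autoImplicit false

namespace Pool.Agent.Lib.MP_7d41f7_al

open Finset

variable {k h a n p f q : ℕ} {t : Ty}

/-- What is known about the order `h` of the section. -/
structure KData (h : ℕ) (t : Ty) (n q : ℕ) : Prop where
  q2 : 2 ≤ q
  big : 64 ≤ t.dim n
  dvd : (h : ℤ) ∣ t.ord n q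
  kept : ∃ j, Nice n j ∧ ∀ u i : ℕ, u.Prime → n ≤ 2 * Ord (t.kd.bs q) u → Ord (t.kd.bs q) u ≠ j →
    ((u ^ i : ℕ) : ℤ) ∣ t.ord n q → u ^ i ∣ h

theorem Ty.n32 (hn : 64 ≤ t.dim n) : 32 ≤ n := by
  cases t <;> simp only [Ty.dim] at hn <;> omega

/- Write `o = Ord (t.kd.bs q)`. If `u` is good use `kg`. Otherwise take `T` from `exists_T` (with
`exists_nice`). For a prime `r ∣ T`: `¬ o u ∣ o r` as `0 < o r < n ≤ 2 o u`, `o u < o r`; `r` does not
divide `c`, so the `r`-part of `T` divides that of `k h a`; `free` gives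
`T ∣ u ^ v - 1`, `v = k.factorization u`. But `u ^ v ≤ Bd n q` (`Ty.pp_le`, `Ord.not_dvd_q`) and
`Bd ≤ Bd ^ 3 < T`, so `v = 0`; `k ≠ 0` by `Ty.ord_pos`. -/
theorem SData.not_k {c u : ℕ} (S : SData k h a n (Ord (t.kd.bs q))) (hq : 2 ≤ q)
    (hn : 64 ≤ t.dim n) (hc : ((k * h * a : ℕ) : ℤ) * c = t.ord n q)
    (hc' : ∀ r, r.Prime → r ∣ c → Ord (t.kd.bs q) r ≤ 2) (hu : u.Prime)
    (g : n ≤ 2 * Ord (t.kd.bs q) u) : ¬ u ∣ k := by
  intro hk
  have n32 := Ty.n32 hn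
  have g1 : ¬ n + 4 < 2 * Ord (t.kd.bs q) u := fun e => S.kg u hu e hk
  obtain ⟨j, hj⟩ := exists_nice n32
  obtain ⟨T, h1, h2, h3⟩ := exists_T hq hn hj
  have h0 : k * h * a ≠ 0 := fun e => (t.ord_pos hq n).ne' (by rw [← hc, e]; simp)
  have k0 : k ≠ 0 := left_ne_zero_of_mul (left_ne_zero_of_mul h0)
  have h4 : 1 < u ^ k.factorization u :=
    Nat.one_lt_pow (hu.factorization_pos_of_dvd k0 hk).ne' hu.one_lt
  have h5 : u ^ k.factorization u ≤ Bd n q := Ty.pp_le (t := t) (by omega) hq hu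
    (Ord.not_dvd_q (d := t.kd) hu (by omega)) (hc ▸ (Int.natCast_dvd_natCast.2
      (((Nat.ordProj_dvd k u).mul_right h).mul_right a)).mul_right _)
  have h6 : T ∣ u ^ k.factorization u - 1 := by
    refine (Nat.dvd_iff_prime_pow_dvd_dvd _ _).2 fun r i hr hi => ?_
    rcases i with _ | i
    · simp
    obtain ⟨a1, a2, -⟩ := h3 r hr ((dvd_pow_self r i.succ_ne_zero).trans hi)
    rw [← hc, ← Nat.cast_mul, Int.natCast_dvd_natCast] at h2
    have a3 := ((hr.coprime_iff_not_dvd.2 fun d => by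
      have := hc' r hr d; omega).pow_left _).dvd_of_dvd_mul_right (hi.trans h2)
    refine (pow_dvd_pow r ((hr.pow_dvd_iff_le_factorization h0).1 a3)).trans
      ((Nat.modEq_iff_dvd' h4.le).1 (S.free r u hr hu a1 g fun ⟨m, e⟩ => ?_).symm)
    rcases m with _ | _ | m
    · omega
    · omega
    · nlinarith [Nat.zero_le (Ord (t.kd.bs q) u * m)]
  have h7 := Nat.le_of_dvd (by omega) h6
  have h8 := Nat.le_self_pow three_ne_zero (Bd n q)
  omega

theorem not_a_aux1 {x y : ℕ} (h0 : 0 < y) (h1 : y < 2 * x) (h2 : x ≠ y) : ¬ x ∣ y := by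
  rintro ⟨c, rfl⟩
  rcases c with _ | _ | c
  · simp at h0
  · simp at h2
  · nlinarith

theorem not_a_aux2 {u : ℕ} (y : ℕ) (h0 : 0 < y) (h : ∀ r, r.Prime → r ∣ y → u ∣ r - 1) :
    y ≡ 1 [MOD u] := by
  induction y using induction_on_primes with
  | zero => omega
  | one => rfl
  | prime_mul r y hr ih =>
    exact (((Nat.modEq_iff_dvd' hr.one_le).2 (h r hr (dvd_mul_right r y))).symm.mul
      (ih (Nat.pos_of_mul_pos_left h0) fun s hs e => h s hs (e.mul_left r))).trans (by rw [mul_one])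

/- A good prime `r` with `o r < n` divides `b ^ o r - 1 ∣ t.ord` (`Ord.dvd_iff`, `Ty.dvd_ord`), not
`c`, not `k`, so it divides `h` or `a`. Suppose `u ∣ a`. If no prime of class `j` divides `a`, take
`y` from `Nice.key`: each prime `r ∣ y` divides `h`, `¬ o u ∣ j` (`j < n ≤ 2 o u`, `o u ≠ j`), `top`
gives `r ≡ 1` modulo `u`, so `y ≡ 1` and `2 o u ≤ j < n`. If a prime `v` of class `j` divides `a`,
take `r` of class `n - 1` or `n - 2`, different from `o u` (`exists_ord`); `one` gives `r ∣ h`,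
`two` gives `o u ∣ j`. -/
theorem SData.not_a {c u j : ℕ} (S : SData k h a n (Ord (t.kd.bs q))) (hq : 2 ≤ q)
    (hn : 64 ≤ t.dim n) (hc : ((k * h * a : ℕ) : ℤ) * c = t.ord n q)
    (hc' : ∀ r, r.Prime → r ∣ c → Ord (t.kd.bs q) r ≤ 2) (hj : Nice n j) (hu : u.Prime)
    (g : n ≤ 2 * Ord (t.kd.bs q) u) (hne : Ord (t.kd.bs q) u ≠ j) : ¬ u ∣ a := by
  intro ua
  have n32 := Ty.n32 hn
  obtain ⟨y, y0, -, y1, y2⟩ := hj.key (b := t.kd.bs q)
  obtain ⟨-, j1, j2⟩ := hj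
  have A : ∀ r, r.Prime → n + 4 < 2 * Ord (t.kd.bs q) r → Ord (t.kd.bs q) r < n →
      r ∣ h ∨ r ∣ a := by
    intro r hr g1 g2
    have e : (r : ℤ) ∣ t.ord n q := ((Ord.dvd_iff _).2 dvd_rfl).trans
      ((dvd_prod_of_mem (fun i => t.kd.bs q ^ i - 1) (mem_Ico.2 ⟨by omega, g2⟩)).trans
        (t.dvd_ord n q))
    rw [← hc, ← Nat.cast_mul, Int.natCast_dvd_natCast, hr.dvd_mul, hr.dvd_mul, hr.dvd_mul] at e
    rcases e with ((e | e) | e) | e
    · exact absurd e (S.kg r hr g1)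
    · exact Or.inl e
    · exact Or.inr e
    · have := hc' r hr e
      omega
  have uj : ¬ Ord (t.kd.bs q) u ∣ j := not_a_aux1 (by omega) (by omega) hne
  by_cases ex : ∃ v, v.Prime ∧ Ord (t.kd.bs q) v = j ∧ v ∣ a
  · obtain ⟨v, hv, vj, va⟩ := ex
    obtain ⟨i, i1, i2, i3⟩ : ∃ i, n ≤ i + 2 ∧ i < n ∧ Ord (t.kd.bs q) u ≠ i := by
      by_cases e : Ord (t.kd.bs q) u = n - 1
      · exact ⟨n - 2, by omega, by omega, by omega⟩
      · exact ⟨n - 1, by omega, by omega, e⟩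
    obtain ⟨r, hr, ri⟩ := exists_ord (d := t.kd) hq (show 13 ≤ i by omega)
    have rh : r ∣ h := (A r hr (by omega) (by omega)).resolve_right fun e => by
      have := S.one r v hr hv (by omega) (by omega) e va
      omega
    exact uj (vj ▸ S.two r u v hr hu hv (by omega) g (by omega)
      (ri ▸ not_a_aux1 (by omega) (by omega) i3)
      (by rw [ri, vj]; exact not_a_aux1 (by omega) (by omega) (by omega)) rh ua va)
  · have := y2 u hu (not_a_aux2 y y0 fun r hr e => by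
      have rj := y1 r hr e
      exact S.top r u hr hu (by omega) g (rj ▸ uj)
        ((A r hr (by omega) (by omega)).resolve_right fun e' => ex ⟨r, hr, rj, e'⟩) ua)
    omega

theorem SData.kdata {c : ℕ} (S : SData k h a n (Ord (t.kd.bs q))) (hq : 2 ≤ q)
    (hn : 64 ≤ t.dim n) (hc : ((k * h * a : ℕ) : ℤ) * c = t.ord n q)
    (hc' : ∀ r, r.Prime → r ∣ c → Ord (t.kd.bs q) r ≤ 2) : KData h t n q := by
  obtain ⟨j, hj⟩ := exists_nice (Ty.n32 hn)
  refine ⟨hq, hn, hc ▸ (Int.natCast_dvd_natCast.2 ((dvd_mul_left h k).mul_right a)).mul_right _,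
    j, hj, fun u i hu g hne e => ?_⟩
  rw [← hc, ← Nat.cast_mul, Int.natCast_dvd_natCast] at e
  have cp : ∀ x, ¬ u ∣ x → (u ^ i).Coprime x := fun x e =>
    (hu.coprime_iff_not_dvd.2 e).pow_left i
  have := Ty.n32 hn
  exact (cp k (S.not_k hq hn hc hc' hu g)).dvd_of_dvd_mul_left
    ((cp a (S.not_a hq hn hc hc' hj hu g hne)).dvd_of_dvd_mul_right
      ((cp c fun d => by have := hc' u hu d; omega).dvd_of_dvd_mul_right e))

theorem KData.pos (K : KData h t n q) : 0 < h := Nat.pos_of_ne_zero fun e =>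
  (t.ord_pos K.q2 n).ne' (zero_dvd_iff.1 (by simpa [e] using K.dvd))

/- `exists_T` and `kept` for each prime power dividing `T`. -/
theorem KData.exT (K : KData h t n q) : ∃ T : ℕ, Bd n q ^ 3 < T ∧ T ∣ h ∧
    ∀ r, r.Prime → r ∣ T → n + 4 < 2 * Ord (t.kd.bs q) r := by
  obtain ⟨j, hj, hk⟩ := K.kept
  obtain ⟨T, h1, h2, h3⟩ := exists_T K.q2 K.big hj
  refine ⟨T, h1, (Nat.dvd_iff_prime_pow_dvd_dvd _ _).2 fun r i hr hi => ?_,
    fun r hr d => (h3 r hr d).1⟩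
  rcases i with _ | i
  · simp
  obtain ⟨a1, -, a2⟩ := h3 r hr ((dvd_pow_self r i.succ_ne_zero).trans hi)
  exact hk r _ hr (by omega) a2 ((Int.natCast_dvd_natCast.2 hi).trans h2)

/- `(2 * 8 ^ 32) ^ 3 ≤ Bd ^ 3 < T ≤ h`, and every entry of the list is below `2 ^ 180`. -/
theorem KData.not_spor (K : KData h t n q) : h ∉ sporOrd := by
  intro e
  obtain ⟨T, h1, h2, -⟩ := K.exT
  have h3 : ∀ x ∈ sporOrd, x < (2 * 8 ^ 32) ^ 3 := by decide +kernel
  have h4 : 2 * 8 ^ 32 ≤ Bd n q := Nat.mul_le_mul_left 2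
    ((Nat.pow_le_pow_right (by norm_num) (Ty.n32 K.big)).trans
      (Nat.pow_le_pow_left (by nlinarith [K.q2]) n))
  exact absurd ((h3 h e).trans_le (Nat.pow_le_pow_left h4 3))
    (h1.trans_le (Nat.le_of_dvd K.pos h2)).not_gt

theorem not_alt_aux1 {v m : ℕ} (hv : v.Prime) (h : v * (v * a) ≤ m) :
    v ^ (a + v * a) ∣ m.factorial :=
  ((hv.pow_dvd_iff_le_factorization (Nat.factorial_ne_zero _)).2 (by
    rw [Nat.factorization_factorial_mul hv, Nat.factorization_factorial_mul hv]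
    omega)).trans (Nat.factorial_dvd_factorial h)

/- `T` from `exT` divides `m !` and its primes exceed `m / 2`, so they occur once
(`Nat.Prime.pow_dvd_factorial_iff` or `Nat.factorization_factorial`; they are odd by `Ord.ne_two`)
and `T ∣ primorial m`, `T ≤ 4 ^ m` (`primorial_le_4_pow`); hence `146 ≤ m` as `2 ^ 291 ≤ Bd ^ 3`.
Take `v ∈ {2, 3}`, `v ≠ p`: `2 ^ (m / 2 + m / 4 - 1) ∣ h`, `3 ^ (m / 3 + m / 9) ∣ h`, these are at
most `Bd` (`Ty.pp_le`), and their cubes are at least `4 ^ m` (`27 ^ 4 ≥ 2 ^ 19`). -/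
theorem KData.not_alt {m : ℕ} (hp : p.Prime) (K : KData h t n (p ^ f)) (hh : 2 * h = m.factorial)
    (hm : ∀ r, r.Prime → n + 4 < 2 * Ord (t.kd.bs (p ^ f)) r → r ∣ h → m < 2 * r) : False := by
  obtain ⟨T, T1, T2, T3⟩ := K.exT
  have n32 := Ty.n32 K.big
  have d : T ∣ m.factorial := hh ▸ T2.mul_left 2
  have sq : Squarefree T := Nat.squarefree_iff_prime_squarefree.2 fun r hr e => by
    have a1 := (dvd_mul_right r r).trans e
    have a2 := hm r hr (T3 r hr a1) (a1.trans T2)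
    have a3 := (hr.pow_dvd_iff_le_factorization (Nat.factorial_ne_zero m)).1
      (pow_two r ▸ e.trans d)
    rw [Nat.factorization_factorial hr (Nat.log_lt_of_lt_pow' two_ne_zero (a2.trans_le
      (pow_two r ▸ Nat.mul_le_mul_right r hr.two_le))), Nat.Ico_succ_singleton, sum_singleton,
      pow_one, Nat.le_div_iff_mul_le hr.pos] at a3
    omega
  have b1 : Bd n (p ^ f) ^ 3 < 2 ^ (2 * m) := by
    rw [pow_mul]
    refine T1.trans_le ((Nat.le_of_dvd (primorial_pos m) ?_).trans (primorial_le_four_pow m))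
    rw [← Nat.prod_primeFactors_of_squarefree sq]
    refine prod_dvd_prod_of_subset _ _ _ fun r hr => ?_
    have := Nat.prime_of_mem_primeFactors hr
    exact mem_filter.2 ⟨mem_range_succ_iff.2
      (this.dvd_factorial.1 ((Nat.dvd_of_mem_primeFactors hr).trans d)), this⟩
  have b2 : 2 * (2 * 2 ^ 2) ^ 32 ≤ Bd n (p ^ f) := Nat.mul_le_mul_left 2
    ((Nat.pow_le_pow_right (by norm_num) n32).trans
      (Nat.pow_le_pow_left (Nat.mul_le_mul_left 2 (Nat.pow_le_pow_left K.q2 2)) n))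
  have b3 : 291 < 2 * m := (Nat.pow_lt_pow_iff_right one_lt_two).1
    (lt_of_le_of_lt (le_trans (by decide +kernel) (Nat.pow_le_pow_left b2 3)) b1)
  have b4 : ∀ v k, v.Prime → v ≠ p → v ^ k ∣ h → (v ^ k) ^ 3 < 2 ^ (2 * m) := fun v k hv hn e =>
    (Nat.pow_le_pow_left (Ty.pp_le (by omega) K.q2 hv (fun e => hn
      ((Nat.prime_dvd_prime_iff_eq hv hp).1 (hv.dvd_of_dvd_pow e)))
        ((Int.natCast_dvd_natCast.2 e).trans K.dvd)) 3).trans_lt b1
  by_cases e : 2 = p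
  · have c := b4 3 _ Nat.prime_three (by omega) (Nat.Coprime.dvd_of_dvd_mul_left
      (Nat.Coprime.pow_left _ (by norm_num)) (hh ▸ not_alt_aux1 (a := m / 9) Nat.prime_three
        (by omega)))
    rw [← pow_mul, show (m / 9 + 3 * (m / 9)) * 3 = 12 * (m / 9) by ring, pow_mul] at c
    have := (Nat.pow_le_pow_left (show 2 ^ 19 ≤ 3 ^ 12 by norm_num) _).trans_lt c
    rw [← pow_mul, Nat.pow_lt_pow_iff_right one_lt_two] at this
    omega
  · have c := not_alt_aux1 (a := m / 4) (m := m) Nat.prime_two (by omega)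
    rw [← hh, show m / 4 + 2 * (m / 4) = 3 * (m / 4) - 1 + 1 by omega, pow_succ',
      Nat.mul_dvd_mul_iff_left two_pos] at c
    have := b4 2 _ Nat.prime_two e c
    rw [← pow_mul, Nat.pow_lt_pow_iff_right one_lt_two] at this
    omega

/-- Half of the largest exponent of the order formula. -/
def Ty.top : Ty → ℕ → ℕ
  | .U, n => if n % 2 = 1 then n else n - 1
  | .Dp, n => n - 1
  | _, n => n

/-- Half of the distance to the next exponent. -/
def Ty.gap : Ty → ℕ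
  | .U => 2
  | _ => 1

/-- The number of positive roots. -/
def Ty.pos : Ty → ℕ → ℕ
  | .U, n => n * (n - 1) / 2
  | .C, n => n * n
  | .B, n => n * n
  | _, n => n * (n - 1)

theorem Ty.dvd_top_aux {r i : ℕ} (hq : 1 ≤ q) : r ∣ q ^ i - 1 ↔ (r : ℤ) ∣ (q : ℤ) ^ i - 1 := by
  rw [← Int.natCast_dvd_natCast, Nat.cast_sub (Nat.one_le_pow _ _ hq), Nat.cast_pow, Nat.cast_one]

theorem Ty.dvd_top_aux2 (x : ℤ) (i : ℕ) : x ^ (2 * i) - 1 = (x ^ i + 1) * (x ^ i - 1) := by ring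

theorem Ty.dvd_top {r : ℕ} (hn : 3 ≤ n) (hr : r.Prime) (h2 : r ≠ 2) (hq : ¬ r ∣ q)
    (h : (r : ℤ) ∣ t.ord n q) : ∃ i, 0 < i ∧ i ≤ 2 * t.top n ∧ r ∣ q ^ i - 1 := by
  have q1 : 1 ≤ q := Nat.pos_of_ne_zero fun e => hq (e ▸ dvd_zero r)
  have pr := Nat.prime_iff_prime_int.1 hr
  have n2 : ¬ (r : ℤ) ∣ 2 := fun e =>
    h2 ((Nat.prime_dvd_prime_iff_eq hr Nat.prime_two).1 (Int.natCast_dvd_natCast.1 e))
  have nq : ∀ e, ¬ (r : ℤ) ∣ (q : ℤ) ^ e := fun e d =>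
    hq (Int.natCast_dvd_natCast.1 (pr.dvd_of_dvd_pow d))
  have w : ∀ m, (r : ℤ) ∣ ∏ i ∈ Icc 1 m, ((q : ℤ) ^ (2 * i) - 1) →
      ∃ i, 0 < i ∧ i ≤ 2 * m ∧ (r : ℤ) ∣ (q : ℤ) ^ i - 1 := fun m d => by
    obtain ⟨i, h3, h4⟩ := pr.exists_mem_finset_dvd d
    rw [mem_Icc] at h3
    exact ⟨2 * i, by omega, by omega, h4⟩
  simp only [Ty.dvd_top_aux q1]
  cases t <;> simp only [Ty.ord, Ty.top, if_neg (show n ≠ 0 by omega), pr.dvd_mul, n2, nq,
    false_or] at h ⊢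
  · obtain ⟨i, h3, h4⟩ := pr.exists_mem_finset_dvd h
    rw [mem_Icc] at h3
    rcases i.even_or_odd with e | e
    · exact ⟨i, by omega, by split_ifs <;> omega, by rwa [e.neg_one_pow] at h4⟩
    · rw [e.neg_one_pow, sub_neg_eq_add] at h4
      have := Nat.odd_iff.1 e
      exact ⟨2 * i, by omega, by split_ifs <;> omega, Ty.dvd_top_aux2 _ i ▸ h4.mul_right _⟩
  · exact w n h
  · exact w n h
  · exact h.elim (fun h => ⟨n, by omega, by omega, h⟩) (w _)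
  · exact h.elim (fun h => ⟨2 * n, by omega, le_rfl, Ty.dvd_top_aux2 _ n ▸ h.mul_right _⟩)
      fun h => (w _ h).imp fun i e => ⟨e.1, by omega, e.2.2⟩

theorem KData.top_dvd (K : KData h t n q) {i r : ℕ} (hi : i = t.top n ∨ i + t.gap = t.top n)
    (hr : Prim q (2 * i) r) : r ∣ h := by
  obtain ⟨j, ⟨⟨a, a2, ja⟩, -, j3⟩, hk⟩ := K.kept
  have n32 := Ty.n32 K.big
  have q1 : 1 ≤ q := one_le_two.trans K.q2
  have je : j % 2 = 0 := by
    have := dvd_pow_self 2 (show a ≠ 0 by omega)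
    omega
  have hb : n ≤ i + 3 ∧ i ≤ n ∧ i ≠ j ∧ (t = .U → i % 2 = 1) ∧ (t = .Dp → i < n) := by
    cases t <;> simp only [Ty.top, Ty.gap, reduceCtorEq, false_imp_iff, true_imp_iff, and_true,
      true_and] at hi ⊢ <;> (try split_ifs at hi) <;> omega
  obtain ⟨b1, b2, b3, b4, b5⟩ := hb
  have ho : Ord (t.kd.bs q) r = i := by
    have e := hr.ord_sq q1 (by omega)
    rw [Nat.gcd_mul_right_left, Nat.mul_div_cancel_left _ two_pos] at e
    cases t
    · exact hr.ord_neg q1 (Nat.odd_iff.2 (b4 rfl))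
    all_goals exact e
  have d1 := (Ty.dvd_top_aux q1).1 hr.dvd
  have d2 : (r : ℤ) ∣ (q : ℤ) ^ i + 1 :=
    ((Nat.prime_iff_prime_int.1 hr.pr).dvd_or_dvd (Ty.dvd_top_aux2 _ i ▸ d1)).resolve_right
      fun e => hr.min i (by omega) (by omega) ((Ty.dvd_top_aux q1).2 e)
  rw [← pow_one r]
  refine hk r 1 hr.pr (by omega) (by omega) ?_
  rw [pow_one]
  rcases b2.lt_or_eq with e | rfl
  · exact (((Ord.dvd_iff i).2 ho.dvd).trans
      (dvd_prod_of_mem (fun i => t.kd.bs q ^ i - 1)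
      (a := i) (mem_Ico.2 ⟨by omega, e⟩))).trans (t.dvd_ord n q)
  have m : i ∈ Icc 1 i := mem_Icc.2 ⟨by omega, le_rfl⟩
  cases t
  · rw [← sub_neg_eq_add, ← (Nat.odd_iff.2 (b4 rfl)).neg_one_pow] at d2
    exact (d2.trans (dvd_prod_of_mem (fun i => (q : ℤ) ^ i - (-1) ^ i) m)).mul_left _
  · exact (d1.trans (dvd_prod_of_mem (fun i => (q : ℤ) ^ (2 * i) - 1) m)).mul_left _
  · exact ((d1.trans (dvd_prod_of_mem (fun i => (q : ℤ) ^ (2 * i) - 1) m)).mul_left _).mul_left _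
  · exact absurd (b5 rfl) (lt_irrefl _)
  · exact ((d2.mul_left _).mul_right _).mul_left _

theorem Ty.ppart_aux (hp : p.Prime) {i e : ℕ} {W : ℤ} (hW : ¬ (p : ℤ) ∣ W)
    (h : ((p ^ i : ℕ) : ℤ) ∣ 2 * (((p ^ f : ℕ) : ℤ) ^ e * W)) : i ≤ f * e + 1 := by
  rw [← mul_assoc, Nat.cast_pow] at h
  have h1 : p ^ i ∣ 2 * (p ^ f) ^ e := by
    exact_mod_cast (Nat.prime_iff_prime_int.1 hp).pow_dvd_of_dvd_mul_right i hW h
  refine (Nat.pow_le_pow_iff_right hp.one_lt).1 ((Nat.le_of_dvd (by have := hp.pos; positivity)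
    h1).trans ?_)
  rw [pow_succ', pow_mul]
  exact Nat.mul_le_mul_right _ hp.two_le

theorem Ty.ppart (hp : p.Prime) (hf : 0 < f) (hn : 2 ≤ n) {i : ℕ}
    (h : ((p ^ i : ℕ) : ℤ) ∣ t.ord n (p ^ f : ℕ)) : i ≤ f * t.pos n + 1 := by
  have pr := Nat.prime_iff_prime_int.1 hp
  have w : ∀ (k : ℕ) (ε : ℤ), 0 < k → IsUnit ε → ¬ (p : ℤ) ∣ ((p ^ f : ℕ) : ℤ) ^ k - ε :=
    fun k ε hk hε d => pr.not_isUnit (isUnit_of_dvd_unit ((dvd_sub_right (dvd_pow
      (Int.natCast_dvd_natCast.2 (dvd_pow_self p hf.ne')) hk.ne')).1 d) hε)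
  have w' : ∀ m, ¬ (p : ℤ) ∣ ∏ i ∈ Icc 1 m, (((p ^ f : ℕ) : ℤ) ^ (2 * i) - 1) := fun m =>
    pr.not_dvd_finsetProd fun i hi => w _ _ (by have := (mem_Icc.1 hi).1; omega) isUnit_one
  cases t <;> simp only [Ty.ord, Ty.pos, if_neg (show n ≠ 0 by omega),
    mul_assoc _ _ (∏ _ ∈ _, _)] at h ⊢
  · exact Ty.ppart_aux hp (pr.not_dvd_finsetProd fun i hi =>
      w _ _ (mem_Icc.1 hi).1 (isUnit_one.neg.pow i)) (h.mul_left _)
  · exact Ty.ppart_aux hp (w' n) (h.mul_left _)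
  · exact Ty.ppart_aux hp (w' n) h
  · exact Ty.ppart_aux hp (pr.not_dvd_mul (w n 1 (by omega) isUnit_one) (w' _)) h
  · exact Ty.ppart_aux hp (pr.not_dvd_mul (sub_neg_eq_add (_ : ℤ) 1 ▸
      w n (-1) (by omega) isUnit_one.neg) (w' _)) h

theorem Ty.top_ge (t : Ty) (hn : 32 ≤ n) : 31 ≤ t.top n ∧ t.gap ≤ 2 ∧
    ∀ s, t.top n = s + t.gap → t.gap.Coprime s := by
  cases t <;> simp only [Ty.top, Ty.gap, Nat.coprime_one_left_eq_true, implies_true, and_true,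
    Nat.coprime_two_left, Nat.odd_iff]
  · refine ⟨?_, le_rfl, fun s => ?_⟩ <;> split_ifs <;> omega
  all_goals omega

theorem KData.same (hp : p.Prime) (hf : 0 < f) (K : KData h t n (p ^ f)) {v g N D : ℕ}
    {I : Finset ℕ} (L : LT h v g N D I) : v = p ∧ ∃ τ, 0 < τ ∧ g * τ = 2 * f ∧ D = τ * t.top n ∧
      τ * (t.top n - t.gap) ∈ I ∧ 2 * N ≤ τ * t.pos n + 2 := by
  have n32 := Ty.n32 K.big
  obtain ⟨T, t1, t2, -⟩ := K.exT
  obtain rfl : v = p := by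
    by_contra e
    have a := Ty.pp_le (t := t) (k := g * N) (by omega : 0 < n) K.q2 L.pv (fun c => e
      ((Nat.prime_dvd_prime_iff_eq L.pv hp).1 (L.pv.dvd_of_dvd_pow c)))
      ((Int.natCast_dvd_natCast.2 (pow_mul v g N ▸ L.pp)).trans K.dvd)
    rw [pow_mul] at a
    exact (t1.trans_le (Nat.le_of_dvd K.pos t2)).not_ge (L.le.trans (Nat.pow_le_pow_left a 3))
  obtain ⟨g1, g2, g3⟩ := t.top_ge n32
  obtain ⟨s, hs⟩ : ∃ s, t.top n = s + t.gap := ⟨t.top n - t.gap, by omega⟩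
  have k : ∀ i, i = t.top n ∨ i + t.gap = t.top n → ∃ j ∈ I, f * (2 * i) ∣ g * j := fun i hi => by
    have a := Nat.le_mul_of_pos_left (2 * i) hf
    obtain ⟨r, hr⟩ := zsig hp.two_le (by omega : 3 ≤ f * (2 * i)) (by omega)
    rcases L.div r hr.pr (K.top_dvd hi (hr.pow hp.pos hf (by omega))) with rfl | ⟨j, hj, e⟩
    · exact absurd dvd_rfl (hr.not_dvd hp.pos (by omega))
    · exact ⟨j, hj, (hr.dvd_iff hp.pos (by omega) _).1 (by rwa [pow_mul])⟩
  have le : ∀ j ∈ I, 0 < g * j ∧ g * j ≤ g * D := fun j hj =>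
    ⟨Nat.mul_pos L.g0 (L.bd j hj).1, Nat.mul_le_mul_left _ (L.bd j hj).2⟩
  have e1 : g * D = f * (2 * t.top n) := by
    obtain ⟨j, hj, e⟩ := k _ (.inl rfl)
    refine le_antisymm (not_lt.1 fun c => ?_) ((Nat.le_of_dvd (le j hj).1 e).trans (le j hj).2)
    have a := Nat.le_mul_of_pos_left (2 * t.top n) hf
    obtain ⟨r, hr⟩ := zsig hp.two_le (by omega : 3 ≤ g * D) (by omega)
    have o := hr.ord_eq hp.pos (by omega)
    obtain ⟨i, i0, i1, e⟩ := Ty.dvd_top (t := t) (q := v ^ f) (by omega : 3 ≤ n) hr.pr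
      (Ord.ne_two (b := v) (by omega)) (fun c => hr.not_dvd hp.pos (by omega)
        (hr.pr.dvd_of_dvd_pow c)) ((Int.natCast_dvd_natCast.2
          (L.all D L.mem (.inr rfl) (by omega) r hr)).trans K.dvd)
    exact c.not_ge ((Nat.le_of_dvd (Nat.mul_pos hf i0) ((hr.dvd_iff hp.pos (by omega) _).1
      (by rwa [pow_mul]))).trans (Nat.mul_le_mul_left _ i1))
  obtain ⟨j, hj, c, e2⟩ := k s (.inr hs.symm)
  obtain rfl : c = 1 := by
    have a := le j hj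
    rw [e1, e2] at a
    rcases c with _ | _ | c
    · simp at a
    · rfl
    have := Nat.le_of_mul_le_mul_left ((mul_assoc f _ _).symm.trans_le a.2) hf
    rw [mul_add, mul_add] at this
    omega
  have e3 : D * s = j * t.top n := Nat.eq_of_mul_eq_mul_left L.g0 (by
    rw [← mul_assoc, ← mul_assoc, e1, e2]
    ring)
  have cp : (t.top n).Coprime s := by
    rw [hs, Nat.coprime_self_add_left]
    exact g3 s hs
  obtain ⟨τ, rfl⟩ := cp.dvd_of_dvd_mul_right (Dvd.intro_left _ e3.symm)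
  have e4 : g * τ = 2 * f := Nat.eq_of_mul_eq_mul_right (by omega : 0 < t.top n) (by
    rw [mul_assoc, mul_comm τ, e1]
    ring)
  have e5 : j = τ * s := Nat.eq_of_mul_eq_mul_right (by omega : 0 < t.top n) (by
    rw [← e3]
    ring)
  refine ⟨rfl, τ, Nat.pos_of_ne_zero (by rintro rfl; omega), e4, mul_comm _ _,
    by rwa [hs, Nat.add_sub_cancel, ← e5], Nat.le_of_mul_le_mul_left ?_ L.g0⟩
  have := Ty.ppart (t := t) hp hf (by omega : 2 ≤ n)
    ((Int.natCast_dvd_natCast.2 (pow_mul v g N ▸ L.pp)).trans K.dvd)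
  have a := L.g0
  rw [mul_add, ← mul_assoc g τ, e4]
  nlinarith

theorem KData.not_low (K : KData h t n q) (ht : t = .B ∨ t = .C ∨ t = .Dp) {e : ℕ}
    (hh : (h : ℤ) ∣ 2 * q ^ e * (q ^ n + 1) * ∏ i ∈ Icc 1 (n - 1), ((q : ℤ) ^ (2 * i) - 1)) :
    False := by
  have hn := Ty.n32 K.big
  have hq := K.q2
  obtain ⟨u, hu⟩ := zsig (m := n) hq (by omega) (by omega)
  obtain ⟨j, hj, hk⟩ := K.kept
  have hb : t.kd.bs q = (q : ℤ) ^ 2 := by rcases ht with rfl | rfl | rfl <;> rfl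
  have ho := hu.ord_sq (by omega) (by omega)
  have hg : Nat.gcd n 2 = 1 ∨ Nat.gcd n 2 = 2 ∧ 2 ∣ n := by
    rcases (Nat.dvd_prime Nat.prime_two).1 (Nat.gcd_dvd_right n 2) with e | e
    · exact Or.inl e
    · exact Or.inr ⟨e, e ▸ Nat.gcd_dvd_left n 2⟩
  have ho' : n ≤ 2 * Ord ((q : ℤ) ^ 2) u ∧ Ord ((q : ℤ) ^ 2) u ≠ j ∧ 1 < Ord ((q : ℤ) ^ 2) u := by
    obtain ⟨-, h1, h2⟩ := hj
    rcases hg with e | ⟨e, e2⟩ <;> rw [e] at ho <;> omega
  have hup : Prime (u : ℤ) := Nat.prime_iff_prime_int.1 hu.pr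
  obtain ⟨W, hW⟩ : ∃ W, W = ∏ i ∈ Icc 1 (n - 1), ((q : ℤ) ^ (2 * i) - 1) := ⟨_, rfl⟩
  have hW0 : W ≠ 0 := by
    rw [hW, prod_ne_zero_iff]
    intro i hi
    have : (1 : ℤ) < q ^ (2 * i) :=
      one_lt_pow₀ (by exact_mod_cast hq) (by have := (mem_Icc.1 hi).1; omega)
    omega
  obtain ⟨W', h1, h2⟩ := (Int.finiteMultiplicity_iff.2
    ⟨by simpa using hu.pr.ne_one, hW0⟩ : FiniteMultiplicity (u : ℤ) W).exists_eq_pow_mul_and_not_dvd
  generalize multiplicity (u : ℤ) W = i at h1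
  have hd : (u : ℤ) ∣ (q : ℤ) ^ n - 1 := by
    have := Int.natCast_dvd_natCast.2 hu.dvd
    rwa [Nat.cast_sub (Nat.one_le_pow _ _ (by omega)), Nat.cast_pow, Nat.cast_one] at this
  have h3 : ((q : ℤ) ^ n - 1) * W ∣ t.ord n q := by
    have e : ∏ i ∈ Icc 1 n, ((q : ℤ) ^ (2 * i) - 1) = (q ^ n - 1) * W * (q ^ n + 1) := by
      obtain ⟨m, rfl⟩ : ∃ m, n = m + 1 := ⟨n - 1, by omega⟩
      rw [prod_Icc_succ_top (by omega), hW, Nat.add_sub_cancel]
      ring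
    rcases ht with rfl | rfl | rfl
    · simp only [Ty.ord, e]
      exact ((dvd_mul_right _ _).mul_left _).mul_left _
    · simp only [Ty.ord, e]
      exact (dvd_mul_right _ _).mul_left _
    · simp only [Ty.ord, if_neg (show n ≠ 0 by omega), ← hW, mul_assoc]
      exact (dvd_mul_left _ _).mul_left _
  have h4 : u ^ (i + 1) ∣ h := by
    refine hk u (i + 1) hu.pr (hb ▸ ho'.1) (hb ▸ ho'.2.1) (dvd_trans ?_ h3)
    rw [h1, Nat.cast_pow, pow_succ']
    exact mul_dvd_mul hd (dvd_mul_right _ _)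
  have h5 : (u : ℤ) ∣ 2 * q ^ e * (q ^ n + 1) * W' := by
    have := (Int.natCast_dvd_natCast.2 h4).trans hh
    rw [← hW, h1, Nat.cast_pow, pow_succ, mul_left_comm] at this
    exact (mul_dvd_mul_iff_left (pow_ne_zero _ hup.ne_zero)).1 this
  have h6 : ¬ (u : ℤ) ∣ 2 := fun d => Ord.ne_two ho'.2.2
    ((Nat.prime_dvd_prime_iff_eq hu.pr Nat.prime_two).1 (Int.natCast_dvd_natCast.1 d))
  rcases hup.dvd_or_dvd h5 with d | d
  · rcases hup.dvd_or_dvd d with d | d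
    · rcases hup.dvd_or_dvd d with d | d
      · exact h6 d
      · exact hu.not_dvd (by omega) (by omega)
          (Int.natCast_dvd_natCast.1 (hup.dvd_of_dvd_pow d))
    · have := dvd_sub d hd
      rw [show (q : ℤ) ^ n + 1 - (q ^ n - 1) = 2 by ring] at this
      exact h6 this
  · exact h2 d

theorem KData.lin_aux1 {τ a b c : ℕ} (h0 : 0 < τ) (h : 2 * (τ * a * (τ * a - 1) / 2) ≤ τ * b + 2)
    (hc : c ≤ τ) (hb : b + 3 + a ≤ c * a * a) : False := by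
  rw [Nat.two_mul_div_two_of_even (Nat.even_mul_pred_self _)] at h
  have h1 : c * a ≤ τ * a := Nat.mul_le_mul_right _ hc
  have ha : 0 < a := by
    rcases Nat.eq_zero_or_pos a with rfl | ha
    · omega
    · exact ha
  obtain ⟨x, hx⟩ : ∃ x, τ * a = x + 1 := ⟨τ * a - 1, by have := Nat.mul_pos h0 ha; omega⟩
  have h2 : τ * a * (τ * a - 1) + τ * a = τ * (τ * a * a) := by
    rw [show τ * (τ * a * a) = (τ * a) * (τ * a) by ring, hx, Nat.add_sub_cancel]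
    ring
  have h3 : τ * (b + 3 + a) ≤ τ * (τ * a * a) :=
    Nat.mul_le_mul_left _ (hb.trans (Nat.mul_le_mul_right _ h1))
  have h4 : τ * (b + 3 + a) = τ * b + 3 * τ + τ * a := by ring
  omega

theorem KData.lin_aux2 (hq : 2 ≤ q) (m : ℕ) : (ordSL m (q ^ 2) : ℤ) =
    q ^ (m * (m - 1)) * ∏ i ∈ Icc 2 m, ((q : ℤ) ^ (2 * i) - 1) := by
  rw [ordSL, ← pow_mul, Nat.two_mul_div_two_of_even (Nat.even_mul_pred_self _), Nat.cast_mul,
    Nat.cast_prod, Nat.cast_pow]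
  congr 1
  refine prod_congr rfl fun i _ => ?_
  rw [Nat.cast_sub (Nat.one_le_pow _ _ (by positivity)), ← pow_mul, Nat.cast_pow, Nat.cast_one]

theorem KData.lin (hp : p.Prime) (hf : 0 < f) (K : KData h t n (p ^ f)) {m u : ℕ}
    (hu : IsPrimePow u) (hm : 2 ≤ m) (hh : h * Nat.gcd m (u - 1) = ordSL m u) :
    (t = .B ∨ t = .C) ∧ m = n ∧ u = (p ^ f) ^ 2 := by
  obtain ⟨v, g, hv, hg, rfl⟩ := (isPrimePow_nat_iff u).1 hu
  obtain ⟨rfl, τ, h0, h1, h2, -, h4⟩ := K.same hp hf (lt_A hv hg hm hh)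
  have hn := Ty.n32 K.big
  have hq := K.q2
  have hb := K.big
  rw [h2] at h4
  obtain ⟨k, rfl⟩ : ∃ k, n = k + 1 := ⟨n - 1, by omega⟩
  have hU : t ≠ .U := by
    rintro rfl
    refine KData.lin_aux1 (c := 1) h0 h4 h0 ?_
    have e := Nat.two_mul_div_two_of_even (Nat.even_mul_pred_self (k + 1))
    simp only [Ty.pos, Ty.top, Ty.dim, Nat.add_sub_cancel] at e hb ⊢
    split_ifs <;> nlinarith
  have hτ : τ = 1 := by
    by_contra hne
    refine KData.lin_aux1 (c := 2) h0 h4 (by omega) ?_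
    cases t <;> simp only [Ty.pos, Ty.top, Nat.add_sub_cancel, ne_eq, not_true_eq_false] at hU ⊢ <;>
      nlinarith
  subst hτ
  rw [mul_one] at h1
  rw [one_mul] at h2
  have e : v ^ g = (v ^ f) ^ 2 := by rw [h1, ← pow_mul, mul_comm]
  rw [e] at hh ⊢
  generalize v ^ f = q at *
  have hz := congrArg (Nat.cast : ℕ → ℤ) hh
  rw [Nat.cast_mul, KData.lin_aux2 hq] at hz
  have e1 : ∏ i ∈ Icc 1 k, ((q : ℤ) ^ (2 * i) - 1) =
      (q ^ 2 - 1) * ∏ i ∈ Icc 2 k, ((q : ℤ) ^ (2 * i) - 1) := by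
    rw [← Finset.insert_Icc_succ_left_eq_Icc (show 1 ≤ k by omega), prod_insert (by simp)]
    rfl
  cases t with
  | U => exact absurd rfl hU
  | C => exact ⟨Or.inr rfl, h2, rfl⟩
  | B => exact ⟨Or.inl rfl, h2, rfl⟩
  | Dp =>
    exfalso
    refine K.not_low (Or.inr (Or.inr rfl)) (e := m * (m - 1)) ((Dvd.intro _ hz).trans ?_)
    have : m = k := h2
    rw [Nat.add_sub_cancel, e1, this]
    exact Dvd.intro_left (2 * (q ^ (k + 1) + 1) * (q ^ 2 - 1)) (by ring)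
  | Dm =>
    exfalso
    have : m = k + 1 := h2
    subst this
    have hd := mul_dvd_mul_right K.dvd (Nat.gcd (k + 1) (q ^ 2 - 1) : ℕ)
    have hq' : (2 : ℤ) ≤ q := by exact_mod_cast hq
    have hP : 0 < ∏ i ∈ Icc 2 k, ((q : ℤ) ^ (2 * i) - 1) := prod_pos fun i hi => by
      have : (1 : ℤ) < q ^ (2 * i) :=
        one_lt_pow₀ (by omega) (by have := (mem_Icc.1 hi).1; omega)
      omega
    have hle : ((Nat.gcd (k + 1) (q ^ 2 - 1) : ℕ) : ℤ) ≤ q ^ 2 := by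
      have : 0 < q ^ 2 - 1 := by have := Nat.one_lt_pow two_ne_zero (show 1 < q by omega); omega
      exact_mod_cast (Nat.gcd_le_right _ this).trans (Nat.sub_le _ _)
    have hpos : (0 : ℤ) < (Nat.gcd (k + 1) (q ^ 2 - 1) : ℕ) := by
      exact_mod_cast Nat.gcd_pos_of_pos_left _ k.succ_pos
    rw [hz] at hd
    generalize ((Nat.gcd (k + 1) (q ^ 2 - 1) : ℕ) : ℤ) = d at *
    simp only [Ty.ord, Nat.add_sub_cancel] at hd
    rw [e1, prod_Icc_succ_top (by omega)] at hd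
    generalize ∏ i ∈ Icc 2 k, ((q : ℤ) ^ (2 * i) - 1) = P at *
    have h5 : ((q : ℤ) ^ ((k + 1) * k) * P * (q ^ (k + 1) + 1)) * (q ^ (k + 1) - 1) ∣
        ((q : ℤ) ^ ((k + 1) * k) * P * (q ^ (k + 1) + 1)) * (2 * (q ^ 2 - 1) * d) := by
      refine (dvd_of_eq ?_).trans (hd.trans (dvd_of_eq ?_)) <;> ring
    have h6 := Int.le_of_dvd (mul_pos (by nlinarith) hpos)
      ((mul_dvd_mul_iff_left (by positivity)).1 h5)
    have h7 : (q : ℤ) ^ 6 ≤ q ^ (k + 1) := pow_le_pow_right₀ (by omega) (by omega)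
    have h8 : (4 : ℤ) ≤ q ^ 2 := by nlinarith
    have h9 : (q : ℤ) ^ 6 = q ^ 2 * q ^ 2 * q ^ 2 := by ring
    generalize (q : ℤ) ^ 2 = y at *
    nlinarith [mul_le_mul_of_nonneg_left hle (show 0 ≤ y - 1 by omega),
      mul_le_mul_of_nonneg_left h8 (show 0 ≤ y * y by positivity)]

theorem KData.uni (hp : p.Prime) (hf : 0 < f) (K : KData h t n (p ^ f)) {m u : ℕ}
    (hu : IsPrimePow u) (hm : 3 ≤ m) (hh : OrdU m u h) : t = .U ∧ m = n ∧ u = p ^ f := by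
  have n32 := Ty.n32 K.big
  obtain ⟨v, g, hv, hg, rfl⟩ := (isPrimePow_nat_iff u).1 hu
  obtain ⟨rfl, τ, t0, e1, e2, e3, e4⟩ := K.same hp hf (lt_2A hv hg hm hh)
  obtain ⟨g1, g2, -⟩ := t.top_ge n32
  obtain ⟨s, hs⟩ : ∃ s, t.top n = s + t.gap := ⟨t.top n - t.gap, by omega⟩
  rw [hs, Nat.add_sub_cancel] at e3
  obtain ⟨i, hi, e3⟩ := mem_image.1 e3
  have hi := mem_Icc.1 hi
  have a1 : τ * t.top n = τ * s + τ * t.gap := by rw [hs, mul_add]
  have a2 : τ * t.gap + τ ≤ τ * 3 := by nlinarith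
  have a3 : τ * 29 ≤ τ * s := Nat.mul_le_mul_left _ (by omega)
  have a4 : τ * t.gap % 4 = 0 ∧ τ * t.top n % 4 = 2 ∧ τ * t.top n ≤ 2 * m ∧
      2 * m ≤ τ * t.top n + 2 := by
    split_ifs at e2 e3 <;> omega
  rw [Nat.mul_div_cancel' (Nat.even_mul_pred_self m).two_dvd] at e4
  obtain rfl : t = .U := by
    by_contra c
    have : t.gap = 1 := by cases t <;> first | rfl | exact absurd rfl c
    rw [this, mul_one] at a4
    have := (Nat.dvd_of_mod_eq_zero a4.1).mul_right (t.top n)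
    omega
  simp only [Ty.gap, Ty.pos] at a4 e4
  obtain ⟨σ, rfl⟩ : 2 ∣ τ := by omega
  rw [mul_right_comm, Nat.mul_div_cancel' (Nat.even_mul_pred_self n).two_dvd] at e4
  have a5 : Ty.top .U n ≤ n ∧ n ≤ Ty.top .U n + 1 ∧ Ty.top .U n % 2 = 1 := by
    simp only [Ty.top]
    split_ifs <;> omega
  generalize Ty.top .U n = x at *
  obtain ⟨m, rfl⟩ : ∃ k, m = k + 1 := ⟨m - 1, by omega⟩
  obtain ⟨n, rfl⟩ : ∃ k, n = k + 1 := ⟨n - 1, by omega⟩
  rw [Nat.add_sub_cancel, Nat.add_sub_cancel] at e4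
  obtain rfl : σ = 1 := by
    by_contra c
    have b1 : 2 * x ≤ σ * x := Nat.mul_le_mul_right _ (by omega)
    have b2 : σ * x ≤ m + 1 := by nlinarith [a4.2.2.1]
    have b3 : (n + 1) * n * σ ≤ (x + 1) * (x * σ) := by
      rw [← mul_assoc]
      gcongr <;> omega
    nlinarith
  obtain rfl : g = f := by omega
  refine ⟨rfl, ?_, rfl⟩
  obtain c | c | c : m = n ∨ m = n + 1 ∨ m + 1 = n := by omega
  · rw [c]
  · subst c
    nlinarith
  subst c
  obtain ⟨j, hj, kp⟩ := K.kept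
  obtain ⟨r, hr, o⟩ := exists_ord (d := .U) K.q2 (by omega : 13 ≤ m + 1 + 1)
  have pr := Nat.prime_iff_prime_int.1 hr
  have d : (r : ℤ) ∣ h := Int.natCast_dvd_natCast.2 (pow_one r ▸ kp r 1 hr (by
    simp only [Ty.kd]; omega) (by have := hj.2.2; simp only [Ty.kd]; omega) (by
      rw [pow_one]
      exact ((((Ord.dvd_iff _).2 o.dvd).trans (neg_pow_sub _ _).symm.dvd).trans (dvd_prod_of_mem
        (fun i => ((v ^ g : ℕ) : ℤ) ^ i - (-1) ^ i) (mem_Icc.2 ⟨by omega, le_rfl⟩))).mul_left _))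
  rcases pr.dvd_or_dvd (hh ▸ d.mul_right _) with c | c
  · exact absurd (Int.natCast_dvd_natCast.1 (pr.dvd_of_dvd_pow c))
      (Ord.not_dvd_q (d := .U) hr (by omega))
  · obtain ⟨i, hi, c⟩ := (pr.dvd_finsetProd_iff _).1 c
    have := mem_Icc.1 hi
    have := Nat.le_of_dvd (by omega) (o ▸ (Ord.dvd_iff i).1 (c.trans (neg_pow_sub _ _).dvd))
    omega

theorem KData.sym_aux1 (hn : 32 ≤ n) {τ x i : ℕ} (h1 : 2 * x = τ * t.top n)
    (h2 : 2 * i = τ * (t.top n - t.gap)) : ∃ σ, τ = 2 * σ ∧ x = σ * t.top n := by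
  have a : Even (τ * t.top n) := ⟨x, by omega⟩
  have b : Even (τ * (t.top n - t.gap)) := ⟨i, by omega⟩
  obtain ⟨σ, rfl⟩ : Even τ := by
    by_contra c
    have a := Nat.even_iff.1 ((Nat.even_mul.1 a).resolve_left c)
    have b := Nat.even_iff.1 ((Nat.even_mul.1 b).resolve_left c)
    cases t <;> simp only [Ty.top, Ty.gap] at a b <;> (try split_ifs at a b) <;> omega
  exact ⟨σ, by omega, by nlinarith⟩

theorem KData.sym_aux2 (hn : 32 ≤ n) {σ : ℕ} (h0 : 0 < σ)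
    (h1 : σ * t.top n * (σ * t.top n) ≤ σ * t.pos n + 1) : σ = 1 ∧ t ≠ .U ∧ t ≠ .Dm := by
  obtain ⟨k, rfl⟩ : ∃ k, n = k + 1 := ⟨n - 1, by omega⟩
  obtain ⟨s, rfl⟩ : ∃ s, σ = s + 1 := ⟨σ - 1, by omega⟩
  have hk : 31 ≤ k := by omega
  have a : k ≤ t.top (k + 1) := by
    cases t <;> simp only [Ty.top] <;> (try split_ifs) <;> omega
  have b : t.pos (k + 1) ≤ (k + 1) * (k + 1) := by
    cases t <;> simp only [Ty.pos, Nat.add_sub_cancel] <;>
      first | exact (Nat.div_le_self _ _).trans (by nlinarith) | nlinarith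
  obtain rfl : s = 0 := by
    by_contra c
    have d := Nat.mul_le_mul (Nat.mul_le_mul_left (s + 1) a)
      (Nat.mul_le_mul (show 2 ≤ s + 1 by omega) a)
    have e : (k + 1) * (k + 1) + 1 ≤ k * (2 * k) := by nlinarith
    nlinarith [Nat.mul_le_mul_left (s + 1) b, Nat.mul_le_mul_left (s + 1) e]
  refine ⟨rfl, ?_, ?_⟩ <;> rintro rfl
  · have d := Nat.mul_le_mul a a
    have e := Nat.div_mul_le_self ((k + 1) * k) 2
    simp only [Ty.pos, Nat.add_sub_cancel, zero_add, one_mul] at h1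
    nlinarith
  · simp only [Ty.pos, Ty.top, Nat.add_sub_cancel, zero_add, one_mul] at h1
    nlinarith

theorem KData.sym (hp : p.Prime) (hf : 0 < f) (K : KData h t n (p ^ f)) {m u : ℕ}
    (hu : IsPrimePow u) (hm : 2 ≤ m) (hh : OrdB m u h) :
    (t = .B ∨ t = .C) ∧ m = n ∧ u = p ^ f := by
  obtain ⟨v, g, hv, hg, rfl⟩ := (isPrimePow_nat_iff u).1 hu
  obtain ⟨rfl, τ, t0, e1, e2, e3, e4⟩ := K.same hp hf (lt_B hv hg hm hh)
  obtain ⟨i, -, e3⟩ := mem_image.1 e3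
  have hn := Ty.n32 K.big
  obtain ⟨σ, rfl, rfl⟩ := KData.sym_aux1 hn e2 e3
  obtain ⟨rfl, h1, h2⟩ := KData.sym_aux2 (t := t) (σ := σ) hn (by omega) (by nlinarith)
  obtain rfl : g = f := by omega
  cases t
  · exact (h1 rfl).elim
  · exact ⟨Or.inr rfl, one_mul _, rfl⟩
  · exact ⟨Or.inl rfl, one_mul _, rfl⟩
  · refine (K.not_low (Or.inr (Or.inr rfl)) (e := (n - 1) * (n - 1)) ?_).elim
    rw [OrdB, one_mul] at hh
    exact (Dvd.intro _ hh).trans ⟨2 * ((v ^ g : ℕ) ^ n + 1), by simp only [Ty.top]; ring⟩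
  · exact (h2 rfl).elim

theorem KData.dp (hp : p.Prime) (hf : 0 < f) (K : KData h t n (p ^ f)) {m u : ℕ}
    (hu : IsPrimePow u) (hm : 4 ≤ m) (hh : OrdD 1 m u h) : t = .Dp ∧ m = n ∧ u = p ^ f := by
  obtain ⟨v, g, hv, hg, rfl⟩ := (isPrimePow_nat_iff u).1 hu
  obtain ⟨rfl, τ, t0, e1, e2, e3, e4⟩ := K.same hp hf (lt_D hv hg hm hh)
  obtain ⟨i, -, e3⟩ := mem_image.1 e3
  have hn := Ty.n32 K.big
  obtain ⟨x, rfl⟩ : ∃ x, m = x + 1 := ⟨m - 1, by omega⟩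
  rw [Nat.add_sub_cancel] at e2 e4
  split_ifs at e3
  · obtain ⟨y, hy, h3⟩ : ∃ y, t.top n = y + t.gap ∧ t.gap + 3 ≤ y := ⟨t.top n - t.gap, by
      cases t <;> simp only [Ty.top, Ty.gap] <;> (try split_ifs) <;> omega⟩
    rw [hy] at e2 e3
    rw [Nat.add_sub_cancel] at e3
    nlinarith [Nat.mul_le_mul_left τ h3]
  obtain ⟨σ, rfl, rfl⟩ := KData.sym_aux1 hn e2 e3
  obtain ⟨rfl, h1, h2⟩ := KData.sym_aux2 (t := t) (σ := σ) hn (by omega) (by nlinarith)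
  obtain rfl : g = f := by omega
  cases t
  · exact (h1 rfl).elim
  · simp only [Ty.top, Ty.pos] at e4; nlinarith
  · simp only [Ty.top, Ty.pos] at e4; nlinarith
  · exact ⟨rfl, by simp only [Ty.top]; omega, rfl⟩
  · exact (h2 rfl).elim

theorem KData.dm_aux1 (hn : 32 ≤ n) : n - 1 ≤ t.top n ∧ t.pos n ≤ n * n ∧
    (t.gap = 1 ∨ t.top n % 2 = 1) := by
  have e : n * (n - 1) ≤ n * n := Nat.mul_le_mul_left _ (Nat.sub_le _ _)
  cases t <;> simp only [Ty.top, Ty.pos, Ty.gap, true_or, and_true] <;> (try split_ifs) <;> omega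

theorem KData.dm_aux2 {s a b : ℕ} (hn : 32 ≤ n) (ha : n - 1 ≤ a) (hb : b ≤ n * n) (hs : 0 < s)
    (h : s * a * (s * a - 1) ≤ s * b + 1) : s = 1 := by
  by_contra c
  obtain ⟨k, rfl⟩ : ∃ k, n = k + 1 := ⟨n - 1, by omega⟩
  have h1 : k ≤ a := by omega
  have h2 : 2 * k - 1 ≤ s * a - 1 := Nat.sub_le_sub_right (Nat.mul_le_mul (by omega) h1) 1
  have h3 : s * k * (2 * k - 1) ≤ s * a * (s * a - 1) :=
    Nat.mul_le_mul (Nat.mul_le_mul_left _ h1) h2
  have h4 : s * b ≤ s * ((k + 1) * (k + 1)) := Nat.mul_le_mul_left _ hb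
  have h5 : (k + 1) * (k + 1) + 2 ≤ k * (2 * k - 1) := by
    obtain ⟨l, hl⟩ : ∃ l, 2 * k - 1 = k + 30 + l := ⟨2 * k - 1 - (k + 30), by omega⟩
    rw [hl]; nlinarith
  have h6 := Nat.mul_le_mul_left s h5
  rw [mul_add, ← mul_assoc s k] at h6
  omega

theorem KData.dm (hp : p.Prime) (hf : 0 < f) (K : KData h t n (p ^ f)) {m u : ℕ}
    (hu : IsPrimePow u) (hm : 4 ≤ m) (hh : OrdD (-1) m u h) : t = .Dm ∧ m = n ∧ u = p ^ f := by
  obtain ⟨v, g, hv, hg, rfl⟩ := (isPrimePow_nat_iff _).1 hu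
  simp only [OrdD, sub_neg_eq_add] at hh
  obtain ⟨rfl, τ, h0, h1, h2, h3, h4⟩ := K.same hp hf (lt_2D hv hg hm hh)
  have hn := Ty.n32 K.big
  obtain ⟨a1, a2, a3⟩ := KData.dm_aux1 (t := t) hn
  obtain ⟨i, -, hi⟩ := mem_image.1 h3
  obtain ⟨s, rfl⟩ : 2 ∣ τ := by
    rcases a3 with a3 | a3
    · rw [a3, Nat.mul_sub, mul_one, ← h2] at hi
      have : τ ≤ 2 * m := h2 ▸ Nat.le_mul_of_pos_right _ (by omega)
      omega
    · exact (Nat.prime_two.dvd_mul.1 ⟨m, h2.symm⟩).resolve_right (by omega)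
  obtain rfl : m = s * t.top n := by rw [mul_assoc] at h2; omega
  obtain rfl : s = 1 := KData.dm_aux2 hn a1 a2 (by omega) (by rw [mul_assoc 2 s] at h4; omega)
  obtain rfl : g = f := by omega
  rw [one_mul] at hh hm h4 ⊢
  have d := Dvd.intro _ hh
  have low : ∀ _ : t = .B ∨ t = .C, False := fun e => by
    have e1 : t.top n = n := by rcases e with rfl | rfl <;> rfl
    rw [e1] at d
    exact K.not_low (e := n * (n - 1)) (by tauto)
      (d.trans ⟨2, by ring⟩)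
  cases t
  · exfalso
    have := K.big
    simp only [Ty.dim, Ty.pos] at this h4
    obtain ⟨k, rfl⟩ : ∃ k, n = k + 2 := ⟨n - 2, by omega⟩
    have e1 : (k + 1) * k ≤ Ty.U.top (k + 2) * (Ty.U.top (k + 2) - 1) :=
      Nat.mul_le_mul (by omega) (by omega)
    have e2 := Nat.mul_div_le ((k + 2) * (k + 2 - 1)) 2
    rw [show k + 2 - 1 = k + 1 from rfl] at e2 h4
    nlinarith
  · exact (low (Or.inr rfl)).elim
  · exact (low (Or.inl rfl)).elim
  · exfalso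
    obtain ⟨k, rfl⟩ : ∃ k, n = k + 2 := ⟨n - 2, by omega⟩
    refine K.not_low (e := (k + 1) * k) (by tauto) (d.trans ?_)
    simp only [Ty.top, show k + 2 - 1 = k + 1 from rfl, Nat.add_sub_cancel]
    rw [prod_Icc_succ_top (by omega)]
    exact ⟨2 * (((v ^ g : ℕ) : ℤ) ^ (k + 2) + 1) * (((v ^ g : ℕ) : ℤ) ^ (k + 1) - 1), by ring⟩
  · exact ⟨rfl, rfl, rfl⟩

theorem KData.exc (hp : p.Prime) (hf : 0 < f) (K : KData h t n (p ^ f)) {u : ℕ}
    (hu : IsPrimePow u) : ¬ ExcOrd u h := by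
  obtain ⟨v, g, hv, hg, rfl⟩ := (isPrimePow_nat_iff _).1 hu
  intro hh
  obtain ⟨x, hx, L⟩ : ∃ x ∈ excData, LT h v g x.1 x.2.1 x.2.2 := by
    rcases hh with e | e | e | e | e | e | e
    · exact lt_exc1 hv hg rfl (Or.inl e)
    · exact lt_exc1 hv hg rfl (Or.inr (Or.inl e))
    · exact lt_exc1 hv hg rfl (Or.inr (Or.inr (Or.inl e)))
    · exact lt_exc2 hv hg rfl (Or.inl e)
    · exact lt_exc1 hv hg rfl (Or.inr (Or.inr (Or.inr (Or.inl e))))
    · exact lt_exc1 hv hg rfl (Or.inr (Or.inr (Or.inr (Or.inr e))))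
    · exact lt_exc2 hv hg rfl (Or.inr e)
  obtain ⟨-, τ, h0, -, h2, -⟩ := K.same hp hf L
  have hn := Ty.n32 K.big
  have a1 := (KData.dm_aux1 (t := t) hn).1
  have a2 : t.top n ≤ τ * t.top n := Nat.le_mul_of_pos_left _ h0
  have a3 : x.2.1 ≤ 30 := (by decide : ∀ x ∈ excData, x.2.1 ≤ 30) x hx
  omega

end Pool.Agent.Lib.MP_7d41f7_al
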