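import Pool.Agent.Lib.MP_7d41f7_al.C.XDefs
import Pool.Agent.Lib.MP_7d41f7_al.L.AL
import Pool.Agent.Lib.MP_7d41f7_al.Ball

/-! Orders of an integer modulo primes and primitive parts. -/

set_option autoImplicit false

namespace Pool.Agent.Lib.MP_7d41f7_al

open Finset Polynomial

variable {b : ℤ} {r u j n q : ℕ} {d : Kd} {t : Ty}

theorem Ord.dvd_iff (i : ℕ) : (r : ℤ) ∣ b ^ i - 1 ↔ Ord b r ∣ i := by
  rw [Ord, orderOf_dvd_iff_pow_eq_one, ← ZMod.intCast_zmod_eq_zero_iff_dvd]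
  push_cast
  exact sub_eq_zero

theorem Ord.eq_zero (hr : r.Prime) (h : (r : ℤ) ∣ b) : Ord b r = 0 := by
  have := Fact.mk hr
  rw [Ord, (ZMod.intCast_zmod_eq_zero_iff_dvd b r).2 h, orderOf_eq_zero_iff']
  exact fun i hi e => zero_ne_one ((zero_pow hi.ne').symm.trans e)

theorem Ord.not_dvd_q (hr : r.Prime) (h : 0 < Ord (d.bs q) r) : ¬ r ∣ q := fun e => by
  refine h.ne' (Ord.eq_zero hr ?_)
  replace e := Int.natCast_dvd_natCast.2 e
  cases d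
  exacts [e.neg_right, dvd_pow e two_ne_zero, dvd_pow e two_ne_zero]

theorem Ord.ne_two (h : 1 < Ord b r) : r ≠ 2 := by
  rintro rfl
  rcases Int.even_or_odd' b with ⟨z, rfl | rfl⟩
  · rw [Ord.eq_zero Nat.prime_two (by simp)] at h
    omega
  · have := Nat.dvd_one.1 ((Ord.dvd_iff (b := 2 * z + 1) (r := 2) 1).1 (by simp))
    omega

theorem Prim.ord_eq {m : ℕ} (h : Prim q m r) (hq : 1 ≤ q) (hm : 0 < m) : Ord q r = m := by
  have k : ∀ i, Ord q r ∣ i ↔ m ∣ i := fun i => by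
    rw [← Ord.dvd_iff, ← h.dvd_iff hq hm, ← Int.natCast_dvd_natCast,
      Nat.cast_pred (by positivity), Nat.cast_pow]
  exact Nat.dvd_antisymm ((k m).2 dvd_rfl) ((k _).1 dvd_rfl)

theorem Ord.neg_sq (b : ℤ) (r : ℕ) : Ord b r ∣ 2 * Ord (-b) r := by
  rw [← Ord.dvd_iff, ← (even_two_mul _).neg_pow, Ord.dvd_iff]
  exact dvd_mul_left _ _

theorem Prim.ord_sq {m : ℕ} (h : Prim q m r) (hq : 1 ≤ q) (hm : 0 < m) :
    Ord ((q : ℤ) ^ 2) r = m / Nat.gcd m 2 := by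
  rw [← h.ord_eq hq hm, Ord, Ord, Int.cast_pow, orderOf_pow' _ two_ne_zero]

theorem Prim.ord_neg (h : Prim q (2 * j) r) (hq : 1 ≤ q) (hj : Odd j) : Ord (-(q : ℤ)) r = j := by
  have h1 := h.ord_eq hq (Nat.mul_pos two_pos hj.pos)
  refine Nat.dvd_antisymm ?_ (Nat.dvd_of_mul_dvd_mul_left two_pos (h1 ▸ Ord.neg_sq q r))
  have := Prim.dvd_add (v := q) (g := 1) hq one_pos hj.pos (by rwa [one_mul])
  rw [← Ord.dvd_iff, hj.neg_pow, ← neg_add', dvd_neg]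
  exact_mod_cast pow_one q ▸ this

theorem exists_ord (hq : 2 ≤ q) (hj : 13 ≤ j) : ∃ r, r.Prime ∧ Ord (d.bs q) r = j := by
  have sq : ∃ r, r.Prime ∧ Ord ((q : ℤ) ^ 2) r = j := by
    obtain ⟨r, hr⟩ := zsig hq (by omega : 3 ≤ 2 * j) (by omega)
    exact ⟨r, hr.pr, by simpa using hr.ord_sq (by omega) (by omega)⟩
  cases d
  swap
  · exact sq
  swap
  · exact sq
  change ∃ r, r.Prime ∧ Ord (-(q : ℤ)) r = j
  rcases Nat.even_or_odd' j with ⟨i, rfl | rfl⟩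
  swap
  · obtain ⟨r, hr⟩ := zsig hq (by omega : 3 ≤ 2 * (2 * i + 1)) (by omega)
    exact ⟨r, hr.pr, hr.ord_neg (by omega) (odd_two_mul_add_one i)⟩
  have k : ∀ m r, Prim q m r → 2 < m → m ∣ 2 * i → Ord (-(q : ℤ)) r ∣ 2 * i ∧
      m ∣ 2 * Ord (-(q : ℤ)) r ∧ (Even (Ord (-(q : ℤ)) r) → m ∣ Ord (-(q : ℤ)) r) ∧
      (Odd (Ord (-(q : ℤ)) r) → ¬ m ∣ Ord (-(q : ℤ)) r) := fun m r hr hm d => by
    have e := hr.ord_eq (by omega) (by omega)
    have a := (Ord.dvd_iff (b := -(q : ℤ)) (r := r) _).2 dvd_rfl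
    refine ⟨?_, e ▸ Ord.neg_sq q r, fun c => ?_, fun c f => ?_⟩
    · rwa [← Ord.dvd_iff, (even_two_mul _).neg_pow, Ord.dvd_iff, e]
    · rwa [c.neg_pow, Ord.dvd_iff, e] at a
    · rw [← e, ← Ord.dvd_iff] at f
      rw [c.neg_pow] at a
      have := dvd_add a f
      rw [show ∀ x : ℤ, -x - 1 + (x - 1) = -2 from fun x => by ring, dvd_neg] at this
      exact Ord.ne_two (b := q) (by omega) ((Nat.prime_dvd_prime_iff_eq hr.pr Nat.prime_two).1
        (by exact_mod_cast this))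
  rcases Nat.even_or_odd i with c | c
  · obtain ⟨r, hr⟩ := zsig hq (by omega : 3 ≤ 2 * i) (by omega)
    obtain ⟨k1, k2, k3, -⟩ := k _ r hr (by omega) dvd_rfl
    exact ⟨r, hr.pr, Nat.dvd_antisymm k1 (k3 (even_iff_two_dvd.2
      (c.two_dvd.trans (Nat.dvd_of_mul_dvd_mul_left two_pos k2))))⟩
  · obtain ⟨r, hr⟩ := zsig hq (by omega : 3 ≤ i) (by have := Nat.odd_iff.1 c; omega)
    obtain ⟨k1, k2, -, k4⟩ := k _ r hr (by omega) (dvd_mul_left _ _)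
    have c2 := Nat.coprime_two_left.2 c
    have k5 := c2.symm.dvd_of_dvd_mul_left k2
    exact ⟨r, hr.pr, Nat.dvd_antisymm k1 (c2.mul_dvd_of_dvd_of_dvd
      (Nat.not_odd_iff_even.1 fun o => k4 o k5).two_dvd k5)⟩

/-- The part of `b ^ j - 1` made of the primes for which `b` has order `j`. -/
noncomputable def pk (b : ℤ) (j : ℕ) : ℕ :=
  ∏ r ∈ (b ^ j - 1).natAbs.primeFactors with Ord b r = j,
    r ^ (b ^ j - 1).natAbs.factorization r

theorem pk_dvd : (pk b j : ℤ) ∣ b ^ j - 1 := by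
  rcases eq_or_ne (b ^ j - 1).natAbs 0 with e | e
  · rw [Int.natAbs_eq_zero.1 e]
    exact dvd_zero _
  rw [Int.natCast_dvd]
  exact (prod_dvd_prod_of_subset _ _ _ (filter_subset _ _)).trans
    (Nat.prod_factorization_pow_eq_self e).dvd

theorem pk_ord (hr : r.Prime) (h : r ∣ pk b j) : Ord b r = j := by
  obtain ⟨s, hs, e⟩ := (hr.prime.dvd_finsetProd_iff _).1 h
  obtain ⟨h1, h2⟩ := mem_filter.1 hs
  rwa [(Nat.prime_dvd_prime_iff_eq hr (Nat.prime_of_mem_primeFactors h1)).1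
    (hr.dvd_of_dvd_pow e)]

theorem cyc_ne (hb : 2 ≤ b.natAbs) (hj : 0 < j) : b ^ j ≠ 1 := fun e => by
  have := congrArg Int.natAbs e
  rw [Int.natAbs_pow] at this
  exact (Nat.one_lt_pow hj.ne' hb).ne' this

theorem cyc_geom (hb : 2 ≤ b.natAbs) {d s : ℕ} (hd : 0 < d) (hs : 1 < s) :
    (cyclotomic (d * s) ℤ).eval b ∣ ∑ i ∈ range s, (b ^ d) ^ i := by
  have h := eval_dvd (x := b) (X_pow_sub_one_mul_cyclotomic_dvd_X_pow_sub_one_of_dvd ℤ
    (Nat.mem_properDivisors.2 ⟨dvd_mul_right d s, (lt_mul_iff_one_lt_right hd).2 hs⟩))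
  simp only [eval_mul, eval_sub, eval_pow, eval_X, eval_one] at h
  rw [pow_mul, ← mul_geom_sum (_ ^ d)] at h
  exact (mul_dvd_mul_iff_left (sub_ne_zero.2 (cyc_ne hb hd))).1 h

theorem cyc_key (hb : 2 ≤ b.natAbs) (hj : 3 ≤ j) (hr : r.Prime)
    (hc : (r : ℤ) ∣ (cyclotomic j ℤ).eval b) (hn : Ord b r ≠ j) :
    r ∣ j ∧ ¬ (r : ℤ) ^ 2 ∣ (cyclotomic j ℤ).eval b := by
  obtain ⟨t, ht⟩ := (Ord.dvd_iff j).1 (hc.trans (by
    simpa using eval_dvd (x := b) (cyclotomic.dvd_X_pow_sub_one j ℤ)))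
  have h2' := Ord.ne_two (b := b) (r := r)
  have hb' : ∀ u, (r : ℤ) ∣ b ^ (Ord b r * u) - 1 := fun u => (Ord.dvd_iff _).2 (dvd_mul_right _ u)
  generalize Ord b r = e at *
  subst ht
  have he : 0 < e := Nat.pos_of_ne_zero (by rintro rfl; omega)
  have t0 : t ≠ 0 := by rintro rfl; omega
  have t1 : t ≠ 1 := by rintro rfl; exact hn (mul_one e).symm
  have ht := Nat.eq_prime_pow_of_unique_prime_dvd (p := r) t0 fun {s} hs ⟨u, hu⟩ => by
    have h2 := cyc_geom hb (d := e * u) (Nat.mul_pos he (Nat.pos_of_ne_zero (by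
      rintro rfl; exact t0 hu))) hs.one_lt
    rw [mul_assoc, mul_comm u, ← hu] at h2
    have h3 := (dvd_geom_sum₂_iff_of_dvd_sub (n := s) (hb' u)).1 (by simpa using hc.trans h2)
    exact ((Nat.prime_dvd_prime_iff_eq hr hs).1
      (Int.natCast_dvd_natCast.1 (by simpa using h3))).symm
  obtain ⟨k, rfl⟩ : ∃ k, t = r ^ (k + 1) := by
    generalize t.primeFactorsList.length = j at ht
    rcases j with _ | j
    exacts [absurd ht t1, ⟨j, ht⟩]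
  refine ⟨(dvd_pow_self r k.succ_ne_zero).mul_left e, fun h => ?_⟩
  have h2 := cyc_geom hb (d := e * r ^ k) (Nat.mul_pos he (pow_pos hr.pos k)) hr.one_lt
  rw [mul_assoc, ← pow_succ] at h2
  replace h2 := h.trans h2
  rcases hr.eq_two_or_odd' with rfl | ho
  · obtain rfl : e = 1 := by by_contra c; exact h2' (by omega) rfl
    rcases k with _ | k
    · omega
    rw [one_mul, pow_succ 2 k, pow_mul] at h2
    generalize b ^ 2 ^ k = y at h2
    rcases Int.even_or_odd' y with ⟨z, rfl | rfl⟩ <;> norm_num [sum_range_succ] at h2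
    · have : (1 : ℤ) + (2 * z) ^ 2 = 4 * z ^ 2 + 1 := by ring
      omega
    · have : (1 : ℤ) + (2 * z + 1) ^ 2 = 4 * (z ^ 2 + z) + 2 := by ring
      omega
  · obtain ⟨u, hu⟩ := hb' (r ^ k)
    have h3 := odd_sq_dvd_geom_sum₂_sub (1 : ℤ) u ho
    rw [← hu, add_sub_cancel] at h3
    simp only [one_pow, mul_one] at h3
    have h4 := Int.le_of_dvd (by exact_mod_cast hr.pos) ((dvd_sub_right h2).1 h3)
    have h5 : (2 : ℤ) ≤ r := by exact_mod_cast hr.two_le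
    nlinarith

theorem cyc_dvd_pk (hb : 2 ≤ b.natAbs) (hj : 3 ≤ j) :
    ((cyclotomic j ℤ).eval b).natAbs ∣ j * pk b j := by
  have c : (cyclotomic j ℤ).eval b ∣ b ^ j - 1 := by
    simpa using eval_dvd (x := b) (cyclotomic.dvd_X_pow_sub_one j ℤ)
  have h0 := Int.natAbs_ne_zero.2 (sub_ne_zero.2 (cyc_ne hb (by omega : 0 < j)))
  refine (Nat.dvd_iff_prime_pow_dvd_dvd _ _).2 fun r k hr h => ?_
  rcases k with _ | k
  · simp
  by_cases e : Ord b r = j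
  · have h1 := h.trans (Int.natAbs_dvd_natAbs.2 c)
    exact ((pow_dvd_pow r ((hr.pow_dvd_iff_le_factorization h0).1 h1)).trans (dvd_prod_of_mem
      (fun r => r ^ (b ^ j - 1).natAbs.factorization r) (mem_filter.2 ⟨Nat.mem_primeFactors.2
        ⟨hr, (dvd_pow_self r k.succ_ne_zero).trans h1, h0⟩, e⟩))).mul_left _
  rw [← Int.natCast_dvd, Nat.cast_pow] at h
  obtain ⟨h1, h2⟩ := cyc_key hb hj hr ((dvd_pow_self _ k.succ_ne_zero).trans h) e
  rcases k with _ | k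
  · simpa using h1.mul_right _
  · exact absurd ((pow_dvd_pow _ (by omega)).trans h) h2

theorem cyc_ge (hb : 2 ≤ b.natAbs) (hj : 0 < j) :
    b.natAbs ^ j.totient ≤ 4 * ((cyclotomic j ℤ).eval b).natAbs := by
  have h2 : (2 : ℝ) ≤ |(b : ℝ)| := by
    rw [← Int.cast_abs, ← Int.natCast_natAbs]
    exact_mod_cast hb
  have b0 : (b : ℝ) ≠ 0 := abs_pos.1 (by linarith)
  have hx : ∀ d, |(b : ℝ)⁻¹ ^ d| ≤ 2⁻¹ ^ d := fun d => by
    rw [abs_pow, abs_inv]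
    exact pow_le_pow_left₀ (by positivity) (inv_anti₀ two_pos h2) d
  have hy : ∀ d, 0 < d → (2 : ℝ)⁻¹ ^ d < 1 := fun d hd => pow_lt_one₀ (by norm_num) (by norm_num) hd.ne'
  have g0 : ∀ d, 0 < d → 0 < 1 - (b : ℝ)⁻¹ ^ d := fun d hd => by
    linarith [(abs_le.1 (hx d)).2, hy d hd]
  have k : ∀ m > 0, ∏ d ∈ m.divisors, (cyclotomic d ℝ).eval (b : ℝ) / b ^ d.totient =
      1 - (b : ℝ)⁻¹ ^ m := fun m hm => by
    rw [prod_div_distrib, ← eval_prod, prod_cyclotomic_eq_X_pow_sub_one hm, prod_pow_eq_pow_sum]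
    change _ / _ ^ m.divisors.sum Nat.totient = _
    rw [Nat.sum_totient]
    simp only [eval_sub, eval_pow, eval_X, eval_one, inv_pow]
    field_simp
  have h3 := (ArithmeticFunction.prod_eq_iff_prod_pow_moebius_eq_of_nonzero (fun m hm e =>
    (g0 m hm).ne' ((k m hm).symm.trans (prod_eq_zero (Nat.mem_divisors_self m hm.ne') e)))
      fun m hm => (g0 m hm).ne').1 k j hj
  have h4 : ∀ m, (1 : ℝ) / 4 + 2⁻¹ ^ (m + 2) ≤ ∏ d ∈ Icc 1 (m + 1), (1 - 2⁻¹ ^ d) := fun m => by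
    induction m with
    | zero => norm_num
    | succ m ih =>
      rw [prod_Icc_succ_top (by omega)]
      refine le_trans ?_ (mul_le_mul_of_nonneg_right ih (sub_pos.2 (hy _ (by omega))).le)
      have : (2 : ℝ)⁻¹ ^ m ≤ 1 := pow_le_one₀ (by norm_num) (by norm_num)
      have : 0 < (2 : ℝ)⁻¹ ^ m := by positivity
      simp only [pow_succ]
      nlinarith
  have h5 : ∏ d ∈ j.divisors, (1 - (2 : ℝ)⁻¹ ^ d) ≤ (cyclotomic j ℝ).eval (b : ℝ) / b ^ j.totient := by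
    rw [← h3, ← Nat.prod_divisorsAntidiagonal' fun _ d => 1 - (2 : ℝ)⁻¹ ^ d]
    refine prod_le_prod (fun x hx => (sub_pos.2 (hy _ ?_)).le) fun x hx' => ?_
    · exact Nat.pos_of_mem_divisors (Nat.snd_mem_divisors_of_mem_antidiagonal hx)
    have d0 := Nat.pos_of_mem_divisors (Nat.snd_mem_divisors_of_mem_antidiagonal hx')
    have a := abs_le.1 (hx x.2)
    have : 0 < (2 : ℝ)⁻¹ ^ x.2 := by positivity
    rcases ArithmeticFunction.moebius_eq_or x.1 with e | e | e <;> rw [e]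
    · simp
    · rw [zpow_one]
      linarith
    · rw [zpow_neg_one, le_inv_comm₀ (sub_pos.2 (hy _ d0)) (g0 _ d0), inv_eq_one_div (1 - _),
        le_div_iff₀ (sub_pos.2 (hy _ d0))]
      nlinarith [hy _ d0]
  have h6 : ∏ d ∈ Icc 1 (j + 1), (1 - (2 : ℝ)⁻¹ ^ d) ≤ ∏ d ∈ j.divisors, (1 - (2 : ℝ)⁻¹ ^ d) :=
    prod_le_prod_of_subset_of_le_one (fun d hd => mem_Icc.2 ⟨Nat.pos_of_mem_divisors hd,
      (Nat.divisor_le hd).trans j.le_succ⟩) (fun d hd => (sub_pos.2 (hy _ (mem_Icc.1 hd).1)).le)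
      fun d _ _ => sub_le_self _ (by positivity)
  have h7 : (1 : ℝ) / 4 ≤ |(cyclotomic j ℝ).eval (b : ℝ) / b ^ j.totient| :=
    ((le_add_of_nonneg_right (by positivity)).trans ((h4 j).trans (h6.trans h5))).trans
      (le_abs_self _)
  have h8 := cyclotomic.eval_apply b j (Int.castRingHom ℝ)
  simp only [eq_intCast] at h8
  rw [abs_div, le_div_iff₀ (by positivity), abs_pow, h8] at h7
  rw [← Nat.cast_le (α := ℝ)]
  push_cast [Nat.cast_natAbs]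
  linarith

theorem pk_ge (hb : 2 ≤ b.natAbs) (hj : 3 ≤ j) : b.natAbs ^ j.totient ≤ 4 * j * pk b j := by
  refine (cyc_ge hb (by omega)).trans ?_
  rw [mul_assoc]
  refine Nat.mul_le_mul_left _ (Nat.le_of_dvd (Nat.mul_pos (by omega) (prod_pos fun r hr =>
    pow_pos (Nat.prime_of_mem_primeFactors (mem_filter.1 hr).1).pos _)) (cyc_dvd_pk hb hj))

/-- The exponents with an explicit primitive part. -/
def Nice (n j : ℕ) : Prop :=
  (∃ a, 2 ≤ a ∧ (j = 2 ^ a ∨ j = 3 * 2 ^ a)) ∧ n + 4 < 2 * j ∧ j + 3 ≤ n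

theorem exists_nice (hn : 32 ≤ n) : ∃ j, Nice n j := by
  have h1 := Nat.pow_log_le_self 2 (by omega : n - 3 ≠ 0)
  have h2 := Nat.lt_pow_succ_log_self one_lt_two (n - 3)
  have h3 : 4 ≤ Nat.log 2 (n - 3) := Nat.le_log_of_pow_le one_lt_two (by omega)
  obtain ⟨a, ha⟩ := Nat.exists_eq_add_of_le' h3
  rw [ha] at h1 h2
  have h4 := Nat.one_le_two_pow (n := a)
  have e1 : 2 ^ (a + 3) = 8 * 2 ^ a := by ring
  have e2 : 2 ^ (a + 4) = 16 * 2 ^ a := by ring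
  by_cases c : n + 4 < 2 * 2 ^ (a + 4)
  · exact ⟨_, ⟨a + 4, by omega, .inl rfl⟩, c, by omega⟩
  · exact ⟨_, ⟨a + 3, by omega, .inr rfl⟩, by omega, by omega⟩

theorem Ord.eq_of (hj : 0 < j) (h : (r : ℤ) ∣ b ^ j - 1)
    (hd : ∀ p, p.Prime → p ∣ j → ¬ (r : ℤ) ∣ b ^ (j / p) - 1) : Ord b r = j :=
  orderOf_eq_of_pow_and_pow_div_prime hj (orderOf_dvd_iff_pow_eq_one.1 ((Ord.dvd_iff j).1 h))
    fun p hp e c => hd p hp e ((Ord.dvd_iff _).2 (orderOf_dvd_of_pow_eq_one c))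

theorem Nice.key (h : Nice n j) : ∃ y : ℕ, 0 < y ∧ (y : ℤ) ∣ b ^ j - 1 ∧
    (∀ r, r.Prime → r ∣ y → Ord b r = j) ∧ ∀ u, u.Prime → y ≡ 1 [MOD u] → 2 * Ord b u ≤ j := by
  obtain ⟨⟨a, ha, h⟩, -⟩ := h
  obtain ⟨a, rfl⟩ := Nat.exists_eq_add_of_le' ha
  have p2 : ∀ r s : ℕ, r.Prime → s.Prime → (r : ℤ) ∣ s → r = s := fun r s hr hs e =>
    (Nat.prime_dvd_prime_iff_eq hr hs).1 (by exact_mod_cast e)
  have e0 : 2 ^ (a + 2) = 2 * 2 ^ (a + 1) := by ring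
  have e1 : b ^ 2 ^ (a + 1) = (b ^ 2 ^ a) ^ 2 := by rw [← pow_mul, pow_succ]
  have e2 : ∀ c, b ^ (c * 2 ^ (a + 1)) = (b ^ 2 ^ (a + 1)) ^ c := fun c => by
    rw [← pow_mul, mul_comm]
  have k0 : ∀ u : ℕ, u.Prime → (u : ℤ) ∣ b ^ 2 ^ (a + 1) * (b ^ 2 ^ (a + 1) - 1) →
      2 * Ord b u ≤ 2 * 2 ^ (a + 1) := fun u hu e => by
    have p := Nat.prime_iff_prime_int.1 hu
    rcases p.dvd_or_dvd e with e | e
    · simp [Ord.eq_zero hu (p.dvd_of_dvd_pow e)]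
    · exact Nat.mul_le_mul_left _ (Nat.le_of_dvd (by positivity) ((Ord.dvd_iff _).1 e))
  have pd : ∀ p : ℕ, p.Prime → p ∣ 2 * 2 ^ (a + 1) → p = 2 := fun p hp e =>
    (Nat.prime_dvd_prime_iff_eq hp Nat.prime_two).1 (hp.dvd_of_dvd_pow (e0 ▸ e))
  rw [e0] at h
  rcases h with rfl | rfl
  · obtain ⟨y, δ, h1, h2, h3⟩ : ∃ y : ℕ, ∃ δ : ℤ, δ * y = b ^ 2 ^ (a + 1) + 1 ∧ Odd y ∧
        (δ = 1 ∨ δ = 2) := by
      rw [e1]
      generalize b ^ 2 ^ a = x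
      rcases Nat.even_or_odd' x.natAbs with ⟨z, e | e⟩ <;> rw [← Int.natAbs_sq, e]
      · exact ⟨2 * (2 * z ^ 2) + 1, 1, by push_cast; ring, odd_two_mul_add_one _, .inl rfl⟩
      · exact ⟨2 * (z ^ 2 + z) + 1, 2, by push_cast; ring, odd_two_mul_add_one _, .inr rfl⟩
    have h4 : (y : ℤ) ∣ b ^ 2 ^ (a + 1) + 1 := Dvd.intro_left _ h1
    have h5 : (y : ℤ) ∣ b ^ (2 * 2 ^ (a + 1)) - 1 :=
      h4.trans ⟨b ^ 2 ^ (a + 1) - 1, by rw [e2]; ring⟩
    refine ⟨y, h2.pos, h5, fun r hr e => ?_, fun u hu e => k0 u hu ?_⟩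
    · have d := Int.natCast_dvd_natCast.2 e
      refine Ord.eq_of (by positivity) (d.trans h5) fun p hp c f => ?_
      rw [pd p hp c, Nat.mul_div_cancel_left _ two_pos] at f
      obtain rfl := p2 r 2 hr Nat.prime_two (by simpa using dvd_sub (d.trans h4) f)
      exact h2.not_two_dvd_nat e
    · have d := Nat.modEq_iff_dvd.1 e.symm
      rcases h3 with rfl | rfl
      · exact Dvd.dvd.mul_right (by rwa [← add_sub_cancel_right (b ^ _) 1, ← h1, one_mul]) _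
      · refine Dvd.dvd.mul_left ?_ _
        rw [show b ^ 2 ^ (a + 1) - 1 = 2 * (y - (1 : ℕ)) by push_cast; linear_combination -h1]
        exact d.mul_left _
  obtain ⟨y, h1⟩ := Int.eq_ofNat_of_zero_le (a := (b ^ 2 ^ (a + 1)) ^ 2 - b ^ 2 ^ (a + 1) + 1)
    (by nlinarith)
  have h2 : ¬ (2 : ℤ) ∣ y ∧ ¬ (3 : ℤ) ∣ y := by
    rw [← h1, e1]
    generalize b ^ 2 ^ a = x
    obtain ⟨z, k, e, h0, h6⟩ : ∃ z k : ℤ, x = 6 * z + k ∧ 0 ≤ k ∧ k < 6 :=
      ⟨x / 6, x % 6, by omega, by omega, by omega⟩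
    have : (x ^ 2) ^ 2 - x ^ 2 + 1 = 6 * (216 * z ^ 4 + 144 * z ^ 3 * k + 36 * z ^ 2 * k ^ 2 +
      4 * z * k ^ 3 - 6 * z ^ 2 - 2 * z * k) + (k ^ 4 - k ^ 2 + 1) := by rw [e]; ring
    rw [this]
    interval_cases k <;> omega
  have h4 : (y : ℤ) ∣ (b ^ 2 ^ (a + 1)) ^ 3 + 1 := h1 ▸ ⟨b ^ 2 ^ (a + 1) + 1, by ring⟩
  have h5 : (y : ℤ) ∣ b ^ (3 * (2 * 2 ^ (a + 1))) - 1 :=
    h4.trans ⟨(b ^ 2 ^ (a + 1)) ^ 3 - 1, by rw [← mul_assoc, e2]; ring⟩
  refine ⟨y, Nat.pos_of_ne_zero (by rintro rfl; simp at h2), h5, fun r hr e => ?_,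
    fun u hu e => (k0 u hu ?_).trans (by omega)⟩
  · have d := Int.natCast_dvd_natCast.2 e
    refine Ord.eq_of (by positivity) (d.trans h5) fun p hp c f => ?_
    rcases hp.dvd_mul.1 c with c | c
    · rw [(Nat.prime_dvd_prime_iff_eq hp Nat.prime_three).1 c,
        Nat.mul_div_cancel_left _ three_pos, e2] at f
      rw [← h1] at d
      obtain rfl := p2 r 3 hr Nat.prime_three ((Nat.prime_iff_prime_int.1 hr).dvd_of_dvd_pow (n := 1)
        ((dvd_add (d.mul_left (b ^ 2 ^ (a + 1) + 2)) (f.mul_left (-b ^ 2 ^ (a + 1) - 1))).trans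
          (dvd_of_eq (by push_cast; ring))))
      exact h2.2 (h1 ▸ d)
    · rw [pd p hp c, mul_left_comm, Nat.mul_div_cancel_left _ two_pos, e2] at f
      obtain rfl := p2 r 2 hr Nat.prime_two (by simpa using dvd_sub (d.trans h4) f)
      exact h2.1 d
  · rw [show b ^ 2 ^ (a + 1) * (b ^ 2 ^ (a + 1) - 1) = y - (1 : ℕ) by rw [← h1]; push_cast; ring]
    exact Nat.modEq_iff_dvd.1 e.symm

/-- The exponents that are used for the lower bound. -/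
def gd (n j : ℕ) : Finset ℕ := (Ico (n / 2 + 3) n).erase j

/-- The statement at one value of the parameter. -/
abbrev phiIP (n : ℕ) : Prop :=
  ∀ j ∈ [24, 32, 48, 64], ∀ w ∈ [1, 2], n + 4 < 2 * j → j + 3 ≤ n →
    64 ≤ w * n → 6 * n ≤ w * ∑ i ∈ gd n j, i.totient ∧
      2 ^ (9 * n + 3) * ∏ i ∈ gd n j, (4 * i) < 2 ^ (w * ∑ i ∈ gd n j, i.totient)

theorem phiI0 : ∀ n < 66, phiIP n := by decide +kernel

theorem phiI1 : ∀ n < 76, 66 ≤ n → phiIP n := by decide +kernel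

theorem phiI2 : ∀ n < 84, 76 ≤ n → phiIP n := by decide +kernel

theorem phiI3 : ∀ n < 90, 84 ≤ n → phiIP n := by decide +kernel

theorem phiI4 : ∀ n < 96, 90 ≤ n → phiIP n := by decide +kernel

theorem phi_ineq_aux1 : ∀ n < 96, ∀ j ∈ [24, 32, 48, 64], ∀ w ∈ [1, 2], n + 4 < 2 * j → j + 3 ≤ n →
    64 ≤ w * n → 6 * n ≤ w * ∑ i ∈ gd n j, i.totient ∧
      2 ^ (9 * n + 3) * ∏ i ∈ gd n j, (4 * i) < 2 ^ (w * ∑ i ∈ gd n j, i.totient) :=
  ball_app (ball_app (ball_app (ball_app phiI0 phiI1) phiI2) phiI3) phiI4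

theorem phi_ineq_aux2 (n m : ℕ) (h : m ≤ n) :
    2 * ∑ i ∈ Icc 1 n, i.totient * (m / i) = m * (m + 1) := by
  induction m with
  | zero => simp
  | succ m ih =>
    have e : (Icc 1 n).filter (· ∣ m + 1) = (m + 1).divisors := by
      ext i
      simp only [mem_filter, mem_Icc, Nat.mem_divisors]
      exact ⟨fun h => ⟨h.2, by omega⟩, fun h' =>
        ⟨⟨Nat.pos_of_dvd_of_pos h'.1 (by omega), (Nat.le_of_dvd (by omega) h'.1).trans h⟩, h'.1⟩⟩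
    simp only [Nat.succ_div, mul_add, sum_add_distrib, mul_ite, mul_one, mul_zero]
    rw [← sum_filter, e, Nat.sum_totient, ih (by omega)]
    ring

theorem phi_ineq_aux3 (n : ℕ) : n * (n + 1) ≤ 2 * (n / 2 * (n / 2 + 1)) + n / 3 * (n / 3 + 1) +
    2 * ∑ i ∈ Ioc (n / 2) n, i.totient := by
  have e : Ioc (n / 2) n = (Icc 1 n).filter (n / 2 < ·) := by
    ext i
    simp only [mem_filter, mem_Icc, mem_Ioc]
    omega
  rw [← phi_ineq_aux2 n n le_rfl, ← phi_ineq_aux2 n _ (Nat.div_le_self n 2),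
    ← phi_ineq_aux2 n _ (Nat.div_le_self n 3), e, sum_filter, ← mul_add, ← mul_add]
  refine Nat.mul_le_mul_left _ ?_
  rw [mul_sum _ _ 2, ← sum_add_distrib, ← sum_add_distrib]
  refine sum_le_sum fun i hi => ?_
  have h0 : 0 < i := (mem_Icc.1 hi).1
  rw [Nat.div_div_eq_div_mul, Nat.div_div_eq_div_mul, mul_comm 2 i, mul_comm 3 i,
    ← Nat.div_div_eq_div_mul, ← Nat.div_div_eq_div_mul, mul_left_comm, ← mul_add]
  split_ifs with h
  · have := (Nat.div_lt_iff_lt_mul h0 (x := n) (y := 2)).2 (by omega)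
    rw [← mul_add_one]
    exact Nat.mul_le_mul_left _ (by omega)
  · have := (Nat.le_div_iff_mul_le h0 (x := 2) (y := n)).2 (by omega)
    exact Nat.mul_le_mul_left _ (by omega)

theorem phi_ineq_aux4 (hn : 96 ≤ n) (hj : j ≤ n) :
    9 * n + 3 + n / 8 * (n / 2) < ∑ i ∈ gd n j, i.totient := by
  have h1 := phi_ineq_aux3 n
  have h2 : ∑ i ∈ Ico (n / 2 + 3) n, i.totient ≤ ∑ i ∈ gd n j, i.totient + n := by
    by_cases h : j ∈ Ico (n / 2 + 3) n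
    · rw [← sum_erase_add _ _ h]
      exact Nat.add_le_add_left ((Nat.totient_le j).trans hj) _
    · rw [gd, erase_eq_of_notMem h]
      omega
  rw [← Ico_add_one_add_one_eq_Ioc, sum_Ico_succ_top (by omega), sum_eq_sum_Ico_succ_bot (by omega),
    sum_eq_sum_Ico_succ_bot (by omega)] at h1
  have h3 := Nat.totient_le n
  have h4 := Nat.totient_le (n / 2 + 1)
  have h5 := Nat.totient_le (n / 2 + 1 + 1)
  have h6 : n / 2 + 1 + 1 + 1 = n / 2 + 3 := rfl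
  rw [h6] at h1
  have a2 : 2 * (n / 2) ≤ n := Nat.mul_div_le n 2
  have a3 : 3 * (n / 3) ≤ n := Nat.mul_div_le n 3
  have a8 : 8 * (n / 8) ≤ n := Nat.mul_div_le n 8
  have b2 := Nat.mul_le_mul a2 a2
  have b3 := Nat.mul_le_mul a3 a3
  have b8 := Nat.mul_le_mul a8 a2
  have b0 := Nat.mul_le_mul_right n hn
  nlinarith

theorem phi_ineq_aux5 (k : ℕ) (h : 9 ≤ k) : 32 * (k + 1) ≤ 2 ^ k := by
  induction k, h using Nat.le_induction with
  | base => norm_num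
  | succ k _ ih => omega

theorem phi_ineq {w : ℕ} (hw : w = 1 ∨ w = 2) (hn : 64 ≤ w * n) (h : Nice n j) :
    6 * n ≤ w * ∑ i ∈ gd n j, i.totient ∧
      2 ^ (9 * n + 3) * ∏ i ∈ gd n j, (4 * i) < 2 ^ (w * ∑ i ∈ gd n j, i.totient) := by
  obtain ⟨⟨a, -, ha⟩, h1, h2⟩ := h
  rcases lt_or_ge n 96 with h0 | h0
  · refine phi_ineq_aux1 n h0 j ?_ w (by simpa using hw) h1 h2 hn
    have h3 : a < 7 := (Nat.pow_lt_pow_iff_right one_lt_two).1 (by omega)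
    simp only [List.mem_cons, List.not_mem_nil, or_false]
    rcases hw with rfl | rfl <;> interval_cases a <;> omega
  have h3 := phi_ineq_aux4 h0 (by omega : j ≤ n)
  have h4 : ∑ i ∈ gd n j, i.totient ≤ w * ∑ i ∈ gd n j, i.totient :=
    Nat.le_mul_of_pos_left _ (by omega)
  refine ⟨by omega, lt_of_le_of_lt ?_ (Nat.pow_lt_pow_right one_lt_two (h3.trans_le h4))⟩
  rw [pow_add _ _ (_ * _), pow_mul 2 (n / 8)]
  refine Nat.mul_le_mul_left _ ((prod_le_pow_card _ _ _ fun i hi => ?_).trans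
    (Nat.pow_le_pow_right (by positivity) (card_erase_le.trans ?_)))
  · have := phi_ineq_aux5 (n / 8) (by omega)
    have := (mem_Ico.1 (mem_of_mem_erase hi)).2
    omega
  · rw [Nat.card_Ico]
    omega

/-- A bound for the prime power parts of the order. -/
def Bd (n q : ℕ) : ℕ := 2 * (2 * q ^ 2) ^ n

theorem Ty.ord_dvd (t : Ty) (hn : 0 < n) (q : ℤ) :
    t.ord n q ∣ 2 * q ^ (n * n) * ∏ i ∈ Icc 1 n, (q ^ (2 * i) - 1) := by
  have a : ∀ e, e ≤ n * n → q ^ e ∣ q ^ (n * n) := fun e => pow_dvd_pow q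
  have c : ∀ ε : ℤ, ε ^ 2 = 1 → 2 * (q ^ (n * (n - 1)) * (q ^ n - ε) *
      ∏ i ∈ Icc 1 (n - 1), (q ^ (2 * i) - 1)) ∣ 2 * q ^ (n * n) * ∏ i ∈ Icc 1 n, (q ^ (2 * i) - 1) :=
    fun ε e => by
      obtain ⟨m, rfl⟩ : ∃ m, n = m + 1 := ⟨n - 1, by omega⟩
      rw [prod_Icc_succ_top (by omega), mul_assoc 2, mul_assoc, mul_comm (_ - ε)]
      refine mul_dvd_mul_left _ (mul_dvd_mul (a _ (Nat.mul_le_mul_left _ (Nat.sub_le _ _)))
        (mul_dvd_mul_left _ ⟨q ^ (m + 1) + ε, ?_⟩))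
      rw [← e]
      ring
  cases t <;> simp only [Ty.ord]
  · refine mul_dvd_mul ((a _ ((Nat.div_le_self _ _).trans
      (Nat.mul_le_mul_left _ (Nat.sub_le _ _)))).mul_left _) (prod_dvd_prod_of_dvd _ _ fun i _ =>
        ⟨q ^ i + (-1) ^ i, ?_⟩)
    have : ((-1 : ℤ) ^ i) ^ 2 = 1 := by rw [← pow_mul, mul_comm, (even_two_mul i).neg_one_pow]
    linear_combination this
  · exact mul_dvd_mul_right (dvd_mul_left _ _) _
  · rw [mul_assoc]
  · rw [if_neg hn.ne']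
    exact c 1 rfl
  · exact c (-1) rfl

theorem neg_pow_sub (q : ℤ) (i : ℕ) : Associated (q ^ i - (-1) ^ i) ((-q) ^ i - 1) := by
  rcases Nat.even_or_odd i with c | c
  · rw [c.neg_pow, c.neg_pow, one_pow]
  · rw [c.neg_pow, c.neg_pow, one_pow, sub_neg_eq_add, ← neg_add']
    exact (Associated.refl _).neg_right

theorem Ty.ord_dvd' (t : Ty) (hn : 0 < n) (q : ℕ) :
    t.ord n q ∣ 2 * q ^ (n * n) * ∏ i ∈ Icc 1 n, (t.kd.bs q ^ i - 1) := by
  have a := t.ord_dvd hn q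
  cases t <;> simp only [Ty.kd, Kd.bs, ← pow_mul] <;> try exact a
  exact mul_dvd_mul ((pow_dvd_pow _ ((Nat.div_le_self _ _).trans
    (Nat.mul_le_mul_left _ (Nat.sub_le _ _)))).mul_left _) (prod_dvd_prod_of_dvd _ _ fun i _ =>
      (neg_pow_sub _ i).dvd)

theorem Ty.dvd_ord (t : Ty) (n q : ℕ) : ∏ i ∈ Ico 1 n, (t.kd.bs q ^ i - 1) ∣ t.ord n q := by
  rcases n with _ | n
  · simp
  have s : Ico 1 (n + 1) ⊆ Icc 1 (n + 1) := Ico_subset_Icc_self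
  cases t <;> simp only [Ty.kd, Kd.bs, ← pow_mul, Ty.ord]
  · exact ((prod_dvd_prod_of_dvd _ _ fun i _ => (neg_pow_sub _ i).symm.dvd).trans
      (prod_dvd_prod_of_subset _ _ _ s)).mul_left _
  · exact (prod_dvd_prod_of_subset _ _ _ s).mul_left _
  · exact ((prod_dvd_prod_of_subset _ _ _ s).mul_left _).mul_left _
  · rw [if_neg n.succ_ne_zero, Ico_add_one_right_eq_Icc]
    exact (dvd_mul_left _ _).mul_left _
  · rw [Ico_add_one_right_eq_Icc]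
    exact (dvd_mul_left _ _).mul_left _

theorem Ty.ord_pos (t : Ty) (hq : 2 ≤ q) (n : ℕ) : 0 < t.ord n q := by
  have h1 : (1 : ℤ) < q := by exact_mod_cast hq
  have a : ∀ i, i ≠ 0 → (0 : ℤ) < q ^ i - 1 := fun i hi => sub_pos.2 (one_lt_pow₀ h1 hi)
  have c : ∀ m, (0 : ℤ) < ∏ i ∈ Icc 1 m, ((q : ℤ) ^ (2 * i) - 1) := fun m =>
    prod_pos fun i hi => a _ (by have := (mem_Icc.1 hi).1; omega)
  cases t <;> simp only [Ty.ord]
  · refine mul_pos (by positivity) (prod_pos fun i hi => ?_)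
    have := a i (by have := (mem_Icc.1 hi).1; omega)
    rcases neg_one_pow_eq_or ℤ i with e | e <;> omega
  · have := c n
    positivity
  · have := c n
    positivity
  · have := c (n - 1)
    split_ifs with e
    · exact one_pos
    have := a n e
    positivity
  · have := c (n - 1)
    positivity

theorem Ty.pp_le {v k : ℕ} (hn : 0 < n) (hq : 2 ≤ q) (hv : v.Prime) (hvq : ¬ v ∣ q)
    (h : ((v ^ k : ℕ) : ℤ) ∣ t.ord n q) : v ^ k ≤ Bd n q := by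
  have h2 : 2 ≤ q ^ 2 := by nlinarith
  have h1 : v ^ k ∣ 2 * q ^ (n * n) * ∏ i ∈ Icc 1 n, ((q ^ 2) ^ i - 1) := by
    rw [← Int.natCast_dvd_natCast]
    refine (h.trans (t.ord_dvd hn q)).trans (dvd_of_eq ?_)
    push_cast
    refine congrArg _ (prod_congr rfl fun i _ => ?_)
    rw [Nat.cast_pred (by positivity), ← pow_mul, Nat.cast_pow]
  rw [mul_comm 2, mul_assoc] at h1
  replace h1 := ((hv.coprime_iff_not_dvd.2 hvq).pow k _).dvd_of_dvd_mul_left h1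
  have h3 : ¬ v ∣ q ^ 2 := fun e => hvq (hv.dvd_of_dvd_pow e)
  rcases eq_or_ne v 2 with rfl | e
  · rcases k with _ | k
    · exact Nat.mul_pos two_pos (by positivity)
    rw [pow_succ'] at h1 ⊢
    exact Nat.mul_le_mul_left _ (Pool.Agent.Lib.MP_7d41f7_al.pp_le h2 hv h3
      (Nat.dvd_of_mul_dvd_mul_left two_pos h1))
  · exact (Pool.Agent.Lib.MP_7d41f7_al.pp_le h2 hv h3 ((((Nat.coprime_primes hv Nat.prime_two).2
      e).pow_left k).dvd_of_dvd_mul_left h1)).trans (Nat.le_mul_of_pos_left _ two_pos)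

theorem Ty.ord_le (hn : 0 < n) (hr : r.Prime) (h : (r : ℤ) ∣ t.ord n q) :
    Ord (t.kd.bs q) r ≤ n := by
  by_contra e
  have p := Nat.prime_iff_prime_int.1 hr
  rcases p.dvd_or_dvd (h.trans (t.ord_dvd' hn q)) with a | a
  · rcases p.dvd_or_dvd a with a | a
    · exact Ord.ne_two (by omega : 1 < Ord (t.kd.bs q) r)
        ((Nat.prime_dvd_prime_iff_eq hr Nat.prime_two).1 (by exact_mod_cast a))
    · exact Ord.not_dvd_q (d := t.kd) hr (by omega)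
        (Int.natCast_dvd_natCast.1 (p.dvd_of_dvd_pow a))
  · obtain ⟨i, hi, a⟩ := (p.dvd_finsetProd_iff _).1 a
    have := mem_Icc.1 hi
    have := Nat.le_of_dvd (by omega) ((Ord.dvd_iff i).1 a)
    omega

theorem exists_T_aux1 {P T m : ℕ} (hq : 2 ≤ q) (h1 : 2 ^ (9 * n + 3) * P < 2 ^ (6 * n + m))
    (h2 : q ^ (6 * n + m) ≤ P * T) : Bd n q ^ 3 < T := by
  have h3 : 2 ^ (3 * n + 3) * P < q ^ m := by
    refine lt_of_lt_of_le (Nat.lt_of_mul_lt_mul_left (a := 2 ^ (6 * n)) ?_)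
      (Nat.pow_le_pow_left hq m)
    calc 2 ^ (6 * n) * (2 ^ (3 * n + 3) * P) = 2 ^ (9 * n + 3) * P := by ring
      _ < 2 ^ (6 * n + m) := h1
      _ = 2 ^ (6 * n) * 2 ^ m := pow_add _ _ _
  refine Nat.lt_of_mul_lt_mul_left (a := P) (lt_of_lt_of_le ?_ h2)
  calc P * Bd n q ^ 3 = q ^ (6 * n) * (2 ^ (3 * n + 3) * P) := by
        rw [Bd, mul_pow, mul_pow, mul_pow, ← pow_mul, ← pow_mul, ← pow_mul]; ring
    _ < q ^ (6 * n) * q ^ m := Nat.mul_lt_mul_of_pos_left h3 (pow_pos (by omega) _)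
    _ = q ^ (6 * n + m) := (pow_add _ _ _).symm

theorem exists_T_aux2 (t : Ty) (q : ℕ) : (t.kd.bs q).natAbs = q ^ t.kd.wt := by
  cases t <;> simp [Ty.kd, Kd.bs, Kd.wt, Int.natAbs_pow]

/- `T = ∏ i ∈ gd n j, pk b i`; `pk_ge`, `phi_ineq` with `w = t.kd.wt`, `|b| = q ^ w`:
`q ^ (w s) = q ^ (6 n) q ^ (w s - 6 n) ≥ q ^ (6 n) 2 ^ (w s - 6 n)`; `pk_dvd`, `Ty.dvd_ord`. -/
theorem exists_T (hq : 2 ≤ q) (hn : 64 ≤ t.dim n) (h : Nice n j) : ∃ T : ℕ, Bd n q ^ 3 < T ∧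
    (T : ℤ) ∣ t.ord n q ∧ ∀ r, r.Prime → r ∣ T → n + 4 < 2 * Ord (t.kd.bs q) r ∧
      Ord (t.kd.bs q) r < n ∧ Ord (t.kd.bs q) r ≠ j := by
  have hw : t.kd.wt = 1 ∨ t.kd.wt = 2 := by cases t <;> simp [Ty.kd, Kd.wt]
  have hn' : 64 ≤ t.kd.wt * n := by
    cases t <;> simp only [Ty.kd, Kd.wt, Ty.dim] at hn ⊢ <;> omega
  obtain ⟨h1, h2⟩ := phi_ineq hw hn' h
  have hm : ∀ i ∈ gd n j, n / 2 + 3 ≤ i ∧ i < n ∧ i ≠ j := fun i hi => by
    simp only [gd, mem_erase, mem_Ico] at hi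
    exact ⟨hi.2.1, hi.2.2, hi.1⟩
  have hb : 2 ≤ (t.kd.bs q).natAbs := by
    rw [exists_T_aux2]
    exact hq.trans (Nat.le_self_pow (by omega) q)
  refine ⟨∏ i ∈ gd n j, pk (t.kd.bs q) i, ?_, ?_, fun r hr hT => ?_⟩
  · obtain ⟨m, hm'⟩ := Nat.exists_eq_add_of_le h1
    rw [hm'] at h2
    refine exists_T_aux1 hq h2 ?_
    rw [← hm', pow_mul, ← exists_T_aux2, ← prod_pow_eq_pow_sum, ← prod_mul_distrib]
    exact prod_le_prod' fun i hi => pk_ge hb (by have := hm i hi; omega)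
  · rw [Nat.cast_prod]
    refine (prod_dvd_prod_of_dvd _ _ fun i _ => pk_dvd).trans
      ((prod_dvd_prod_of_subset _ _ _ fun i hi => ?_).trans (Ty.dvd_ord t n q))
    have := hm i hi
    exact mem_Ico.2 ⟨by omega, this.2.1⟩
  · obtain ⟨i, hi, hri⟩ := (hr.prime.dvd_finsetProd_iff _).1 hT
    have := hm i hi
    rw [pk_ord hr hri]
    omega

end Pool.Agent.Lib.MP_7d41f7_al
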