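import Pool.Agent.Lib.MP_7d41f7_al.C.FDefs
import Pool.Agent.Lib.MP_7d41f7_al.C.AO

/-! Arithmetic of the order formulas. -/

set_option autoImplicit false

namespace Pool.Agent.Lib.MP_7d41f7_al

open Finset

variable {t : Ty} {k : Kd} {n m q r u i : ℕ}

theorem wt_dim (t : Ty) (n : ℕ) : t.kd.wt * n ≤ t.dim n ∧ t.dim n < t.kd.wt * (n + 1) := by
  cases t <;> simp [Ty.kd, Kd.wt, Ty.dim] <;> omega

theorem ord_le (hr : r.Prime) (h2 : 2 < Ord (t.kd.bs q) r) (h : (r : ℤ) ∣ t.ord n q) :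
    Ord (t.kd.bs q) r ≤ n := by
  rcases n.eq_zero_or_pos with rfl | hn
  · have h4 : t.ord 0 q ∣ 2 ^ 2 := by cases t <;> simp [Ty.ord]
    exact absurd ((Nat.prime_dvd_prime_iff_eq hr Nat.prime_two).1 (Int.natCast_dvd_natCast.1
      ((Nat.prime_iff_prime_int.1 hr).dvd_of_dvd_pow (h.trans h4))))
      (Ord.ne_two (lt_trans one_lt_two h2))
  · exact Ty.ord_le hn hr h

theorem fc_ord (h : (r : ℤ) ∣ (k.fc q : ℤ) ^ i - 1) (hi : 0 < i) :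
    k.wt * Ord (k.bs q) r ≤ 2 * i := by
  cases k <;> simp only [Kd.fc, Kd.wt, Kd.bs, Nat.cast_pow] at h ⊢
  · rw [one_mul]
    exact Nat.le_of_dvd (by omega) ((Ord.dvd_iff _).1 (by rwa [pow_mul, neg_sq]))
  all_goals
    exact Nat.mul_le_mul_left 2 (Nat.le_of_dvd hi ((Ord.dvd_iff _).1
      (h.trans ⟨q ^ i + 1, by ring⟩)))

theorem div_dim (hr : r.Prime) (h2 : 2 < Ord (t.kd.bs q) r)
    (h3 : (r : ℤ) ∣ (t.kd.fc q : ℤ) ^ t.dim m - 1) (h4 : (r : ℤ) ∣ t.sing m q) :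
    Ord (t.kd.bs q) r ∣ m ∧ t ≠ .B := by
  have e : ∀ i, (r : ℤ) ∣ (q : ℤ) ^ i - (-1) ^ i → Ord (-q) r ∣ i := fun i h =>
    (Ord.dvd_iff _).1 (h.trans ⟨(-1) ^ i, by
      simp [sub_mul, ← mul_pow]⟩)
  cases t <;> simp only [Ty.kd, Kd.fc, Kd.bs, Ty.dim, Ty.sing, Nat.cast_pow] at h2 h3 h4 ⊢
  · refine ⟨?_, by simp⟩
    rcases m with _ | s
    · exact dvd_zero _
    have h5 : Ord (-q) r ∣ 2 * (s + 1) := (Ord.dvd_iff _).1 (by rwa [pow_mul, neg_sq])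
    refine ((Nat.prime_iff_prime_int.1 hr).dvd_or_dvd h4).elim (e _) fun h => ?_
    exact absurd (Nat.le_of_dvd two_pos ((Nat.dvd_add_right ((e _ h).mul_left 2)).1 h5)) h2.not_ge
  · exact ⟨(Ord.dvd_iff _).1 (by rwa [← pow_mul]), by simp⟩
  · have h5 : (r : ℤ) ∣ ((q : ℤ) ^ 2) ^ 1 - 1 :=
      (dvd_sub h3 (h4.mul_left q)).trans ⟨q + 1, by ring⟩
    exact absurd (Nat.le_of_dvd one_pos ((Ord.dvd_iff _).1 h5)) (by omega)
  · exact ⟨(Ord.dvd_iff _).1 (by rwa [← pow_mul]), by simp⟩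
  · exact ⟨(Ord.dvd_iff _).1 (by rwa [← pow_mul]), by simp⟩

theorem Prim.ord2 (h : Prim q (2 * n) r) (hq : 1 ≤ q) (hn : 0 < n) : Ord ((q : ℤ) ^ 2) r = n := by
  rw [h.ord_sq hq (by omega)]
  simp

theorem Prim.ord1 (h : Prim q n r) (hq : 1 ≤ q) (hn : 0 < n) :
    (Odd n ∧ Ord ((q : ℤ) ^ 2) r = n) ∨ 2 * Ord ((q : ℤ) ^ 2) r = n := by
  rw [h.ord_sq hq hn]
  rcases n.even_or_odd with ⟨s, rfl⟩ | ho
  · simp [← two_mul]
  · exact .inl ⟨ho, by rw [ho.coprime_two_right, Nat.div_one]⟩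

theorem BCp.ord (h : BCp q m r) (hm : 0 < m) : r.Prime ∧ Ord ((q : ℤ) ^ 2) r = m := by
  have hq : 1 ≤ q := Nat.pos_of_ne_zero (by
    rintro rfl
    rcases h with ⟨-, h⟩ | ⟨-, h⟩ <;> simp [hm.ne'] at h)
  rcases h with ⟨h, -⟩ | ⟨h, e⟩
  · exact ⟨h.pr, h.ord2 hq hm⟩
  · refine ⟨h.pr, (h.ord1 hq hm).elim And.right fun e' => ?_⟩
    rw [← e', pow_mul', Nat.pow_mod] at e
    have : ∀ x < 4, x ^ 2 % 4 ≠ 3 := by decide
    exact absurd e (this _ (Nat.mod_lt _ four_pos))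

theorem exists_bcp (ho : Odd q) (hq : 3 ≤ q) (hm : 3 ≤ m) : ∃ r, BCp q m r := by
  have := Nat.odd_iff.1 (ho.pow (n := m))
  rcases (by omega : q ^ m % 4 = 1 ∨ q ^ m % 4 = 3) with e | e
  · exact (zsig (m := 2 * m) (by omega) (by omega) (by omega)).imp fun _ h => .inl ⟨h, e⟩
  · exact (zsig (by omega) hm (by omega)).imp fun _ h => .inr ⟨h, e⟩

theorem adjL_ar_int (h : Prim q m r) (hq : 1 ≤ q) (hm : 0 < m) (i : ℕ) :
    (r : ℤ) ∣ (q : ℤ) ^ i - 1 ↔ m ∣ i := by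
  rw [← h.dvd_iff hq hm, ← Int.natCast_dvd_natCast, Nat.cast_sub (Nat.one_le_pow _ _ hq)]
  simp

theorem adjL_ar_lt (h : Prim q m r) (hq : 1 ≤ q) (h0 : 0 < i) (hi : i < m) :
    ¬ (r : ℤ) ∣ (q : ℤ) ^ i - 1 := fun e =>
  (Nat.le_of_dvd h0 ((adjL_ar_int h hq (by omega) i).1 e)).not_gt hi

theorem adjL_ar_add (h : (r : ℤ) ∣ (q : ℤ) ^ i + 1) : (r : ℤ) ∣ (q : ℤ) ^ (2 * i) - 1 :=
  h.trans ⟨q ^ i - 1, by ring⟩

theorem adjL_ar_dp (hq : 1 ≤ q) (hn : 2 ≤ n) (hr : Prim q (2 * n) r) :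
    ¬ (r : ℤ) ∣ Ty.Dp.sing n q := fun h =>
  ((Nat.prime_iff_prime_int.1 hr.pr).dvd_or_dvd h).elim (adjL_ar_lt hr hq (by omega) (by omega))
    fun e => adjL_ar_lt hr hq (by omega) (by omega) (adjL_ar_add e)

theorem adjL_ar_dm (hq : 1 ≤ q) (hn : 3 ≤ n) (hu : Prim q n u) :
    ¬ (u : ℤ) ∣ Ty.Dm.sing n q := fun h => by
  refine ((Nat.prime_iff_prime_int.1 hu.pr).dvd_or_dvd h).elim (fun e => ?_)
    (adjL_ar_lt hu hq (by omega) (by omega))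
  have h1 := dvd_sub e ((adjL_ar_int hu hq (by omega) n).2 dvd_rfl)
  rw [add_sub_sub_cancel] at h1
  have h2 := hu.dvd_pred hq (by omega)
  rw [(Nat.prime_dvd_prime_iff_eq hu.pr Nat.prime_two).1 (Int.natCast_dvd_natCast.1 h1)] at h2
  exact absurd (Nat.le_of_dvd one_pos h2) (by omega)

theorem adjL_ar (hq : 2 ≤ q) (hn : 3 ≤ n) (hr : Prim q (2 * n) r) (hu : Prim q n u)
    (ht : t = .Dp ∨ t = .Dm) (h1 : (r : ℤ) ∣ t.sing n q) (h2 : (u : ℤ) ∣ t.sing n q) : False := by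
  rcases ht with rfl | rfl
  · exact adjL_ar_dp (by omega) (by omega) hr h1
  · exact adjL_ar_dm (by omega) hn hu h2

theorem bc_ty (h : BCp q m r) (hm : 3 ≤ m) (ht : t = .Dp ∨ t = .Dm) (h1 : (r : ℤ) ∣ t.sing m q) :
    ∃ s : ℤ, Ty.B.sing (m + 1) q - t.sing m q - Ty.B.sing 1 q = (q - 1) * (2 * (2 * s + 1)) := by
  obtain ⟨s, rfl⟩ : ∃ s, m = s + 1 := ⟨m - 1, by omega⟩
  have ho : Odd q := (Nat.odd_pow_iff s.add_one_ne_zero).1 (by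
    rcases h with ⟨-, h⟩ | ⟨-, h⟩ <;> exact Nat.odd_iff.2 (by omega))
  have hq : 1 ≤ q := ho.pos
  have o1 : Odd (q : ℤ) := ho.natCast
  have o2 : Odd ((q : ℤ) ^ s * (q ^ 2 + q + 1)) := o1.pow.mul (o1.pow.add_odd o1).add_one
  have key : ∀ η x : ℤ, η * η = 1 → (q : ℤ) ^ (s + 1) - η = 4 * x + 2 → ∃ z : ℤ,
      Ty.B.sing (s + 1 + 1) q - (q ^ (s + 1) - η) * (q ^ s + η) - Ty.B.sing 1 q =
        (q - 1) * (2 * (2 * z + 1)) := fun η x e e' => by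
    obtain ⟨y, hy⟩ := o2.add_even (o1.add_one.mul_left η)
    refine ⟨2 * x * y + x + y, ?_⟩
    simp only [Ty.sing]
    linear_combination (q : ℤ) ^ 2 * e +
      (q - 1) * (q ^ (s + 1) - η) * hy + (q - 1) * (2 * y + 1) * e'
  rcases h with ⟨h, e⟩ | ⟨h, e⟩ <;> rcases ht with rfl | rfl
  · exact (adjL_ar_dp hq (by omega) h h1).elim
  · have e1 : ((q ^ (s + 1) : ℕ) : ℤ) - -1 = 4 * (q ^ (s + 1) / 4 : ℕ) + 2 := by omega
    simpa [Ty.sing, sub_eq_add_neg] using key (-1) _ (by simp) (by simpa only [Nat.cast_pow] using e1)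
  · have e1 : ((q ^ (s + 1) : ℕ) : ℤ) - 1 = 4 * (q ^ (s + 1) / 4 : ℕ) + 2 := by omega
    exact key 1 _ (by simp) (by simpa only [Nat.cast_pow] using e1)
  · exact (adjL_ar_dm hq hm h h1).elim

theorem ty_eq {h c : ℕ} (hq : 2 ≤ q) (hn : 4 ≤ n)
    (hc : ∀ r, r.Prime → r ∣ c → Ord ((q : ℤ) ^ 2) r ≤ 2) :
    (OrdD 1 n q h → (h : ℤ) * c ≠ Ty.Dm.ord n q) ∧
      (OrdD (-1) n q h → (h : ℤ) * c ≠ Ty.Dp.ord n q) := by
  obtain ⟨r, hr⟩ := zsig (m := 2 * n) hq (by omega) (by omega)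
  have q1 : 1 ≤ q := by omega
  have hp := Nat.prime_iff_prime_int.1 hr.pr
  have h0 := hr.ord2 q1 (by omega)
  have h2 : ∀ x : ℤ, x ∣ 4 → ¬ (r : ℤ) ∣ x := fun x hx e =>
    Ord.ne_two (b := (q : ℤ) ^ 2) (by omega : 1 < Ord _ r) ((Nat.prime_dvd_prime_iff_eq hr.pr
      Nat.prime_two).1 (Int.natCast_dvd_natCast.1 (hp.dvd_of_dvd_pow (n := 2) (e.trans hx))))
  have h3 : ¬ (r : ℤ) ∣ q ^ (n * (n - 1)) * (q ^ n - 1) *
      ∏ i ∈ Icc 1 (n - 1), ((q : ℤ) ^ (2 * i) - 1) := by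
    rw [hp.dvd_mul, hp.dvd_mul, hp.dvd_finsetProd_iff]
    rintro ((e | e) | ⟨i, hi, e⟩)
    · exact hr.not_dvd q1 (by omega) (Int.natCast_dvd_natCast.1 (hp.dvd_of_dvd_pow e))
    · exact adjL_ar_lt hr q1 (by omega) (by omega) e
    · rw [mem_Icc] at hi
      exact adjL_ar_lt hr q1 (by omega) (by omega) e
  have h4 : (r : ℤ) ∣ q ^ (n * (n - 1)) * (q ^ n + 1) *
      ∏ i ∈ Icc 1 (n - 1), ((q : ℤ) ^ (2 * i) - 1) := by
    have := (adjL_ar_int hr q1 (by omega) _).2 dvd_rfl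
    rw [show (q : ℤ) ^ (2 * n) - 1 = (q ^ n + 1) * (q ^ n - 1) by ring] at this
    exact (((hp.dvd_or_dvd this).resolve_right
      (adjL_ar_lt hr q1 (by omega) (by omega))).mul_left _).mul_right _
  have h5 : ¬ (r : ℤ) ∣ c := fun e => by
    have := hc r hr.pr (Int.natCast_dvd_natCast.1 e)
    omega
  refine ⟨fun a b => h3 ?_, fun a b => h3 ?_⟩
  · have := (hp.dvd_or_dvd (b ▸ h4.mul_left 2 : (r : ℤ) ∣ h * c)).resolve_right h5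
    exact (show _ = _ from a) ▸ this.mul_right _
  · rw [OrdD, sub_neg_eq_add] at a
    have := ((hp.dvd_or_dvd (a ▸ h4)).resolve_right (h2 _ (Int.gcd_dvd_left ..))).mul_right c
    rw [b, Ty.ord, if_neg (by omega)] at this
    exact (hp.dvd_or_dvd this).resolve_left (h2 _ ⟨2, rfl⟩)

theorem dim_step (t : Ty) (n : ℕ) : t.dim (t.nx n) = t.dim n + 2 := by
  cases t <;> simp [Ty.dim, Ty.nx] <;> omega

theorem sing_step (h : t = .Dm → 0 < n) : t.sing (t.nx n) q + 1 =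
    ((t.kd.fc q : ℤ) - 1) * (t.kd.fc q : ℤ) ^ t.dim n * t.kd.tk q +
      t.kd.fc q * (t.sing n q + 1) := by
  have e : ∀ s : ℕ, ((-1 : ℤ) ^ s) ^ 2 = 1 := fun s => by rw [← pow_mul, mul_comm, pow_mul]; simp
  rcases n with _ | s <;> cases t <;>
    simp only [Ty.sing, Ty.nx, Ty.kd, Kd.fc, Kd.tk, Ty.dim, Nat.add_sub_cancel, Nat.cast_pow,
      Nat.cast_one, show ∀ a, a + 2 - 1 = a + 1 from fun _ => rfl] <;>
    first | exact absurd (h rfl) (lt_irrefl 0) | ring1 | linear_combination (1 - (q : ℤ) ^ 2) * -e s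

theorem ord_step (h : t = .Dm → 0 < n) : t.ord (t.nx n) q =
    t.sing (t.nx n) q * ((t.kd.fc q : ℤ) ^ t.dim n * t.kd.tk q) * t.ord n q := by
  have e : (n + 2) * (n + 1) / 2 = n * (n - 1) / 2 + (2 * n + 1) := by
    rw [← Nat.add_mul_div_right _ _ two_pos]
    rcases n with _ | s
    · rfl
    · exact congrArg (· / 2) (by rw [Nat.add_sub_cancel]; ring)
  cases t
  · simp only [Ty.sing, Ty.nx, Ty.kd, Kd.fc, Kd.tk, Ty.dim, Ty.ord, Nat.cast_pow,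
      show ∀ a, a + 2 - 1 = a + 1 from fun _ => rfl, e]
    rw [prod_Icc_succ_top (by omega), prod_Icc_succ_top (by omega)]
    ring
  all_goals
    rcases n with _ | s <;>
    simp only [Ty.sing, Ty.nx, Ty.kd, Kd.fc, Kd.tk, Ty.dim, Ty.ord, Nat.add_sub_cancel,
      Nat.cast_one, Nat.add_eq_zero_iff, one_ne_zero, and_false, if_false, if_true,
      prod_Icc_succ_top (Nat.le_add_left 1 _)] <;>
    first | exact absurd (h rfl) (lt_irrefl 0) | ring1 | (simp; done) | (simp; ring1)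

theorem small_p {p : ℕ} (hp : p.Prime) (h2 : p ≠ 2) (hq : p ∣ q) (hk : t.kd = .O)
    (hd : t.dim n ≤ 2) (h : t = .Dm → 0 < n) : ¬ (p : ℤ) ∣ t.ord n q := by
  have hp' := Nat.prime_iff_prime_int.1 hp
  have a1 : ¬ (p : ℤ) ∣ 1 := hp'.not_dvd_one
  have a2 : ¬ (p : ℤ) ∣ 2 := fun e =>
    h2 ((Nat.prime_dvd_prime_iff_eq hp Nat.prime_two).1 (Int.natCast_dvd_natCast.1 e))
  have a3 : (p : ℤ) ∣ q := Int.natCast_dvd_natCast.2 hq
  cases t <;> simp only [Ty.kd, Ty.dim, reduceCtorEq] at hk hd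
  · obtain rfl : n = 0 := by omega
    simpa [Ty.ord] using a2
  · obtain rfl | rfl : n = 0 ∨ n = 1 := by omega
    · simpa [Ty.ord] using a1
    · simpa [Ty.ord, hp'.dvd_mul, a2] using fun e => a1 ((dvd_sub_right a3).1 e)
  · obtain rfl : n = 1 := by have := h rfl; omega
    simpa [Ty.ord, hp'.dvd_mul, a2] using fun e => a1 ((dvd_add_right a3).1 e)

theorem dvd_ordC (hm : 0 < m) (h : Ord ((q : ℤ) ^ 2) r = m) : (r : ℤ) ∣ Ty.C.ord m q :=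
  (((Ord.dvd_iff m).2 h.dvd).trans ((pow_mul (q : ℤ) 2 m).symm ▸ dvd_prod_of_mem
    (fun i => (q : ℤ) ^ (2 * i) - 1) (mem_Icc.2 ⟨hm, le_rfl⟩))).mul_left _

end Pool.Agent.Lib.MP_7d41f7_al
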