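import Pool.Agent.Lib.MP_7d41f7_al.C.FTy

/-! The matrix groups. -/

set_option autoImplicit false

namespace Pool.Agent.Lib.MP_7d41f7_al

open Module Matrix

variable {F F' : Type} [Field F] [Finite F] [Field F'] [Finite F'] {n : ℕ}

theorem brg_pq {Γ Γ' : Type} [Group Γ] [Group Γ'] (E : Γ ≃* Γ') : Nonempty (PQ Γ ≃* PQ Γ') :=
  ⟨QuotientGroup.congr _ _ E (Subgroup.ext fun _ => (Subgroup.mem_map_equiv (f := E)).trans
    (MulEquivClass.apply_mem_center_iff E.symm))⟩

omit [Finite F] in
theorem brga_diag (x : Fin n ⊕ Fin n → F) : x ⬝ᵥ J (Fin n) F *ᵥ x = 0 := by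
  rw [← Sum.elim_comp_inl_inr x, J, fromBlocks_mulVec, sumElim_dotProduct_sumElim]
  simp [neg_mulVec, dotProduct_comm]

omit [Finite F] in
theorem brga_mem (A : Matrix (Fin n ⊕ Fin n) (Fin n ⊕ Fin n) F) :
    A ∈ symplecticGroup (Fin n) F ↔
      ∀ x y, toLinearMap₂' F (J (Fin n) F) (toLin' A x) (toLin' A y) =
        toLinearMap₂' F (J (Fin n) F) x y := by
  rw [SymplecticGroup.mem_iff', ← (toLinearMap₂' F (S₁ := F) (S₂ := F)).injective.eq_iff,
    ← toLinearMap₂'_comp]
  exact ⟨fun h x y => LinearMap.congr_fun₂ h x y, fun h => LinearMap.ext₂ h⟩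

theorem brg_sp (n : ℕ) (F : Type) [Field F] [Finite F] :
    ∃ (Φ : Frm (Sca.sp F) (Fin n ⊕ Fin n → F)) (R : Φ.Rep (symplecticGroup (Fin n) F)),
      Φ.Nd ∧ Φ.Iso ≤ R.ι.range := by
  let Φ : Frm (Sca.sp F) (Fin n ⊕ Fin n → F) :=
    { B := toLinearMap₂' F (J (Fin n) F)
      Q _ := 0
      sym x y := by
        change toLinearMap₂' F (J (Fin n) F) y x = -1 * toLinearMap₂' F (J (Fin n) F) x y
        rw [toLinearMap₂'_apply', toLinearMap₂'_apply', dotProduct_mulVec, ← mulVec_transpose,
          J_transpose, neg_mulVec, neg_dotProduct, dotProduct_comm, neg_one_mul]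
      add _ _ := by simp [Sca.τ, Sca.sp]
      smul _ _ := (mul_zero _).symm
      diag x := (toLinearMap₂'_apply' _ x x).trans ((brga_diag x).trans (mul_zero _).symm)
      tr _ := ⟨0, rfl⟩ }
  let ι : symplecticGroup (Fin n) F →* ((Fin n ⊕ Fin n → F) ≃ₗ[F] (Fin n ⊕ Fin n → F)) :=
    (LinearMap.GeneralLinearGroup.generalLinearEquiv F _).toMonoidHom.comp
      (((toLinAlgEquiv' (R := F) (n := Fin n ⊕ Fin n)).toMulEquiv.toMonoidHom.comp
        (symplecticGroup (Fin n) F).subtype).toHomUnits)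
  have hι : ∀ A x, ι A x = toLin' A.1 x := fun _ _ => rfl
  have h1 : Φ.Iso ≤ ι.range := fun g hg =>
    ⟨⟨LinearMap.toMatrix' g.toLinearMap, (brga_mem _).2 fun x y => by
      rw [toLin'_toMatrix']; exact hg.1 x y⟩, LinearEquiv.ext fun x => by
        rw [hι, toLin'_toMatrix']; rfl⟩
  refine ⟨Φ, ⟨ι, fun A B h => Subtype.ext (toLin'.injective (LinearMap.ext fun x => ?_)), ?_,
    (Subgroup.commutator_le.2 fun a ha b hb => ?_).trans h1⟩, fun x hx => ?_, h1⟩
  · rw [← hι, ← hι, h]
  · rintro _ ⟨A, rfl⟩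
    exact ⟨(brga_mem _).1 A.2, fun _ => rfl⟩
  · exact mul_mem (mul_mem (mul_mem ha hb) (inv_mem ha)) (inv_mem hb)
  · refine dotProduct_eq_zero x fun w => ?_
    have h2 : toLinearMap₂' F (J (Fin n) F) x (J (Fin n) F *ᵥ (-w)) = 0 := hx _
    rwa [toLinearMap₂'_apply', mulVec_mulVec, J_squared, neg_mulVec, one_mulVec, neg_neg] at h2

/-- The involution generates the Galois group over its fixed field. -/
theorem star_eq_pow [StarRing F] {q : ℕ} (hc : Nat.card F = q ^ 2) (h : ∃ a : F, star a ≠ a)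
    (a : F) : star a = a ^ q := by
  classical
  obtain ⟨b, hb⟩ := h
  let σ : RingAut F := starRingAut
  have ho : orderOf σ = 2 := orderOf_eq_prime (RingEquiv.ext fun x => star_star x)
    fun e => hb (RingEquiv.congr_fun e b)
  have : Finite (Subgroup.zpowers σ) := finite_zpowers.2 (orderOf_pos_iff.1 (by omega))
  have := Fintype.ofFinite (Subgroup.zpowers σ)
  let E := FixedPoints.subfield (Subgroup.zpowers σ) F
  have := Fintype.ofFinite E
  have h2 : finrank E F = 2 := by
    rw [FixedPoints.finrank_eq_card, ← Nat.card_eq_fintype_card, Nat.card_zpowers, ho]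
  have h3 : Fintype.card E = q := by
    rw [Module.natCard_eq_pow_finrank (K := E), h2, Nat.card_eq_fintype_card] at hc
    exact Nat.pow_left_injective two_ne_zero hc
  obtain ⟨⟨k, hk⟩, e⟩ := (FiniteField.bijective_frobeniusAlgEquivOfAlgebraic_pow E F).2
    (AlgEquiv.ofRingEquiv (f := σ) fun x => x.2 ⟨σ, Subgroup.mem_zpowers σ⟩)
  rw [h2] at hk
  interval_cases k
  · exact (hb (AlgEquiv.congr_fun e b).symm).elim
  · simp only [pow_one] at e
    exact h3 ▸ (AlgEquiv.congr_fun e a).symm

theorem brg_su (n : ℕ) (F : Type) [Field F] [Finite F] [StarRing F] {q : ℕ}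
    (hc : Nat.card F = q ^ 2) (h : ∃ a : F, star a ≠ a) :
    ∃ (P : Sca F) (Φ : Frm P (Fin n → F)) (_ : Φ.Rep (specialUnitaryGroup (Fin n) F)),
      P.k = .U ∧ P.q = q ∧ Φ.Nd := by
  let P : Sca F := ⟨.U, q, starRingEnd F, hc, fun _ => star_eq_pow hc h, fun e => (e rfl).elim⟩
  have hs : ∀ x y : Fin n → F, y ⬝ᵥ star x = star (x ⬝ᵥ star y) := fun x y => by
    rw [← star_dotProduct_star, star_star]
  let Φ : Frm P (Fin n → F) :=
    { B := LinearMap.mk₂'ₛₗ (RingHom.id F) (starRingEnd F) (fun x y => x ⬝ᵥ star y)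
        (fun _ _ _ => add_dotProduct _ _ _) (fun _ _ _ => smul_dotProduct _ _ _)
        (fun _ _ _ => by rw [star_add, dotProduct_add])
        fun _ _ _ => by rw [star_smul, dotProduct_smul]; rfl
      Q := fun x => x ⬝ᵥ star x
      sym := fun x y => (hs x y).trans (one_mul _).symm
      add := fun x y => by
        change _ = _ + (x ⬝ᵥ star y + star (x ⬝ᵥ star y))
        rw [← hs, star_add, add_dotProduct, dotProduct_add, dotProduct_add]
        ring
      smul := fun a x => by
        rw [star_smul, smul_dotProduct, dotProduct_smul, mul_assoc]; rfl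
      diag := fun x => (one_mul _).symm
      tr := fun x => P.tr_surj rfl (hs x x).symm }
  let ι : specialUnitaryGroup (Fin n) F →* ((Fin n → F) ≃ₗ[F] (Fin n → F)) :=
    (LinearMap.GeneralLinearGroup.generalLinearEquiv F _).toMonoidHom.comp
      (UnitaryGroup.embeddingGL.comp (Submonoid.inclusion specialUnitaryGroup_le_unitaryGroup))
  have hι : ∀ A v, ι A v = A.1 *ᵥ v := fun A v => rfl
  have hB : ∀ (A : specialUnitaryGroup (Fin n) F) x y, ι A x ⬝ᵥ star (ι A y) = x ⬝ᵥ star y :=
    fun A x y => by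
      rw [hι, hι, star_mulVec, dotProduct_comm, dotProduct_mulVec, vecMul_vecMul,
        ← star_eq_conjTranspose, mem_unitaryGroup_iff'.1 A.2.1, vecMul_one, dotProduct_comm]
  refine ⟨P, Φ, ⟨ι, fun A A' e => Subtype.ext (toLin'.injective (LinearMap.ext fun v => ?_)),
    ?_, fun g hg => ?_⟩, rfl, rfl, fun x hx => funext fun i => ?_⟩
  · exact LinearEquiv.congr_fun e v
  · rintro _ ⟨A, rfl⟩
    exact ⟨hB A, fun x => hB A x x⟩
  · have h1 : g ∈ Φ.Iso := Subgroup.commutator_le.2 (fun a ha b hb =>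
      mul_mem (mul_mem (mul_mem ha hb) (inv_mem ha)) (inv_mem hb)) hg
    have h2 : g ∈ LinearEquiv.det.ker := Subgroup.commutator_le.2 (fun a _ b _ => by
      rw [MonoidHom.mem_ker, map_commutatorElement, commutatorElement_eq_one_iff_mul_comm,
        mul_comm]) hg
    refine ⟨⟨LinearMap.toMatrix' (g : _ →ₗ[F] _), mem_specialUnitaryGroup_iff.2
      ⟨mem_unitaryGroup_iff'.2 (Matrix.ext fun i j => ?_), ?_⟩⟩, LinearEquiv.ext fun v => ?_⟩
    · have : g (Pi.single j 1) ⬝ᵥ star (g (Pi.single i 1)) =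
          Pi.single j 1 ⬝ᵥ star (Pi.single i 1 : Fin n → F) := h1.1 _ _
      rw [dotProduct_comm] at this
      simpa [Matrix.mul_apply, dotProduct, one_apply, Pi.single_apply, apply_ite star, eq_comm]
        using this
    · rw [LinearMap.det_toMatrix', ← LinearEquiv.coe_det, MonoidHom.mem_ker.1 h2, Units.val_one]
    · rw [hι]
      exact LinearMap.toMatrix'_mulVec _ _
  · have : x ⬝ᵥ star (Pi.single i 1 : Fin n → F) = 0 := hx _
    simpa using this

theorem brg_om {V : Type} [AddCommGroup V] [Module F V] (Q : QuadraticForm F V) :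
    ∃ R : (Frm.ofQ Q).Rep (commutator (orth Q)), R.ι.range ≤ (Frm.ofQ Q).Der := by
  have h1 : (Frm.ofQ Q).Iso = orth Q := Subgroup.ext fun _ => Frm.mem_iso_O rfl
  have h2 : ((orth Q).subtype.comp (commutator (orth Q)).subtype).range = (Frm.ofQ Q).Der := by
    rw [MonoidHom.range_comp, Subgroup.range_subtype, Subgroup.map_subtype_commutator, Frm.Der, h1]
  exact ⟨⟨(orth Q).subtype.comp (commutator (orth Q)).subtype,
    Subtype.val_injective.comp Subtype.val_injective,
    fun _ ⟨a, ha⟩ => h1.ge (ha ▸ a.1.2), h2.ge⟩, h2.le⟩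

theorem sp_iso (h : Nat.card F = Nat.card F') :
    Nonempty (symplecticGroup (Fin n) F ≃* symplecticGroup (Fin n) F') := by
  cases nonempty_fintype F
  cases nonempty_fintype F'
  let e := FiniteField.ringEquivOfCardEq (K := F) (K' := F') (by simpa using h)
  exact ⟨{ toFun A := ⟨A.1.map e, SymplecticGroup.map_mem A.2 e⟩
           invFun A := ⟨A.1.map e.symm, SymplecticGroup.map_mem A.2 e.symm⟩
           left_inv A := by ext; simp
           right_inv A := by ext; simp
           map_mul' A B := Subtype.ext Matrix.map_mul }⟩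

omit [Finite F] [Finite F'] in
theorem brgb_map [StarRing F] [StarRing F'] (e : F →+* F') (h : ∀ a, e (star a) = star (e a)) :
    ∃ φ : specialUnitaryGroup (Fin n) F →* specialUnitaryGroup (Fin n) F',
      ∀ A i j, (φ A).1 i j = e (A.1 i j) :=
  ⟨((e.mapMatrix (m := Fin n)).toMonoidHom.comp (specialUnitaryGroup (Fin n) F).subtype).codRestrict
    (specialUnitaryGroup (Fin n) F') fun A => mem_specialUnitaryGroup_iff.2
    ⟨mem_unitaryGroup_iff.2 (by
      change e.mapMatrix A.1 * star (e.mapMatrix A.1) = 1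
      rw [show star (e.mapMatrix A.1) = e.mapMatrix (star A.1) from
        Matrix.ext fun i j => (h _).symm, ← map_mul, mem_unitaryGroup_iff.1 A.2.1, map_one]),
    (e.map_det A.1).symm.trans (by rw [(mem_specialUnitaryGroup_iff.1 A.2).2, map_one])⟩,
    fun _ _ _ => rfl⟩

theorem su_iso [StarRing F] [StarRing F'] {q : ℕ} (hc : Nat.card F = q ^ 2)
    (h : ∃ a : F, star a ≠ a) (hc' : Nat.card F' = q ^ 2) (h' : ∃ a : F', star a ≠ a) :
    Nonempty (specialUnitaryGroup (Fin n) F ≃* specialUnitaryGroup (Fin n) F') := by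
  cases nonempty_fintype F
  cases nonempty_fintype F'
  let e := FiniteField.ringEquivOfCardEq (K := F) (K' := F') (by simpa using hc.trans hc'.symm)
  obtain ⟨φ, h1⟩ := brgb_map (n := n) e.toRingHom fun a => by
    rw [star_eq_pow hc h, star_eq_pow hc' h', map_pow]
  obtain ⟨ψ, h2⟩ := brgb_map (n := n) e.symm.toRingHom fun a => by
    rw [star_eq_pow hc h, star_eq_pow hc' h', map_pow]
  exact ⟨MonoidHom.toMulEquiv φ ψ (by ext; simp [h1, h2]) (by ext; simp [h1, h2])⟩

theorem der_congr {Γ Γ' : Type} [Group Γ] [Group Γ'] (E : Γ ≃* Γ') :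
    Nonempty (commutator Γ ≃* commutator Γ') := by
  refine ⟨(E.subgroupMap (commutator Γ)).trans (MulEquiv.subgroupCongr ?_)⟩
  rw [map_commutator_eq, MonoidHom.range_eq_top.2 E.surjective, commutator_def]

section

omit [Finite F] [Finite F']

variable {V W : Type} [AddCommGroup V] [Module F V] [AddCommGroup W] [Module F' W]

/-- Conjugation by a semilinear bijection. -/
def brgc_cj (e : F ≃+* F') (E : V ≃+ W) (hE : ∀ a v, E (a • v) = e a • E v) (a : V ≃ₗ[F] V) :
    W ≃ₗ[F'] W :=
  (E.symm.trans (a.toAddEquiv.trans E)).toLinearEquiv fun c x => by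
    obtain ⟨c, rfl⟩ := e.surjective c
    obtain ⟨x, rfl⟩ := E.surjective x
    change E (a (E.symm _)) = _ • E (a (E.symm _))
    rw [← hE, E.symm_apply_apply, E.symm_apply_apply, map_smul, hE]

theorem brgc_cj_apply (e : F ≃+* F') (E : V ≃+ W) (hE : ∀ a v, E (a • v) = e a • E v)
    (a : V ≃ₗ[F] V) (w : W) : brgc_cj e E hE a w = E (a (E.symm w)) := rfl

theorem brgc_orth (e : F ≃+* F') (E : V ≃+ W) (hE : ∀ a v, E (a • v) = e a • E v)
    {Q : QuadraticForm F V} {Q' : QuadraticForm F' W} {c : F'} (hc : c ≠ 0)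
    (h : ∀ x, Q' (E x) = c * e (Q x)) : Nonempty (orth Q ≃* orth Q') := by
  have hE' : ∀ a w, E.symm (a • w) = e.symm a • E.symm w := fun a w =>
    E.injective (by rw [hE, E.apply_symm_apply, E.apply_symm_apply, e.apply_symm_apply])
  exact ⟨{
    toFun a := ⟨brgc_cj e E hE a, fun w => by
      obtain ⟨v, rfl⟩ := E.surjective w
      rw [brgc_cj_apply, E.symm_apply_apply, h, h, a.2 v]⟩
    invFun b := ⟨brgc_cj e.symm E.symm hE' b, fun v => e.injective (mul_left_cancel₀ hc (by
      rw [brgc_cj_apply, ← h, ← h, E.apply_symm_apply, b.2, E.symm_symm]))⟩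
    left_inv a := Subtype.ext (LinearEquiv.ext fun v => by simp [brgc_cj_apply])
    right_inv b := Subtype.ext (LinearEquiv.ext fun v => by simp [brgc_cj_apply])
    map_mul' a b := Subtype.ext (LinearEquiv.ext fun v => by simp [brgc_cj_apply]) }⟩

end

omit [Finite F] in
theorem om_sim {V W : Type} [AddCommGroup V] [Module F V] [AddCommGroup W] [Module F W]
    {Q : QuadraticForm F V} {Q' : QuadraticForm F W} {c : F} (hc : c ≠ 0) (g : V ≃ₗ[F] W)
    (h : ∀ x, Q' (g x) = c * Q x) : Nonempty (orth Q ≃* orth Q') := by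
  exact brgc_orth (RingEquiv.refl F) g.toAddEquiv g.map_smul hc h

theorem om_field (h : Nat.card F' = Nat.card F) (Q' : QuadraticForm F' (Fin n → F'))
    (hQ : Q'.polarBilin.Nondegenerate) :
    ∃ Q : QuadraticForm F (Fin n → F), (Frm.ofQ Q).Nd ∧ Nonempty (orth Q' ≃* orth Q) := by
  have := Fintype.ofFinite F
  have := Fintype.ofFinite F'
  let e : F' ≃+* F := FiniteField.ringEquivOfCardEq (by simpa using h)
  let E : (Fin n → F') ≃+ (Fin n → F) := AddEquiv.piCongrRight fun _ => e.toAddEquiv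
  have hE : ∀ (a : F') v, E (a • v) = e a • E v := fun a v => funext fun i => map_mul e a (v i)
  have hE' : ∀ (a : F) w, E.symm (a • w) = e.symm a • E.symm w := fun a w =>
    E.injective (by rw [hE, E.apply_symm_apply, E.apply_symm_apply, e.apply_symm_apply])
  let Q : QuadraticForm F (Fin n → F) :=
    { toFun v := e (Q' (E.symm v))
      toFun_smul a v := by rw [hE', Q'.map_smul]; simp
      exists_companion' := ⟨LinearMap.mk₂ F (fun v w => e (Q'.polarBilin (E.symm v) (E.symm w)))
        (fun a b w => by rw [map_add, map_add, LinearMap.add_apply, map_add])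
        (fun c a w => by rw [hE', map_smul, LinearMap.smul_apply]; simp)
        (fun a b w => by rw [map_add, map_add, map_add])
        (fun c a w => by rw [hE', map_smul]; simp), fun v w => by
          rw [map_add, QuadraticMap.map_add Q', map_add, map_add]; rfl⟩ }
  have hq : ∀ v, Q v = e (Q' (E.symm v)) := fun _ => rfl
  refine ⟨Q, fun x hx => ?_, brgc_orth e E hE one_ne_zero fun x => by
    rw [hq, E.symm_apply_apply, one_mul]⟩
  refine E.symm.injective ((hQ.1 _ fun y => e.injective ?_).trans (map_zero _).symm)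
  have h1 : QuadraticMap.polar Q x (E y) = 0 := hx (E y)
  rw [QuadraticMap.polar, hq, hq, hq, map_add, E.symm_apply_apply] at h1
  rw [map_zero, ← h1, QuadraticMap.polarBilin_apply_apply, QuadraticMap.polar, map_sub, map_sub]

theorem iso_of_card {G : Type} [Group G] [Finite G] {K : Subgroup G} [K.Normal]
    {H : Subgroup (G ⧸ K)} (h : Nat.card G ≤ Nat.card H) : Nonempty (G ≃* H) := by
  have h1 : Nat.card H ≤ Nat.card (G ⧸ K) := H.card_le_card_group
  have h2 : Nat.card (G ⧸ K) ≤ Nat.card G :=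
    Nat.card_le_card_of_surjective _ (QuotientGroup.mk'_surjective K)
  obtain rfl : H = ⊤ := H.eq_top_of_card_eq (by omega)
  exact ⟨(MulEquiv.ofBijective (QuotientGroup.mk' K) ((Nat.bijective_iff_surjective_and_card _).2
    ⟨QuotientGroup.mk'_surjective K, by omega⟩)).trans Subgroup.topEquiv.symm⟩

end Pool.Agent.Lib.MP_7d41f7_al
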