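import Pool.Agent.Lib.MP_7d41f7_al.C.AK
import Pool.Agent.Lib.MP_7d41f7_al.L.SEl

/-! The section of a group with the data of a classical group. -/

set_option autoImplicit false

namespace Pool.Agent.Lib.MP_7d41f7_al

open Subgroup

theorem cmain {G : Type} [Group G] [Finite G] {t : Ty} {n p f : ℕ} (hp : p.Prime) (hf : 0 < f)
    (hN : 64 ≤ t.dim n) (h : XData G t n (p ^ f)) :
    ∃ (K : Subgroup G) (_ : K.Normal) (H : Subgroup (G ⧸ K)), H.Normal ∧ IsSimpleGroup H ∧
      ¬ IsMulCommutative H ∧ centralizer (H : Set (G ⧸ K)) = ⊥ ∧ HOut H t n (p ^ f) := by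
  have q2 : 2 ≤ p ^ f := Nat.one_lt_pow hf.ne' hp.one_lt
  have n32 := Ty.n32 hN
  obtain ⟨c, hc, hc'⟩ := h.card
  obtain ⟨K, _, H, h0, h1, h2, h3, S⟩ := gsec h.cyc h.adj (fun i j => by
    obtain ⟨e, e1, e2, e3, e4⟩ : ∃ e, n ≤ e + 3 ∧ e < n ∧ e ≠ i ∧ e ≠ j := by
      by_contra a
      push Not at a
      have := a (n - 1) (by omega) (by omega)
      have := a (n - 2) (by omega) (by omega)
      have := a (n - 3) (by omega) (by omega)
      omega
    obtain ⟨r, hr, rfl⟩ := exists_ord (d := t.kd) q2 (by omega : 13 ≤ e)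
    refine ⟨r, hr, by omega, ?_, e3, e4⟩
    have a : (r : ℤ) ∣ t.ord n (p ^ f : ℕ) := (((Ord.dvd_iff _).2 dvd_rfl).trans
      (Finset.dvd_prod_of_mem (fun i => t.kd.bs (p ^ f) ^ i - 1)
        (Finset.mem_Ico.2 ⟨by omega, e2⟩))).trans (t.dvd_ord n _)
    rw [← hc, ← Nat.cast_mul, Int.natCast_dvd_natCast] at a
    exact (hr.dvd_mul.1 a).resolve_right fun d => by have := hc' r hr d; omega)
    fun r hr d => Ty.ord_le (by omega) hr (hc ▸ (Int.natCast_dvd_natCast.2 d).mul_right _)
  have sj := QuotientGroup.mk'_surjective K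
  have D : KData (Nat.card H) t n (p ^ f) := S.kdata q2 hN (by
    rw [mul_assoc, H.card_mul_index, mul_comm (Nat.card K),
      ← card_eq_card_quotient_mul_card_subgroup, hc]) hc'
  refine ⟨K, inferInstance, H, h0, h1, h2, h3, fun m => ⟨fun φ => ?_⟩, fun m F _ _ => ⟨fun φ => ?_⟩,
    fun m u => D.uni hp hf, fun m u => D.sym hp hf, fun m u => D.dp hp hf, fun m u => D.dm hp hf,
    fun u => D.exc hp hf, D.not_spor⟩
  · rcases subsingleton_or_nontrivial (Fin m) with a | a
    · have := φ.injective.subsingleton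
      exact false_of_nontrivial_of_subsingleton H
    refine D.not_alt (m := m) hp ?_ fun r hr g _ => alt_lt hr
      (Ord.ne_two (b := t.kd.bs (p ^ f)) (by omega))
      ((((h.cyc r hr g).of_surj sj hr).sub hr H).of_surj (φ := φ.toMonoidHom) φ.surjective hr)
    rw [Nat.card_congr φ.toEquiv, two_mul_nat_card_alternatingGroup, Nat.card_perm, Nat.card_fin]
  · have hm : 2 ≤ m := by
      by_contra hm
      have := pl_small (F := F) (not_le.1 hm)
      have := φ.injective.subsingleton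
      exact false_of_nontrivial_of_subsingleton H
    have := Fintype.ofFinite F
    obtain ⟨g, hv, hg⟩ := FiniteField.card F (ringChar F)
    rw [← Nat.card_eq_fintype_card] at hg
    obtain ⟨ht, rfl, e⟩ := D.lin hp hf (hg ▸ hv.prime.isPrimePow.pow g.ne_zero) hm
      (by rw [Nat.card_congr φ.toEquiv]; exact card_PL (by omega))
    obtain ⟨r, hr⟩ := zsig q2 (by omega : 3 ≤ 2 * m) (by omega)
    obtain ⟨u, hu⟩ := zsig q2 (by omega : 3 ≤ m) (by omega)
    have cp : (u * r).Coprime (Nat.card F - 1) := e ▸ Nat.Coprime.mul_left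
      (hu.pr.coprime_iff_not_dvd.2 (hu.min 2 two_pos (by omega)))
      (hr.pr.coprime_iff_not_dvd.2 (hr.min 2 two_pos (by omega)))
    obtain ⟨A, hA⟩ := exists_el (F := F) (n := m) (m := m) (e := u * r) (by omega) le_rfl (by
      rw [e, ← pow_mul]
      exact ((Nat.coprime_primes hu.pr hr.pr).2 fun a => hr.min m (by omega) (by omega)
        (a ▸ hu.dvd)).mul_dvd_of_dvd_of_dvd ((hu.dvd_iff (by omega) (by omega) _).2
          (dvd_mul_left _ _)) hr.dvd) cp
    exact h.adjL ht r u hr hu (Adj.of_surj sj (Adj.of_sub (H := H) (Adj.of_surj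
      (φ := φ.toMonoidHom) φ.surjective ⟨_, (orderOf_mk_center (hA ▸ cp.coprime_dvd_right
        (card_center (F := F) (by omega : 0 < m) ▸ Nat.gcd_dvd_right _ _))).trans hA⟩)))

end Pool.Agent.Lib.MP_7d41f7_al
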