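import Pool.Agent.Lib.MP_7d41f7_al.C.PDef
import Pool.Agent.Lib.MP_7d41f7_al.L.SPerm

/-! The eigenspaces of an invariant matrix. -/

set_option autoImplicit false

namespace Pool.Agent.Lib.MP_7d41f7_al

open Finset Polynomial Pool.Agent.Lib.MP_b6945b_al

variable {G Ω : Type} [Group G] [Fintype G] [Fintype Ω] [DecidableEq Ω]

theorem idem_char_aux1 {E : Matrix Ω Ω ℂ} (hE : E * E = E) :
    ∃ (r : ℕ) (U : Matrix Ω (Fin r) ℂ) (V : Matrix (Fin r) Ω ℂ), U * V = E ∧ V * U = 1 := by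
  let b := Module.finBasis ℂ (LinearMap.range (Matrix.toLin' E))
  refine ⟨_, LinearMap.toMatrix b (Pi.basisFun ℂ Ω) (LinearMap.range (Matrix.toLin' E)).subtype,
    LinearMap.toMatrix (Pi.basisFun ℂ Ω) b (Matrix.toLin' E).rangeRestrict, ?_, ?_⟩
  · rw [← LinearMap.toMatrix_comp, LinearMap.toMatrix_eq_toMatrix']
    exact LinearMap.toMatrix'_toLin' E
  · rw [← LinearMap.toMatrix_comp, ← LinearMap.toMatrix_id b]
    refine congrArg _ (LinearMap.ext fun ⟨_, x, rfl⟩ => Subtype.ext ?_)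
    exact (Matrix.toLin'_mul_apply E E x).symm.trans (by rw [hE]; rfl)

/-- The image of an invariant idempotent is a representation. -/
theorem idem_char (I : IrrData G) (ρ : G →* Matrix Ω Ω ℂ) {E : Matrix Ω Ω ℂ} (hE : E * E = E)
    (hc : ∀ g, ρ g * E = E * ρ g) :
    ∃ a : Fin I.n → ℕ, ∀ g, (ρ g * E).trace = ∑ j, a j * I.χ j g := by
  obtain ⟨r, U, V, rfl, h⟩ := idem_char_aux1 hE
  let σ : G →* Matrix (Fin r) (Fin r) ℂ :=
    { toFun := fun g => V * (ρ g * U)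
      map_one' := by rw [map_one, Matrix.one_mul, h]
      map_mul' := fun g k => by
        rw [Matrix.mul_assoc V, Matrix.mul_assoc _ U, ← Matrix.mul_assoc U,
          ← Matrix.mul_assoc (U * V), ← hc, Matrix.mul_assoc _ (U * V), Matrix.mul_assoc U, h,
          Matrix.mul_one, map_mul, Matrix.mul_assoc] }
  choose m h1 _ using mlt_nat I σ
  refine ⟨m, fun g => ?_⟩
  simp only [← h1]
  rw [← Matrix.mul_assoc, Matrix.trace_mul_comm]
  exact expand I (ch1_cf σ) g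

/-- Each of the sums `∑ j, a k j` is at least one. -/
theorem single_of_le {ι κ : Type} [Fintype κ] [DecidableEq κ] (s : Finset ι) (a : ι → κ → ℕ)
    (h0 : ∀ k ∈ s, a k ≠ 0) (h : ∑ j, (∑ k ∈ s, a k j) * ∑ k ∈ s, a k j ≤ s.card) :
    ∀ k ∈ s, ∃ j, a k = Pi.single j 1 := by
  have h1 : ∀ k ∈ s, 1 ≤ ∑ j, a k j := fun k hk => Nat.one_le_iff_ne_zero.2 fun e =>
    h0 k hk (funext fun j => sum_eq_zero_iff.1 e j (mem_univ j))
  have h2 := (sum_le_sum fun j _ => Nat.le_mul_self (∑ k ∈ s, a k j)).trans h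
  rw [sum_comm, card_eq_sum_ones] at h2
  intro k hk
  have h3 := (sum_eq_sum_iff_of_le h1).1 (le_antisymm (sum_le_sum h1) h2) k hk
  obtain ⟨j, hj⟩ := Function.ne_iff.1 (h0 k hk)
  rw [← add_sum_erase _ _ (mem_univ j)] at h3
  have h4 : a k j = 1 ∧ ∑ l ∈ univ.erase j, a k l = 0 := by
    rw [Pi.zero_apply] at hj
    omega
  refine ⟨j, funext fun l => ?_⟩
  rcases eq_or_ne l j with rfl | e
  · rw [h4.1, Pi.single_eq_same]
  · rw [sum_eq_zero_iff.1 h4.2 l (mem_erase.2 ⟨e, mem_univ l⟩), Pi.single_eq_of_ne e]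

/-- Lagrange interpolation (`Lagrange.sum_basis`, `Lagrange.basis`): with
`c k = ∏ l ∈ s.erase k, (θ k - θ l)` the matrices `E k = (c k)⁻¹ • P k` sum to one; `A * P k = θ k •
P k`, hence `f(A) * P k = f(θ k) • P k`. -/
theorem lagr {R : Type} [Ring R] [Algebra ℂ R] (A : R) (θ : ℕ → ℤ) (s : Finset ℕ)
    (hs : s.Nonempty) (hθ : Set.InjOn θ s) (h0 : aeval A (pol θ s) = 0) :
    ∃ E : ℕ → R, ∑ k ∈ s, E k = 1 ∧ ∀ k ∈ s, E k * E k = E k ∧
      aeval A (pol θ (s.erase k)) = ((∏ l ∈ s.erase k, (θ k - θ l) : ℤ) : ℂ) • E k := by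
  have h1 : ∀ t, aeval A (pol θ t) = aeval A (Lagrange.nodal t fun l => (θ l : ℂ)) := fun t => by
    rw [← aeval_map_algebraMap ℂ]
    simp [pol, Lagrange.nodal, Polynomial.map_prod]
  have h2 : Set.InjOn (fun l => (θ l : ℂ)) s := fun a ha b hb e => hθ ha hb (Int.cast_injective e)
  refine ⟨fun k => aeval A (Lagrange.basis s (fun l => (θ l : ℂ)) k),
    by rw [← map_sum, Lagrange.sum_basis h2 hs, map_one], fun k hk => ?_⟩
  have h3 := Lagrange.basis_eq_prod_sub_inv_mul_nodal_div (v := fun l => (θ l : ℂ)) hk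
  rw [← Lagrange.nodal_erase_eq_nodal_div hk] at h3
  constructor
  · obtain ⟨q, hq⟩ : X - C (θ k : ℂ) ∣ Lagrange.basis s (fun l => (θ l : ℂ)) k - 1 :=
      dvd_iff_isRoot.2 (by simp [Lagrange.eval_basis_self h2 hk])
    rw [h1, Lagrange.nodal_eq_mul_nodal_erase hk] at h0
    rw [← map_mul, ← sub_eq_zero, ← map_sub, ← mul_sub_one, hq, h3, mul_right_comm, mul_comm,
      mul_left_comm (C _), ← mul_assoc, mul_comm (Lagrange.nodal _ _), map_mul,
      h0, zero_mul]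
  · beta_reduce
    rw [h1, h3, map_mul, aeval_C, ← Algebra.smul_def, smul_smul, Lagrange.nodalWeight,
      prod_inv_distrib, Int.cast_prod]
    simp only [Int.cast_sub]
    rw [mul_inv_cancel₀ (prod_ne_zero_iff.2 fun l hl => sub_ne_zero.2 fun e =>
      (mem_erase.1 hl).1 (h2 hk (mem_erase.1 hl).2 e).symm), one_smul]

omit [Fintype G] in
/-- a polynomial in an invariant matrix is invariant (`Polynomial.induction_on'`) -/
theorem inv_aeval [MulAction G Ω] {A : Matrix Ω Ω ℤ} (hA : ∀ (g : G) a b, A (g • a) (g • b) = A a b)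
    (f : ℤ[X]) (g : G) (a b : Ω) : aeval A f (g • a) (g • b) = aeval A f a b := by
  have h : (Matrix.reindexAlgEquiv ℤ ℤ (MulAction.toPerm g : Ω ≃ Ω).symm) A = A :=
    Matrix.ext (hA g)
  have := aeval_algHom_apply (Matrix.reindexAlgEquiv ℤ ℤ (MulAction.toPerm g : Ω ≃ Ω).symm) A f
  rw [h] at this
  exact (congrFun (congrFun this a) b).symm

/-- The permutation representation. -/
def spec_irr_rep (G Ω : Type) [Group G] [Fintype Ω] [DecidableEq Ω] [MulAction G Ω] :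
    G →* Matrix Ω Ω ℂ where
  toFun g := Matrix.of fun a b => if a = g • b then 1 else 0
  map_one' := by
    ext a b
    simp [Matrix.one_apply]
  map_mul' g h := by
    ext a b
    simp [Matrix.mul_apply, mul_smul]

theorem spec_irr_zero {E : Matrix Ω Ω ℂ} (h : E * E = E) (h0 : E.trace = 0) : E = 0 := by
  have h1 : IsIdempotentElem (Matrix.toLin' E) := by
    change Matrix.toLin' E ∘ₗ Matrix.toLin' E = Matrix.toLin' E
    rw [← Matrix.toLin'_mul, h]
  have h2 := (LinearMap.IsIdempotentElem.isProj_range _ h1).trace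
  rw [Matrix.trace_toLin'_eq, h0, eq_comm, Nat.cast_eq_zero, Submodule.finrank_eq_zero,
    LinearMap.range_eq_bot] at h2
  exact Matrix.toLin'.map_eq_zero_iff.1 h2

/-- `lagr`, `idem_char`, `sperma_orb`, `single_of_le`. -/
theorem spec_irr [MulAction G Ω] (I : IrrData G) {A : Matrix Ω Ω ℤ}
    (hA : ∀ (g : G) a b, A (g • a) (g • b) = A a b) (θ : ℕ → ℤ) (s : Finset ℕ)
    (hθ : Set.InjOn θ s) (h0 : aeval A (pol θ s) = 0)
    (h1 : ∀ k ∈ s, aeval A (pol θ (s.erase k)) ≠ 0) (ho : nOrb G (Ω × Ω) ≤ s.card) {k : ℕ}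
    (hk : k ∈ s) : ∃ i, ∀ g : G, ((∏ l ∈ s.erase k, (θ k - θ l) : ℤ) : ℂ) * I.χ i g =
      ((∑ a, aeval A (pol θ (s.erase k)) a (g • a) : ℤ) : ℂ) := by
  let ρ := spec_irr_rep G Ω
  let φ : Matrix Ω Ω ℤ →+* Matrix Ω Ω ℂ := (Int.castRingHom ℂ).mapMatrix
  have hφ : ∀ f : ℤ[X], @aeval ℤ _ _ _ (Ring.toIntAlgebra _) (φ A) f = φ (aeval A f) := fun f => by
    simp only [aeval_def, hom_eval₂]
    exact congrArg (eval₂ · _ f) (RingHom.ext_int _ _)
  have r1 : ∀ (M : Matrix Ω Ω ℂ) (g : G) a b, (M * ρ g) a b = M a (g • b) := fun M g a b => by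
    simp [ρ, spec_irr_rep, Matrix.mul_apply]
  have r2 : ∀ (M : Matrix Ω Ω ℂ) (g : G) a b, (ρ g * M) a b = M (g⁻¹ • a) b := fun M g a b => by
    simp [ρ, spec_irr_rep, Matrix.mul_apply, ← inv_smul_eq_iff]
  obtain ⟨E, e1, e2⟩ := lagr (φ A) θ s ⟨k, hk⟩ hθ (by rw [hφ, h0, map_zero])
  simp only [hφ] at e2
  have e3 : ∀ k ∈ s, ∀ g, ρ g * E k = E k * ρ g := fun k hk g => by
    have c0 : ((∏ l ∈ s.erase k, (θ k - θ l) : ℤ) : ℂ) ≠ 0 :=
      Int.cast_ne_zero.2 (prod_ne_zero_iff.2 fun l hl => sub_ne_zero.2 fun e =>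
        (mem_erase.1 hl).1 (hθ hk (mem_erase.1 hl).2 e).symm)
    refine smul_right_injective _ c0 ?_
    simp only
    rw [← mul_smul_comm, ← smul_mul_assoc, ← (e2 k hk).2]
    ext a b
    rw [r1, r2]
    exact congrArg Int.cast (by rw [← inv_aeval hA _ g, smul_inv_smul])
  choose! a ha using fun k hk => idem_char I ρ (e2 k hk).1 (e3 k hk)
  have e4 : ∀ g : G, (nFix Ω g : ℂ) = ∑ j, (∑ k ∈ s, a k j : ℕ) * I.χ j g := fun g => by
    simp only [Nat.cast_sum, sum_mul]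
    rw [sum_comm, ← sum_congr rfl fun k hk => ha k hk g, ← Matrix.trace_sum, ← mul_sum, e1, mul_one,
      nFix, Nat.card_eq_fintype_card, Fintype.card_subtype]
    simp [ρ, spec_irr_rep, Matrix.trace, eq_comm]
  obtain ⟨j, hj⟩ := single_of_le s a (fun k hk e => h1 k hk (by
    have z := ha k hk 1
    rw [map_one, one_mul, e] at z
    have z1 := (e2 k hk).2
    rw [spec_irr_zero (e2 k hk).1 (by simpa using z), smul_zero] at z1
    ext a b
    exact Int.cast_eq_zero (α := ℂ).1 (congrFun (congrFun z1 a) b)))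
    ((sperma_orb I e4 e4).symm.trans_le ho) k hk
  refine ⟨j, fun g => ?_⟩
  have z := ha k hk g
  rw [hj, e3 k hk] at z
  rw [show I.χ j g = (E k * ρ g).trace by simp [z, Pi.single_apply], ← smul_eq_mul,
    ← Matrix.trace_smul, ← smul_mul_assoc, ← (e2 k hk).2, Int.cast_sum]
  exact sum_congr rfl fun a _ => r1 _ g a a

end Pool.Agent.Lib.MP_7d41f7_al
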