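import Pool.Agent.Lib.MP_7d41f7_al.C.PDef

/-! The dual polar graph: matrix identities. -/

set_option autoImplicit false

namespace Pool.Agent.Lib.MP_7d41f7_al

open Finset Module Polynomial Matrix

variable {F V : Type} [Field F] [Finite F] [AddCommGroup V] [Module F V] [Finite V]
  {T : Submodule F V → Prop} {N t k : ℕ}

theorem card_up_aux1 (X : Type) [AddCommGroup X] [Module F X] [Finite X] :
    (Nat.card {L : Submodule F X // finrank F L = 1} : ℤ) = gq (Nat.card F) (finrank F X) := by
  rw [← Nat.card_congr (Projectivization.equivSubmodule F X),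
    Projectivization.card_of_finrank F X rfl, gq]
  push_cast
  rfl

omit [Finite F] in
theorem card_up_aux2 {W U : Submodule F V} (h : W ≤ U) (p : ℕ → Prop) :
    Nat.card {H : Submodule F V // W ≤ H ∧ H ≤ U ∧ p (finrank F H)} =
      Nat.card {L : Submodule F (U ⧸ W.comap U.subtype) // p (finrank F L + finrank F W)} := by
  have hr : ∀ L : Submodule F (U ⧸ W.comap U.subtype),
      finrank F ((L.comap (W.comap U.subtype).mkQ).map U.subtype) = finrank F L + finrank F W := by
    intro L
    have h1 := LinearMap.finrank_range_add_finrank_ker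
      ((W.comap U.subtype).mkQ.domRestrict (L.comap (W.comap U.subtype).mkQ))
    rw [LinearMap.range_domRestrict, LinearMap.ker_domRestrict, Submodule.ker_mkQ,
      Submodule.map_comap_eq_of_surjective (Submodule.mkQ_surjective _),
      (Submodule.comapSubtypeEquivOfLe (Submodule.le_comap_mkQ _ L)).finrank_eq,
      (Submodule.comapSubtypeEquivOfLe h).finrank_eq] at h1
    rw [Submodule.finrank_map_subtype_eq, h1]
  symm
  refine Nat.card_congr (Equiv.ofBijective (fun L => ⟨(L.1.comap (W.comap U.subtype).mkQ).map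
    U.subtype, ?_, Submodule.map_subtype_le _ _, by rw [hr]; exact L.2⟩) ⟨?_, ?_⟩)
  · intro x hx
    exact ⟨⟨x, h hx⟩, Submodule.le_comap_mkQ _ L.1 hx, rfl⟩
  · intro L L' hL
    exact Subtype.ext (Submodule.comap_injective_of_surjective (Submodule.mkQ_surjective _)
      (Submodule.map_injective_of_injective U.injective_subtype (congrArg Subtype.val hL)))
  · rintro ⟨H, h1, h2, h3⟩
    have he : (((H.comap U.subtype).map (W.comap U.subtype).mkQ).comap
        (W.comap U.subtype).mkQ).map U.subtype = H := by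
      rw [Submodule.comap_map_mkQ, sup_eq_right.2 (Submodule.comap_mono h1),
        Submodule.map_comap_subtype, inf_eq_right.2 h2]
    exact ⟨⟨(H.comap U.subtype).map (W.comap U.subtype).mkQ, by rw [← hr, he]; exact h3⟩,
      Subtype.ext he⟩

omit [Finite F] in
theorem card_up_aux3 {W U : Submodule F V} (h : W ≤ U) :
    finrank F (U ⧸ W.comap U.subtype) + finrank F W = finrank F U := by
  rw [← (Submodule.comapSubtypeEquivOfLe h).finrank_eq, Submodule.finrank_quotient_add_finrank]

/-- Points of the quotient. -/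
theorem card_up {W U : Submodule F V} (h : W ≤ U) :
    (Nat.card {H : Submodule F V // W ≤ H ∧ H ≤ U ∧ finrank F H = finrank F W + 1} : ℤ) =
      gq (Nat.card F) (finrank F U - finrank F W) := by
  have _ : Finite (U ⧸ W.comap U.subtype) := Finite.of_surjective _ (Submodule.mkQ_surjective _)
  rw [card_up_aux2 h (fun m => m = finrank F W + 1), ← card_up_aux3 h, Nat.add_sub_cancel,
    ← card_up_aux1]
  exact congrArg _ (Nat.card_congr (Equiv.subtypeEquivRight fun L => by omega))

theorem card_down_aux1 (X : Type) [AddCommGroup X] [Module F X] [Finite X] :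
    (Nat.card {L : Submodule F X // finrank F L + 1 = finrank F X} : ℤ) =
      gq (Nat.card F) (finrank F X) := by
  have _ : Finite (Dual F X) := Module.finite_of_finite F
  have h1 := card_up_aux1 (F := F) (Dual F X)
  rw [Subspace.dual_finrank_eq] at h1
  rw [← h1]
  refine congrArg _ (Nat.card_congr (Equiv.ofBijective
    (fun L => ⟨L.1.dualAnnihilator, ?_⟩) ⟨?_, ?_⟩))
  · have := Subspace.finrank_add_finrank_dualAnnihilator_eq L.1
    have := L.2
    omega
  · intro L L' hL
    exact Subtype.ext (Subspace.dualAnnihilator_inj.1 (congrArg Subtype.val hL))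
  · rintro ⟨D, hD⟩
    refine ⟨⟨D.dualCoannihilator, ?_⟩,
      Subtype.ext Subspace.dualCoannihilator_dualAnnihilator_eq⟩
    have := Subspace.finrank_add_finrank_dualCoannihilator_eq D
    omega

/-- Hyperplanes of the quotient. -/
theorem card_down {W U : Submodule F V} (h : W ≤ U) :
    (Nat.card {H : Submodule F V // W ≤ H ∧ H ≤ U ∧ finrank F H + 1 = finrank F U} : ℤ) =
      gq (Nat.card F) (finrank F U - finrank F W) := by
  have h3 := card_up_aux3 h
  have _ : Finite (U ⧸ W.comap U.subtype) := Finite.of_surjective _ (Submodule.mkQ_surjective _)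
  rw [card_up_aux2 h (fun m => m + 1 = finrank F U),
    show finrank F U - finrank F W = finrank F (U ⧸ W.comap U.subtype) by omega, ← card_down_aux1]
  exact congrArg _ (Nat.card_congr (Equiv.subtypeEquivRight fun L => by omega))

open scoped Classical in
omit [Finite F] in
theorem adj_le_aux1 (U : TS T N) (W : TS T k) : (adjm T N * inc T N k) U W = (univ.filter
    fun U' : TS T N => finrank F (U.1 ⊓ U'.1 : Submodule F V) + 1 = N ∧ W.1 ≤ U'.1).card := by
  simp only [mul_apply, adjm, inc, of_apply, ite_zero_mul_ite_zero, mul_one, sum_boole]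

/-- Sort the neighbours `U'` of `U` above `W` by the hyperplane `H = U ⊓ U'` of `U`. -/
theorem Polar.adj_le (P : Polar T N t) (U : TS T N) (W : TS T k) (h : W.1 ≤ U.1) :
    (adjm T N * inc T N k) U W = t * gq (Nat.card F) (N - k) := by
  classical
  have := Fintype.ofFinite V
  have := Module.Finite.of_finite (R := F) (M := V)
  have c := card_down h
  rw [U.2.2, W.2.2, Nat.subtype_card (univ.filter _) fun _ => mem_filter_univ _] at c
  rw [adj_le_aux1, ← c, card_eq_sum_card_fiberwise (f := fun U' : TS T N => U.1 ⊓ U'.1)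
    (t := univ.filter fun H => W.1 ≤ H ∧ H ≤ U.1 ∧ finrank F H + 1 = N) fun U' h' =>
      let ⟨a, b⟩ := (mem_filter.1 h').2
      mem_filter.2 ⟨mem_univ _, le_inf h b, inf_le_left, a⟩, sum_const_nat (m := t) fun H hH => ?_]
  · rw [Nat.cast_mul, mul_comm]
  obtain ⟨-, h1, h2, h3⟩ := mem_filter.1 hH
  have e1 : Nat.card {U' : TS T N // H ≤ U'.1} = t + 1 := (Nat.card_congr
    ((Equiv.subtypeSubtypeEquivSubtypeInter _ (H ≤ ·)).trans
      (Equiv.subtypeEquivRight fun _ => and_assoc))).trans (P.cnt (P.down U.2.1 h2) h3)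
  rw [Nat.subtype_card (univ.filter _) fun _ => mem_filter_univ _] at e1
  have e := (card_erase_add_one (a := U) (mem_filter.2 ⟨mem_univ U, h2⟩)).trans e1
  refine (congrArg card (Finset.ext fun U' => ?_)).trans (Nat.succ_injective e)
  simp only [mem_filter, mem_univ, true_and, mem_erase]
  refine ⟨fun ⟨⟨a, _⟩, b⟩ => ⟨?_, b ▸ inf_le_right⟩, fun ⟨a, b⟩ => ?_⟩
  · rintro rfl
    rw [inf_idem, U'.2.2] at a
    omega
  · have l := Submodule.finrank_lt_finrank_of_lt (inf_lt_left.2 fun l : U.1 ≤ U'.1 =>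
      a (Subtype.ext (Submodule.eq_of_le_of_finrank_eq l (U.2.2.trans U'.2.2.symm)).symm))
    rw [U.2.2] at l
    obtain rfl := Submodule.eq_of_le_of_finrank_le (le_inf h2 b) (by omega)
    exact ⟨⟨h3, h1.trans b⟩, rfl⟩

/-- A neighbour `U'` above `W` forces `finrank (U ⊓ W) + 1 = k`. -/
theorem Polar.adj_not (P : Polar T N t) (U : TS T N) (W : TS T k) (h : ¬ W.1 ≤ U.1) :
    (adjm T N * inc T N k) U W =
      if finrank F (U.1 ⊓ W.1 : Submodule F V) + 1 = k then 1 else 0 := by
  classical
  have := Module.Finite.of_finite (R := F) (M := V)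
  rw [adj_le_aux1]
  split_ifs with e
  · obtain ⟨X, ⟨a, b, c, d⟩, u⟩ := P.nbr U.2.1 U.2.2 W.2.1 (e.trans W.2.2.symm)
    rw [Nat.cast_eq_one, card_eq_one]
    refine ⟨⟨X, a, b⟩, eq_singleton_iff_unique_mem.2 ⟨mem_filter.2 ⟨mem_univ _, d, c⟩,
      fun Y hY => Subtype.ext (u _ ⟨Y.2.1, Y.2.2, ?_⟩)⟩⟩
    exact (mem_filter.1 hY).2.symm
  · rw [Nat.cast_eq_zero, card_eq_zero, filter_eq_empty_iff]
    rintro Y - ⟨a, b⟩
    have l := Submodule.finrank_lt_finrank_of_lt (inf_lt_right.2 h)
    have s := Submodule.finrank_sup_add_finrank_inf_eq (U.1 ⊓ Y.1) W.1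
    have m := Submodule.finrank_mono (sup_le (inf_le_right (a := U.1)) b)
    rw [inf_assoc, inf_eq_right.2 b] at s
    rw [Y.2.2] at m
    rw [W.2.2] at l s
    omega

omit [Finite F] in
open scoped Classical in
theorem Polar.step1_aux (p q r : Submodule F V → Prop)
    (h : ∀ H, r H ↔ (p H ∧ q H) ∧ T H ∧ finrank F H = k) :
    ∑ H : TS T k, (if p H.1 then (1 : ℤ) else 0) * (if q H.1 then 1 else 0) =
      Nat.card {H // r H} := by
  simp only [ite_zero_mul_ite_zero, one_mul, sum_boole]
  rw [← Nat.subtype_card (p := fun H : TS T k => p H.1 ∧ q H.1) _ fun H => by simp]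
  exact congrArg _ (Nat.card_congr ⟨fun H => ⟨H.1.1, (h _).2 ⟨H.2, H.1.2⟩⟩,
    fun H => ⟨⟨H.1, ((h _).1 H.2).2⟩, ((h _).1 H.2).1⟩, fun _ => rfl, fun _ => rfl⟩)

/-- Entry `(U, W)` of the right side: the number of hyperplanes of `W` inside `U ⊓ W`. -/
theorem Polar.step1 (P : Polar T N t) :
    adjm T N * inc T N (k + 1) = th (Nat.card F) N t (k + 1) • inc T N (k + 1) +
      inc T N k * (inc T (k + 1) k)ᵀ := by
  ext U W
  rw [Matrix.add_apply, Matrix.smul_apply, mul_apply (M := inc T N k)]
  by_cases h : W.1 ≤ U.1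
  · have h1 := card_down (bot_le : ⊥ ≤ W.1)
    rw [← Polar.step1_aux (T := T) (k := k) (· ≤ U.1) (· ≤ W.1) _ fun H =>
      ⟨fun e => ⟨⟨e.2.1.trans h, e.2.1⟩, P.down W.2.1 e.2.1, by have := W.2.2; omega⟩,
        fun e => ⟨bot_le, e.1.2, by rw [e.2.2, W.2.2]⟩⟩, W.2.2, finrank_bot] at h1
    rw [P.adj_le U W h]
    exact Eq.trans (by simp [inc, th, h]) (congrArg _ h1.symm)
  · have h1 : finrank F (U.1 ⊓ W.1 : Submodule F V) < k + 1 := (Submodule.finrank_lt_finrank_of_lt
      (inf_le_right.lt_of_ne fun e => h (inf_eq_right.1 e))).trans_eq W.2.2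
    rw [P.adj_not U W h]
    refine Eq.trans ?_ (congrArg _ (Polar.step1_aux (T := T) (k := k) (· ≤ U.1) (· ≤ W.1)
      (fun H => H = U.1 ⊓ W.1 ∧ finrank F H = k) fun H => ⟨fun e => ⟨le_inf_iff.1 e.1.le,
        P.down W.2.1 (e.1.le.trans inf_le_right), e.2⟩, fun e => ⟨Submodule.eq_of_le_of_finrank_le
          (le_inf_iff.2 e.1) (by have := e.2.2; omega), e.2.2⟩⟩).symm)
    split_ifs with h2
    · rw [Nat.card_eq_one_iff_exists.2 ⟨⟨_, rfl, by omega⟩, fun H => Subtype.ext H.2.1⟩]
      simp [inc, h]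
    · have : IsEmpty {H // H = U.1 ⊓ W.1 ∧ finrank F H = k} :=
        ⟨fun H => h2 (by rw [← H.2.1, H.2.2])⟩
      simp [inc, h]

theorem Polar.step0 (P : Polar T N t) :
    adjm T N * inc T N 0 = th (Nat.card F) N t 0 • inc T N 0 := by
  ext U W
  have h : W.1 ≤ U.1 := (Submodule.finrank_eq_zero.1 W.2.2).trans_le bot_le
  rw [P.adj_le U W h]
  simp [inc, th, gq, h]

theorem Polar.step2 (P : Polar T N t) :
    inc T N (k + 1) * inc T (k + 1) k = gq (Nat.card F) (N - k) • inc T N k := by
  ext U W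
  rw [Matrix.smul_apply, mul_apply]
  by_cases h : W.1 ≤ U.1
  · have h1 := card_up h
    rw [← Polar.step1_aux (T := T) (k := k + 1) (· ≤ U.1) (W.1 ≤ ·) _ fun H =>
      ⟨fun e => ⟨⟨e.2.1, e.1⟩, P.down U.2.1 e.2.1, W.2.2 ▸ e.2.2⟩,
        fun e => ⟨e.1.2, e.1.1, by rw [e.2.2, W.2.2]⟩⟩, W.2.2, U.2.2] at h1
    exact h1.trans (by simp [inc, h])
  · refine (sum_eq_zero fun H _ => ?_).trans (by simp [inc, h])
    simpa [inc] using fun h1 h2 => h (le_trans h1 h2)

/-- Downward induction on `k`: `inc N N = 1`, and with `G k = inc N k * (inc N k)ᵀ`,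
`(A - θ (k + 1)) * G (k + 1) = gq (N - k) • G k` by `step1`, `step2`. -/
theorem Polar.upper (P : Polar T N t) (hk : k ≤ N) :
    aeval (adjm T N) (pol (th (Nat.card F) N t) (Ioc k N)) =
      (∏ l ∈ Icc 1 (N - k), gq (Nat.card F) l) • (inc T N k * (inc T N k)ᵀ) := by
  induction hk using Nat.decreasingInduction with
  | self =>
    have : inc T N N = 1 := Matrix.ext fun U W => by
      classical
      rw [inc, of_apply, one_apply]
      exact if_congr ⟨fun h => Subtype.ext (Submodule.eq_of_le_of_finrank_eq h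
        (W.2.2.trans U.2.2.symm)).symm, fun h => h ▸ le_rfl⟩ rfl rfl
    simp [pol, this]
  | of_succ k hk ih =>
    have h1 : N - k = N - (k + 1) + 1 := by omega
    rw [← insert_Ioc_add_one_left_eq_Ioc hk, pol, prod_insert (by simp), map_mul, ← pol, ih, h1,
      prod_Icc_succ_top (by omega), ← h1, mul_smul_comm, mul_smul, map_sub, aeval_X, aeval_C,
      sub_mul, ← Algebra.smul_def, ← Matrix.mul_assoc, P.step1, Matrix.add_mul, Matrix.smul_mul,
      add_sub_cancel_left, Matrix.mul_assoc, ← transpose_mul, P.step2, transpose_smul,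
      Matrix.mul_smul]

/-- `upper` with `k = 0`, `step0` -/
theorem Polar.zero (P : Polar T N t) :
    aeval (adjm T N) (pol (th (Nat.card F) N t) (range (N + 1))) = 0 := by
  have h : range (N + 1) = insert 0 (Ioc 0 N) := by
    ext
    simp only [mem_range, mem_insert, mem_Ioc]
    omega
  rw [h, pol, prod_insert (by simp), map_mul, ← pol, P.upper N.zero_le, mul_smul_comm, map_sub,
    aeval_X, aeval_C, sub_mul, ← Algebra.smul_def, ← Matrix.mul_assoc, P.step0, Matrix.smul_mul,
    sub_self, smul_zero]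

/-- induction on `l`: a path of length `l` lowers the dimension of the intersection by at most `l` -/
theorem adjm_pow (l : ℕ) (U U' : TS T N)
    (h : finrank F (U.1 ⊓ U'.1 : Submodule F V) + l < N) : (adjm T N ^ l) U U' = 0 := by
  induction l generalizing U' with
  | zero =>
    refine one_apply_ne fun e => ?_
    rw [← e, inf_idem, U.2.2] at h
    exact h.false
  | succ l ih =>
    rw [pow_succ, mul_apply]
    refine sum_eq_zero fun W _ => ?_
    by_cases h1 : finrank F (W.1 ⊓ U'.1 : Submodule F V) + 1 = N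
    · have h2 := Submodule.finrank_sup_add_finrank_inf_eq (U.1 ⊓ W.1) (W.1 ⊓ U'.1)
      have h3 := Submodule.finrank_mono (sup_le inf_le_right inf_le_left :
        U.1 ⊓ W.1 ⊔ W.1 ⊓ U'.1 ≤ W.1)
      have h4 := Submodule.finrank_mono (inf_le_inf inf_le_left inf_le_right :
        U.1 ⊓ W.1 ⊓ (W.1 ⊓ U'.1) ≤ U.1 ⊓ U'.1)
      have h5 := W.2.2
      rw [ih W (by omega), zero_mul]
    · rw [adjm, of_apply, if_neg h1, mul_zero]

/-- Take the entry at an opposite pair.  The polynomial and `pol θ (Ioc 0 N)` are monic of degree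
`N`, so their difference has degree less than `N` and contributes nothing (`adjm_pow`,
`Polynomial.aeval_eq_sum_range`); `upper` with `k = 0`. -/
theorem Polar.ne_zero (P : Polar T N t) (hk : k ≤ N) :
    aeval (adjm T N) (pol (th (Nat.card F) N t) ((range (N + 1)).erase k)) ≠ 0 := by
  obtain ⟨U, U', h1, h2, h3, h4, h5⟩ := P.opp
  have h6 : ∀ s : Finset ℕ, s.card = N → aeval (adjm T N) (pol (th (Nat.card F) N t) s) ⟨U, h1, h3⟩
      ⟨U', h2, h4⟩ = (adjm T N ^ N) ⟨U, h1, h3⟩ ⟨U', h2, h4⟩ := fun s hs => by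
    have h7 := monic_prod_X_sub_C (th (Nat.card F) N t) s
    have h8 := (natDegree_finsetProd_X_sub_C_eq_card s (th (Nat.card F) N t)).trans hs
    rw [pol, aeval_eq_sum_range, sum_range_succ, h7.coeff_natDegree, h8, one_smul, Matrix.add_apply,
      Matrix.sum_apply, sum_eq_zero, zero_add]
    intro i hi
    rw [Matrix.smul_apply, adjm_pow i _ _ (by dsimp only; rw [h5]; simpa using hi), smul_zero]
  intro h
  have h7 := (h6 _
    (by rw [card_erase_of_mem (mem_range.2 (Nat.lt_succ_of_le hk)), card_range]; rfl)).trans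
    (h6 (Ioc 0 N) (by simp)).symm
  rw [h, P.upper N.zero_le, Matrix.smul_apply, Matrix.mul_apply] at h7
  have : Nonempty (TS T 0) := ⟨⊥, P.down h1 bot_le, finrank_bot F V⟩
  refine (mul_pos (prod_pos fun l hl => sum_pos' (fun _ _ => by positivity)
    ⟨0, mem_range.2 (mem_Icc.1 hl).1, by simp⟩) (sum_pos (fun W _ => ?_) univ_nonempty)).ne h7
  simp [inc, Submodule.finrank_eq_zero.1 W.2.2]

theorem th_inj_aux (s N t : ℕ) {k l : ℕ} (h : k ≤ l) (hl : l ≤ N) :
    th s N t k - th s N t l = gq s (l - k) * (t * s ^ (N - l) + s ^ k) := by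
  have h1 : ∀ a b, gq s (a + b) = gq s a + s ^ a * gq s b := fun a b => by
    simp only [gq, sum_range_add, pow_add, mul_sum]
  have h2 := h1 k (l - k)
  have h3 := h1 (N - l) (l - k)
  rw [Nat.add_sub_cancel' h] at h2
  rw [show N - l + (l - k) = N - k by omega] at h3
  rw [th, th, h2, h3]
  ring

/-- strictly decreasing -/
theorem th_inj (s N t : ℕ) (hs : 0 < s) : Set.InjOn (th s N t) (range (N + 1) : Finset ℕ) :=
  StrictAntiOn.injOn fun k _ l hl h => sub_pos.1 (by
    rw [th_inj_aux s N t h.le (Nat.le_of_lt_succ (mem_range.1 hl))]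
    exact mul_pos (sum_pos (fun _ _ => by positivity) (nonempty_range_iff.2 (by omega)))
      (by positivity))

theorem th_sub (s N t : ℕ) {k l : ℕ} (h : k ≤ l) (hl : l ≤ N) :
    th s N t k - th s N t l = gq s (l - k) * (t * s ^ (N - l) + s ^ k) :=
  th_inj_aux s N t h hl

end Pool.Agent.Lib.MP_7d41f7_al
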