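import Pool.Agent.Lib.MP_7d41f7_al.C.PA
import Pool.Agent.Lib.MP_7d41f7_al.C.PB
import Pool.Agent.Lib.MP_7d41f7_al.C.PC
import Pool.Agent.Lib.MP_7d41f7_al.L.SCen

/-! A character of defect zero from the dual polar graph. -/

set_option autoImplicit false

namespace Pool.Agent.Lib.MP_7d41f7_al

open Finset Module Polynomial Matrix Subgroup Pool.Agent.Lib.MP_b6945b_al

/-- a function that is constant on the orbits of a group that acts freely -/
theorem free_sum {R X : Type} [Group R] [Finite R] [Fintype X] [MulAction R X]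
    (h : ∀ (g : R) (a : X), g • a = a → g = 1) (φ : X → ℤ) (hφ : ∀ (g : R) a, φ (g • a) = φ a) :
    (Nat.card R : ℤ) ∣ ∑ a, φ a := by
  classical
  have := Fintype.ofFinite R
  have := Fintype.ofFinite (MulAction.orbitRel.Quotient R X)
  rw [← sum_fiberwise univ (Quotient.mk (MulAction.orbitRel R X))]
  refine dvd_sum fun j _ => ?_
  obtain ⟨a, rfl⟩ := Quotient.exists_rep j
  rw [← sum_nbij (s := univ) (f := fun _ : R => φ a) (· • a)
    (fun g _ => mem_filter.2 ⟨mem_univ _, Quotient.sound (s := MulAction.orbitRel R X) ⟨g, rfl⟩⟩)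
    (fun g _ g' _ e => (inv_mul_eq_one.1 (h _ a (by rw [mul_smul, ← (show g • a = g' • a from e),
      inv_smul_smul]))))
    (fun b hb => (Quotient.exact (s := MulAction.orbitRel R X)
      (mem_filter.1 (mem_coe.1 hb)).2).imp fun g e => ⟨mem_coe.2 (mem_univ g), e⟩)
    fun g _ => (hφ g a).symm, sum_const, nsmul_eq_mul, card_univ, Nat.card_eq_fintype_card]
  exact dvd_mul_right _ _

/-- a Sylow subgroup acts freely on the diagonal of `Bᵀ * M * B` -/
theorem trace_dvd {G Ω X : Type} [Group G] [Finite G] [Fintype Ω] [Fintype X] [MulAction G Ω]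
    [MulAction G X] (M : Matrix Ω Ω ℤ) (B : Matrix Ω X ℤ)
    (hM : ∀ (g : G) a b, M (g • a) (g • b) = M a b) (hB : ∀ (g : G) a b, B (g • a) (g • b) = B a b)
    {r : ℕ} (hr : r.Prime) (hf : ∀ g : G, orderOf g = r → ∀ W : X, g • W ≠ W) :
    ((r ^ (Nat.card G).factorization r : ℕ) : ℤ) ∣ (M * (B * Bᵀ)).trace := by
  have := Fact.mk hr
  obtain ⟨P⟩ : Nonempty (Sylow r G) := inferInstance
  rw [← P.card_eq_multiplicity, ← Matrix.mul_assoc, trace_mul_comm]
  refine free_sum (R := P) (fun g a e => by_contra fun hg => ?_) _ fun g W => ?_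
  · obtain ⟨k, hk⟩ := IsPGroup.iff_orderOf.1 P.isPGroup' g
    have h1 : r ∣ orderOf (g : G) := by
      rw [orderOf_coe, hk]
      exact dvd_pow_self r fun h0 => hg (orderOf_eq_one_iff.1 (by rw [hk, h0, pow_zero]))
    exact hf _ (orderOf_pow_orderOf_div (orderOf_pos _).ne' h1) a
      (pow_mem (show (g : G) ∈ MulAction.stabilizer G a from e) _)
  · simp only [diag_apply, mul_apply, transpose_apply]
    refine (Fintype.sum_equiv (MulAction.toPerm (g : G)) _ _ fun a => ?_).symm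
    rw [← Equiv.sum_comp (MulAction.toPerm (g : G)) fun b => M _ b * B b (g • W)]
    simp only [MulAction.toPerm_apply, Subgroup.smul_def, hM, hB]

variable {F V : Type} [Field F] [AddCommGroup V] [Module F V] {T : Submodule F V → Prop} {N t : ℕ}

/-- The action on the totally singular subspaces. -/
@[reducible] def tsAct (Γ : Subgroup (V ≃ₗ[F] V))
    (hT : ∀ g ∈ Γ, ∀ U, T U → T (U.map g.toLinearMap)) (k : ℕ) : MulAction Γ (TS T k) where
  smul g W := ⟨W.1.map g.1.toLinearMap, hT _ g.2 _ W.2.1,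
    (LinearEquiv.finrank_map_eq _ _).trans W.2.2⟩
  one_smul W := Subtype.ext (Submodule.map_id _)
  mul_smul _ _ W := Subtype.ext (Submodule.map_comp _ _ W.1)

variable [Finite F] [Finite V]

/-- the dimension of the intersection separates the orbits -/
theorem orb_le (Γ : Subgroup (V ≃ₗ[F] V)) (hT : ∀ g ∈ Γ, ∀ U, T U → T (U.map g.toLinearMap))
    (htr : ∀ U₁ U₂ W₁ W₂ : TS T N, finrank F (U₁.1 ⊓ W₁.1 : Submodule F V) =
      finrank F (U₂.1 ⊓ W₂.1 : Submodule F V) →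
      ∃ g ∈ Γ, U₁.1.map g.toLinearMap = U₂.1 ∧ W₁.1.map g.toLinearMap = W₂.1) :
    letI := tsAct Γ hT N
    nOrb Γ (TS T N × TS T N) ≤ N + 1 := by
  let _ := tsAct Γ hT N
  let f : TS T N × TS T N → Fin (N + 1) := fun p => ⟨finrank F (p.1.1 ⊓ p.2.1 : Submodule F V),
    Nat.lt_succ_of_le ((Submodule.finrank_mono inf_le_left).trans p.1.2.2.le)⟩
  refine (Nat.card_le_card_of_injective (fun q : MulAction.orbitRel.Quotient Γ _ => f q.out)
    fun q q' e => ?_).trans (Nat.card_fin _).le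
  obtain ⟨g, hg, h1, h2⟩ := htr q'.out.1 q.out.1 q'.out.2 q.out.2 (congrArg Fin.val e).symm
  exact Quotient.out_equiv_out.1 ⟨⟨g, hg⟩, Prod.ext (Subtype.ext h1) (Subtype.ext h2)⟩

/-- the eigenspace of the `k`-th eigenvalue affords a character of defect zero -/
theorem polar_dz (P : Polar T N t) (Γ : Subgroup (V ≃ₗ[F] V)) [Fintype Γ] (I : IrrData Γ)
    (hT : ∀ g ∈ Γ, ∀ U, T U → T (U.map g.toLinearMap))
    (htr : ∀ U₁ U₂ W₁ W₂ : TS T N, finrank F (U₁.1 ⊓ W₁.1 : Submodule F V) =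
      finrank F (U₂.1 ⊓ W₂.1 : Submodule F V) →
      ∃ g ∈ Γ, U₁.1.map g.toLinearMap = U₂.1 ∧ W₁.1.map g.toLinearMap = W₂.1)
    {r k : ℕ} (hr : r.Prime) (hk : k ≤ N)
    (hf : ∀ g : Γ, orderOf g = r → ∀ W : TS T k, W.1.map g.1.toLinearMap ≠ W.1)
    (hθ : ∀ l ≤ N, l ≠ k → ¬ (r : ℤ) ∣ th (Nat.card F) N t k - th (Nat.card F) N t l) :
    ∃ i c, Nat.card Γ = I.d i * c ∧ ¬ r ∣ c ∧
      ∀ z : Γ, (∀ U : TS T N, U.1.map z.1.toLinearMap = U.1) → I.χ i z = I.d i := by
  let := tsAct Γ hT N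
  let := tsAct Γ hT k
  have := Fact.mk hr
  have hA : ∀ (g : Γ) (a b : TS T N), adjm T N (g • a) (g • b) = adjm T N a b := by
    intro g a b
    show (if finrank F (a.1.map g.1.toLinearMap ⊓ b.1.map g.1.toLinearMap : Submodule F V) + 1 = N
      then (1 : ℤ) else 0) = if finrank F (a.1 ⊓ b.1 : Submodule F V) + 1 = N then 1 else 0
    rw [← Submodule.map_inf _ g.1.injective, LinearEquiv.finrank_map_eq]
  have hB : ∀ (g : Γ) (a : TS T N) (b : TS T k), inc T N k (g • a) (g • b) = inc T N k a b := by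
    intro g a b
    have h : (g • b).1 ≤ (g • a).1 ↔ b.1 ≤ a.1 :=
      Submodule.map_le_map_iff_of_injective g.1.injective _ _
    simp only [inc, Matrix.of_apply]
    by_cases hb : b.1 ≤ a.1
    · rw [if_pos hb, if_pos (h.2 hb)]
    · rw [if_neg hb, if_neg (fun h' => hb (h.1 h'))]
  obtain ⟨θ, hθd⟩ : ∃ θ, θ = th (Nat.card F) N t := ⟨_, rfl⟩
  obtain ⟨i, hi⟩ := spec_irr I hA (th (Nat.card F) N t) (range (N + 1))
    (th_inj _ _ _ Nat.card_pos) P.zero
    (fun l hl => P.ne_zero (Nat.lt_succ_iff.1 (mem_range.1 hl)))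
    (by rw [card_range]; exact orb_le Γ hT htr) (mem_range.2 (Nat.lt_succ_of_le hk))
  have hup := P.upper hk
  rw [← hθd] at hi hθ hup
  obtain ⟨c, hc⟩ : ∃ c, c = ∏ l ∈ (range (N + 1)).erase k, (θ k - θ l) := ⟨_, rfl⟩
  rw [← hc] at hi
  have hri : Prime (r : ℤ) := Nat.prime_iff_prime_int.1 hr
  have hrc : ¬ (r : ℤ) ∣ c := by
    rw [hc, hri.dvd_finsetProd_iff]
    rintro ⟨l, hl, hd⟩
    rw [mem_erase, mem_range] at hl
    exact hθ l (Nat.lt_succ_iff.1 hl.2) hl.1 hd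
  have hc0 : (c : ℂ) ≠ 0 := by
    intro h
    apply hrc
    rw [Int.cast_eq_zero.1 h]
    exact dvd_zero _
  have hpol : pol θ ((range (N + 1)).erase k) = pol θ (range k) * pol θ (Ioc k N) := by
    rw [pol, pol, pol, ← prod_union (by
      rw [disjoint_left]; intro l h1 h2; rw [mem_range] at h1; rw [mem_Ioc] at h2; omega)]
    congr 1
    ext l
    simp only [mem_erase, mem_range, mem_union, mem_Ioc]
    omega
  have h1 : c * I.d i = (aeval (adjm T N) (pol θ ((range (N + 1)).erase k))).trace := by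
    have := hi 1
    simp only [one_smul, I.χ_one] at this
    exact_mod_cast this
  have h2 : ((r ^ (Nat.card Γ).factorization r : ℕ) : ℤ) ∣ c * I.d i := by
    rw [h1, hpol, map_mul, hup, Matrix.mul_smul, Matrix.trace_smul, smul_eq_mul]
    exact Dvd.dvd.mul_left (trace_dvd _ _ (inv_aeval hA _) hB hr fun g hg W hW =>
      hf g hg W (congrArg Subtype.val hW)) _
  have h3 : r ^ (Nat.card Γ).factorization r ∣ I.d i := by
    rw [← Int.natCast_dvd_natCast]
    push_cast at h2 ⊢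
    exact ((hri.coprime_iff_not_dvd.2 hrc).pow_left).dvd_of_dvd_mul_left h2
  obtain ⟨e, he⟩ := deg_dvd I i
  refine ⟨i, e, he, fun hre => ?_, fun z hz => ?_⟩
  · refine Nat.pow_succ_factorization_not_dvd (Nat.card_pos (α := Γ)).ne' hr ?_
    conv_rhs => rw [he]
    rw [pow_succ]
    exact mul_dvd_mul h3 hre
  · have hz' : ∀ a : TS T N, z • a = a := fun a => Subtype.ext (hz a)
    have e1 := hi z
    have e2 := hi 1
    simp only [hz'] at e1
    simp only [one_smul, I.χ_one] at e2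
    exact mul_left_cancel₀ hc0 (e1.trans e2.symm)

theorem polar_van (P : Polar T N t) (Γ : Subgroup (V ≃ₗ[F] V))
    (hT : ∀ g ∈ Γ, ∀ U, T U → T (U.map g.toLinearMap))
    (htr : ∀ U₁ U₂ W₁ W₂ : TS T N, finrank F (U₁.1 ⊓ W₁.1 : Submodule F V) =
      finrank F (U₂.1 ⊓ W₂.1 : Submodule F V) →
      ∃ g ∈ Γ, U₁.1.map g.toLinearMap = U₂.1 ∧ W₁.1.map g.toLinearMap = W₂.1)
    (M : Subgroup Γ) [M.Normal] (hc : commutator Γ ≤ M) {r k : ℕ} (hr : r.Prime)
    (hi : ¬ r ∣ M.index)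
    (hZ : ∀ z : M, z ∈ center M → ∀ U : TS T N, U.1.map z.1.1.toLinearMap = U.1) (hk : k ≤ N)
    (hf : ∀ g : Γ, orderOf g = r → ∀ W : TS T k, W.1.map g.1.toLinearMap ≠ W.1)
    (hθ : ∀ l ≤ N, l ≠ k → ¬ (r : ℤ) ∣ th (Nat.card F) N t k - th (Nat.card F) N t l)
    (y : PQ M) (hy : r ∣ orderOf y) : orderOf y ∈ Vo (PQ M) := by
  have : Finite (V ≃ₗ[F] V) := Finite.of_injective _ DFunLike.coe_injective
  have := Fintype.ofFinite Γ
  obtain ⟨I⟩ := exists_irrData Γ
  obtain ⟨i, c, h1, h2, h3⟩ := polar_dz P Γ I hT htr hr hk hf hθ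
  exact van_quot M hc I i hr hi h1 h2 (fun z hz => h3 z (hZ z hz)) y hy

end Pool.Agent.Lib.MP_7d41f7_al
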