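import Pool.Agent.Lib.MP_7d41f7_al.C.VB
import Pool.Agent.Lib.MP_7d41f7_al.C.PV

/-! Elements whose order is divisible by a prime of a large class vanish. -/

set_option autoImplicit false

namespace Pool.Agent.Lib.MP_7d41f7_al

open Module Subgroup

theorem Vo_congr_aux {G H : Type} [Group G] [Group H] (e : G ≃* H) : Vo H ⊆ Vo G := by
  rintro _ ⟨g, rfl, d, ρ, hρ, h0⟩
  let f : Subrepresentation (ρ.comp e.toMonoidHom : Representation ℂ G (Fin d → ℂ)) ≃o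
      Subrepresentation ρ :=
    { toFun U := ⟨U.1, fun x v hv => by simpa using U.2 (e.symm x) hv⟩
      invFun U := ⟨U.1, fun x v hv => U.2 (e x) hv⟩
      left_inv _ := rfl
      right_inv _ := rfl
      map_rel_iff' := Iff.rfl }
  refine ⟨e.symm g, e.symm.orderOf_eq g, d, ρ.comp e.toMonoidHom, f.isSimpleOrder_iff.2 hρ, ?_⟩
  simpa [Representation.character] using h0

theorem Vo_congr {G H : Type} [Group G] [Group H] (e : G ≃* H) : Vo G = Vo H := by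
  exact (Vo_congr_aux e.symm).antisymm (Vo_congr_aux e)

theorem pq_congr {G H : Type} [Group G] [Group H] (e : G ≃* H) : Nonempty (PQ G ≃* PQ H) := by
  exact ⟨QuotientGroup.congr _ _ e (Subgroup.ext fun _ => (Subgroup.mem_map_equiv (f := e)).trans
    (MulEquivClass.apply_mem_center_iff e.symm))⟩

theorem exists_k (t : Ty) {n j : ℕ} (hN : 64 ≤ t.dim n) (hj : n + 4 < 2 * j) :
    ∃ k, k ≤ t.wi n ∧ 2 * k < t.kd.wt * j ∧ t.dim n + 2 < 2 * k + t.kd.wt * j := by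
  cases t
  · exact ⟨(n + 4 - j) / 2, by simp only [Ty.dim, Ty.wi, Ty.kd, Kd.wt] at *; omega⟩
  all_goals exact ⟨n / 2, by simp only [Ty.dim, Ty.wi, Ty.kd, Kd.wt] at *; omega⟩

theorem not_dvd_gq {k : Kd} {q r i : ℕ} (hr : r.Prime) (hi : 0 < i)
    (h : 2 * i < k.wt * Ord (k.bs q) r) : ¬ (r : ℤ) ∣ gq (k.fc q) i := by
  intro hd
  have := hr
  have h1 : ((k.fc q : ℕ) : ZMod r) ^ i = 1 := by
    have h2 := congrArg (Int.cast : ℤ → ZMod r) (geom_sum_mul ((k.fc q : ℕ) : ℤ) i)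
    rw [Int.cast_mul, show ((∑ a ∈ Finset.range i, ((k.fc q : ℕ) : ℤ) ^ a : ℤ) : ZMod r) = 0 from
      (ZMod.intCast_zmod_eq_zero_iff_dvd _ r).2 hd, zero_mul] at h2
    push_cast at h2
    exact (sub_eq_zero.1 h2.symm)
  have h3 : ∀ m, 0 < m → ((k.bs q : ℤ) : ZMod r) ^ m = 1 → Ord (k.bs q) r ≤ m := fun m hm h4 =>
    orderOf_le_of_pow_eq_one hm h4
  cases k
  · have := h3 (2 * i) (by omega) (by simpa [Kd.fc, Kd.bs, pow_mul] using h1)
    simp only [Kd.wt] at h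
    omega
  all_goals
    have := h3 i hi (by
      simp only [Kd.fc, Kd.bs] at h1 ⊢
      push_cast
      rw [← pow_mul, mul_comm, pow_mul, h1, one_pow])
    simp only [Kd.wt] at h
    omega

theorem not_dvd_tt_aux1 {b : ℤ} {r x y : ℕ} (h : (b : ZMod r) ^ x = (b : ZMod r) ^ y)
    (h1 : x < y + Ord b r) (h2 : y < x + Ord b r) : x = y := by
  have h0 : IsOfFinOrder (b : ZMod r) := orderOf_pos_iff.1 (show 0 < Ord b r by omega)
  exact (h0.pow_eq_pow_iff_modEq.1 h).eq_of_abs_lt (by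
    rw [abs_lt]
    unfold Ord at h1 h2
    constructor <;> omega)

theorem not_dvd_tt_aux2 {q r x y : ℕ} (hr : r.Prime) (h2 : 2 < Ord ((q : ℤ) ^ 2) r)
    (h3 : x < y + Ord ((q : ℤ) ^ 2) r) (h4 : y < x + Ord ((q : ℤ) ^ 2) r) :
    ¬ (r : ℤ) ∣ (q : ℤ) ^ x + (q : ℤ) ^ y := by
  intro h
  have h5 := (ZMod.intCast_zmod_eq_zero_iff_dvd _ r).2 h
  push_cast at h5
  obtain rfl : x = y := not_dvd_tt_aux1 (by
    push_cast
    rw [← pow_mul, ← pow_mul, mul_comm 2, mul_comm 2, pow_mul, pow_mul,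
      eq_neg_of_add_eq_zero_left h5, neg_sq]) h3 h4
  rw [← two_mul] at h
  have h6 : r ∣ 2 * q ^ x := by exact_mod_cast h
  rcases (Nat.Prime.dvd_mul hr).1 h6 with h7 | h7
  · exact Ord.ne_two (lt_trans one_lt_two h2) ((Nat.prime_dvd_prime_iff_eq hr Nat.prime_two).1 h7)
  · exact Ord.not_dvd_q (d := .S) hr (lt_trans two_pos h2) (hr.dvd_of_dvd_pow h7)

/-- Compare the exponents modulo the order of the base. -/
theorem not_dvd_tt {t : Ty} {n q r a c : ℕ} (hr : r.Prime) (h2 : 2 < Ord (t.kd.bs q) r)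
    (h1 : t = .Dm → 0 < n) (ha : t.dim n + 2 + 2 * a <
      2 * t.wi n + 2 * c + t.kd.wt * Ord (t.kd.bs q) r)
    (hc : 2 * c < 2 * a + t.kd.wt * Ord (t.kd.bs q) r) :
    ¬ (r : ℤ) ∣ t.tt n q * (t.kd.fc q : ℤ) ^ a + (t.kd.fc q : ℤ) ^ c := by
  cases t
  · simp only [Ty.kd, Kd.bs, Kd.wt, Kd.fc, Ty.dim, Ty.wi, Ty.tt] at *
    intro h
    have h5 := (ZMod.intCast_zmod_eq_zero_iff_dvd _ r).2 h
    push_cast at h5
    have h6 : 1 + 2 * (n % 2) + 2 * a = 2 * c := not_dvd_tt_aux1 (b := -(q : ℤ)) (r := r) (by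
      push_cast
      rw [Odd.neg_pow ⟨n % 2 + a, by ring⟩, Even.neg_pow ⟨c, by ring⟩, pow_add, pow_mul, pow_mul]
      exact neg_eq_of_add_eq_zero_right h5) (by omega) (by omega)
    omega
  all_goals
    simp only [Ty.kd, Kd.bs, Kd.wt, Kd.fc, Ty.dim, Ty.wi, Ty.tt] at *
    push_cast
  · rw [← pow_succ']
    exact not_dvd_tt_aux2 hr h2 (by omega) (by omega)
  · rw [← pow_succ']
    exact not_dvd_tt_aux2 hr h2 (by omega) (by omega)
  · rw [one_mul]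
    exact not_dvd_tt_aux2 hr h2 (by omega) (by omega)
  · have := h1 trivial
    rw [← pow_add]
    exact not_dvd_tt_aux2 hr h2 (by omega) (by omega)

/-- The eigenvalues are different modulo `r`. -/
theorem th_ne {t : Ty} {n q r k l : ℕ} (hr : r.Prime) (h2 : 2 < Ord (t.kd.bs q) r)
    (h1 : t = .Dm → 0 < n) (hk : k ≤ t.wi n) (h3 : 2 * k < t.kd.wt * Ord (t.kd.bs q) r)
    (h4 : t.dim n + 2 < 2 * k + t.kd.wt * Ord (t.kd.bs q) r) (hl : l ≤ t.wi n) (hne : l ≠ k) :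
    ¬ (r : ℤ) ∣ th (t.kd.fc q) (t.wi n) (t.tt n q) k - th (t.kd.fc q) (t.wi n) (t.tt n q) l := by
  have h5 : 2 * t.wi n ≤ t.dim n := by
    cases t <;> simp only [Ty.wi, Ty.dim] <;> omega
  have hp : Prime (r : ℤ) := Nat.prime_iff_prime_int.1 hr
  intro h
  rcases lt_or_gt_of_ne hne with h6 | h6
  · rw [← dvd_neg, neg_sub, th_sub _ _ _ h6.le hk] at h
    rcases hp.dvd_or_dvd h with h | h
    · exact not_dvd_gq hr (by omega) (by omega) h
    · exact not_dvd_tt hr h2 h1 (by omega) (by omega) h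
  · rw [th_sub _ _ _ h6.le hl] at h
    rcases hp.dvd_or_dvd h with h | h
    · exact not_dvd_gq hr (by omega) (by omega) h
    · exact not_dvd_tt hr h2 h1 (by omega) (by omega) h

variable {F V : Type} [Field F] [Finite F] {P : Sca F} [AddCommGroup V] [Module F V] [Finite V]
  {Φ : Frm P V} {t : Ty} {n r : ℕ}

theorem Frm.van_core {G : Type} [Group G] (hT : Φ.IsTy t n) (hN : 64 ≤ t.dim n) (R : Φ.Rep G)
    (hr : r.Prime) (hj : n + 4 < 2 * P.j r)
    (hZ : ∀ z ∈ Φ.Iso, (∀ y ∈ Φ.Der, z * y = y * z) → ∃ c : F, ∀ v, z v = c • v)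
    (hi : ¬ r ∣ R.ι.range.relIndex Φ.Iso)
    (hf : ∀ x ∈ Φ.Iso, orderOf x = r → ∀ U, Φ.Ti U → 2 * finrank F U < P.k.wt * P.j r →
      finrank F V < 2 * finrank F U + P.k.wt * P.j r → ¬ Stb x U)
    (g : PQ G) (h : r ∣ orderOf g) : orderOf g ∈ Vo (PQ G) := by
  obtain ⟨k, k1, k2, k3⟩ := exists_k t hN hj
  have hc : commutator Φ.Iso ≤ R.ι.range.subgroupOf Φ.Iso := fun x hx =>
    R.der ((map_subtype_commutator Φ.Iso).le (mem_map_of_mem _ hx))
  have : (R.ι.range.subgroupOf Φ.Iso).Normal := ⟨fun x hx y => by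
    have h1 := mul_mem (hc (commutator_mem_commutator (mem_top y) (mem_top x))) hx
    rwa [commutatorElement_def, inv_mul_cancel_right] at h1⟩
  obtain ⟨e⟩ := pq_congr ((MonoidHom.ofInjective R.inj).trans (subgroupOfEquivOfLe R.le).symm)
  have hs : Nat.card F = t.kd.fc P.q := hT.kd ▸ P.card
  have hJ : P.j r = Ord (t.kd.bs P.q) r := by rw [hT.kd]
  have h2 : 2 < P.j r := by
    have := wt_dim t n
    have : t.kd.wt ≤ 2 := by cases t <;> simp [Ty.kd, Kd.wt]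
    nlinarith
  rw [Vo_congr e, ← e.orderOf_eq g]
  refine polar_van hT.rk.polar Φ.Iso (fun g hg U hU => hU.map hg)
    (fun U₁ U₂ W₁ W₂ h => hT.rk.witt U₁.2.1 W₁.2.1 U₂.2.1 W₂.2.1 U₁.2.2 W₁.2.2 U₂.2.2 W₂.2.2 h)
    _ hc hr hi (fun z hz U => ?_) k1 (fun x hx W e => ?_) (fun l hl hne => ?_) _
    (by rwa [e.orderOf_eq])
  · obtain ⟨c, hc⟩ := hZ z.1.1 z.1.2 fun y hy => congrArg (fun a => a.1.1)
      (mem_center_iff.1 hz ⟨⟨y, R.le (R.der hy)⟩, R.der hy⟩).symm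
    refine Submodule.eq_of_le_of_finrank_eq ?_ (LinearEquiv.finrank_map_eq _ _)
    rintro _ ⟨v, hv, rfl⟩
    exact (hc v).symm ▸ U.1.smul_mem c hv
  · refine hf x.1 x.2 ((orderOf_coe x).trans hx) W.1 W.2.1 ?_ ?_ fun w hw =>
      e.le (Submodule.mem_map_of_mem hw)
    · rwa [W.2.2, ← hT.kd]
    · rw [W.2.2, hT.dim, ← hT.kd]
      omega
  · rw [hs]
    exact th_ne hr (hJ ▸ h2) hT.pos k1 (hJ ▸ k2) (hJ ▸ k3) hl hne

end Pool.Agent.Lib.MP_7d41f7_al
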