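import Pool.Agent.Lib.MP_7d41f7_al.C.FBC
import Pool.Agent.Lib.MP_7d41f7_al.C.Brg
import Pool.Agent.Lib.MP_7d41f7_al.C.VC
import Pool.Agent.Lib.MP_7d41f7_al.C.CMain

/-! The classical groups: assembly. -/

set_option autoImplicit false

namespace Pool.Agent.Lib.MP_7d41f7_al

open Module Subgroup Matrix

/-- The second case of the theorem. -/
def Off (G : Type) [Group G] : Prop :=
  ∃ (K : Subgroup G) (_ : K.Normal) (H : Subgroup (G ⧸ K)), H.Normal ∧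
    IsSimpleGroup H ∧ ¬ IsMulCommutative H ∧ centralizer (H : Set (G ⧸ K)) = ⊥ ∧ ¬ OnList H

/-- The section is a classical group of the expected type. -/
def Hit (H : Type) [Group H] (t : Ty) (n q : ℕ) : Prop :=
  (t = .U ∧ IsSU H n q) ∨
    ((t = .B ∨ t = .C) ∧ (IsSp H n q ∨ IsOm H (2 * n + 1) q) ∧ OrdB n q (Nat.card H)) ∨
    (IsOm H (2 * n) q ∧
      (t = .Dp ∧ OrdD 1 n q (Nat.card H) ∨ t = .Dm ∧ OrdD (-1) n q (Nat.card H)))

theorem card_pp (F : Type) [Field F] [Finite F] : IsPrimePow (Nat.card F) := by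
  have := Fintype.ofFinite F
  exact Nat.card_eq_fintype_card (α := F) ▸ FiniteField.isPrimePow_card F

theorem HOut.hit {H : Type} [Group H] {t : Ty} {n q : ℕ} (h : HOut H t n q) (hl : OnList H) :
    Hit H t n q := by
  rcases hl with ⟨m, ⟨e⟩⟩ | ⟨m, K, _, _, ⟨e⟩⟩ | ⟨m, u, hm, h1, h2⟩ | ⟨m, u, hm, h1, h2⟩ |
    ⟨m, u, hm, h1, h2⟩ | ⟨u, hu, h1⟩ | h1
  · exact ((h.alt m).false e).elim
  · exact ((h.lin m K).false e).elim
  · have hu : IsPrimePow u := by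
      obtain ⟨F, _, _, _, e, -⟩ := h1
      exact (isPrimePow_pow_iff two_ne_zero).1 (e ▸ card_pp F)
    obtain ⟨e, rfl, rfl⟩ := h.uni m u hu hm h2
    exact .inl ⟨e, h1⟩
  · have hu : IsPrimePow u := by
      rcases h1 with ⟨F, _, _, e, -⟩ | ⟨F, _, _, _, e, -⟩ <;> exact e ▸ card_pp F
    obtain ⟨e, rfl, rfl⟩ := h.sym m u hu hm h2
    exact .inr (.inl ⟨e, h1, h2⟩)
  · have hu : IsPrimePow u := by
      obtain ⟨F, _, _, _, e, -⟩ := h1
      exact e ▸ card_pp F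
    rcases h2 with h2 | h2
    · obtain ⟨e, rfl, rfl⟩ := h.dp m u hu hm h2
      exact .inr (.inr ⟨h1, .inl ⟨e, h2⟩⟩)
    · obtain ⟨e, rfl, rfl⟩ := h.dm m u hu hm h2
      exact .inr (.inr ⟨h1, .inr ⟨e, h2⟩⟩)
  · exact (h.exc u hu h1).elim
  · exact (h.spor h1).elim

theorem Adj.congr {G H : Type} [Group G] [Group H] (e : G ≃* H) {m r : ℕ} (h : Adj G m r) :
    Adj H m r :=
  h.elim fun g hg => ⟨e g, (e.orderOf_eq g).trans hg⟩

variable {F V : Type} [Field F] [Finite F] {P : Sca F} [AddCommGroup V] [Module F V] [Finite V]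
  {Φ : Frm P V} {t : Ty} {n r : ℕ} {Γ G : Type} [Group Γ] [Group G] [Finite G]

namespace Frm

theorem van_PQ (hT : Φ.IsTy t n) (hN : 64 ≤ t.dim n) (R : Φ.Rep Γ) (hr : r.Prime)
    (hj : n + 4 < 2 * P.j r) (g : PQ Γ) (h : r ∣ orderOf g) : orderOf g ∈ Vo (PQ Γ) := by
  have := Ty.n32 hN
  have h2 : 2 < P.j r := by omega
  refine van_core hT hN R hr hj (fun z hz hc => ?_) (index_cop hT.nd hr h2 R.der)
    (fun x hx e U hU h3 h4 => no_fix hT.nd hx hr h2 (e ▸ pow_orderOf_eq_one x)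
      (fun h0 => hr.one_lt.ne' (by rw [← e, h0, orderOf_one])) hU h3 h4) g h
  obtain ⟨c, -, h⟩ := center_scalar hT.nd (by rw [hT.dim]; omega) hz fun y hy => (hc y hy).symm
  exact ⟨c, h⟩

theorem core (hT : Φ.IsTy t n) (hN : 64 ≤ t.dim n) (R : Φ.Rep Γ)
    (hc : Nat.card G = Nat.card (PQ Γ)) (hV : Vo G = Vo (PQ Γ)) :
    (∀ r m, r.Prime → n + 4 < 2 * P.j r → m.Coprime r → (Adj G m r ↔ Adj (PQ Γ) m r)) ∧
      (Off G ∨ ∃ (H : Type) (_ : Group H), Hit H t n P.q ∧ (∀ m r, Adj H m r → Adj G m r) ∧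
        (Nat.card G ≤ Nat.card H → Nonempty (G ≃* H))) := by
  have n32 := Ty.n32 hN
  have := R.finite
  have k : ∀ r, Ord (t.kd.bs P.q) r = P.j r := fun r => by rw [hT.kd]
  have hX : XData (PQ Γ) t n P.q :=
    ⟨by simpa only [k] using card_PQ hT (by omega) R, fun r hr hj => cyc_PQ hT R hr (k r ▸ hj),
      fun r u hr hu _ => by simpa only [k] using adj_PQ hT (by omega) R hr hu,
      fun ht r u => adjL_PQ hT (by omega) R ht⟩
  obtain ⟨h1, h2⟩ := transfer (by omega) P.q2 hX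
    (fun r hr hj => van_PQ hT hN R hr (k r ▸ hj)) hc hV
  refine ⟨by simpa only [k] using h2, ?_⟩
  obtain ⟨p, f, hp, hf, e, -⟩ := P.pp
  rw [e] at h1 ⊢
  obtain ⟨K, _, H, a1, a2, a3, a4, a5⟩ := cmain hp hf hN h1
  by_cases hl : OnList H
  · exact .inr ⟨H, _, a5.hit hl,
      fun m r h => h.of_sub.of_surj (QuotientGroup.mk'_surjective K), iso_of_card⟩
  · exact .inl ⟨K, _, H, a1, a2, a3, a4, hl⟩

end Frm

omit [Finite G] in
theorem iso_of_iso {H S : Type} [Group H] [Group S] (hc : Nat.card G = Nat.card S)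
    (h : Nat.card G ≤ Nat.card H → Nonempty (G ≃* H)) (e : H ≃* S) : Nonempty (G ≃* S) :=
  (h (hc.trans (Nat.card_congr e.toEquiv).symm).le).map fun a => a.trans e

theorem main_su [StarRing F] {q : ℕ} (hq : Nat.card F = q ^ 2) (hs : ∃ a : F, star a ≠ a)
    (hN : 64 ≤ n) (hc : Nat.card G = Nat.card (PQ (specialUnitaryGroup (Fin n) F)))
    (hV : Vo G = Vo (PQ (specialUnitaryGroup (Fin n) F))) :
    Nonempty (G ≃* PQ (specialUnitaryGroup (Fin n) F)) ∨ Off G := by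
  obtain ⟨P, Φ, R, hk, rfl, hn⟩ := brg_su n F hq hs
  obtain ⟨t, m, hT⟩ := Frm.exists_ty hn
  obtain rfl : t = .U := by
    have := hT.kd.trans hk
    cases t <;> simp [Ty.kd] at this ⊢
  obtain rfl : n = m := by simpa [Ty.dim] using hT.dim
  rcases (Frm.core hT hN R hc hV).2 with h | ⟨H, _, h1, -, h2⟩
  · exact .inr h
  rcases h1 with ⟨-, F', _, _, _, hq', hs', ⟨e⟩⟩ | ⟨h, -⟩ | ⟨-, h⟩
  · obtain ⟨a⟩ := su_iso (n := n) hq' hs' hq hs
    obtain ⟨b⟩ := brg_pq a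
    exact .inl (iso_of_iso hc h2 (e.trans b))
  · simp at h
  · simp at h

theorem sp_ty (n : ℕ) (F : Type) [Field F] [Finite F] :
    ∃ (Φ : Frm (Sca.sp F) (Fin n ⊕ Fin n → F)) (R : Φ.Rep (symplecticGroup (Fin n) F)),
      Φ.IsTy .C n ∧ Φ.Iso ≤ R.ι.range := by
  obtain ⟨Φ, R, hn, hR⟩ := brg_sp n F
  obtain ⟨t, m, hT⟩ := Frm.exists_ty hn
  obtain rfl : t = .C := by
    have := hT.kd
    cases t <;> simp [Ty.kd, Sca.sp] at this ⊢
  obtain rfl : n = m := by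
    have := hT.dim
    simp [Ty.dim] at this
    omega
  exact ⟨Φ, R, hT, hR⟩

theorem IsSp.iso {H : Type} [Group H] (h : IsSp H n (Nat.card F)) :
    Nonempty (H ≃* PQ (symplecticGroup (Fin n) F)) := by
  obtain ⟨F', _, _, hq, ⟨e⟩⟩ := h
  obtain ⟨a⟩ := sp_iso (n := n) hq
  exact (brg_pq a).map e.trans

theorem IsOm.ty {H : Type} [Group H] {N : ℕ} (h : IsOm H N (Nat.card F)) :
    ∃ (Q : QuadraticForm F (Fin N → F)) (t : Ty) (n : ℕ), (Frm.ofQ Q).IsTy t n ∧ N = t.dim n ∧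
      Nonempty (H ≃* PQ (commutator (orth Q))) := by
  obtain ⟨F', _, _, Q', hq, hn, ⟨e⟩⟩ := h
  obtain ⟨Q, h1, ⟨a⟩⟩ := om_field hq Q' hn
  obtain ⟨t, m, hT⟩ := Frm.exists_ty h1
  obtain ⟨b⟩ := der_congr a
  exact ⟨Q, t, m, hT, by simpa using hT.dim, (brg_pq b).map e.trans⟩

theorem ty_odd {m : ℕ} (hk : t.kd = .O) (h : 2 * n + 1 = t.dim m) : t = .B ∧ n = m := by
  cases t <;> simp [Ty.kd, Ty.dim] at hk h ⊢ <;> omega

theorem ty_even {m : ℕ} (hk : t.kd = .O) (h : 2 * n = t.dim m) :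
    (t = .Dp ∨ t = .Dm) ∧ n = m := by
  cases t <;> simp [Ty.kd, Ty.dim] at hk h ⊢ <;> omega

theorem om_iso {W : Type} [AddCommGroup W] [Module F W] [Finite W] {Q : QuadraticForm F V}
    {Q' : QuadraticForm F W} (h : (Frm.ofQ Q).IsTy t n) (h' : (Frm.ofQ Q').IsTy t n) :
    Nonempty (PQ (commutator (orth Q)) ≃* PQ (commutator (orth Q'))) := by
  obtain ⟨c, g, hc, hg⟩ := Frm.similar rfl h.nd h'.nd (h.dim.trans h'.dim.symm)
    (Nat.cast_injective (h.ns.trans h'.ns.symm))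
  obtain ⟨a⟩ := om_sim hc g hg
  obtain ⟨b⟩ := der_congr a
  exact brg_pq b

theorem bc_false {Q : QuadraticForm F V} (h : (Frm.ofQ Q).IsTy .B n) (hn : 32 ≤ n)
    (ha : ∀ r m, r.Prime → n + 4 < 2 * Ord ((Nat.card F : ℤ) ^ 2) r → m.Coprime r →
      Adj (PQ (symplecticGroup (Fin n) F)) m r → Adj (PQ (commutator (orth Q))) m r) : False := by
  obtain ⟨m, rfl⟩ : ∃ m, n = m + 1 := ⟨n - 1, by omega⟩
  obtain ⟨p, f, hp, hf, e, _⟩ := (Sca.og F).pp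
  have ho : Odd (Nat.card F) := h.odd rfl
  have q2 : 2 ≤ Nat.card F := (Sca.og F).q2
  obtain ⟨r, hb⟩ := exists_bcp (m := m) ho (by obtain ⟨k, hk⟩ := ho; omega) (by omega)
  obtain ⟨hr, hj⟩ := hb.ord (by omega)
  obtain ⟨Φ, R, hT, hR⟩ := sp_ty (m + 1) F
  obtain ⟨R', hR'⟩ := brg_om Q
  have hp' : p ∣ Nat.card F := (dvd_pow_self p hf.ne').trans (dvd_of_eq e.symm)
  have p2 : p ≠ 2 := by
    rintro rfl
    exact ho.not_two_dvd_nat hp'
  refine Frm.bc_om h (by omega) hp hb R' hR' (ha r _ hr (by omega) (Nat.Coprime.mul_left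
    ((Nat.coprime_primes Nat.prime_two hr).2 (Ord.ne_two (b := (Nat.card F : ℤ) ^ 2)
      (by omega)).symm) ((Nat.coprime_primes hp hr).2 ?_))
    (Frm.bc_sp hT (by omega) hp p2 hr hj R hR))
  rintro rfl
  exact Ord.not_dvd_q (d := .O) hr (hj.symm ▸ by omega : 0 < Ord ((Nat.card F : ℤ) ^ 2) p) hp'

theorem main_sp (hN : 64 ≤ 2 * n) (hc : Nat.card G = Nat.card (PQ (symplecticGroup (Fin n) F)))
    (hV : Vo G = Vo (PQ (symplecticGroup (Fin n) F))) :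
    Nonempty (G ≃* PQ (symplecticGroup (Fin n) F)) ∨ Off G := by
  obtain ⟨Φ, R, hT, hR⟩ := sp_ty n F
  obtain ⟨h0, h | ⟨H, _, h1, h3, h2⟩⟩ := Frm.core hT hN R hc hV
  · exact .inr h
  rcases h1 with ⟨h, -⟩ | ⟨-, h | h, h4⟩ | ⟨-, h⟩
  · simp at h
  · obtain ⟨e⟩ := IsSp.iso (F := F) h
    exact .inl (iso_of_iso hc h2 e)
  · obtain ⟨Q, t, m, hQ, hd, ⟨e⟩⟩ := IsOm.ty (F := F) h
    obtain ⟨rfl, rfl⟩ := ty_odd hQ.kd hd
    have ho : Odd (Nat.card F) := hQ.odd rfl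
    have h5 := Frm.card_sp ((Sca.og F).two_ne.2 ho) (by rw [hT.dim]; exact (by omega : 0 < 2 * n))
      R hR
    have h6 : Int.gcd 2 ((Nat.card F : ℤ) - 1) = 2 := by
      obtain ⟨k, hk⟩ := ho
      simp [hk]
    have h7 : (Nat.card H : ℤ) * (Int.gcd 2 ((Nat.card F : ℤ) - 1)) = Nat.card Φ.Iso :=
      h4.trans hT.ord.symm
    rw [h6] at h7
    obtain ⟨a⟩ := h2 (by omega)
    exact (bc_false hQ (by omega) fun r m hr hj hm h =>
      ((h0 r m hr hj hm).2 h).congr (a.trans e)).elim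
  · simp at h

theorem main_om {N : ℕ} {Q : QuadraticForm F (Fin N → F)} (hQ : Q.polarBilin.Nondegenerate)
    (hN : 64 ≤ N) (hc : Nat.card G = Nat.card (PQ (commutator (orth Q))))
    (hV : Vo G = Vo (PQ (commutator (orth Q)))) :
    Nonempty (G ≃* PQ (commutator (orth Q))) ∨ Off G := by
  obtain ⟨t, n, hT⟩ := Frm.exists_ty (Φ := Frm.ofQ Q) hQ.1
  obtain ⟨R, -⟩ := brg_om Q
  obtain rfl : N = t.dim n := by simpa using hT.dim
  have n32 := Ty.n32 hN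
  obtain ⟨h0, h | ⟨H, _, h1, h3, h2⟩⟩ := Frm.core hT hN R hc hV
  · exact .inr h
  rcases h1 with ⟨rfl, -⟩ | ⟨rfl | rfl, h, -⟩ | ⟨h, h4⟩
  · exact absurd hT.kd (by simp [Ty.kd, Sca.og])
  · rcases h with h | h
    · obtain ⟨e⟩ := IsSp.iso (F := F) h
      exact (bc_false hT n32 fun r m hr hj hm h =>
        (h0 r m hr hj hm).1 (h3 _ _ (h.congr e.symm))).elim
    · obtain ⟨Q', t, m, hQ', hd, ⟨e⟩⟩ := IsOm.ty (F := F) h
      obtain ⟨rfl, rfl⟩ := ty_odd hQ'.kd hd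
      obtain ⟨a⟩ := om_iso hQ' hT
      exact .inl (iso_of_iso hc h2 (e.trans a))
  · exact absurd hT.kd (by simp [Ty.kd, Sca.og])
  · obtain ⟨Q', t', m, hQ', hd, ⟨e⟩⟩ := IsOm.ty (F := F) h
    obtain ⟨ht, rfl⟩ := ty_even hQ'.kd hd
    obtain ⟨R', -⟩ := brg_om Q'
    obtain ⟨c, c1, c2⟩ := Frm.card_PQ hQ' (by omega) R'
    rw [← Nat.card_congr e.toEquiv] at c1
    obtain ⟨e1, e2⟩ := ty_eq (h := Nat.card H) (Sca.og F).q2 (by omega : 4 ≤ n) c2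
    obtain rfl : t' = t := by
      rcases h4 with ⟨rfl, h4⟩ | ⟨rfl, h4⟩ <;> rcases ht with rfl | rfl
      exacts [rfl, (e1 h4 c1).elim, (e2 h4 c1).elim, rfl]
    obtain ⟨a⟩ := om_iso hQ' hT
    exact .inl (iso_of_iso hc h2 (e.trans a))

theorem classical (S : Type) [Group S] (N q : ℕ) (hN : 64 ≤ N)
    (hS : IsSU S N q ∨ (∃ n, N = 2 * n ∧ IsSp S n q) ∨ IsOm S N q)
    (G : Type) [Group G] [Finite G] (hc : Nat.card G = Nat.card S) (hV : Vo G = Vo S) :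
    Nonempty (G ≃* S) ∨ Off G := by
  rcases hS with ⟨F, _, _, _, hq, hs, ⟨e⟩⟩ | ⟨n, rfl, F, _, _, -, ⟨e⟩⟩ | ⟨F, _, _, Q, -, hQ, ⟨e⟩⟩
  · exact (main_su hq hs hN (hc.trans (Nat.card_congr e.toEquiv)) (hV.trans (Vo_congr e))).imp_left
      (Nonempty.map fun a => a.trans e.symm)
  · exact (main_sp hN (hc.trans (Nat.card_congr e.toEquiv)) (hV.trans (Vo_congr e))).imp_left
      (Nonempty.map fun a => a.trans e.symm)
  · exact (main_om hQ hN (hc.trans (Nat.card_congr e.toEquiv)) (hV.trans (Vo_congr e))).imp_left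
      (Nonempty.map fun a => a.trans e.symm)

end Pool.Agent.Lib.MP_7d41f7_al
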