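import Pool.Agent.Lib.MP_7d41f7_al.C.FCyc

/-! Adjacency. -/

set_option autoImplicit false

namespace Pool.Agent.Lib.MP_7d41f7_al

open Module

variable {F V : Type} [Field F] [Finite F] {P : Sca F} [AddCommGroup V] [Module F V] [Finite V]
  {Φ : Frm P V}

namespace Frm

variable {t : Ty} {n r u : ℕ} {Γ : Type} [Group Γ] {x y : V ≃ₗ[F] V}

omit [Finite F] in
theorem Rep.lift (R : Φ.Rep Γ) {m : ℕ} (h : Adj (PQ Γ) m r) :
    ∃ g ∈ R.ι.range, orderOf g = m * r := by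
  have := R.finite
  obtain ⟨g, hg⟩ := h.of_surj (QuotientGroup.mk'_surjective _)
  exact ⟨_, ⟨g, rfl⟩, (orderOf_injective R.ι R.inj g).trans hg⟩

theorem Rep.lift2 (R : Φ.Rep Γ) (hr : r.Prime) (hu : u.Prime) (h : Adj (PQ Γ) u r) :
    ∃ x ∈ Φ.Iso, ∃ y ∈ Φ.Iso, Commute x y ∧ x ^ r = 1 ∧ x ≠ 1 ∧ y ^ u = 1 ∧ y ≠ 1 := by
  obtain ⟨g, hg, ho⟩ := R.lift h
  have hI := R.le hg
  have h1 := hr.one_lt
  have h2 := hu.one_lt
  refine ⟨g ^ u, pow_mem hI u, g ^ r, pow_mem hI r, Commute.pow_pow_self g u r, ?_,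
    pow_ne_one_of_lt_orderOf hu.ne_zero (by rw [ho]; nlinarith), ?_,
    pow_ne_one_of_lt_orderOf hr.ne_zero (by rw [ho]; nlinarith)⟩
  · rw [← pow_mul, ← ho, pow_orderOf_eq_one]
  · rw [← pow_mul, mul_comm, ← ho, pow_orderOf_eq_one]

omit [Finite F] in
theorem fadja_dis (h1 : x ^ r = 1) (hm : (r : F) ≠ 0) : ∀ w ∈ mv x, x w = w → w = 0 :=
  fun _ hw h => Submodule.disjoint_def.1 (compl_fx h1 hm).disjoint _ (mem_fx.2 h) hw

theorem adj_core (hT : Φ.IsTy t n) (hn : 5 ≤ n) (hr : r.Prime) (hu : u.Prime)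
    (hj : n + 4 < 2 * P.j r) (hj' : n ≤ 2 * P.j u) (hx : x ∈ Φ.Iso) (hy : y ∈ Φ.Iso)
    (hc : Commute x y) (h1 : x ^ r = 1) (h2 : y ^ u = 1) (h3 : y ≠ 1) :
    ∀ w ∈ mv x, y w = w → w = 0 := by
  intro w hw hy0
  have h4 := min_mv hT.nd hy hu (by omega) h2 h3
  have h5 := finrank_mv_fx y
  have h6 := (wt_dim t n).2
  rw [hT.kd, ← hT.dim] at h6
  have h7 : P.k.wt * (n + 1) ≤ P.k.wt * (P.j u + P.j r) := Nat.mul_le_mul_left _ (by omega)
  rw [mul_add P.k.wt (P.j u)] at h7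
  exact fadja_dis h1 (P.cast_ne hr (by omega)) w hw
    (triv (nd_fx hT.nd hy h2 (P.cast_ne hu (by omega))) hx (stb_fx hc.symm) hr (by omega) (a := 1)
      (by rw [pow_one, h1]) (by omega) w (mem_fx.2 hy0))

theorem adj_PQ (hT : Φ.IsTy t n) (hn : 5 ≤ n) (R : Φ.Rep Γ) (hr : r.Prime) (hu : u.Prime)
    (hj : n + 4 < 2 * P.j r) (hj' : n ≤ 2 * P.j u) (h : Adj (PQ Γ) u r) : P.j u ∣ P.j r := by
  obtain ⟨x, hx, y, hy, hc, h1, h0, h2, h3⟩ := R.lift2 hr hu h
  have hr0 := P.cast_ne hr (by omega)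
  obtain ⟨t', m, hW⟩ := exists_ty (nd_mv hT.nd hx h1 hr0)
  have d1 := (fpf_ty hW hx (stb_mv (Commute.refl x)) hr (by omega) h1 (fadja_dis h1 hr0)).1
  have d2 := (fpf_ty hW hy (stb_mv hc) hu (by omega) h2
    (adj_core hT hn hr hu hj hj' hx hy hc h1 h2 h3)).1
  have h4 := min_mv hT.nd hx hr (by omega) h1 h0
  have h5 := Submodule.finrank_le (mv x)
  have h6 := (wt_dim t n).2
  obtain ⟨h7, h8⟩ := wt_dim t' m
  rw [hT.kd, ← hT.dim] at h6
  rw [hW.kd, ← hW.dim] at h7 h8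
  have e1 : P.j r < m + 1 := lt_of_mul_lt_mul_left (h4.trans_lt h8) (Nat.zero_le _)
  have e2 : m < n + 1 := lt_of_mul_lt_mul_left ((h7.trans h5).trans_lt h6) (Nat.zero_le _)
  rwa [Nat.eq_of_dvd_of_lt_two_mul (by omega) d1 (by omega)] at d2

theorem sp_to_og (hk : P.k = .S) (hn : Φ.Nd) (hx : x ∈ Φ.Iso) (hr : Odd r) (h1 : x ^ r = 1)
    (h0 : ∀ v, x v = v → v = 0) :
    ∃ Ψ : Frm (Sca.og F) V, Ψ.Nd ∧ ∀ y ∈ Φ.Iso, Commute x y → y ∈ Ψ.Iso := by
  let B' : LinearMap.BilinMap F V F := LinearMap.mk₂ F (fun v w => Φ.B v (x w))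
    (fun a b c => by rw [map_add, LinearMap.add_apply]) (fun a b c => smul_B a b _)
    (fun a b c => by rw [map_add, map_add])
    (fun a b c => by rw [map_smul, B_smul, Sca.σ_S hk, smul_eq_mul])
  have hB : ∀ v w, (Frm.ofQ B'.toQuadraticMap).B v w = Φ.B v (x w) + Φ.B w (x v) := fun v w =>
    LinearMap.BilinMap.polar_toQuadraticMap v w
  refine ⟨Frm.ofQ B'.toQuadraticMap, fun v hv => h0 v ?_, fun y hy hc => ?_⟩
  · have h2 : x (x v) = v := by
      rw [← sub_eq_zero]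
      refine hn.right fun w => ?_
      obtain ⟨w, rfl⟩ := x.surjective w
      have := hv w
      rw [hB, Φ.sym, Sca.ε_S hk, Sca.σ_S hk, ← hx.1 w] at this
      rw [map_sub]
      linear_combination this
    obtain ⟨k, rfl⟩ := hr
    have h3 : ∀ k : ℕ, (x ^ (2 * k + 1)) v = x v := fun k => by
      induction k with
      | zero => simp
      | succ k ih =>
        rw [show 2 * (k + 1) + 1 = 2 * k + 1 + 1 + 1 by ring, pow_succ, pow_succ,
          LinearEquiv.mul_apply, LinearEquiv.mul_apply, h2, ih]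
    rw [← h3 k, h1]
    rfl
  · have h4 : ∀ v w, Φ.B (y v) (x (y w)) = Φ.B v (x w) := fun v w => by
      rw [← LinearEquiv.mul_apply x, hc.eq, LinearEquiv.mul_apply, hy.1]
    exact ⟨fun v w => by rw [hB, hB, h4, h4], fun v => h4 v v⟩

omit [Finite F] [Finite V] in
theorem fadjb_pow {W : Submodule F V} {x' : W ≃ₗ[F] W} (h : ∀ w : W, (x' w : V) = x w) (k : ℕ)
    (w : W) : ((x' ^ k) w : V) = (x ^ k) w := by
  induction k with
  | zero => rfl
  | succ k ih => rw [pow_succ', pow_succ', LinearEquiv.mul_apply, LinearEquiv.mul_apply, h, ih]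

theorem adjL_PQ (hT : Φ.IsTy t n) (hn : 5 ≤ n) (R : Φ.Rep Γ) (ht : t = .B ∨ t = .C)
    (hr : Prim P.q (2 * n) r) (hu : Prim P.q n u) : ¬ Adj (PQ Γ) u r := by
  intro h
  have hq := P.q2
  have hk : P.k = .O ∨ P.k = .S := by
    rcases ht with rfl | rfl
    · exact Or.inl hT.kd.symm
    · exact Or.inr hT.kd.symm
  have hb : P.k.bs P.q = (P.q : ℤ) ^ 2 := by rcases hk with h | h <;> rw [h] <;> rfl
  have hw : P.k.wt = 2 := by rcases hk with h | h <;> rw [h] <;> rfl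
  have jr : P.j r = n := by rw [Sca.j, hb]; exact hr.ord2 (by omega) (by omega)
  have ju : n ≤ 2 * P.j u ∧ 2 < P.j u := by
    have := hu.ord1 (by omega) (by omega)
    rw [Sca.j, hb]
    omega
  obtain ⟨x, hx, y, hy, hc, h1, h1', h2, h2'⟩ := R.lift2 hr.pr hu.pr h
  have hy0 := adj_core hT hn hr.pr hu.pr (by omega) ju.1 hx hy hc h1 h2 h2'
  have hr0 := P.cast_ne hr.pr (by omega)
  have hx0 : ∀ w ∈ mv x, x w = w → w = 0 := fun w hw hw' =>
    Submodule.disjoint_def.1 (compl_fx h1 hr0).disjoint w (mem_fx.2 hw') hw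
  have hW := nd_mv hT.nd hx h1 hr0
  obtain ⟨t', m, hT'⟩ := exists_ty hW
  have e : m = n := by
    have a1 := min_mv hT.nd hx hr.pr (by omega) h1 h1'
    have a2 := wt_dim t n
    have a3 := wt_dim t' m
    have a4 := Submodule.finrank_le (mv x)
    rw [hT.kd, ← hT.dim, hw] at a2
    rw [hT'.kd, ← hT'.dim, hw] at a3
    rw [hw, jr] at a1
    omega
  subst e
  have fx := fpf_ty hT' hx (stb_mv (Commute.refl x)) hr.pr (by omega) h1 hx0
  have fy := fpf_ty hT' hy (stb_mv hc) hu.pr ju.2 h2 hy0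
  rcases hk with hk | hk
  · refine adjL_ar hq (by omega) hr hu ?_ fx.2.2 fy.2.2
    have a1 := hT'.kd.trans hk
    have a2 := fx.2.1
    revert a1 a2
    cases t' <;> simp [Ty.kd]
  · obtain ⟨x', hx', ex⟩ := exists_res hx (stb_mv (Commute.refl x))
    obtain ⟨y', hy', ey⟩ := exists_res hy (stb_mv hc)
    have p1 : x' ^ r = 1 := LinearEquiv.ext fun w => Subtype.ext (by rw [fadjb_pow ex, h1]; rfl)
    have p2 : y' ^ u = 1 := LinearEquiv.ext fun w => Subtype.ext (by rw [fadjb_pow ey, h2]; rfl)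
    have f1 : ∀ v, x' v = v → v = 0 := fun v hv =>
      Subtype.ext (hx0 v v.2 ((ex v).symm.trans (congrArg _ hv)))
    have f2 : ∀ v, y' v = v → v = 0 := fun v hv =>
      Subtype.ext (hy0 v v.2 ((ey v).symm.trans (congrArg _ hv)))
    have c' : Commute x' y' := LinearEquiv.ext fun w => Subtype.ext (by
      rw [LinearEquiv.mul_apply, LinearEquiv.mul_apply, ex, ey, ey, ex, ← LinearEquiv.mul_apply,
        hc.eq, LinearEquiv.mul_apply])
    obtain ⟨Ψ, hΨ, hI⟩ := sp_to_og hk hW hx'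
      (hr.pr.odd_of_ne_two (Ord.ne_two (b := P.k.bs P.q) (by change 1 < P.j r; omega))) p1 f1
    obtain ⟨s, l, hS⟩ := exists_ty hΨ
    have d1 := (free_dvd (hI x' hx' (Commute.refl _)) hr.pr p1 f1).2
    have d2 := (free_dvd (hI y' hy' c') hu.pr p2 f2).2
    rw [← Int.natCast_dvd_natCast, hS.ns] at d1 d2
    have q' : (Sca.og F).q = P.q := by have := P.card; rw [hk] at this; exact this
    rw [q'] at d1 d2
    have a1 := hT'.kd.trans hk
    have a2 : s.kd = .O := hS.kd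
    have a3 := hS.dim.symm.trans hT'.dim
    have a4 : (s = .Dp ∨ s = .Dm) ∧ l = m := by
      revert a1 a2 a3
      cases t' <;> cases s <;> simp [Ty.kd, Ty.dim]
      omega
    rw [a4.2] at d1 d2
    exact adjL_ar hq (by omega) hr hu a4.1 d1 d2

end Frm

end Pool.Agent.Lib.MP_7d41f7_al
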