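import Pool.Agent.Lib.MP_7d41f7_al.C.FBas

/-! Anisotropic forms. -/

set_option autoImplicit false

namespace Pool.Agent.Lib.MP_7d41f7_al

open Module

variable {F V : Type} [Field F] [Finite F] {P : Sca F} [AddCommGroup V] [Module F V] [Finite V]
  {Φ : Frm P V}

namespace Frm

omit [Finite F] [Finite V] in
theorem Q_S (h : P.k = .S) (v : V) : Φ.Q v = 0 := by
  obtain ⟨c, hc⟩ := Φ.tr v
  rw [← hc, Sca.τ_S h]

theorem exists_sing_U (h : P.k = .U) (hd : 2 ≤ finrank F V) : ∃ v, v ≠ 0 ∧ Φ.Q v = 0 := by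
  by_contra c
  have c' : ∀ v, v ≠ 0 → Φ.Q v ≠ 0 := fun v h1 h2 => c ⟨v, h1, h2⟩
  have e : ∀ v, Φ.B v v = Φ.Q v := fun v => by rw [Φ.diag, Sca.ρ_U h, one_mul]
  have e' : ∀ v, P.σ (Φ.Q v) = Φ.Q v := fun v => by
    have := Φ.sym v v
    rw [Sca.ε_U h, one_mul, e] at this
    exact this.symm
  have : Nontrivial V := Module.nontrivial_of_finrank_pos (R := F) (by omega)
  obtain ⟨x, hx⟩ := exists_ne (0 : V)
  obtain ⟨y, hy, hy0⟩ := Submodule.exists_mem_ne_zero_of_ne_bot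
    (LinearMap.ker_ne_bot_of_finrank_lt (f := Φ.B.flip x) (by rw [finrank_self]; omega))
  have h0 : Φ.B y x = 0 := hy
  obtain ⟨a, ha⟩ := Sca.norm_surj h (a := -Φ.Q x / Φ.Q y) (by rw [map_div₀, map_neg, e', e'])
  have h1 : Φ.B (a • y) x = 0 := by rw [smul_B, h0, mul_zero]
  refine c' (a • y + x) (fun h2 => c' x hx ?_) ?_
  · rw [← e, ← zero_add (Φ.B x x), ← h1, ← LinearMap.add_apply, ← map_add, h2, map_zero,
      LinearMap.zero_apply]
    exact h1.symm
  · rw [Q_add0 h1, Φ.smul, ha, div_mul_cancel₀ _ (c' y hy0), neg_add_cancel]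

open MvPolynomial in
theorem exists_sing_O (h : P.k = .O) (hd : 3 ≤ finrank F V) : ∃ v, v ≠ 0 ∧ Φ.Q v = 0 := by
  classical
  have := Fintype.ofFinite F
  obtain ⟨p, -, hp, -, -, _⟩ := P.pp
  obtain ⟨b, hb⟩ := exists_linearIndependent_of_le_finrank hd
  let m : F → Fin 3 → Fin 3 → MvPolynomial (Fin 3) F := fun c i j => C c * (X i * X j)
  have hm : ∀ c i j, (m c i j).totalDegree < 3 := fun c i j => by
    have h1 := totalDegree_mul (C c) (X i * X j : MvPolynomial (Fin 3) F)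
    have h2 := totalDegree_mul (X i) (X j : MvPolynomial (Fin 3) F)
    rw [totalDegree_C] at h1
    rw [totalDegree_X, totalDegree_X] at h2
    exact (h1.trans (by omega : _ ≤ 2)).trans_lt (by decide)
  have ad : ∀ f g : MvPolynomial (Fin 3) F, f.totalDegree < 3 → g.totalDegree < 3 →
      (f + g).totalDegree < 3 := fun f g h1 h2 => (totalDegree_add f g).trans_lt (max_lt h1 h2)
  have key := char_dvd_card_solutions p (σ := Fin 3) (ad _ _ (ad _ _ (ad _ _ (ad _ _ (ad _ _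
    (hm (Φ.Q (b 0)) 0 0) (hm (Φ.Q (b 1)) 1 1)) (hm (Φ.B (b 0) (b 1)) 0 1)) (hm (Φ.Q (b 2)) 2 2))
    (hm (Φ.B (b 0) (b 2)) 0 2)) (hm (Φ.B (b 1) (b 2)) 1 2))
  by_contra c
  rw [Fintype.card_eq_one_iff.2 ⟨⟨0, by simp [m]⟩, fun x => Subtype.ext ?_⟩] at key
  · exact hp.one_lt.ne' (Nat.dvd_one.1 key)
  · refine funext (Fintype.linearIndependent_iff.1 hb x.1 (not_not.1 fun h0 => c ⟨_, h0, ?_⟩))
    refine Eq.trans ?_ x.2
    simp only [Fin.sum_univ_three, Φ.add, Φ.smul, Sca.τ_O h, map_add, LinearMap.add_apply, smul_B,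
      B_smul, Sca.σ_O h, m, map_mul, eval_C, eval_X]
    ring

theorem exists_sing (hd : 3 ≤ finrank F V) : ∃ v, v ≠ 0 ∧ Φ.Q v = 0 := by
  rcases P.kind with h | h | h
  · exact exists_sing_U h (by omega)
  · have : Nontrivial V := Module.nontrivial_of_finrank_pos (R := F) (by omega)
    obtain ⟨v, hv⟩ := exists_ne (0 : V)
    exact ⟨v, hv, Q_S h v⟩
  · exact exists_sing_O h hd

theorem card_one (hn : Φ.Nd) (hd : finrank F V = 1) :
    Φ.ns = 0 ∧ P.ρ ≠ 0 ∧ Nat.card Φ.Iso = Nat.card {c : F // c * P.σ c = 1} := by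
  obtain ⟨v, hv, hs⟩ := finrank_eq_one_iff'.1 hd
  have h0 : Φ.B v v ≠ 0 := fun h => hv (hn v fun y => by
    obtain ⟨c, rfl⟩ := hs y
    rw [B_smul, h, mul_zero])
  have h1 := h0
  rw [Φ.diag] at h1
  refine ⟨Nat.card_eq_zero.2 (Or.inl ⟨?_⟩), left_ne_zero_of_mul h1, ?_⟩
  · rintro ⟨w, hw, h2⟩
    obtain ⟨c, rfl⟩ := hs w
    have hc : c ≠ 0 := left_ne_zero_of_smul hw
    rw [Φ.smul] at h2
    exact mul_ne_zero (mul_ne_zero hc ((map_ne_zero _).2 hc)) (right_ne_zero_of_mul h1) h2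
  · refine (Nat.card_eq_of_bijective (fun c : {c : F // c * P.σ c = 1} =>
      (⟨LinearEquiv.smulOfNeZero F V c.1 (left_ne_zero_of_mul_eq_one c.2), fun x y => ?_,
        fun x => ?_⟩ : Φ.Iso)) ⟨fun c c' e => ?_, fun g => ?_⟩).symm
    · show Φ.B (c.1 • x) (c.1 • y) = _
      rw [smul_B, B_smul, ← mul_assoc, c.2, one_mul]
    · show Φ.Q (c.1 • x) = _
      rw [Φ.smul, c.2, one_mul]
    · exact Subtype.ext (smul_left_injective F hv
        (LinearEquiv.congr_fun (congrArg Subtype.val e) v))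
    · obtain ⟨c, hc⟩ := hs (g.1 v)
      have h2 := g.2.1 v v
      rw [← hc, smul_B, B_smul, ← mul_assoc, mul_eq_right₀ h0] at h2
      refine ⟨⟨c, h2⟩, Subtype.ext (LinearEquiv.ext fun x => ?_)⟩
      obtain ⟨a, rfl⟩ := hs x
      show c • a • v = _
      rw [map_smul, ← hc, smul_comm]

/-- An anisotropic plane is a multiple of the norm form. -/
theorem an2_model (h : P.k = .O) (ha : ∀ v, Φ.Q v = 0 → v = 0) (hd : finrank F V = 2) (K : Type)
    [Field K] [Algebra F K] (hK : finrank F K = 2) :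
    ∃ (c : F) (φ : V ≃ₗ[F] K), c ≠ 0 ∧ ∀ x, Φ.Q x = c * Algebra.norm F (φ x) := by
  have := Module.finite_of_finrank_pos (R := F) (M := V) (by omega)
  have := Module.finite_of_finrank_pos (R := F) (M := K) (by omega)
  have := Module.finite_of_finite F (M := K)
  let v := Module.finBasisOfFinrankEq F V hd
  have hc : Φ.Q (v 0) ≠ 0 := fun e => v.ne_zero 0 (ha _ e)
  have hQ : ∀ x y : F, Φ.Q (x • v 0 + y • v 1) = Φ.Q (v 0) * (x * x +
      Φ.B (v 0) (v 1) / Φ.Q (v 0) * x * y - -Φ.Q (v 1) / Φ.Q (v 0) * y * y) := fun x y => by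
    simp only [Φ.add, Φ.smul, smul_B, B_smul, Sca.τ_O h, Sca.σ_O h]
    field_simp
    ring
  have : Fact (∀ r, r ^ 2 ≠ -Φ.Q (v 1) / Φ.Q (v 0) + Φ.B (v 0) (v 1) / Φ.Q (v 0) * r) :=
    ⟨fun r e => by
      simpa using congrArg (v.repr · 1) (ha _ ((hQ (-r) 1).trans (by linear_combination Φ.Q (v 0) * e)))⟩
  obtain ⟨f⟩ := FiniteField.nonempty_algHom_of_finrank_dvd (F := F) (L := K)
    (K := QuadraticAlgebra F (-Φ.Q (v 1) / Φ.Q (v 0)) (Φ.B (v 0) (v 1) / Φ.Q (v 0)))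
    (by rw [QuadraticAlgebra.finrank_eq_two, hK])
  let e := AlgEquiv.ofBijective f ⟨f.injective, (LinearMap.injective_iff_surjective_of_finrank_eq_finrank
    (f := f.toLinearMap) (by rw [QuadraticAlgebra.finrank_eq_two, hK])).1 f.injective⟩
  refine ⟨_, v.equivFun.trans ((QuadraticAlgebra.linearEquivTuple _ _).symm.trans e.toLinearEquiv),
    hc, fun x => ?_⟩
  rw [LinearEquiv.trans_apply, LinearEquiv.trans_apply, AlgEquiv.toLinearEquiv_apply,
    Algebra.norm_eq_of_algEquiv, Algebra.norm_eq_matrix_det (QuadraticAlgebra.basis _ _)]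
  conv_lhs => rw [← v.sum_repr x, Fin.sum_univ_two, hQ]
  simp [Matrix.det_fin_two, Algebra.leftMulMatrix_eq_repr_mul, QuadraticAlgebra.basis, hc]
  ring

theorem fanc_or {K : Type} [Field K] (g φ : K →+ K) (h1 : g 1 = 1) (h2 : φ 1 = 1)
    (h : ∀ z, g z * φ (g z) = z * φ z) : (∀ z, g z = z) ∨ ∀ z, g z = φ z := by
  have key : ∀ z, g z = z ∨ g z = φ z := fun z => by
    have e := h (1 + z)
    simp only [map_add, h1, h2] at e
    have e' : (g z - z) * (g z - φ z) = 0 := by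
      linear_combination g z * e - (g z + 1) * h z
    simpa only [mul_eq_zero, sub_eq_zero] using e'
  by_contra c
  simp only [not_or, not_forall] at c
  obtain ⟨⟨a, ha⟩, b, hb⟩ := c
  have h3 := (key a).resolve_left ha
  have h4 := (key b).resolve_right hb
  rcases key (a + b) with e | e
  · rw [map_add, h4] at e
    exact ha (add_right_cancel e)
  · rw [map_add, map_add, h3] at e
    exact hb (add_left_cancel e)

theorem card_normIso (K : Type) [Field K] [Algebra F K] (hK : finrank F K = 2) :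
    Nat.card {g : K ≃ₗ[F] K // ∀ z, Algebra.norm F (g z) = Algebra.norm F z} =
      2 * (Nat.card F + 1) := by
  have : Module.Finite F K := Module.finite_of_finrank_pos (by omega)
  have : Finite K := Module.finite_of_finite F
  have := Fintype.ofFinite F
  let φ := FiniteField.frobeniusAlgEquivOfAlgebraic F K
  have hN : ∀ z : K, algebraMap F K (Algebra.norm F z) = z * φ z := fun z => by
    rw [FiniteField.algebraMap_norm_eq_prod_pow, hK, Finset.prod_range_succ, Finset.prod_range_one,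
      pow_zero, pow_one, pow_one, Nat.card_eq_fintype_card]
    rfl
  have hP : ∀ z : K, z * φ z = z ^ (Nat.card F + 1) := fun z => by
    rw [pow_succ', Nat.card_eq_fintype_card]
    rfl
  have hU : ∀ u : Kˣ, u ∈ (powMonoidHom (Nat.card F + 1) : Kˣ →* Kˣ).ker ↔
      Algebra.norm F (u : K) = 1 := fun u => by
    rw [MonoidHom.mem_ker, powMonoidHom_apply, ← Units.val_inj, Units.val_pow_eq_pow_val, ← hP,
      ← hN, Units.val_one, map_eq_one_iff _ (algebraMap F K).injective]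
  have hc : Nat.card (powMonoidHom (Nat.card F + 1) : Kˣ →* Kˣ).ker = Nat.card F + 1 := by
    rw [IsCyclic.card_powMonoidHom_ker, Nat.card_units, Module.natCard_eq_pow_finrank (K := F), hK]
    exact Nat.gcd_eq_right ⟨Nat.card F - 1, by simpa using Nat.sq_sub_sq (Nat.card F) 1⟩
  rw [← hc, ← hK, ← IsGalois.card_aut_eq_finrank, ← Nat.card_prod]
  refine (Nat.card_eq_of_bijective (fun x : Gal(K/F) × (powMonoidHom (Nat.card F + 1) :
    Kˣ →* Kˣ).ker => (⟨x.1.toLinearEquiv.trans (x.2.1.mulLeftLinearEquiv F K), fun z => ?_⟩ :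
      {g : K ≃ₗ[F] K // ∀ z, Algebra.norm F (g z) = Algebra.norm F z})) ⟨?_, ?_⟩).symm
  · show Algebra.norm F (x.2.1 * x.1 z) = _
    rw [map_mul, (hU _).1 x.2.2, one_mul, Algebra.norm_eq_of_algEquiv]
  · rintro ⟨s, u⟩ ⟨s', u'⟩ e
    have e1 : ∀ z, (u.1 : K) * s z = u'.1 * s' z := fun z =>
      LinearEquiv.congr_fun (congrArg Subtype.val e) z
    obtain rfl : u = u' := Subtype.ext (Units.ext (by simpa using e1 1))
    exact Prod.ext (AlgEquiv.ext fun z => mul_left_cancel₀ u.1.ne_zero (e1 z)) rfl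
  · rintro ⟨g, hg⟩
    have h0 : g 1 ≠ 0 := by simp
    have h1 : Algebra.norm F (g 1) = 1 := by rw [hg, map_one]
    have h2 : Algebra.norm F (g 1)⁻¹ = 1 := by
      rw [← one_mul (Algebra.norm F _), ← h1, ← map_mul, mul_inv_cancel₀ h0, h1, map_one]
    have h3 : ∀ s : Gal(K/F), (∀ z, (g 1)⁻¹ * g z = s z) → ∀ z, g 1 * s z = g z := fun s hs z => by
      rw [← hs, mul_inv_cancel_left₀ h0]
    rcases fanc_or ((AddMonoidHom.mulLeft (g 1)⁻¹).comp g.toLinearMap.toAddMonoidHom)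
      φ.toLinearMap.toAddMonoidHom (inv_mul_cancel₀ h0) (map_one φ) (fun z => by
        show (g 1)⁻¹ * g z * φ ((g 1)⁻¹ * g z) = z * φ z
        rw [← hN, ← hN, map_mul, h2, one_mul, hg]) with e | e
    · exact ⟨(1, ⟨Units.mk0 _ h0, (hU _).2 h1⟩), Subtype.ext (LinearEquiv.ext (h3 1 e))⟩
    · exact ⟨(φ, ⟨Units.mk0 _ h0, (hU _).2 h1⟩), Subtype.ext (LinearEquiv.ext (h3 φ e))⟩

omit [Finite F] [Finite V] in
theorem mem_iso_O (h : P.k = .O) {g : V ≃ₗ[F] V} : g ∈ Φ.Iso ↔ ∀ x, Φ.Q (g x) = Φ.Q x := by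
  refine ⟨fun h => h.2, fun h' => ⟨fun x y => ?_, h'⟩⟩
  have h1 := h' (x + y)
  rwa [map_add, Φ.add, Φ.add, h', h', add_right_inj, Sca.τ_O h, Sca.τ_O h] at h1

omit [Finite F] [Finite V] in
theorem fand_ns (ha : ∀ v, Φ.Q v = 0 → v = 0) : Φ.ns = 0 := by
  have : IsEmpty {v : V // v ≠ 0 ∧ Φ.Q v = 0} := ⟨fun v => v.2.1 (ha _ v.2.2)⟩
  exact Nat.card_of_isEmpty

theorem fand_le (ha : ∀ v, Φ.Q v = 0 → v = 0) : finrank F V ≤ 2 := by
  by_contra hd
  obtain ⟨v, h0, hv⟩ := exists_sing (Φ := Φ) (by omega)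
  exact h0 (ha v hv)

theorem fand_ext (P : Sca F) : ∃ (K : Type) (_ : Field K) (_ : Algebra F K), finrank F K = 2 := by
  obtain ⟨p, f, hp, -, -, hc⟩ := P.pp
  have := Fact.mk hp
  exact ⟨FiniteField.Extension F p 2, inferInstance, inferInstance,
    FiniteField.finrank_extension F p 2⟩

theorem fand_two (h : P.k = .O) (ha : ∀ v, Φ.Q v = 0 → v = 0) (hd : finrank F V = 2) :
    Nat.card Φ.Iso = 2 * (P.q + 1) := by
  obtain ⟨K, _, _, hK⟩ := fand_ext P
  obtain ⟨c, φ, hc, hφ⟩ := an2_model h ha hd K hK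
  have hq : Nat.card F = P.q := by rw [P.card, h]; rfl
  rw [← hq, ← card_normIso K hK]
  refine Nat.card_congr ⟨fun g => ⟨φ.symm.trans (g.1.trans φ), fun z => ?_⟩,
    fun g => ⟨φ.trans (g.1.trans φ.symm), (mem_iso_O h).2 fun x => ?_⟩, fun g => ?_, fun g => ?_⟩
  · have := g.2.2 (φ.symm z)
    rw [hφ, hφ, φ.apply_symm_apply] at this
    exact mul_left_cancel₀ hc this
  · rw [hφ, hφ, LinearEquiv.trans_apply, LinearEquiv.trans_apply, φ.apply_symm_apply, g.2]
  · ext x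
    simp
  · ext x
    simp

theorem an_ty (hn : Φ.Nd) (ha : ∀ v, Φ.Q v = 0 → v = 0) : ∃ t n, Φ.IsTy t n := by
  have hs := fand_ns ha
  have hd := fand_le ha
  rcases (by omega : finrank F V = 0 ∨ finrank F V = 1 ∨ finrank F V = 2) with hd | hd | hd
  · have : Subsingleton V := Module.finrank_zero_iff.1 hd
    have : Subsingleton (V ≃ₗ[F] V) := ⟨fun a b => LinearEquiv.ext fun x => Subsingleton.elim _ _⟩
    rcases P.kind with h | h | h
    · exact ⟨.U, 0, hn, h.symm, hd, by simp [hs, Ty.sing], by simp [Ty.ord], by simp, by simp⟩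
    · exact ⟨.C, 0, hn, h.symm, hd, by simp [hs, Ty.sing], by simp [Ty.ord], by simp, by simp⟩
    · exact ⟨.Dp, 0, hn, h.symm, hd, by simp [hs, Ty.sing], by simp [Ty.ord], by simp, by simp⟩
  · obtain ⟨-, h1, hc⟩ := card_one hn hd
    rcases P.kind with h | h | h
    · rw [Sca.card_norm h] at hc
      exact ⟨.U, 1, hn, h.symm, hd, by simp [hs, Ty.sing], by simp [hc, Ty.ord], by simp, by simp⟩
    · exact absurd (Sca.ρ_S h) h1
    · rw [Sca.ρ_O h] at h1
      have h2 : Nat.card {c : F // c * P.σ c = 1} = 2 := by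
        refine Nat.card_eq_two_iff.2 ⟨⟨1, by simp⟩, ⟨-1, by simp⟩, fun e => h1 ?_, ?_⟩
        · have e' : (1 : F) = -1 := congrArg Subtype.val e
          linear_combination e'
        · refine Set.eq_univ_of_forall fun c => ?_
          have hc := c.2
          rw [Sca.σ_O h, mul_self_eq_one_iff] at hc
          exact hc.imp Subtype.ext Subtype.ext
      rw [h2] at hc
      exact ⟨.B, 0, hn, h.symm, hd, by simp [hs, Ty.sing], by simp [hc, Ty.ord], by simp,
        fun _ => P.two_ne.1 h1⟩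
  · rcases P.kind with h | h | h
    · obtain ⟨v, h0, hv⟩ := exists_sing_U (Φ := Φ) h hd.ge
      exact absurd (ha v hv) h0
    · have : Nontrivial V := Module.nontrivial_of_finrank_pos (R := F) (by omega)
      obtain ⟨v, hv⟩ := exists_ne (0 : V)
      exact absurd (ha v (Q_S h v)) hv
    · exact ⟨.Dm, 1, hn, h.symm, hd, by simp [hs, Ty.sing], by simp [fand_two h ha hd, Ty.ord],
        by simp, by simp⟩

theorem an_sim (h : P.k = .O) {W : Type} [AddCommGroup W] [Module F W] [Finite W] {Ψ : Frm P W}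
    (ha : ∀ v, Φ.Q v = 0 → v = 0) (hb : ∀ v, Ψ.Q v = 0 → v = 0)
    (hd : finrank F V = finrank F W) :
    ∃ (c : F) (g : V ≃ₗ[F] W), c ≠ 0 ∧ ∀ x, Ψ.Q (g x) = c * Φ.Q x := by
  have h2 := fand_le ha
  rcases (by omega : finrank F V = 0 ∨ finrank F V = 1 ∨ finrank F V = 2) with h2 | h2 | h2
  · have : Subsingleton V := Module.finrank_zero_iff.1 h2
    refine ⟨1, LinearEquiv.ofFinrankEq V W hd, one_ne_zero, fun x => ?_⟩
    rw [Subsingleton.elim x 0, map_zero, Q_zero, Q_zero, mul_zero]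
  · obtain ⟨v, h0, hv⟩ := finrank_eq_one_iff'.1 h2
    obtain ⟨g⟩ : Nonempty (V ≃ₗ[F] W) := ⟨LinearEquiv.ofFinrankEq V W hd⟩
    have h3 : Φ.Q v ≠ 0 := fun e => h0 (ha v e)
    have h4 : Ψ.Q (g v) ≠ 0 := fun e => h0 (g.map_eq_zero_iff.1 (hb _ e))
    refine ⟨Ψ.Q (g v) / Φ.Q v, g, div_ne_zero h4 h3, fun x => ?_⟩
    obtain ⟨a, rfl⟩ := hv x
    rw [map_smul, Ψ.smul, Φ.smul, mul_left_comm (Ψ.Q (g v) / Φ.Q v), div_mul_cancel₀ _ h3]
  · obtain ⟨K, _, _, hK⟩ := fand_ext P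
    obtain ⟨c, φ, hc, hφ⟩ := an2_model h ha h2 K hK
    obtain ⟨c', ψ, hc', hψ⟩ := an2_model h hb (hd ▸ h2) K hK
    refine ⟨c' / c, φ.trans ψ.symm, div_ne_zero hc' hc, fun x => ?_⟩
    rw [hφ, hψ, LinearEquiv.trans_apply, ψ.apply_symm_apply, ← mul_assoc, div_mul_cancel₀ _ hc]

end Frm

end Pool.Agent.Lib.MP_7d41f7_al
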