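import Pool.Agent.Lib.MP_7d41f7_al.C.FCyc

/-! The centre and the index. -/

set_option autoImplicit false

namespace Pool.Agent.Lib.MP_7d41f7_al

open Module

variable {F V : Type} [Field F] [Finite F] {P : Sca F} [AddCommGroup V] [Module F V] [Finite V]
  {Φ : Frm P V}

namespace Frm

variable {t : Ty} {n r : ℕ} {Γ : Type} [Group Γ] {e v : V}

/-- The isometry attached to two vectors of a totally singular subspace. -/
def IsEi (Φ : Frm P V) (e v : V) (g : V ≃ₗ[F] V) : Prop :=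
  g ∈ Φ.Iso ∧ ∀ x, g x = x + (P.ε * Φ.B x e) • v - Φ.B x v • e

theorem exists_ei (hn : Φ.Nd) (he : Φ.Q e = 0) (hv : Φ.Q v = 0) (h : Φ.B e v = 0) :
    ∃ g, Φ.IsEi e v g := by
  have hve : Φ.B v e = 0 := B_comm0 h
  have hee : Φ.B e e = 0 := B_self he
  have hvv : Φ.B v v = 0 := B_self hv
  let L : V →ₗ[F] V := LinearMap.id + (P.ε • Φ.B.flip e).smulRight v - (Φ.B.flip v).smulRight e
  have hL : ∀ x, L x = x + (P.ε * Φ.B x e) • v - Φ.B x v • e := fun _ => rfl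
  obtain ⟨g, hg, e1⟩ := hn.mk_iso L (fun x y => by
      simp only [hL, map_add, map_sub, LinearMap.add_apply, LinearMap.sub_apply, smul_B, B_smul,
        h, hve, hee, hvv, map_mul, P.σ_ε]
      rw [Φ.sym y e, Φ.sym y v]
      linear_combination (Φ.B x e * P.σ (Φ.B y v)) * P.ε_sq) (fun x => by
      have h1 : Φ.Q ((P.ε * Φ.B x e) • v + (-Φ.B x v) • e) = 0 := by
        rw [Q_add0 (by rw [smul_B, B_smul, hve, mul_zero, mul_zero]), Φ.smul, Φ.smul, he, hv]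
        simp
      have h2 := P.τ_sym (Φ.B x e * P.σ (Φ.B x v))
      rw [map_mul, P.σσ] at h2
      rw [hL, add_sub_assoc, sub_eq_add_neg, ← neg_smul, Φ.add, h1, map_add, B_smul, B_smul,
        P.τ_add, map_neg, neg_mul, P.τ_neg, map_mul, P.σ_ε, mul_assoc, h2, mul_comm (Φ.B x e)]
      ring)
  exact ⟨g, hg, fun x => (e1 x).trans (hL x)⟩

omit [Finite F] [Finite V] in
theorem fcena_conj {s g g' : V ≃ₗ[F] V} (hs : s ∈ Φ.Iso) (he : s e = e) (hg : Φ.IsEi e v g)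
    (hg' : Φ.IsEi e (s v) g') : g' * g⁻¹ ∈ Φ.Der := by
  have : g' = s * g * s⁻¹ := LinearEquiv.ext fun x => by
    obtain ⟨y, rfl⟩ := s.surjective x
    have h1 : (s * g * s⁻¹) (s y) = s (g y) := by
      rw [← LinearEquiv.mul_apply, inv_mul_cancel_right, LinearEquiv.mul_apply]
    have h2 : Φ.B (s y) e = Φ.B y e := by rw [← hs.1 y e, he]
    rw [h1, hg'.2, hg.2, map_sub, map_add, map_smul, map_smul, he, h2, hs.1]
  rw [this]
  exact Subgroup.commutator_mem_commutator hs hg.1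

theorem fcena_trans (hn : Φ.Nd) {f : V} (h : Φ.Hyp e f) {w w' : Φ.pl e f} (hw : Φ.Q w = 0)
    (h0 : w ≠ 0) (hw' : Φ.Q w' = 0) (h0' : w' ≠ 0) {g g' : V ≃ₗ[F] V} (hg : Φ.IsEi e w g)
    (hg' : Φ.IsEi e w' g') : g' * g⁻¹ ∈ Φ.Der := by
  obtain ⟨a, ha, e1⟩ := trans_vec (h.nd_pl hn) (e := w) (e' := w') hw h0 hw' h0'
  obtain ⟨φ, -, h1, -⟩ := h.ext
  obtain ⟨h2, h3, -, h4⟩ := h1 ⟨a, Sm_le ha⟩
  refine fcena_conj h2 h3 hg ?_
  rwa [h4 w, e1]

theorem IsEi.mem_der (hn : Φ.Nd) (hd : 7 ≤ finrank F V) {f : V} (h : Φ.Hyp e f)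
    (hv : v ∈ Φ.pl e f) (hq : Φ.Q v = 0) {g : V ≃ₗ[F] V} (hg : Φ.IsEi e v g) : g ∈ Φ.Der := by
  rcases eq_or_ne v 0 with rfl | h0
  · have : g = 1 := LinearEquiv.ext fun x => by simpa using hg.2 x
    exact this ▸ one_mem _
  have hd' := h.finrank_pl
  obtain ⟨U, hU, h2⟩ := exists_ti (h.nd_pl hn) (k := 2) (by omega)
  let b := Module.finBasisOfFinrankEq F U h2
  have ex : ∀ w : U, ∃ g, Φ.IsEi e (w : Φ.pl e f) g := fun w =>
    exists_ei hn h.qe (hU.1 _ w.2) (B_comm0 (mem_pl Φ |>.1 w.1.2).1)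
  have ne : ∀ w : U, w ≠ 0 → (w : Φ.pl e f) ≠ 0 := fun w hw h => hw (Subtype.ext h)
  obtain ⟨g₁, h₁⟩ := ex (b 0)
  obtain ⟨g₂, h₂⟩ := ex (b 1)
  have h3 : Φ.IsEi e ((b 0 + b 1 : U) : Φ.pl e f) (g₁ * g₂) :=
    ⟨mul_mem h₁.1 h₂.1, fun x => by
      have a1 : Φ.B (b 1 : Φ.pl e f) e = 0 := (mem_pl Φ |>.1 (b 1).1.2).1
      have a2 : Φ.B e (b 0 : Φ.pl e f) = 0 := B_comm0 (mem_pl Φ |>.1 (b 0).1.2).1
      have a3 : Φ.B (b 1 : Φ.pl e f) (b 0 : Φ.pl e f) = 0 := hU.2 _ (b 1).2 _ (b 0).2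
      rw [LinearEquiv.mul_apply, h₁.2, h₂.2]
      simp only [map_add, map_sub, LinearMap.add_apply, LinearMap.sub_apply, smul_B, a1, a2, a3,
        h.ee, Submodule.coe_add, mul_zero, add_zero, sub_zero]
      module⟩
  have h4 : b 0 + b 1 ≠ 0 := fun h => by simpa using congrArg (fun x => b.repr x 0) h
  have h5 := fcena_trans hn h (hU.1 _ (b 1).2) (ne _ (b.ne_zero 1)) (hU.1 _ (b 0 + b 1).2)
    (ne _ h4) h₂ h3
  have h6 := fcena_trans hn h (hU.1 _ (b 0).2) (ne _ (b.ne_zero 0)) (w' := ⟨v, hv⟩) hq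
    (fun h => h0 (congrArg Subtype.val h)) h₁ hg
  rw [mul_inv_cancel_right] at h5
  simpa using mul_mem h6 h5

theorem fcenb_span (hn : Φ.Nd) (hd : 7 ≤ finrank F V) {z : V ≃ₗ[F] V}
    (hc : ∀ h ∈ Φ.Der, Commute h z) {f x : V} (h : Φ.Hyp e f) (hv : v ∈ Φ.pl e f)
    (hq : Φ.Q v = 0) (hx : x ∈ Φ.pl e f) (h0 : Φ.B x v ≠ 0) :
    ∃ a b : F, z e = a • e + b • v := by
  obtain ⟨g, hg⟩ := exists_ei hn h.qe hq (B_comm0 hv.1)
  have h1 : g (z x) = z (g x) := by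
    rw [← LinearEquiv.mul_apply, (hc g (hg.mem_der hn hd h hv hq)).eq, LinearEquiv.mul_apply]
  rw [hg.2, hg.2, (Φ.mem_pl.1 hx).1, mul_zero, zero_smul, add_zero, map_sub, map_smul] at h1
  have h2 : Φ.B x v • z e = Φ.B (z x) v • e - (P.ε * Φ.B (z x) e) • v := by
    linear_combination (norm := module) h1
  refine ⟨(Φ.B x v)⁻¹ * Φ.B (z x) v, -((Φ.B x v)⁻¹ * (P.ε * Φ.B (z x) e)), ?_⟩
  rw [neg_smul, ← sub_eq_add_neg, mul_smul, mul_smul (Φ.B x v)⁻¹, ← smul_sub, ← h2,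
    inv_smul_smul₀ h0]

theorem fcenb_eig (hn : Φ.Nd) (hd : 7 ≤ finrank F V) {z : V ≃ₗ[F] V}
    (hc : ∀ h ∈ Φ.Der, Commute h z) (he : Φ.Q e = 0) (h0 : e ≠ 0) : ∃ c : F, z e = c • e := by
  obtain ⟨f, h⟩ := hn.partner' he h0
  have hr := h.finrank_pl
  obtain ⟨w, hw0, hw⟩ := exists_sing (Φ := Φ.res (Φ.pl e f)) (by omega)
  obtain ⟨w', h'⟩ := (h.nd_pl hn).partner' hw hw0
  have e1 : Φ.B w w' = 1 := h'.ef
  have e2 : Φ.B w' w = P.ε := h'.fe
  have e3 : Φ.B w' w' = 0 := h'.ff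
  obtain ⟨a, b, h1⟩ := fcenb_span hn hd hc h w.2 h'.qe w'.2 (e2 ▸ P.ε_ne)
  obtain ⟨a', b', h2⟩ := fcenb_span hn hd hc h w'.2 h'.qf w.2 (e1 ▸ one_ne_zero)
  have h3 := congrArg (fun y => Φ.B y w') (h1.symm.trans h2)
  simp only [map_add, LinearMap.add_apply, smul_B, e1, e3, B_comm0 (Φ.mem_pl.1 w'.2).1, mul_zero,
    zero_add, mul_one] at h3
  exact ⟨a, by rw [h1, h3, zero_smul, add_zero]⟩

omit [Finite F] [Finite V] in
theorem fcenb_pl {z : V ≃ₗ[F] V} (hz : z ∈ Φ.Iso)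
    (hs : ∀ u, Φ.Q u = 0 → u ≠ 0 → ∃ d : F, z u = d • u) {f : V} (h : Φ.Hyp e f) {c' : F}
    (hf : z f = c' • f) {x : V} (hx : x ∈ Φ.pl e f) : z x = c' • x := by
  obtain ⟨c, hc⟩ := hs e h.qe h.ne
  have hk : ∀ (u : V) (d : F), u ≠ 0 → z u = d • u → Φ.B x u = 0 → Φ.B (z x) u = 0 := by
    intro u d hu h1 h2
    have h3 : d ≠ 0 := fun h4 => hu (z.map_eq_zero_iff.1 (by rw [h1, h4, zero_smul]))
    have h4 := hz.1 x u
    rw [h1, B_smul, h2] at h4
    exact (mul_eq_zero.1 h4).resolve_left ((map_ne_zero _).2 h3)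
  have hxe := (Φ.mem_pl.1 hx).1
  have hxf := (Φ.mem_pl.1 hx).2
  have h1 := hk e c h.ne hc hxe
  have h2 := hk f c' h.symm.ne hf hxf
  obtain ⟨a, ha⟩ := Φ.tr x
  have h3 : Φ.Q ((-a) • e + (1 : F) • f + x) = 0 := by
    rw [h.Q_dec _ _ hx, map_one, mul_one, P.τ_neg, ha, neg_add_cancel]
  have h4 : (-a) • e + (1 : F) • f + x ≠ 0 := fun h5 => by
    have h6 := congrArg (fun y => Φ.B y e) h5
    simp only [map_add, LinearMap.add_apply, smul_B, h.ee, h.fe, hxe, map_zero,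
      LinearMap.zero_apply, mul_zero, zero_add, add_zero, one_mul] at h6
    exact P.ε_ne h6
  obtain ⟨d, h5⟩ := hs _ h3 h4
  rw [map_add, map_add, map_smul, map_smul, hc, hf] at h5
  have h6 := congrArg (fun y => Φ.B y e) h5
  have h7 := congrArg (fun y => Φ.B y f) h5
  simp only [map_add, LinearMap.add_apply, smul_B, h.ee, h.fe, h.ef, h.ff, hxe, hxf, h1, h2,
    mul_zero, zero_add, add_zero, one_mul, mul_one] at h6 h7
  have h8 : c' = d := mul_right_cancel₀ P.ε_ne h6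
  subst h8
  rw [smul_add, smul_add, smul_smul, smul_smul, smul_smul, smul_smul, h7, mul_comm c' 1] at h5
  exact add_left_cancel h5

theorem center_scalar (hn : Φ.Nd) (hd : 7 ≤ finrank F V) {z : V ≃ₗ[F] V} (hz : z ∈ Φ.Iso)
    (hc : ∀ h ∈ Φ.Der, Commute h z) : ∃ c : F, c * P.σ c = 1 ∧ ∀ v, z v = c • v := by
  have hs : ∀ u, Φ.Q u = 0 → u ≠ 0 → ∃ d : F, z u = d • u := fun u h1 h2 =>
    fcenb_eig hn hd hc h1 h2
  obtain ⟨e, h0, he⟩ := exists_sing (Φ := Φ) (by omega)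
  obtain ⟨f, h⟩ := hn.partner' he h0
  obtain ⟨c, h1⟩ := hs e he h0
  obtain ⟨c', h2⟩ := hs f h.qf h.symm.ne
  have h3 : ∀ x ∈ Φ.pl e f, z x = c' • x := fun x hx => fcenb_pl hz hs h h2 hx
  have h4 : ∀ x ∈ Φ.pl e f, z x = c • x := fun x hx =>
    fcenb_pl hz hs h.symm (by rw [map_smul, h1, smul_comm])
      (Φ.mem_pl.2 ⟨(Φ.mem_pl.1 hx).2, by rw [B_smul, (Φ.mem_pl.1 hx).1, mul_zero]⟩)
  have hr := h.finrank_pl
  have : Nontrivial (Φ.pl e f) := Module.nontrivial_of_finrank_pos (R := F) (by omega)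
  obtain ⟨w, hw⟩ := exists_ne (0 : Φ.pl e f)
  have h5 : c' = c := smul_left_injective F (fun h6 => hw (Subtype.ext h6))
    ((h3 w w.2).symm.trans (h4 w w.2))
  subst h5
  refine ⟨c', ?_, fun v => ?_⟩
  · have h6 := hz.1 e f
    rwa [h1, h2, smul_B, B_smul, h.ef, mul_one] at h6
  · have h6 := h3 _ (h.dec v)
    rw [map_sub, map_sub, map_smul, map_smul, h1, h2, smul_sub, smul_sub, smul_comm c',
      smul_comm c'] at h6
    exact sub_left_injective (sub_left_injective h6)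

theorem Rep.center (hn : Φ.Nd) (hd : 7 ≤ finrank F V) (R : Φ.Rep Γ) {z : Γ}
    (hz : z ∈ Subgroup.center Γ) : ∃ c : F, c * P.σ c = 1 ∧ ∀ v, R.ι z v = c • v :=
  center_scalar hn hd (R.le ⟨z, rfl⟩) fun h hh => by
    obtain ⟨a, rfl⟩ := R.der hh
    exact Commute.map (Subgroup.mem_center_iff.1 hz a) R.ι

theorem fcenc_index {G : Type} [Group G] [Finite G] {N : Subgroup G} {S : Set G} (hr : r.Prime)
    (hc : _root_.commutator G ≤ N) (hS : Subgroup.closure S = ⊤)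
    (ho : ∀ g ∈ S, ¬ r ∣ orderOf g) : ¬ r ∣ N.index := fun hd => by
  have := Subgroup.Normal.of_commutator_le G hc
  have := Fact.mk hr
  have hm := (Subgroup.Normal.quotient_commutative_iff_commutator_le (N := N)).2 hc
  let _ : CommGroup (G ⧸ N) := { (inferInstance : Group (G ⧸ N)) with mul_comm := hm.is_comm.comm }
  let φ : G ⧸ N →* G ⧸ N := powMonoidHom r
  have h1 : (φ.range).comap (QuotientGroup.mk' N) = ⊤ := by
    rw [eq_top_iff, ← hS, Subgroup.closure_le]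
    intro g hg
    obtain ⟨k, hk⟩ := exists_pow_eq_self_of_coprime (x := g) (n := r)
      ((Nat.Prime.coprime_iff_not_dvd hr).2 (ho g hg))
    refine ⟨QuotientGroup.mk' N (g ^ k), ?_⟩
    change (QuotientGroup.mk' N (g ^ k)) ^ r = _
    rw [← map_pow, ← pow_mul, mul_comm, pow_mul, hk]
  have h2 : Function.Surjective φ := fun a => by
    obtain ⟨g, rfl⟩ := QuotientGroup.mk'_surjective N a
    exact (h1.ge (Subgroup.mem_top g) :)
  obtain ⟨a, ha⟩ := exists_prime_orderOf_dvd_card' (G := G ⧸ N) r hd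
  have h3 : a = 1 := Finite.injective_iff_surjective.2 h2 (by
    change a ^ r = 1 ^ r
    rw [one_pow, ← ha, pow_orderOf_eq_one])
  rw [h3, orderOf_one] at ha
  exact hr.one_lt.ne ha

theorem index_cop (hn : Φ.Nd) (hr : r.Prime) (h2 : 2 < P.j r) {Ω : Subgroup (V ≃ₗ[F] V)}
    (h1 : Φ.Der ≤ Ω) : ¬ r ∣ Ω.relIndex Φ.Iso := by
  have hc : _root_.commutator Φ.Iso ≤ Ω.subgroupOf Φ.Iso := fun x hx =>
    h1 (by
      have := Subgroup.mem_map_of_mem Φ.Iso.subtype hx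
      rwa [Subgroup.map_subtype_commutator] at this)
  refine fcenc_index (S := {g : Φ.Iso | finrank F (mv g.1) ≤ 2}) hr hc ?_ ?_
  · rw [eq_top_iff]
    rintro ⟨x, hx⟩ -
    have h3 : Φ.Sm ≤ (Subgroup.closure {g : Φ.Iso | finrank F (mv g.1) ≤ 2}).map Φ.Iso.subtype :=
      (Subgroup.closure_le _).2 fun g hg => ⟨⟨g, hg.1⟩, Subgroup.subset_closure hg.2, rfl⟩
    obtain ⟨y, hy, rfl⟩ := h3 (le_Sm hn hx)
    exact hy
  · rintro ⟨g, hg⟩ h3 ⟨k, hk⟩
    have h4 : finrank F (mv g) ≤ 2 := h3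
    rw [← Subgroup.orderOf_coe] at hk
    have hk' : orderOf g = r * k := hk
    have hp : 0 < orderOf g := orderOf_pos g
    have hk0 : 0 < k := Nat.pos_of_ne_zero fun h => by
      rw [h, mul_zero] at hk'
      exact hp.ne' hk'
    have h5 := min_mv hn (Φ.Iso.pow_mem hg k) hr h2
      (by rw [← pow_mul, mul_comm, ← hk', pow_orderOf_eq_one])
      (pow_ne_one_of_lt_orderOf hk0.ne' (by rw [hk']; exact lt_mul_left hk0 hr.one_lt))
    have h6 := Submodule.finrank_mono (mv_pow g k)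
    have h7 : 1 ≤ P.k.wt := by cases P.k <;> simp [Kd.wt]
    have h8 := Nat.mul_le_mul_right (P.j r) h7
    omega

theorem card_PQ (hT : Φ.IsTy t n) (hd : 7 ≤ t.dim n) (R : Φ.Rep Γ) :
    ∃ c : ℕ, (Nat.card (PQ Γ) : ℤ) * c = t.ord n P.q ∧ ∀ r, r.Prime → r ∣ c → P.j r ≤ 2 := by
  have := R.finite
  refine ⟨Nat.card (Subgroup.center Γ) * R.ι.range.relIndex Φ.Iso, ?_, fun r hr h => ?_⟩
  · have h1 := Subgroup.card_eq_card_quotient_mul_card_subgroup (Subgroup.center Γ)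
    have h2 : Nat.card Γ = Nat.card (R.ι.range.subgroupOf Φ.Iso) :=
      Nat.card_congr ((MonoidHom.ofInjective R.inj).trans
        (Subgroup.subgroupOfEquivOfLe R.le).symm).toEquiv
    have h3 := Subgroup.card_mul_index (R.ι.range.subgroupOf Φ.Iso)
    rw [← hT.ord, ← h3, ← h2, h1]
    push_cast
    rw [mul_assoc]
    rfl
  · by_contra h2
    rw [not_le] at h2
    rcases (Nat.Prime.dvd_mul hr).1 h with h3 | h3
    · have := Fact.mk hr
      obtain ⟨m, -, hm, hj⟩ := P.norm_ord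
      obtain ⟨⟨z, hz⟩, ha⟩ := exists_prime_orderOf_dvd_card' (G := Subgroup.center Γ) r h3
      obtain ⟨c, hc, hv⟩ := Rep.center hT.nd (by rw [hT.dim]; exact hd) R hz
      have h4 : ∀ k : ℕ, ∀ v, (R.ι z ^ k) v = c ^ k • v := fun k => by
        induction k with
        | zero => intro v; simp
        | succ k ih =>
          intro v
          rw [pow_succ, LinearEquiv.mul_apply, ih, hv, smul_smul, pow_succ]
      have h5 : z ^ m = 1 := R.inj (by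
        rw [map_pow, map_one]
        ext v
        rw [h4, hm c hc, one_smul]
        rfl)
      rw [← Subgroup.orderOf_coe] at ha
      have h6 : r ∣ m := ha ▸ orderOf_dvd_of_pow_eq_one h5
      exact absurd (hj r hr h6) (not_le.2 h2)
    · exact index_cop hT.nd hr h2 R.der h3

end Frm

end Pool.Agent.Lib.MP_7d41f7_al
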