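import Pool.Agent.Lib.MP_7d41f7_al.C.FAdj
import Pool.Agent.Lib.MP_7d41f7_al.C.FCen

/-! Symplectic and orthogonal groups of the same order. -/

set_option autoImplicit false

namespace Pool.Agent.Lib.MP_7d41f7_al

open Module

variable {F V : Type} [Field F] [Finite F] {P : Sca F} [AddCommGroup V] [Module F V] [Finite V]
  {Φ : Frm P V}

omit [Finite F] [Finite V] in
theorem fbca_mv_neg {z : V ≃ₗ[F] V} (hz : z ^ 2 = 1) {v : V} (hv : v ∈ mv z) : z v = -v := by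
  obtain ⟨w, rfl⟩ := mem_mv.1 hv
  have h : z (z w) = w := by
    simpa [pow_two] using congrArg (fun g : V ≃ₗ[F] V => g w) hz
  rw [map_sub, h, neg_sub]

theorem det_invol {z : V ≃ₗ[F] V} (h2 : (2 : F) ≠ 0) (hz : z ^ 2 = 1) :
    LinearMap.det (z : V →ₗ[F] V) = (-1) ^ finrank F (mv z) := by
  have hc : IsCompl (fx z) (mv z) := compl_fx hz (by simpa using h2)
  have h : (z : V →ₗ[F] V) = (Submodule.prodEquivOfIsCompl _ _ hc).toLinearMap ∘ₗ
      (LinearMap.prodMap LinearMap.id ((-1 : F) • LinearMap.id)) ∘ₗ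
      (Submodule.prodEquivOfIsCompl _ _ hc).symm.toLinearMap := by
    refine LinearMap.ext fun v => ?_
    obtain ⟨⟨a, b⟩, rfl⟩ := (Submodule.prodEquivOfIsCompl _ _ hc).surjective v
    rw [LinearMap.comp_apply, LinearMap.comp_apply, LinearEquiv.coe_coe, LinearEquiv.coe_coe,
      LinearEquiv.coe_coe, LinearEquiv.symm_apply_apply]
    simp [mem_fx.1 a.2, fbca_mv_neg hz b.2]
  rw [h, LinearMap.det_conj, LinearMap.det_prodMap, LinearMap.det_id, LinearMap.det_smul,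
    LinearMap.det_id, one_mul, mul_one]

namespace Frm

variable {t : Ty} {n m r p : ℕ} {Γ : Type} [Group Γ] {x y z : V ≃ₗ[F] V}

theorem even_mv (h2 : (2 : F) ≠ 0) (hz : z ∈ Φ.Der) (h1 : z ^ 2 = 1) :
    Even (finrank F (mv z)) := by
  have h : Φ.Der ≤ (LinearEquiv.det : (V ≃ₗ[F] V) →* Fˣ).ker :=
    Subgroup.commutator_le.2 fun a _ b _ => by
      rw [MonoidHom.mem_ker, map_commutatorElement, commutatorElement_eq_one_iff_mul_comm, mul_comm]
  have h3 := congrArg Units.val (MonoidHom.mem_ker.1 (h hz))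
  rw [LinearEquiv.coe_det, det_invol h2 h1, Units.val_one] at h3
  refine (neg_one_pow_eq_one_iff_even fun h4 => h2 ?_).1 h3
  linear_combination -h4

/-- The singular points. -/
def Pt (Φ : Frm P V) : Type := {L : Submodule F V // finrank F L = 1 ∧ ∀ v ∈ L, Φ.Q v = 0}

omit [Finite F] [Finite V] in
theorem fbcb_gen (L : Φ.Pt) : ∃ v : V, v ≠ 0 ∧ L.1 = Submodule.span F {v} := by
  obtain ⟨v, hv, h⟩ := finrank_eq_one_iff'.1 L.2.1
  refine ⟨v, fun h0 => hv (Subtype.ext h0), le_antisymm (fun w hw => ?_)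
    ((Submodule.span_singleton_le_iff_mem _ _).2 v.2)⟩
  obtain ⟨c, hc⟩ := h ⟨w, hw⟩
  exact Submodule.mem_span_singleton.2 ⟨c, congrArg Subtype.val hc⟩

theorem card_pt (W : Submodule F V) :
    Nat.card {L : Φ.Pt // L.1 ≤ W} * (Nat.card F - 1) = (Φ.res W).ns := by
  choose g hg0 hg using fbcb_gen (Φ := Φ)
  have hm : ∀ (L : Φ.Pt) (c : F), c • g L ∈ L.1 := fun L c =>
    L.1.smul_mem c (hg L ▸ Submodule.mem_span_singleton_self (g L))
  rw [← Nat.card_units, ← Nat.card_prod]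
  refine Nat.card_eq_of_bijective (fun a : {L : Φ.Pt // L.1 ≤ W} × Fˣ =>
    (⟨⟨(a.2 : F) • g a.1.1, a.1.2 (hm _ _)⟩,
      fun h => smul_ne_zero a.2.ne_zero (hg0 a.1.1) (congrArg Subtype.val h),
      a.1.1.2.2 _ (hm _ _)⟩ : {v : W // v ≠ 0 ∧ (Φ.res W).Q v = 0})) ⟨?_, ?_⟩
  · rintro ⟨⟨L, hL⟩, c⟩ ⟨⟨L', hL'⟩, c'⟩ h
    have h1 : (c : F) • g L = (c' : F) • g L' := congrArg (fun a => (a.1 : V)) h
    have h2 : L = L' := Subtype.ext (by
      rw [hg L, hg L', ← Submodule.span_singleton_smul_eq c.isUnit (g L), h1,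
        Submodule.span_singleton_smul_eq c'.isUnit])
    subst h2
    have h3 : c = c' := Units.ext (smul_left_injective F (hg0 L) h1)
    rw [h3]
  · rintro ⟨⟨v, hv⟩, h0, hq⟩
    have h1 : v ≠ 0 := fun h => h0 (Subtype.ext h)
    let L : Φ.Pt := ⟨Submodule.span F {v}, finrank_span_singleton h1, fun w hw => by
      obtain ⟨c, rfl⟩ := Submodule.mem_span_singleton.1 hw
      rw [Φ.smul, show Φ.Q v = 0 from hq, mul_zero]⟩
    have h2 : v ∈ Submodule.span F {g L} := hg L ▸ Submodule.mem_span_singleton_self v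
    obtain ⟨c, hc⟩ := Submodule.mem_span_singleton.1 h2
    have h3 : c ≠ 0 := fun h => h1 (by rw [← hc, h, zero_smul])
    exact ⟨(⟨L, (Submodule.span_singleton_le_iff_mem _ _).2 hv⟩, Units.mk0 c h3),
      Subtype.ext (Subtype.ext hc)⟩

omit [Finite F] [Finite V] in
theorem ns_top : (Φ.res ⊤).ns = Φ.ns :=
  Nat.card_congr (Submodule.topEquiv.toEquiv.subtypeEquiv fun _ =>
    and_congr (not_congr Submodule.topEquiv.map_eq_zero_iff.symm) Iff.rfl)

omit [Finite F] [Finite V] in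
theorem fbcb_act : ∃ π : Φ.Iso →* Equiv.Perm Φ.Pt,
    ∀ g L, (π g L).1 = L.1.map ((g : V ≃ₗ[F] V) : V →ₗ[F] V) := by
  let φ : Φ.Iso →* Function.End Φ.Pt :=
    { toFun := fun g L => ⟨L.1.map ((g : V ≃ₗ[F] V) : V →ₗ[F] V),
        (LinearEquiv.finrank_map_eq _ _).trans L.2.1, by
          rintro _ ⟨v, hv, rfl⟩
          exact (g.2.2 v).trans (L.2.2 v hv)⟩
      map_one' := funext fun L => Subtype.ext (Submodule.map_id L.1)
      map_mul' := fun g h => funext fun L => Subtype.ext (Submodule.map_comp _ _ L.1) }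
  exact ⟨φ.toHomPerm, fun _ _ => rfl⟩

omit [Finite F] [Finite V] in
theorem fbcb_fix (h2 : (2 : F) ≠ 0) (h1 : z ^ 2 = 1) (L : Φ.Pt) :
    L.1.map (z : V →ₗ[F] V) = L.1 ↔ L.1 ≤ mv z ∨ L.1 ≤ fx z := by
  obtain ⟨v, h0, hv⟩ := fbcb_gen L
  have hzz : ∀ w, z (z w) = w := fun w => by
    rw [← LinearEquiv.mul_apply, ← pow_two, h1]
    rfl
  rw [hv, Submodule.map_span, Set.image_singleton, Submodule.span_singleton_le_iff_mem,
    Submodule.span_singleton_le_iff_mem, mem_mv, mem_fx]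
  change Submodule.span F {z v} = _ ↔ _
  constructor
  · intro h
    obtain ⟨c, hc⟩ := Submodule.mem_span_singleton.1 (h ▸ Submodule.mem_span_singleton_self (z v))
    have h3 : (c * c) • v = (1 : F) • v := by
      rw [mul_smul, hc, ← map_smul, hc, hzz, one_smul]
    rcases mul_self_eq_one_iff.1 (smul_left_injective F h0 h3) with rfl | rfl
    · exact Or.inr (hc.symm.trans (one_smul F v))
    · refine Or.inl ⟨(-2⁻¹ : F) • v, ?_⟩
      rw [map_smul, ← hc, smul_smul, ← sub_smul]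
      have h4 : (-2⁻¹ * -1 - -2⁻¹ : F) = 1 := by
        field_simp
        norm_num
      rw [h4, one_smul]
  · rintro (⟨w, hw⟩ | h)
    · have h3 : z v = (-1 : F) • v := by
        rw [← hw, map_sub, hzz, neg_one_smul, neg_sub]
      rw [h3, Submodule.span_singleton_smul_eq isUnit_one.neg]
    · rw [h]

theorem sign_not_der (h2 : (2 : F) ≠ 0) (hz : z ∈ Φ.Iso) (h1 : z ^ 2 = 1) {s : ℤ}
    (h : (Φ.ns : ℤ) - (Φ.res (mv z)).ns - (Φ.res (fx z)).ns =
      ((Nat.card F : ℤ) - 1) * (2 * (2 * s + 1))) : z ∉ Φ.Der := by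
  classical
  intro hd
  obtain ⟨π, hπ⟩ := fbcb_act (Φ := Φ)
  have : Finite Φ.Pt := Subtype.finite
  let _ := Fintype.ofFinite Φ.Pt
  have e1 : Equiv.Perm.sign (π ⟨z, hz⟩) = 1 := by
    have h3 : (⟨z, hz⟩ : Φ.Iso) ∈ commutator Φ.Iso := by
      rw [Der, ← Subgroup.map_subtype_commutator] at hd
      obtain ⟨a, ha, e⟩ := hd
      rwa [show (⟨z, hz⟩ : Φ.Iso) = a from Subtype.ext e.symm]
    exact Abelianization.commutator_subset_ker (Equiv.Perm.sign.comp π) h3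
  have e2 : π ⟨z, hz⟩ ^ 2 = 1 := by
    rw [← map_pow, show (⟨z, hz⟩ : Φ.Iso) ^ 2 = 1 from Subtype.ext h1, map_one]
  have e3 : Nat.card (Function.fixedPoints (π ⟨z, hz⟩)) =
      Nat.card {L : Φ.Pt // L.1 ≤ mv z} + Nat.card {L : Φ.Pt // L.1 ≤ fx z} := by
    have hdis : Disjoint (fun L : Φ.Pt => L.1 ≤ mv z) (fun L : Φ.Pt => L.1 ≤ fx z) := by
      refine Pi.disjoint_iff.2 fun L => Prop.disjoint_iff.2 fun hL => ?_
      have h3 : L.1 = ⊥ :=
        le_bot_iff.1 ((compl_fx h1 (by exact_mod_cast h2)).disjoint hL.2 hL.1)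
      have h4 := L.2.1
      rw [h3, finrank_bot] at h4
      exact zero_ne_one h4
    rw [← Nat.card_sum, ← Nat.card_congr (subtypeOrEquiv _ _ hdis)]
    refine Nat.card_congr (Equiv.subtypeEquivRight fun L => ?_)
    rw [← fbcb_fix h2 h1 L, ← hπ ⟨z, hz⟩ L]
    exact Subtype.ext_iff
  have e4 : Nat.card {L : Φ.Pt // L.1 ≤ ⊤} = Nat.card Φ.Pt :=
    Nat.card_congr (Equiv.subtypeUnivEquiv fun _ => le_top)
  have e5 : Nat.card (Function.fixedPoints (π ⟨z, hz⟩)) ≤ Nat.card Φ.Pt :=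
    Nat.card_le_card_of_injective _ Subtype.val_injective
  have hF : 1 < Nat.card F := Finite.one_lt_card
  have c1 := card_pt (Φ := Φ) ⊤
  have c2 := card_pt (Φ := Φ) (mv z)
  have c3 := card_pt (Φ := Φ) (fx z)
  rw [ns_top, e4] at c1
  rw [← c1, ← c2, ← c3] at h
  push_cast [hF.le] at h
  have e6 : (Nat.card Φ.Pt : ℤ) - Nat.card {L : Φ.Pt // L.1 ≤ mv z} -
      Nat.card {L : Φ.Pt // L.1 ≤ fx z} = 2 * (2 * s + 1) :=
    mul_left_cancel₀ (a := (Nat.card F : ℤ) - 1) (by omega) (by linear_combination h)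
  rw [Equiv.Perm.sign_of_pow_two_eq_one e2, ← Nat.card_eq_fintype_card,
    ← Nat.card_eq_fintype_card, Odd.neg_one_pow (Nat.odd_iff.2 (by omega))] at e1
  exact absurd e1 (by decide)

theorem alt_even (ω : V →ₗ[F] V →ₗ[F] F) (h1 : ∀ v, ω v v = 0) (Y : Submodule F V)
    (hY : ∀ v, v ∈ Y ↔ ∀ w, ω v w = 0) : Even (finrank F V - finrank F Y) := by
  obtain ⟨Z, hZ⟩ := Y.exists_isCompl
  have hs : ∀ a b, ω b a = -ω a b := fun a b => by
    have h := h1 (a + b)
    simp only [map_add, LinearMap.add_apply, h1] at h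
    linear_combination h
  let Ψ : Frm (Sca.sp F) V := ⟨ω, fun _ => 0, fun a b => (hs a b).trans (neg_one_mul _).symm,
    fun _ _ => by simp [Sca.τ, Sca.sp], fun _ _ => (mul_zero _).symm,
    fun a => (h1 a).trans (mul_zero _).symm, fun _ => ⟨0, rfl⟩⟩
  have hn : (Ψ.res Z).Nd := Ψ.res_nd.2 fun a ha h => by
    have h3 : a ∈ Y := (hY a).2 fun w => by
      obtain ⟨u, hu, v, hv, rfl⟩ := Submodule.mem_sup.1 (hZ.sup_eq_top ▸ Submodule.mem_top : w ∈ Y ⊔ Z)
      have h4 : ω a v = 0 := h v hv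
      rw [map_add, hs u a, (hY u).1 hu, h4, neg_zero, add_zero]
    exact (Submodule.disjoint_def.1 hZ.disjoint) a h3 ha
  obtain ⟨t, n, hT⟩ := exists_ty hn
  have h3 := Submodule.finrank_add_eq_of_isCompl hZ
  have h4 := hT.dim
  have h5 := hT.kd
  cases t <;> simp [Ty.kd, Sca.sp] at h5
  exact ⟨n, by simp only [Ty.dim] at h4; omega⟩

theorem fbcc_dim (hk : P.k = .O) (hb : BCp P.q m r) (hm : 0 < m) (hx : x ∈ Φ.Iso) (h1 : x ^ r = 1)
    (h0 : ∀ v, x v = v → v = 0) {Z : Submodule F V} (hZ : Stb x Z) :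
    2 * m ∣ finrank F Z ∨ (Odd m ∧ m ∣ finrank F Z) := by
  obtain ⟨x', hx', e⟩ := exists_res hx hZ
  have ep : ∀ (k : ℕ) (w : Z), ((x' ^ k) w : V) = (x ^ k) w := fun k => by
    induction k with
    | zero => exact fun _ => rfl
    | succ k ih => exact fun w => by rw [pow_succ', pow_succ', LinearEquiv.mul_apply,
        LinearEquiv.mul_apply, e, ih]
  have hr : r.Prime := (hb.ord hm).1
  have hq : Nat.card F = P.q := by rw [P.card, hk]; rfl
  have q1 : 1 ≤ P.q := le_trans one_le_two P.q2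
  have h2 := (free_dvd hx' hr (LinearEquiv.ext fun w => Subtype.ext (by rw [ep, h1]; rfl))
    fun w hw => Subtype.ext (h0 _ (by rw [← e, hw]))).1
  rw [hq] at h2
  have h3 : r ∣ P.q ^ finrank F Z - 1 := by
    rw [← Int.natCast_dvd_natCast, Nat.cast_sub (Nat.one_le_pow _ _ q1)]
    exact_mod_cast h2
  rcases hb with ⟨h, -⟩ | ⟨h, h4⟩
  · exact Or.inl ((h.dvd_iff q1 (by omega) _).1 h3)
  · refine Or.inr ⟨?_, (h.dvd_iff q1 hm _).1 h3⟩
    rcases Nat.even_or_odd m with ⟨s, rfl⟩ | ho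
    · rw [pow_add, Nat.mul_mod] at h4
      have : P.q ^ s % 4 < 4 := Nat.mod_lt _ (by norm_num)
      generalize P.q ^ s % 4 = a at h4 this
      interval_cases a <;> simp at h4
    · exact ho

omit [Finite F] [Finite V] in
theorem fbcc_meet (hp : p.Prime) [CharP F p] (h3 : y ^ p = 1) (hy : y ≠ 1) :
    fx y ⊓ mv y ≠ ⊥ := fun hb => by
  have : Fact p.Prime := ⟨hp⟩
  obtain ⟨v, hv⟩ : ∃ v, y v ≠ v := by
    by_contra hc
    exact hy (LinearEquiv.ext fun v => by simpa using not_exists.1 hc v)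
  have : Nontrivial V := ⟨⟨_, _, hv⟩⟩
  have : CharP (Module.End F V) p := charP_of_injective_algebraMap
    (algebraMap F (Module.End F V)).injective p
  set N : Module.End F V := (y : V →ₗ[F] V) - 1 with hN
  have hy' : ∀ (k : ℕ) (w : V), (((y : V →ₗ[F] V) : Module.End F V) ^ k) w = (y ^ k) w :=
    fun k => by
    induction k with
    | zero => exact fun _ => rfl
    | succ k ih =>
      intro w
      rw [pow_succ', pow_succ', LinearEquiv.mul_apply, Module.End.mul_apply, ih]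
      rfl
  have hp0 : N ^ p = 0 := by
    rw [hN, sub_pow_char_of_commute _ (Commute.one_right _), one_pow, sub_eq_zero]
    exact LinearMap.ext fun w => by rw [hy', h3]; rfl
  have key : ∀ k : ℕ, (N ^ (k + 1)) v ≠ 0 := fun k => by
    induction k with
    | zero => simpa [hN, sub_eq_zero] using hv
    | succ k ih =>
      intro h
      apply ih
      rw [← Submodule.mem_bot F, ← hb]
      rw [pow_succ', Module.End.mul_apply] at h
      refine ⟨mem_fx.2 (sub_eq_zero.1 h), mem_mv.2 ⟨(N ^ k) v, ?_⟩⟩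
      rw [pow_succ', Module.End.mul_apply]
      rfl
  apply key (p - 1)
  rw [Nat.sub_add_cancel hp.one_le, hp0]
  rfl

theorem unip_triv (hk : P.k = .O) (hn : Φ.Nd) (hp : p.Prime) [CharP F p] (h2 : p ≠ 2)
    (hb : BCp P.q m r) (hm : 0 < m) (hd : finrank F V = 2 * m) (hx : x ∈ Φ.Iso) (h1 : x ^ r = 1)
    (h0 : ∀ v, x v = v → v = 0) (hy : y ∈ Φ.Iso) (hc : Commute x y) (h3 : y ^ p = 1) : y = 1 := by
  by_contra hy1
  have sY : Stb x (fx y) := stb_fx hc.symm
  have sM : Stb x (mv y) := stb_mv hc.symm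
  have sD : Stb x (fx y ⊓ mv y) := fun w hw => ⟨sY w hw.1, sM w hw.2⟩
  have d0 : 0 < finrank F ↥(fx y ⊓ mv y) := Nat.pos_of_ne_zero fun h =>
    fbcc_meet hp h3 hy1 (Submodule.finrank_eq_zero.1 h)
  have l1 : finrank F ↥(fx y ⊓ mv y) ≤ finrank F (fx y) := Submodule.finrank_mono inf_le_left
  have l2 : finrank F ↥(fx y ⊓ mv y) ≤ finrank F (mv y) := Submodule.finrank_mono inf_le_right
  have l3 := finrank_mv_fx y
  rcases fbcc_dim hk hb hm hx h1 h0 sD with h | ⟨ho, h⟩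
  · have := Nat.le_of_dvd d0 h
    omega
  have l4 := Nat.le_of_dvd d0 h
  have eM : fx y ⊓ mv y = mv y := Submodule.eq_of_le_of_finrank_eq inf_le_right (by omega)
  have hM : mv y ≤ fx y := eM ▸ inf_le_left
  have h2' : (2 : F) ≠ 0 := fun h => h2 ((Nat.prime_dvd_prime_iff_eq hp Nat.prime_two).1
    ((CharP.cast_eq_zero_iff F p 2).1 (by exact_mod_cast h)))
  let ω : V →ₗ[F] V →ₗ[F] F := LinearMap.mk₂ F (fun v w => Φ.B (y v - v) w)
    (fun a b w => by rw [map_add, add_sub_add_comm, map_add, LinearMap.add_apply])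
    (fun c a w => by rw [map_smul, ← smul_sub, smul_B, smul_eq_mul])
    (fun a b w => by rw [map_add])
    (fun c a w => by rw [B_smul, Sca.σ_O hk, smul_eq_mul])
  have he := alt_even ω (fun v => by
      change Φ.B (y v - v) v = 0
      have hm' : y v - v ∈ mv y := mem_mv.2 ⟨v, rfl⟩
      have e1 := perp_fx_mv hy (hM hm') hm'
      have e2 := hy.1 v v
      have e3 := Φ.sym v (y v)
      rw [Sca.ε_O hk, Sca.σ_O hk, one_mul] at e3
      simp only [map_sub, LinearMap.sub_apply] at e1 ⊢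
      apply mul_left_cancel₀ h2'
      linear_combination -e1 + e2 + e3) (fx y) fun v => by
      rw [mem_fx, ← sub_eq_zero]
      exact ⟨fun h w => by
        change Φ.B (y v - v) w = 0
        rw [h, map_zero, LinearMap.zero_apply], fun h => hn _ h⟩
  have : finrank F V - finrank F (fx y) = m := by omega
  rw [this] at he
  exact Nat.not_even_iff_odd.2 ho he

theorem small_triv (hk : P.k = .O) (hp : p.Prime) [CharP F p] (h2 : p ≠ 2) {W : Submodule F V}
    (hW : (Φ.res W).Nd) (hd : finrank F W ≤ 2) (hy : y ∈ Φ.Iso) (hs : Stb y W) (h3 : y ^ p = 1) :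
    ∀ w ∈ W, y w = w := by
  obtain ⟨g, hg, e⟩ := exists_res hy hs
  obtain ⟨t, n, hT⟩ := exists_ty hW
  obtain ⟨p', f, hp', hf, hq, hc⟩ := P.pp
  have hpp : p = p' := CharP.eq F ‹CharP F p› hc
  have h4 := small_p (t := t) (n := n) (q := P.q) hp h2 (hq ▸ hpp ▸ dvd_pow_self p hf.ne')
    (hT.kd.trans hk) (hT.dim ▸ hd) hT.pos
  have h5 : ∀ (k : ℕ) (w : W), ((g ^ k) w : V) = (y ^ k) w := fun k => by
    induction k with
    | zero => exact fun _ => rfl
    | succ k ih => exact fun w => by rw [pow_succ', pow_succ', LinearEquiv.mul_apply,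
        LinearEquiv.mul_apply, e, ih]
  have h6 : (⟨g, hg⟩ : (Φ.res W).Iso) ^ p = 1 :=
    Subtype.ext (LinearEquiv.ext fun w => Subtype.ext ((h5 p w).trans (by rw [h3]; rfl)))
  have h7 : (⟨g, hg⟩ : (Φ.res W).Iso) = 1 := by
    by_contra h
    have := Fact.mk hp
    refine h4 (hT.ord ▸ Int.natCast_dvd_natCast.2 ?_)
    exact orderOf_eq_prime h6 h ▸ orderOf_dvd_natCard _
  intro w hw
  have h8 : g = 1 := congrArg Subtype.val h7
  exact (e ⟨w, hw⟩).symm.trans (by rw [h8]; rfl)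

theorem bc_split (hT : Φ.IsTy .B (m + 1)) (hm : 3 ≤ m) (hb : BCp P.q m r) (hx : x ∈ Φ.Iso)
    (h1 : x ^ r = 1) (h0 : x ≠ 1) : (Φ.res (fx x)).IsTy .B 1 ∧ ∃ t, (t = .Dp ∨ t = .Dm) ∧
      (Φ.res (mv x)).IsTy t m ∧ (r : ℤ) ∣ t.sing m P.q := by
  obtain ⟨hr, hj⟩ := hb.ord (by omega)
  have hk : P.k = .O := hT.kd.symm
  replace hj : P.j r = m := by rw [Sca.j, hk]; exact hj
  have c := P.cast_ne hr (by omega)
  have d := finrank_mv_fx x
  have e := min_mv hT.nd hx hr (by omega) h1 h0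
  rw [hT.dim] at d
  rw [hk, hj] at e
  obtain ⟨t, n, h⟩ := exists_ty (nd_mv hT.nd hx h1 c)
  obtain ⟨t', n', h'⟩ := exists_ty (nd_fx hT.nd hx h1 c)
  obtain ⟨⟨k, a1⟩, a2, a3⟩ := fpf_ty h hx (stb_mv (Commute.refl x)) hr (by omega) h1 fun w hw e =>
    Submodule.disjoint_def.1 (compl_fx h1 c).disjoint w (mem_fx.2 e) hw
  have ht : t = .Dp ∨ t = .Dm := by
    have := h.kd.trans hk
    cases t <;> simp [Ty.kd] at this a2 ⊢
  have a4 : finrank F (mv x) = 2 * n := by rcases ht with rfl | rfl <;> exact h.dim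
  obtain rfl : n = m := by
    simp only [Ty.dim, Kd.wt] at d e
    rw [hj] at a1
    rcases k with _ | _ | k
    · omega
    · omega
    · rw [mul_add, mul_add] at a1
      omega
  refine ⟨?_, t, ht, h, a3⟩
  have a5 := h'.dim
  have a6 := h'.kd.trans hk
  cases t' <;> simp only [Ty.kd, Ty.dim, reduceCtorEq] at a5 a6 d
  · rwa [show n' = 1 by omega] at h'
  all_goals omega

omit [Finite F] [Finite V] in
theorem fbcd_pow {W : Submodule F V} {g : W ≃ₗ[F] W} (e : ∀ w : W, (g w : V) = x w) {k : ℕ}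
    (h : x ^ k = 1) : g ^ k = 1 := by
  have : ∀ (i : ℕ) (w : W), ((g ^ i) w : V) = (x ^ i) w := fun i => by
    induction i with
    | zero => exact fun _ => rfl
    | succ i ih => exact fun w => by rw [pow_succ, pow_succ, LinearEquiv.mul_apply, ih, e]; rfl
  exact LinearEquiv.ext fun w => Subtype.ext ((this k w).trans (by rw [h]; rfl))

omit [Finite F] [Finite V] in
theorem fbcd_comm {W : Submodule F V} {g g' : W ≃ₗ[F] W} (e : ∀ w : W, (g w : V) = x w)
    (e' : ∀ w : W, (g' w : V) = y w) (h : Commute x y) : Commute g g' :=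
  LinearEquiv.ext fun w => Subtype.ext (by
    rw [LinearEquiv.mul_apply, LinearEquiv.mul_apply, e, e', e', e]
    exact LinearEquiv.congr_fun h.eq _)

theorem bc_core (hT : Φ.IsTy .B (m + 1)) (hm : 3 ≤ m) (hp : p.Prime) [CharP F p]
    (hb : BCp P.q m r) (hx : x ∈ Φ.Iso) (h1 : x ^ r = 1) (h0 : x ≠ 1) (hy : y ∈ Φ.Iso)
    (h2 : y ^ p = 1) (hz : z ∈ Φ.Der) (h3 : z ^ 2 = 1) (h4 : z ≠ 1) (hxy : Commute x y)
    (hxz : Commute x z) (hyz : Commute y z) : y = 1 := by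
  obtain ⟨hC, t, ht, hW, hs⟩ := bc_split hT hm hb hx h1 h0
  obtain ⟨hr, hj⟩ := hb.ord (by omega)
  have hk : P.k = .O := hT.kd.symm
  replace hj : P.k.wt * P.j r = 2 * m ∧ 2 < P.j r := by
    rw [Sca.j, hk]
    exact ⟨congrArg _ hj, hj ▸ hm⟩
  have c := P.cast_ne hr (by omega)
  have c2 : ((2 : ℕ) : F) ≠ 0 := P.two_ne.2 (hT.odd rfl)
  have p2 : p ≠ 2 := fun e => c2 (e ▸ CharP.cast_eq_zero F p)
  have zi : z ∈ Φ.Iso := Subgroup.commutator_le_self _ hz
  have dC : finrank F (fx x) = 3 := hC.dim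
  have dW : finrank F (mv x) = 2 * m := by rcases ht with rfl | rfl <;> exact hW.dim
  obtain ⟨x1, hx1, ex⟩ := exists_res hx (stb_mv (Commute.refl x))
  obtain ⟨y1, hy1, ey⟩ := exists_res hy (stb_mv hxy)
  have a1 := unip_triv hk hW.nd hp p2 hb (by omega) dW hx1 (fbcd_pow ex h1) (fun w e => Subtype.ext
    (Submodule.disjoint_def.1 (compl_fx h1 c).disjoint _ (mem_fx.2 (by rw [← ex, e])) w.2)) hy1
      (fbcd_comm ex ey hxy) (fbcd_pow ey h2)
  obtain ⟨z2, hz2, ez⟩ := exists_res zi (stb_fx hxz)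
  obtain ⟨y2, hy2, ey2⟩ := exists_res hy (stb_fx hxy)
  have z3 := fbcd_pow ez h3
  have cm := fbcd_comm ez ey2 hyz.symm
  have d2 := finrank_mv_fx z2
  have l1 : (fx z2).map (fx x).subtype ≤ fx z := by
    rintro _ ⟨w, hw, rfl⟩
    exact mem_fx.2 ((ez w).symm.trans (congrArg _ (mem_fx.1 hw)))
  have l2 : (mv z2).map (fx x).subtype ≤ mv z := by
    rintro _ ⟨w, hw, rfl⟩
    obtain ⟨v, rfl⟩ := mem_mv.1 hw
    exact mem_mv.2 ⟨v, by rw [← ez]; rfl⟩
  have l3 : ∀ {A : Submodule F (fx x)} {B : Submodule F V}, A.map (fx x).subtype ≤ B →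
      finrank F A ≤ finrank F B ∧ (3 ≤ finrank F A → fx x ≤ B) := fun {A B} h =>
    ⟨(Submodule.finrank_map_subtype_eq _ A).symm.trans_le (Submodule.finrank_mono h), fun e =>
      (Submodule.eq_of_le_of_finrank_le (Submodule.map_subtype_le _ A)
        (by rwa [Submodule.finrank_map_subtype_eq, dC])).symm.trans_le h⟩
  have cz := compl_fx h3 c2
  have d1 := finrank_mv_fx z
  have ev := Nat.even_iff.1 (even_mv c2 hz h3)
  rw [hT.dim, Ty.dim] at d1
  have key : finrank F (fx z2) ≤ 2 ∧ finrank F (mv z2) ≤ 2 := by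
    by_cases e : finrank F (mv z) < 2 * m
    · have a2 : mv z ≤ fx x := fun w hw => mem_fx.2 (triv (nd_mv hT.nd zi h3 c2) hx
        (stb_mv hxz.symm) hr hj.2 (a := 1) (by rwa [pow_one]) (hj.1 ▸ e) w hw)
      have := Submodule.finrank_mono a2
      refine ⟨not_lt.1 fun a => h4 (LinearEquiv.ext fun v => sub_eq_zero.1 ?_), by
        have := (l3 l2).1; omega⟩
      have a3 : z v - v ∈ mv z := mem_mv.2 ⟨v, rfl⟩
      exact Submodule.disjoint_def.1 cz.disjoint _ ((l3 l1).2 a (a2 a3)) a3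
    have a2 : fx z ≤ fx x := fun w hw => mem_fx.2 (triv (nd_fx hT.nd zi h3 c2) hx
      (stb_fx hxz.symm) hr hj.2 (a := 1) (by rwa [pow_one]) (by omega) w hw)
    have a3 : finrank F (fx z) ≠ 3 := fun a => by
      have e1 := Submodule.eq_of_le_of_finrank_le a2 (by omega)
      have e2 : mv z = mv x := Submodule.eq_of_le_of_finrank_le (fun v hv => mem_mv_of_perp hT.nd hx
        h1 c fun w hw => B_comm0 (perp_fx_mv zi (e1 ▸ hw) hv)) (by omega)
      obtain ⟨s, hs⟩ := bc_ty hb hm ht hs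
      refine sign_not_der c2 zi h3 (s := s) ?_ hz
      rw [e1, e2, hT.ns, hW.ns, hC.ns, hs, P.card, hk]
      rfl
    have := Submodule.finrank_mono a2
    refine ⟨by have := (l3 l1).1; omega, not_lt.1 fun a => ?_⟩
    have := Submodule.finrank_eq_zero.2 (cz.disjoint.eq_bot_of_le (a2.trans ((l3 l2).2 a)))
    omega
  have a4 : ∀ w, y2 w = w := fun w => by
    obtain ⟨a, ha, b, hb, rfl⟩ := Submodule.mem_sup.1
      ((compl_fx z3 c2).sup_eq_top ▸ Submodule.mem_top (x := w))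
    rw [map_add, small_triv hk hp p2 (nd_fx hC.nd hz2 z3 c2) key.1 hy2 (stb_fx cm) (fbcd_pow ey2 h2)
      a ha, small_triv hk hp p2 (nd_mv hC.nd hz2 z3 c2) key.2 hy2 (stb_mv cm) (fbcd_pow ey2 h2) b hb]
  refine LinearEquiv.ext fun v => ?_
  obtain ⟨a, ha, b, hb, rfl⟩ := Submodule.mem_sup.1
    ((compl_fx h1 c).sup_eq_top ▸ Submodule.mem_top (x := v))
  rw [map_add, ← ey2 ⟨a, ha⟩, ← ey ⟨b, hb⟩, a4, a1]
  rfl

theorem bc_om (hT : Φ.IsTy .B (m + 1)) (hm : 3 ≤ m) (hp : p.Prime) [CharP F p]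
    (hb : BCp P.q m r) (R : Φ.Rep Γ) (hR : R.ι.range ≤ Φ.Der) : ¬ Adj (PQ Γ) (2 * p) r := fun h => by
  obtain ⟨g, hg, o⟩ := R.lift h
  have hr := (hb.ord (by omega)).1
  have gd := hR hg
  have gi := R.le hg
  have k : ∀ a b, 0 < a → 1 < b → a * b = 2 * p * r → (g ^ a) ^ b = 1 ∧ g ^ a ≠ 1 :=
    fun a b ha hb e => ⟨by rw [← pow_mul, e, ← o, pow_orderOf_eq_one],
      pow_ne_one_of_lt_orderOf ha.ne' (by rw [o, ← e]; exact lt_mul_of_one_lt_right ha hb)⟩
  have kx := k (2 * p) r (Nat.mul_pos two_pos hp.pos) hr.one_lt rfl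
  have ky := k (2 * r) p (Nat.mul_pos two_pos hr.pos) hp.one_lt (by ring)
  have kz := k (p * r) 2 (Nat.mul_pos hp.pos hr.pos) one_lt_two (by ring)
  exact ky.2 (bc_core hT hm hp hb (pow_mem gi _) kx.1 kx.2 (pow_mem gi _) ky.1 (pow_mem gd _) kz.1
    kz.2 (Commute.pow_pow_self g _ _) (Commute.pow_pow_self g _ _) (Commute.pow_pow_self g _ _))

theorem fbce_tv (hk : P.k = .S) (hn : Φ.Nd) {e f : V} (h : Φ.Hyp e f) (hp : p.Prime)
    [CharP F p] : ∃ s ∈ Φ.Iso, orderOf s = p ∧ s e = e ∧ ∀ a ∈ Φ.Iso, a e = e → Commute a s := by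
  obtain ⟨s, hs, h1⟩ := hn.mk_iso (LinearMap.id + (Φ.B.flip e).smulRight e) (fun x y => by
    simp only [LinearMap.add_apply, LinearMap.id_apply, LinearMap.smulRight_apply,
      LinearMap.flip_apply, map_add, smul_B, B_smul, h.ee, Sca.σ_S hk]
    rw [Φ.sym y e, Sca.ε_S hk, Sca.σ_S hk]
    ring) fun x => by rw [Q_S hk, Q_S hk]
  replace h1 : ∀ v, s v = v + Φ.B v e • e := h1
  have h2 : s e = e := by rw [h1, h.ee, zero_smul, add_zero]
  have h3 : ∀ (k : ℕ) v, (s ^ k) v = v + ((k : F) * Φ.B v e) • e := by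
    intro k v
    induction k with
    | zero => simp
    | succ k ih =>
      rw [pow_succ', LinearEquiv.mul_apply, ih, map_add, map_smul, h2, h1, add_assoc, ← add_smul]
      push_cast
      ring_nf
  have := Fact.mk hp
  refine ⟨s, hs, orderOf_eq_prime (LinearEquiv.ext fun v => ?_) fun h0 => ?_, h2,
    fun a ha he => LinearEquiv.ext fun v => ?_⟩
  · rw [h3, CharP.cast_eq_zero, zero_mul, zero_smul, add_zero]
    rfl
  · have h4 := h1 f
    rw [h0, h.fe] at h4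
    exact smul_ne_zero P.ε_ne h.ne (left_eq_add.1 h4)
  · have h4 := ha.1 v e
    rw [he] at h4
    rw [LinearEquiv.mul_apply, LinearEquiv.mul_apply, h1, h1, map_add, map_smul, he, h4]

omit [Finite F] [Finite V] in
theorem fbce_neg (h2 : (2 : F) ≠ 0) (hd : 0 < finrank F V) :
    ∃ a : Φ.Iso, orderOf a = 2 ∧ ∀ b, Commute a b := by
  have : Nontrivial V := Module.nontrivial_of_finrank_pos hd
  obtain ⟨v, hv⟩ := exists_ne (0 : V)
  refine ⟨⟨LinearEquiv.neg F, fun x y => by simp, Q_neg⟩, orderOf_eq_prime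
    (Subtype.ext (LinearEquiv.ext fun w => neg_neg w)) fun h0 => ?_,
    fun b => Subtype.ext (LinearEquiv.ext fun w => (map_neg b.1 w).symm)⟩
  have h3 : -v = v := congrArg (fun g : Φ.Iso => g.1 v) h0
  exact smul_ne_zero h2 hv (by rw [two_smul, ← neg_eq_iff_add_eq_zero, h3])

theorem fbce_adj (hn : Φ.Nd) (hd : 7 ≤ finrank F V) (R : Φ.Rep Γ) (hx : x ∈ R.ι.range) {e : V}
    (he : e ≠ 0) (h : x e = e) : ∃ g : PQ Γ, orderOf g = orderOf x := by
  obtain ⟨g, rfl⟩ := hx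
  refine ⟨g, orderOf_eq_orderOf_iff.2 fun k => ?_⟩
  rw [← QuotientGroup.mk_pow, QuotientGroup.eq_one_iff, ← map_pow]
  refine ⟨fun h1 => ?_, fun h1 => by
    rw [(map_eq_one_iff _ R.inj).1 h1]
    exact one_mem _⟩
  obtain ⟨c, -, h2⟩ := R.center hn hd h1
  have h3 : R.ι (g ^ k) e = e := by
    rw [map_pow]
    exact pow_mem (show R.ι g ∈ MulAction.stabilizer (V ≃ₗ[F] V) e from h) k
  have h4 : c = 1 := smul_left_injective F he (by simpa using (h2 e).symm.trans h3)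
  exact LinearEquiv.ext fun v => by rw [h2, h4, one_smul]; rfl

theorem bc_sp (hT : Φ.IsTy .C (m + 1)) (hm : 3 ≤ m) (hp : p.Prime) [CharP F p] (h2 : p ≠ 2)
    (hr : r.Prime) (hj : P.j r = m) (R : Φ.Rep Γ) (hR : Φ.Iso ≤ R.ι.range) :
    Adj (PQ Γ) (2 * p) r := by
  have hk : P.k = .S := hT.kd.symm
  have hd : finrank F V = 2 * (m + 1) := hT.dim
  obtain ⟨e, h0, he⟩ := exists_sing (Φ := Φ) (by omega)
  obtain ⟨f, h⟩ := hT.nd.partner' he h0
  have hd' := h.finrank_pl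
  obtain ⟨t, n, hW⟩ := exists_ty (h.nd_pl hT.nd)
  obtain rfl : t = .C := by
    have := hW.kd.trans hk
    cases t <;> simp [Ty.kd] at this ⊢
  obtain rfl : n = m := by
    have : _ = 2 * n := hW.dim
    omega
  have h3 : r ∣ Nat.card (Φ.res (Φ.pl e f)).Iso := by
    rw [← Int.natCast_dvd_natCast, hW.ord]
    exact dvd_ordC (by omega) (by simpa [Sca.j, hk, Kd.bs] using hj)
  have := Fact.mk hr
  obtain ⟨x', hx'⟩ := exists_prime_orderOf_dvd_card' r h3
  have hr2 : r ≠ 2 := Ord.ne_two (b := P.k.bs P.q) (by change 1 < P.j r; omega)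
  have hrp : r ≠ p := fun h => P.cast_ne hr (by omega) (h ▸ CharP.cast_eq_zero F p)
  have h4 : (2 : F) ≠ 0 := fun h => h2 ((Nat.prime_dvd_prime_iff_eq hp Nat.prime_two).1
    ((CharP.cast_eq_zero_iff F p 2).1 (by exact_mod_cast h)))
  obtain ⟨a, ha, hc⟩ := fbce_neg (Φ := Φ.res (Φ.pl e f)) h4 (by omega)
  obtain ⟨φ, hφ, h5, -⟩ := h.ext
  obtain ⟨s, hs, h6, h7, h8⟩ := fbce_tv hk hT.nd h hp
  have h9 : orderOf (φ (a * x')) = 2 * r := by
    rw [orderOf_injective φ hφ, (hc x').orderOf_mul_eq_mul_orderOf_of_coprime, ha, hx']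
    rw [ha, hx']
    exact (Nat.coprime_primes Nat.prime_two hr).2 hr2.symm
  obtain ⟨g, hg⟩ := fbce_adj hT.nd (by omega) R (hR (mul_mem (h5 (a * x')).1 hs)) h0
    (by rw [LinearEquiv.mul_apply, h7, (h5 _).2.1])
  refine ⟨g, ?_⟩
  rw [hg, (h8 _ (h5 _).1 (h5 _).2.1).orderOf_mul_eq_mul_orderOf_of_coprime, h9, h6, mul_right_comm]
  rw [h9, h6]
  exact Nat.Coprime.mul_left ((Nat.coprime_primes Nat.prime_two hp).2 h2.symm)
    ((Nat.coprime_primes hr hp).2 hrp)

theorem card_sp (h2 : (2 : F) ≠ 0) (hd : 0 < finrank F V) (R : Φ.Rep Γ)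
    (hR : Φ.Iso ≤ R.ι.range) : 2 * Nat.card (PQ Γ) ≤ Nat.card Φ.Iso := by
  have := R.finite
  have h1 : LinearEquiv.neg F ∈ Φ.Iso := ⟨fun a b => by simp, fun a => Q_neg a⟩
  obtain ⟨c, hc⟩ := hR h1
  have h3 : c ∈ Subgroup.center Γ := Subgroup.mem_center_iff.2 fun g => R.inj (by
    rw [map_mul, map_mul, hc]
    exact LinearEquiv.ext fun v => by simp)
  have h4 : c ≠ 1 := fun h => by
    have := Module.nontrivial_of_finrank_pos hd
    obtain ⟨v, hv⟩ := exists_ne (0 : V)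
    have h5 : -v = v := by simpa [h] using (congrArg (fun g : V ≃ₗ[F] V => g v) hc).symm
    refine hv ((smul_eq_zero.1 ?_).resolve_left h2)
    rw [two_smul]
    exact (congrArg (· + v) h5).symm.trans (neg_add_cancel v)
  have h5 : 1 < Nat.card (Subgroup.center Γ) :=
    Finite.one_lt_card_iff_nontrivial.2 ⟨⟨c, h3⟩, 1, fun h => h4 (congrArg Subtype.val h)⟩
  have h6 : Nat.card Γ ≤ Nat.card Φ.Iso :=
    Nat.card_le_card_of_injective (fun g => (⟨R.ι g, R.le ⟨g, rfl⟩⟩ : Φ.Iso))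
      fun _ _ h => R.inj (congrArg Subtype.val h)
  rw [Subgroup.card_eq_card_quotient_mul_card_subgroup (Subgroup.center Γ)] at h6
  exact ((mul_comm _ _).le.trans (Nat.mul_le_mul_left _ h5)).trans h6

end Frm

end Pool.Agent.Lib.MP_7d41f7_al
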