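import Pool.Agent.Lib.MP_7d41f7_al.C.FPar

/-! Basic facts on forms. -/

set_option autoImplicit false

namespace Pool.Agent.Lib.MP_7d41f7_al

open Module

variable {F V : Type} [Field F] [Finite F] {P : Sca F} [AddCommGroup V] [Module F V] [Finite V]
  {Φ : Frm P V}

section

variable {g h : V ≃ₗ[F] V} {U : Submodule F V}

omit [Finite F] [Finite V] in
theorem Stb.mul (hg : Stb g U) (hh : Stb h U) : Stb (g * h) U := fun w hw => hg _ (hh w hw)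

omit [Finite F] [Finite V] in
theorem Stb.pow (hg : Stb g U) (n : ℕ) : Stb (g ^ n) U := by
  induction n with
  | zero => exact fun _ h => h
  | succ n ih => exact pow_succ g n ▸ ih.mul hg

omit [Finite F] in
theorem Stb.inv (hg : Stb g U) : Stb g⁻¹ U := by
  rw [inv_eq_of_mul_eq_one_left (a := g ^ (orderOf g - 1)) (by
    rw [← pow_succ, Nat.sub_add_cancel (orderOf_pos g), pow_orderOf_eq_one])]
  exact hg.pow _

end

namespace Frm

section

omit [Finite V]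

omit [Finite F] in
theorem Q_zero : Φ.Q 0 = 0 := by simpa using Φ.smul 0 0

omit [Finite F] in
theorem Q_neg (x : V) : Φ.Q (-x) = Φ.Q x := by simpa using Φ.smul (-1) x

omit [Finite F] in
theorem B_comm0 {x y : V} (h : Φ.B x y = 0) : Φ.B y x = 0 := by rw [Φ.sym, h, map_zero, mul_zero]

omit [Finite F] in
theorem B_self {x : V} (h : Φ.Q x = 0) : Φ.B x x = 0 := by rw [Φ.diag, h, mul_zero]

omit [Finite F] in
theorem Q_add0 {x y : V} (h : Φ.B x y = 0) : Φ.Q (x + y) = Φ.Q x + Φ.Q y := by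
  rw [Φ.add, h, P.τ_zero, add_zero]

omit [Finite F] in
theorem B_smul (x : V) (a : F) (y : V) : Φ.B x (a • y) = P.σ a * Φ.B x y := by
  rw [LinearMap.map_smulₛₗ, smul_eq_mul]

omit [Finite F] in
theorem smul_B (a : F) (x y : V) : Φ.B (a • x) y = a * Φ.B x y := by
  rw [map_smul, LinearMap.smul_apply, smul_eq_mul]

omit [Finite F] in
theorem Nd.right (hn : Φ.Nd) {y : V} (h : ∀ x, Φ.B x y = 0) : y = 0 :=
  hn y fun x => B_comm0 (h x)

omit [Finite F] in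
theorem Sm_le : Φ.Sm ≤ Φ.Iso := (Subgroup.closure_le _).2 fun _ h => h.1

variable {e f e' f' : V}

omit [Finite F] in
theorem Hyp.fe (h : Φ.Hyp e f) : Φ.B f e = P.ε := by rw [Φ.sym, h.ef, map_one, mul_one]

omit [Finite F] in
theorem Hyp.ee (h : Φ.Hyp e f) : Φ.B e e = 0 := B_self h.qe

omit [Finite F] in
theorem Hyp.ff (h : Φ.Hyp e f) : Φ.B f f = 0 := B_self h.qf

omit [Finite F] in
theorem Hyp.ne (h : Φ.Hyp e f) : e ≠ 0 := fun h0 => by simpa [h0] using h.ef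

omit [Finite F] in
theorem Hyp.symm (h : Φ.Hyp e f) : Φ.Hyp f (P.ε • e) :=
  ⟨h.qf, by rw [Φ.smul, h.qe, mul_zero], by rw [B_smul, h.fe, P.σ_ε, P.ε_sq]⟩

omit [Finite F] in
theorem Hyp.map (h : Φ.Hyp e f) {g : V ≃ₗ[F] V} (hg : g ∈ Φ.Iso) : Φ.Hyp (g e) (g f) :=
  ⟨(hg.2 e).trans h.qe, (hg.2 f).trans h.qf, (hg.1 e f).trans h.ef⟩

theorem hyp_scale (he : Φ.Q e = 0) (hf : Φ.Q f = 0) (h : Φ.B e f ≠ 0) :
    ∃ c : F, c ≠ 0 ∧ Φ.Hyp e (c • f) :=
  ⟨P.σ (Φ.B e f)⁻¹, (map_ne_zero _).2 (inv_ne_zero h), he, by rw [Φ.smul, hf, mul_zero],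
    by rw [B_smul, P.σσ, inv_mul_cancel₀ h]⟩

omit [Finite F] in
theorem fbasa_dec (h : Φ.Hyp e f) (v : V) :
    v - Φ.B v f • e - (P.ε * Φ.B v e) • f ∈ Φ.pl e f := by
  simp only [mem_pl, map_sub, LinearMap.sub_apply, smul_B, h.ee, h.ef, h.fe, h.ff]
  exact ⟨by linear_combination (-Φ.B v e) * P.ε_sq, by ring⟩

omit [Finite F] in
theorem fbasa_co (h : Φ.Hyp e f) (a b : F) {x : V} (hx : x ∈ Φ.pl e f) :
    Φ.B (a • e + b • f + x) f = a ∧ P.ε * Φ.B (a • e + b • f + x) e = b := by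
  simp only [map_add, LinearMap.add_apply, smul_B, h.ee, h.ef, h.fe, h.ff, (Φ.mem_pl.1 hx).1,
    (Φ.mem_pl.1 hx).2]
  exact ⟨by ring, by linear_combination b * P.ε_sq⟩

omit [Finite F] in
theorem Hyp.equiv (h : Φ.Hyp e f) : ∃ φ : (F × F × Φ.pl e f) ≃ₗ[F] V,
    ∀ a b x, φ (a, b, x) = a • e + b • f + x := by
  refine ⟨{ toFun := fun p => p.1 • e + p.2.1 • f + p.2.2
            map_add' := fun p q => ?_
            map_smul' := fun c p => ?_
            invFun := fun v => (Φ.B v f, P.ε * Φ.B v e, ⟨_, fbasa_dec h v⟩)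
            left_inv := fun p => ?_
            right_inv := fun v => ?_ }, fun _ _ _ => rfl⟩
  · simp only [Prod.fst_add, Prod.snd_add, Submodule.coe_add, add_smul]
    abel
  · simp only [Prod.smul_fst, Prod.smul_snd, Submodule.coe_smul, smul_add, smul_eq_mul, mul_smul,
      RingHom.id_apply]
  · obtain ⟨h1, h2⟩ := fbasa_co h p.1 p.2.1 p.2.2.2
    refine Prod.ext h1 (Prod.ext h2 (Subtype.ext ?_))
    simp only [h1, h2]
    abel
  · simp only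
    abel

omit [Finite F] in
theorem Hyp.dec (h : Φ.Hyp e f) (v : V) :
    v - Φ.B v f • e - (P.ε * Φ.B v e) • f ∈ Φ.pl e f := fbasa_dec h v

omit [Finite F] in
theorem Hyp.Q_dec (h : Φ.Hyp e f) (a b : F) {x : V} (hx : x ∈ Φ.pl e f) :
    Φ.Q (a • e + b • f + x) = P.τ (a * P.σ b) + Φ.Q x := by
  rw [Q_add0 (by rw [map_add, LinearMap.add_apply, smul_B, smul_B, B_comm0 (Φ.mem_pl.1 hx).1,
      B_comm0 (Φ.mem_pl.1 hx).2, mul_zero, mul_zero, add_zero]), Φ.add, Φ.smul, Φ.smul, h.qe, h.qf,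
    smul_B, B_smul, h.ef, mul_zero, mul_zero, mul_one, zero_add, zero_add]

omit [Finite F] in
theorem Hyp.B_dec (h : Φ.Hyp e f) (a b a' b' : F) {x x' : V} (hx : x ∈ Φ.pl e f)
    (hx' : x' ∈ Φ.pl e f) : Φ.B (a • e + b • f + x) (a' • e + b' • f + x') =
      a * P.σ b' + P.ε * (b * P.σ a') + Φ.B x x' := by
  simp only [map_add, LinearMap.add_apply, smul_B, B_smul, h.ee, h.ef, h.fe, h.ff,
    (Φ.mem_pl.1 hx).1, (Φ.mem_pl.1 hx).2, B_comm0 (Φ.mem_pl.1 hx').1, B_comm0 (Φ.mem_pl.1 hx').2]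
  ring

omit [Finite F] in
theorem fbasa_ex (h : Φ.Hyp e f) (v : V) : ∃ a b : F, ∃ x ∈ Φ.pl e f, v = a • e + b • f + x :=
  ⟨_, _, _, h.dec v, by abel⟩

omit [Finite F] in
theorem Hyp.nd_pl (hn : Φ.Nd) (h : Φ.Hyp e f) : (Φ.res (Φ.pl e f)).Nd := by
  refine Φ.res_nd.2 fun x hx h1 => hn x fun v => ?_
  obtain ⟨a, b, y, hy, rfl⟩ := fbasa_ex h v
  rw [map_add, map_add, B_smul, B_smul, (Φ.mem_pl.1 hx).1, (Φ.mem_pl.1 hx).2, h1 y hy, mul_zero,
    mul_zero, add_zero, add_zero]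

end

variable {e f e' f' : V}

theorem Hyp.finrank_pl (h : Φ.Hyp e f) : finrank F (Φ.pl e f) + 2 = finrank F V := by
  obtain ⟨φ, -⟩ := h.equiv
  rw [← φ.finrank_eq, finrank_prod, finrank_prod, finrank_self]
  omega

theorem fbasb_card : Nat.card (Dual F V) = Nat.card V := by
  have := Module.Finite.of_finite (R := F) (M := V)
  rw [natCard_eq_pow_finrank (K := F), natCard_eq_pow_finrank (K := F) (V := V),
    Subspace.dual_finrank_eq]

theorem Nd.rep (hn : Φ.Nd) (φ : V →ₗ[F] F) : ∃ w, ∀ x, Φ.B x w = φ x :=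
  have : Finite (Dual F V) := DFunLike.finite _
  ((Function.Injective.bijective_of_nat_card_le (f := Φ.B.flip) ((injective_iff_map_eq_zero _).2
    fun _ h => hn.right (LinearMap.congr_fun h)) fbasb_card.le).2 φ).imp
      fun _ => LinearMap.congr_fun

theorem Nd.partner (hn : Φ.Nd) (U : Submodule F V) (he : Φ.Q e = 0) (hU : e ∉ U)
    (h : ∀ u ∈ U, Φ.B u e = 0) : ∃ f, Φ.Hyp e f ∧ ∀ u ∈ U, Φ.B u f = 0 := by
  obtain ⟨φ, h1, h2⟩ := LinearMap.exists_extend_of_notMem (0 : U →ₗ[F] F) hU 1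
  obtain ⟨w, hw⟩ := hn.rep φ
  obtain ⟨c, hc⟩ := Φ.tr w
  refine ⟨w + (-c) • e, ⟨he, ?_, ?_⟩, fun u hu => ?_⟩
  · rw [Φ.add, Φ.smul, he, mul_zero, add_zero, B_smul, Φ.sym e w, hw, h2, map_one, mul_one,
      mul_comm, P.τ_sym, P.τ_neg, hc, add_neg_cancel]
  · rw [map_add, B_smul, B_self he, mul_zero, add_zero, hw, h2]
  · rw [map_add, B_smul, h u hu, mul_zero, add_zero, hw]
    exact LinearMap.congr_fun h1 ⟨u, hu⟩

theorem Nd.partner' (hn : Φ.Nd) (he : Φ.Q e = 0) (h0 : e ≠ 0) : ∃ f, Φ.Hyp e f :=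
  (hn.partner ⊥ he (by simpa using h0) (by simp)).imp fun _ h => h.1

theorem Nd.two_dim (hn : Φ.Nd) {U : Submodule F V} (hU : ∀ x ∈ U, ∀ y ∈ U, Φ.B x y = 0) :
    2 * finrank F U ≤ finrank F V := by
  have := Module.Finite.of_finite (R := F) (M := V)
  let ψ : V →+ Dual F U := U.subtype.dualMap.toAddMonoidHom.comp Φ.B.flip.toAddMonoidHom
  have h1 : ψ.range = ⊤ := AddMonoidHom.range_eq_top.2 fun φ => by
    obtain ⟨χ, rfl⟩ := φ.exists_extend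
    obtain ⟨w, hw⟩ := hn.rep χ
    exact ⟨w, LinearMap.ext fun x => hw x⟩
  have h2 := ψ.ker.card_mul_index
  have h3 := AddSubgroup.card_le_of_le (show U.toAddSubgroup ≤ ψ.ker from fun y hy =>
    LinearMap.ext fun x => hU x x.2 y hy)
  rw [AddSubgroup.index_ker, h1, AddSubgroup.card_top, fbasb_card] at h2
  have h4 := (Nat.mul_le_mul_right (Nat.card U) h3).trans_eq h2
  change Nat.card U * _ ≤ _ at h4
  rwa [natCard_eq_pow_finrank (K := F), natCard_eq_pow_finrank (K := F) (V := V), ← pow_add,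
    ← two_mul, Nat.pow_le_pow_iff_right Finite.one_lt_card] at h4

theorem Nd.mk_iso (hn : Φ.Nd) (L : V →ₗ[F] V) (h1 : ∀ x y, Φ.B (L x) (L y) = Φ.B x y)
    (h2 : ∀ x, Φ.Q (L x) = Φ.Q x) : ∃ g ∈ Φ.Iso, ∀ v, g v = L v :=
  have := Module.Finite.of_finite (R := F) (M := V)
  ⟨.ofInjectiveEndo L ((injective_iff_map_eq_zero _).2 fun x h => hn x fun y => by
    rw [← h1, h, map_zero, LinearMap.zero_apply]), ⟨h1, h2⟩, fun _ => rfl⟩

theorem exists_res {g : V ≃ₗ[F] V} (hg : g ∈ Φ.Iso) {W : Submodule F V} (hW : Stb g W) :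
    ∃ g' ∈ (Φ.res W).Iso, ∀ w : W, (g' w : V) = g w :=
  have := Module.Finite.of_finite (R := F) (M := W)
  ⟨.ofInjectiveEndo ((g : V →ₗ[F] V).restrict hW) fun _ _ h =>
    Subtype.ext (g.injective (congrArg Subtype.val h)),
    ⟨fun x y => hg.1 x y, fun x => hg.2 x⟩, fun _ => rfl⟩

theorem Hyp.mk_iso (hn : Φ.Nd) (h : Φ.Hyp e f) (h' : Φ.Hyp e' f') (L : V →ₗ[F] V) (h1 : L e = e')
    (h2 : L f = f') (h3 : ∀ x ∈ Φ.pl e f, L x ∈ Φ.pl e' f' ∧ Φ.Q (L x) = Φ.Q x)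
    (h4 : ∀ x ∈ Φ.pl e f, ∀ y ∈ Φ.pl e f, Φ.B (L x) (L y) = Φ.B x y) :
    ∃ g ∈ Φ.Iso, ∀ v, g v = L v := by
  have k : ∀ (a b : F) x, L (a • e + b • f + x) = a • e' + b • f' + L x := fun a b x => by
    rw [map_add, map_add, map_smul, map_smul, h1, h2]
  refine hn.mk_iso L (fun v w => ?_) fun v => ?_
  · obtain ⟨a, b, x, hx, rfl⟩ := fbasa_ex h v
    obtain ⟨c, d, y, hy, rfl⟩ := fbasa_ex h w
    rw [k, k, h.B_dec _ _ _ _ hx hy, h'.B_dec _ _ _ _ (h3 x hx).1 (h3 y hy).1, h4 x hx y hy]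
  · obtain ⟨a, b, x, hx, rfl⟩ := fbasa_ex h v
    rw [k, h.Q_dec _ _ hx, h'.Q_dec _ _ (h3 x hx).1, (h3 x hx).2]

end Frm

end Pool.Agent.Lib.MP_7d41f7_al
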