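import Pool.Agent.Lib.MP_7d41f7_al.C.FWit

/-! Counting. -/

set_option autoImplicit false

namespace Pool.Agent.Lib.MP_7d41f7_al

open Module

variable {F V : Type} [Field F] [Finite F] {P : Sca F} [AddCommGroup V] [Module F V] [Finite V]
  {Φ : Frm P V}

namespace Frm

variable {e f : V}

omit [Finite F] in
theorem fcnta_ns (Φ : Frm P V) : Φ.ns + 1 = Nat.card {v : V // Φ.Q v = 0} := by
  have h1 : Φ.ns = ({v : V | Φ.Q v = 0} \ {0}).ncard :=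
    Nat.card_congr (Equiv.subtypeEquivRight fun v => and_comm)
  rw [h1, Set.ncard_sdiff_singleton_add_one (show (0 : V) ∈ {v : V | Φ.Q v = 0} from Q_zero)]
  rfl

omit [Finite V] in
theorem fcnta_fib {b : F} (hb : b ≠ 0) (x : V) :
    Nat.card {a : F // P.τ (a * P.σ b) + Φ.Q x = 0} = P.tk := by
  obtain ⟨c, hc⟩ := Φ.tr x
  rw [← P.card_τ (c := -Φ.Q x) ⟨-c, by rw [P.τ_neg, hc]⟩]
  exact Nat.card_congr ((Equiv.mulRight₀ (P.σ b) ((map_ne_zero _).2 hb)).subtypeEquiv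
    fun a => add_eq_zero_iff_eq_neg)

theorem Hyp.ns_step (h : Φ.Hyp e f) : (Φ.ns : ℤ) + 1 =
    ((Nat.card F : ℤ) - 1) * (Nat.card F : ℤ) ^ finrank F (Φ.pl e f) * P.tk +
      Nat.card F * ((Φ.res (Φ.pl e f)).ns + 1) := by
  classical
  obtain ⟨φ, hφ⟩ := h.equiv
  let _ := Fintype.ofFinite F
  let _ := Fintype.ofFinite (Φ.pl e f)
  have h1 : Nat.card (Σ y : F × Φ.pl e f, {a : F // P.τ (a * P.σ y.1) + Φ.Q y.2 = 0}) =
      Nat.card {v : V // Φ.Q v = 0} := by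
    refine Nat.card_eq_of_bijective (fun s => ⟨φ (s.2.1, s.1), by
      rw [hφ, h.Q_dec _ _ s.1.2.2]
      exact s.2.2⟩) ⟨?_, ?_⟩
    · rintro ⟨y, a, ha⟩ ⟨y', a', ha'⟩ h2
      obtain ⟨rfl, rfl⟩ := Prod.mk.inj (φ.injective (congrArg Subtype.val h2))
      rfl
    · rintro ⟨v, hv⟩
      obtain ⟨⟨a, b, x⟩, rfl⟩ := φ.surjective v
      rw [hφ, h.Q_dec _ _ x.2] at hv
      exact ⟨⟨(b, x), a, hv⟩, rfl⟩
  have h2 : ∑ x : Φ.pl e f, Nat.card {a : F // P.τ (a * P.σ 0) + Φ.Q x = 0} =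
      Nat.card F * Nat.card {x : Φ.pl e f // (Φ.res (Φ.pl e f)).Q x = 0} := by
    rw [Nat.card_eq_fintype_card (α := {x : Φ.pl e f // _}), Fintype.card_subtype,
      Finset.card_filter, Finset.mul_sum]
    refine Finset.sum_congr rfl fun x _ => ?_
    simp only [map_zero, mul_zero, P.τ_zero, zero_add, res_Q]
    by_cases hx : Φ.Q x = 0 <;> simp [hx]
  have h3 : ∑ b ∈ Finset.univ.erase (0 : F), ∑ x : Φ.pl e f,
      Nat.card {a : F // P.τ (a * P.σ b) + Φ.Q x = 0} =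
      (Nat.card F - 1) * (Nat.card F ^ finrank F (Φ.pl e f) * P.tk) := by
    rw [Finset.sum_congr rfl fun b hb => Finset.sum_congr rfl fun (x : Φ.pl e f) _ =>
      fcnta_fib (Finset.ne_of_mem_erase hb) (x : V), Finset.sum_const, Finset.sum_const,
      Finset.card_erase_of_mem (Finset.mem_univ _), Finset.card_univ, Finset.card_univ,
      ← Nat.card_eq_fintype_card, ← Nat.card_eq_fintype_card, smul_eq_mul, smul_eq_mul,
      Module.natCard_eq_pow_finrank (K := F) (V := Φ.pl e f)]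
  rw [Nat.card_sigma, Fintype.sum_prod_type, ← Finset.add_sum_erase _ _ (Finset.mem_univ (0 : F)),
    h2, h3, ← fcnta_ns, ← fcnta_ns] at h1
  have hF : 1 ≤ Nat.card F := Nat.card_pos
  zify [hF] at h1
  linear_combination -h1

theorem Hyp.card_partner (h : Φ.Hyp e f) :
    Nat.card {f' // Φ.Hyp e f'} = Nat.card F ^ finrank F (Φ.pl e f) * P.tk := by
  obtain ⟨φ, hφ⟩ := h.equiv
  let _ := Fintype.ofFinite (Φ.pl e f)
  have hB : ∀ (a b : F) (x : Φ.pl e f), Φ.B e (φ (a, b, x)) = P.σ b := fun a b x => by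
    rw [hφ, map_add, map_add, B_smul, B_smul, h.ee, h.ef, B_comm0 (Φ.mem_pl.1 x.2).1, mul_zero,
      mul_one, zero_add, add_zero]
  have h1 : Nat.card (Σ x : Φ.pl e f, {a : F // P.τ (a * P.σ 1) + Φ.Q x = 0}) =
      Nat.card {f' // Φ.Hyp e f'} := by
    refine Nat.card_eq_of_bijective (fun s => ⟨φ (s.2.1, 1, s.1), h.qe, by
      rw [hφ, h.Q_dec _ _ s.1.2]
      exact s.2.2, by rw [hB, map_one]⟩) ⟨?_, ?_⟩
    · rintro ⟨y, a, ha⟩ ⟨y', a', ha'⟩ h2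
      obtain ⟨rfl, h3⟩ := Prod.mk.inj (φ.injective (congrArg Subtype.val h2))
      obtain ⟨-, rfl⟩ := Prod.mk.inj h3
      rfl
    · rintro ⟨v, hv⟩
      obtain ⟨⟨a, b, x⟩, rfl⟩ := φ.surjective v
      have h2 := hv.ef
      have h3 := hv.qf
      rw [hB, ← map_one P.σ] at h2
      obtain rfl := P.σ.injective h2
      rw [hφ, h.Q_dec _ _ x.2] at h3
      exact ⟨⟨x, a, h3⟩, rfl⟩
  rw [← h1, Nat.card_sigma, Finset.sum_congr rfl fun (x : Φ.pl e f) _ =>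
    fcnta_fib one_ne_zero (x : V), Finset.sum_const, Finset.card_univ, ← Nat.card_eq_fintype_card,
    smul_eq_mul, Module.natCard_eq_pow_finrank (K := F) (V := Φ.pl e f)]

theorem fcntb_pairs (hn : Φ.Nd) (h : Φ.Hyp e f) : Φ.ns * (Nat.card F ^ finrank F (Φ.pl e f) * P.tk) =
    Nat.card {p : V × V | Φ.Hyp p.1 p.2} := by
  have := Fintype.ofFinite {v : V // v ≠ 0 ∧ Φ.Q v = 0}
  have hc : ∀ v : {v : V // v ≠ 0 ∧ Φ.Q v = 0},
      Nat.card {f' // Φ.Hyp v f'} = Nat.card F ^ finrank F (Φ.pl e f) * P.tk := fun v => by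
    obtain ⟨w, hw⟩ := hn.partner' v.2.2 v.2.1
    have h1 := hw.finrank_pl
    have h2 := h.finrank_pl
    rw [hw.card_partner, show finrank F (Φ.pl v w) = finrank F (Φ.pl e f) by omega]
  rw [← Nat.card_congr (α := (v : {v : V // v ≠ 0 ∧ Φ.Q v = 0}) × {f' // Φ.Hyp v f'})
    (β := {p : V × V | Φ.Hyp p.1 p.2})
    ⟨fun x => ⟨(x.1.1, x.2.1), x.2.2⟩, fun p => ⟨⟨p.1.1, Hyp.ne p.2, Hyp.qe p.2⟩, ⟨p.1.2, p.2⟩⟩,
      fun _ => rfl, fun _ => rfl⟩, Nat.card_sigma, Finset.sum_congr rfl fun v _ => hc v,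
    Finset.sum_const, Finset.card_univ, smul_eq_mul, ns, Nat.card_eq_fintype_card]

theorem Hyp.card_iso (hn : Φ.Nd) (h : Φ.Hyp e f) : Nat.card Φ.Iso =
    Φ.ns * (Nat.card F ^ finrank F (Φ.pl e f) * P.tk) * Nat.card (Φ.res (Φ.pl e f)).Iso := by
  obtain ⟨φ, hi, h1, h2⟩ := h.ext
  have ho : MulAction.orbit Φ.Iso (e, f) = {p : V × V | Φ.Hyp p.1 p.2} := by
    ext p
    refine ⟨?_, fun hp => ?_⟩
    · rintro ⟨g, rfl⟩
      exact h.map g.2
    · obtain ⟨g, hg, a, b⟩ := trans_hyp hn h hp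
      exact ⟨⟨g, Sm_le hg⟩, Prod.ext a b⟩
  have hs : Nat.card (Φ.res (Φ.pl e f)).Iso = Nat.card (MulAction.stabilizer Φ.Iso (e, f)) := by
    refine Nat.card_congr (Equiv.ofBijective
      (fun a => ⟨⟨φ a, (h1 a).1⟩, Prod.ext (h1 a).2.1 (h1 a).2.2.1⟩) ⟨fun a b hab => ?_, fun g => ?_⟩)
    · exact hi (congrArg (fun x => x.1.1) hab)
    · obtain ⟨a, ha⟩ := h2 g.1.1 g.1.2 (congrArg Prod.fst g.2) (congrArg Prod.snd g.2)
      exact ⟨a, Subtype.ext (Subtype.ext ha)⟩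
  rw [hs, fcntb_pairs hn h, ← ho, Nat.card_coe_set_eq, ← MulAction.index_stabilizer,
    Subgroup.index_mul_card]

end Frm

end Pool.Agent.Lib.MP_7d41f7_al
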