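import Pool.Agent.Lib.MP_7d41f7_al.C.FMin
import Pool.Agent.Lib.MP_7d41f7_al.C.Chr
import Pool.Agent.Lib.MP_7d41f7_al.L.GA

/-! Cyclic Sylow subgroups. -/

set_option autoImplicit false

namespace Pool.Agent.Lib.MP_7d41f7_al

open Module

variable {F V : Type} [Field F] [Finite F] {P : Sca F} [AddCommGroup V] [Module F V] [Finite V]
  {Φ : Frm P V}

namespace Frm

variable {t : Ty} {n r : ℕ} {Γ : Type} [Group Γ]

omit [Finite F] [Finite V] in
theorem IsTy.lt (hT : Φ.IsTy t n) (hj : n + 4 < 2 * P.j r) :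
    finrank F V + 4 < 2 * (P.k.wt * P.j r) := by
  have h1 := wt_dim t n
  rw [hT.dim, ← hT.kd] at *
  cases t <;> simp only [Ty.kd, Kd.wt] at * <;> omega

omit [Finite F] in
theorem Rep.finite (R : Φ.Rep Γ) : Finite Γ := Finite.of_injective _ R.inj

/-- The fixed space of a nontrivial element of order `r` is fixed by every commuting element of
order dividing `r`. -/
theorem fcyc_fx (hT : Φ.IsTy t n) (hr : r.Prime) (hj : n + 4 < 2 * P.j r) {y z : V ≃ₗ[F] V}
    (hy : y ∈ Φ.Iso) (hz : z ∈ Φ.Iso) (h1 : y ^ r = 1) (h2 : z ^ r = 1) (hc : Commute y z)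
    (h0 : y ≠ 1) : fx y ≤ fx z := by
  have hj2 : 2 < P.j r := by omega
  have hrF : (r : F) ≠ 0 := P.cast_ne hr (by omega)
  have h3 := min_mv hT.nd hy hr hj2 h1 h0
  have h4 := finrank_mv_fx y
  have h5 := hT.lt hj
  exact fun w hw => mem_fx.2 (triv (nd_fx hT.nd hy h1 hrF) hz (stb_fx hc) hr hj2 (a := 1)
    (by rw [pow_one, h2]) (by omega) w hw)

/-- The norm of such an element vanishes on the commutator space. -/
theorem fcyc_norm (hT : Φ.IsTy t n) (hr : r.Prime) (hj : n + 4 < 2 * P.j r) {y z : V ≃ₗ[F] V}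
    (hy : y ∈ Φ.Iso) (hz : z ∈ Φ.Iso) (h1 : y ^ r = 1) (h2 : z ^ r = 1) (hc : Commute y z)
    (h0 : y ≠ 1) {w : V} (hw : w ∈ mv z) : ∑ k ∈ Finset.range r, (y ^ k) w = 0 := by
  have hrF : (r : F) ≠ 0 := P.cast_ne hr (by omega)
  refine (Submodule.disjoint_def.1 (compl_fx h2 hrF).disjoint) _
    (fcyc_fx hT hr hj hy hz h1 h2 hc h0 (mem_fx.2 ?_))
    (Submodule.sum_mem _ fun k _ => (stb_mv hc.symm).pow k w hw)
  have h3 := Finset.sum_range_succ (fun k => (y ^ k) w) r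
  rw [Finset.sum_range_succ', h1, pow_zero, add_left_inj] at h3
  rw [map_sum, ← h3]
  exact Finset.sum_congr rfl fun k _ => by rw [pow_succ', LinearEquiv.mul_apply]

theorem no_rank2 (hT : Φ.IsTy t n) (hr : r.Prime) (hj : n + 4 < 2 * P.j r) {a b : V ≃ₗ[F] V}
    (ha : a ∈ Φ.Iso) (hb : b ∈ Φ.Iso) (h1 : a ^ r = 1) (h2 : b ^ r = 1) (hc : Commute a b)
    (h0 : b ≠ 1) : a ∈ Subgroup.zpowers b := by
  by_contra hna
  have hrF : (r : F) ≠ 0 := P.cast_ne hr (by omega)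
  have hp : ∀ i : ℕ, (b ^ i) ^ r = 1 := fun i => by rw [← pow_mul, mul_comm, pow_mul, h2, one_pow]
  have ho : orderOf b = r := haveI := Fact.mk hr; orderOf_eq_prime h2 h0
  refine h0 (LinearEquiv.ext fun v => ?_)
  have hw : b v - v ∈ mv b := mem_mv.2 ⟨v, rfl⟩
  refine sub_eq_zero.1 ((smul_eq_zero_iff_right hrF).1 ?_)
  change (r : F) • (b v - v) = 0
  generalize b v - v = w at hw
  have h3 : ∑ i ∈ Finset.range r, ∑ k ∈ Finset.range r, ((a * b ^ i) ^ k) w = 0 :=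
    Finset.sum_eq_zero fun i _ => fcyc_norm hT hr hj (mul_mem ha (pow_mem hb i)) hb
      (by rw [(hc.pow_right i).mul_pow, h1, hp, one_mul]) h2
      (hc.mul_left ((Commute.refl b).pow_left i))
      (fun h => hna (eq_inv_of_mul_eq_one_left h ▸ inv_mem (Subgroup.npow_mem_zpowers b i))) hw
  rw [Finset.sum_comm, Finset.sum_eq_single 0] at h3
  · simpa [Nat.cast_smul_eq_nsmul] using h3
  · intro k hk hk0
    have h4 := fcyc_norm hT hr hj (pow_mem hb k) hb (hp k) h2 ((Commute.refl b).pow_left k)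
      (pow_ne_one_of_lt_orderOf hk0 (ho ▸ Finset.mem_range.1 hk)) hw
    rw [← map_zero (a ^ k), ← h4, map_sum]
    exact Finset.sum_congr rfl fun i _ => by
      rw [(hc.pow_right i).mul_pow, LinearEquiv.mul_apply, ← pow_mul, mul_comm i k, pow_mul]
  · exact fun h => absurd (Finset.mem_range.2 hr.pos) h

theorem cyc_rep (hT : Φ.IsTy t n) (R : Φ.Rep Γ) (hr : r.Prime) (hj : n + 4 < 2 * P.j r) :
    Cyc Γ r := by
  have := R.finite
  intro S
  have h2 : r ≠ 2 := Ord.ne_two (b := P.k.bs P.q) (by change 1 < P.j r; omega)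
  refine odd_cyc hr h2 S.isPGroup' fun a b h1 h3 hc h0 => ?_
  set φ : (S : Subgroup Γ) →* (V ≃ₗ[F] V) := R.ι.comp (S : Subgroup Γ).subtype with hφ
  have hi : Function.Injective φ := R.inj.comp Subtype.val_injective
  obtain ⟨k, hk⟩ := Subgroup.mem_zpowers_iff.1 (no_rank2 hT hr hj (a := φ a) (b := φ b)
    (R.le ⟨a, rfl⟩) (R.le ⟨b, rfl⟩) (by rw [← map_pow, h1, map_one])
    (by rw [← map_pow, h3, map_one]) (hc.map φ) fun h => h0 (hi (h.trans (map_one φ).symm)))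
  exact Subgroup.mem_zpowers_iff.2 ⟨k, hi (by rw [map_zpow, hk])⟩

theorem cyc_PQ (hT : Φ.IsTy t n) (R : Φ.Rep Γ) (hr : r.Prime) (hj : n + 4 < 2 * P.j r) :
    Cyc (PQ Γ) r :=
  have := R.finite
  (cyc_rep hT R hr hj).of_surj (QuotientGroup.mk'_surjective _) hr

end Frm

end Pool.Agent.Lib.MP_7d41f7_al
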