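import Pool.Agent.Lib.MP_7d41f7_al.C.XDefs

/-! Hermitian, alternating and quadratic forms over a finite field in one setting. -/

set_option autoImplicit false

namespace Pool.Agent.Lib.MP_7d41f7_al

open Module

/-- The size of the kernel of the trace map. -/
def Kd.tk : Kd → ℕ → ℕ
  | .O, _ => 1
  | _, q => q

/-- The rank parameter after adding a hyperbolic plane. -/
def Ty.nx : Ty → ℕ → ℕ
  | .U, n => n + 2
  | _, n => n + 1

/-- The scalar data of a kind of forms. -/
structure Sca (F : Type) [Field F] where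
  k : Kd
  q : ℕ
  σ : F →+* F
  card : Nat.card F = k.fc q
  σU : k = .U → ∀ a, σ a = a ^ q
  σN : k ≠ .U → ∀ a, σ a = a

namespace Sca

variable {F : Type} [Field F] (P : Sca F)

/-- The sign of symmetry. -/
def ε : F := match P.k with
  | .S => -1
  | _ => 1

/-- The trace map. -/
def τ (a : F) : F := match P.k with
  | .U => a + P.σ a
  | .S => 0
  | .O => a

/-- The factor on the diagonal. -/
def ρ : F := match P.k with
  | .U => 1
  | .S => 0
  | .O => 2

/-- The size of the kernel of the trace map. -/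
abbrev tk : ℕ := P.k.tk P.q

/-- The class of a prime. -/
noncomputable abbrev j (r : ℕ) : ℕ := Ord (P.k.bs P.q) r

variable {P}

theorem ε_U (h : P.k = .U) : P.ε = 1 := by simp [ε, h]
theorem ε_S (h : P.k = .S) : P.ε = -1 := by simp [ε, h]
theorem ε_O (h : P.k = .O) : P.ε = 1 := by simp [ε, h]
theorem τ_U (h : P.k = .U) (a : F) : P.τ a = a + P.σ a := by simp [τ, h]
theorem τ_S (h : P.k = .S) (a : F) : P.τ a = 0 := by simp [τ, h]
theorem τ_O (h : P.k = .O) (a : F) : P.τ a = a := by simp [τ, h]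
theorem ρ_U (h : P.k = .U) : P.ρ = 1 := by simp [ρ, h]
theorem ρ_S (h : P.k = .S) : P.ρ = 0 := by simp [ρ, h]
theorem ρ_O (h : P.k = .O) : P.ρ = 2 := by simp [ρ, h]
theorem tk_U (h : P.k = .U) : P.tk = P.q := by simp [tk, h, Kd.tk]
theorem tk_S (h : P.k = .S) : P.tk = P.q := by simp [tk, h, Kd.tk]
theorem tk_O (h : P.k = .O) : P.tk = 1 := by simp [tk, h, Kd.tk]
theorem σ_S (h : P.k = .S) (a : F) : P.σ a = a := P.σN (by simp [h]) a
theorem σ_O (h : P.k = .O) (a : F) : P.σ a = a := P.σN (by simp [h]) a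

variable (P) in
theorem kind : P.k = .U ∨ P.k = .S ∨ P.k = .O := by cases P.k <;> simp

/-- The data for quadratic forms. -/
noncomputable def og (F : Type) [Field F] : Sca F :=
  ⟨.O, Nat.card F, RingHom.id F, rfl, fun h => by simp at h, fun _ _ => rfl⟩

/-- The data for alternating forms. -/
noncomputable def sp (F : Type) [Field F] : Sca F :=
  ⟨.S, Nat.card F, RingHom.id F, rfl, fun h => by simp at h, fun _ _ => rfl⟩

end Sca

/-- A form of the given kind. -/
structure Frm {F : Type} [Field F] (P : Sca F) (V : Type) [AddCommGroup V] [Module F V] where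
  B : V →ₗ[F] V →ₛₗ[P.σ] F
  Q : V → F
  sym : ∀ x y, B y x = P.ε * P.σ (B x y)
  add : ∀ x y, Q (x + y) = Q x + Q y + P.τ (B x y)
  smul : ∀ (a : F) x, Q (a • x) = a * P.σ a * Q x
  diag : ∀ x, B x x = P.ρ * Q x
  tr : ∀ x, ∃ c, P.τ c = Q x

section lin

variable {F V : Type} [Field F] [AddCommGroup V] [Module F V]

instance finiteLin [Finite V] : Finite (V ≃ₗ[F] V) := DFunLike.finite _

/-- The fixed space. -/
def fx (g : V ≃ₗ[F] V) : Submodule F V := LinearMap.ker ((g : V →ₗ[F] V) - LinearMap.id)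

/-- The commutator space. -/
def mv (g : V ≃ₗ[F] V) : Submodule F V := LinearMap.range ((g : V →ₗ[F] V) - LinearMap.id)

theorem mem_fx {g : V ≃ₗ[F] V} {v : V} : v ∈ fx g ↔ g v = v := by simp [fx, sub_eq_zero]

theorem mem_mv {g : V ≃ₗ[F] V} {v : V} : v ∈ mv g ↔ ∃ w, g w - w = v := by simp [mv]

/-- `g` maps `W` into itself. -/
def Stb (g : V ≃ₗ[F] V) (W : Submodule F V) : Prop := ∀ w ∈ W, g w ∈ W

end lin

namespace Frm

variable {F V : Type} [Field F] {P : Sca F} [AddCommGroup V] [Module F V] (Φ : Frm P V)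

/-- The form is nondegenerate. -/
def Nd : Prop := ∀ x, (∀ y, Φ.B x y = 0) → x = 0

/-- The restriction to a subspace. -/
def res (W : Submodule F V) : Frm P W where
  B := Φ.B.domRestrict₁₂ W W
  Q w := Φ.Q w
  sym x y := Φ.sym x y
  add x y := Φ.add x y
  smul a x := Φ.smul a x
  diag x := Φ.diag x
  tr x := Φ.tr x

@[simp] theorem res_B (W : Submodule F V) (x y : W) : (Φ.res W).B x y = Φ.B x y := rfl

@[simp] theorem res_Q (W : Submodule F V) (x : W) : (Φ.res W).Q x = Φ.Q x := rfl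

theorem res_nd {W : Submodule F V} :
    (Φ.res W).Nd ↔ ∀ x ∈ W, (∀ y ∈ W, Φ.B x y = 0) → x = 0 :=
  ⟨fun h x hx h' => congrArg Subtype.val (h ⟨x, hx⟩ fun y => h' y y.2),
    fun h x h' => Subtype.ext (h x x.2 fun y hy => h' ⟨y, hy⟩)⟩

/-- The group of isometries. -/
def Iso : Subgroup (V ≃ₗ[F] V) where
  carrier := {g | (∀ x y, Φ.B (g x) (g y) = Φ.B x y) ∧ ∀ x, Φ.Q (g x) = Φ.Q x}
  one_mem' := ⟨fun _ _ => rfl, fun _ => rfl⟩
  mul_mem' ha hb := ⟨fun x y => (ha.1 _ _).trans (hb.1 x y), fun x => (ha.2 _).trans (hb.2 x)⟩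
  inv_mem' {g} hg := ⟨fun x y => (hg.1 _ _).symm.trans
      (congrArg₂ (fun a b => Φ.B a b) (g.apply_symm_apply x) (g.apply_symm_apply y)),
    fun x => (hg.2 _).symm.trans (congrArg Φ.Q (g.apply_symm_apply x))⟩

theorem mem_iso {g : V ≃ₗ[F] V} :
    g ∈ Φ.Iso ↔ (∀ x y, Φ.B (g x) (g y) = Φ.B x y) ∧ ∀ x, Φ.Q (g x) = Φ.Q x := Iff.rfl

/-- The commutator subgroup of the group of isometries. -/
abbrev Der : Subgroup (V ≃ₗ[F] V) := ⁅Φ.Iso, Φ.Iso⁆

/-- The subgroup generated by the isometries that move a space of dimension at most two. -/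
def Sm : Subgroup (V ≃ₗ[F] V) := Subgroup.closure {g | g ∈ Φ.Iso ∧ finrank F (mv g) ≤ 2}

/-- A hyperbolic pair. -/
structure Hyp (e f : V) : Prop where
  qe : Φ.Q e = 0
  qf : Φ.Q f = 0
  ef : Φ.B e f = 1

/-- The orthogonal complement of two vectors. -/
def pl (e f : V) : Submodule F V := LinearMap.ker (Φ.B.flip e) ⊓ LinearMap.ker (Φ.B.flip f)

theorem mem_pl {e f x : V} : x ∈ Φ.pl e f ↔ Φ.B x e = 0 ∧ Φ.B x f = 0 := Iff.rfl

/-- A totally singular subspace. -/
def Ti (U : Submodule F V) : Prop := (∀ x ∈ U, Φ.Q x = 0) ∧ ∀ x ∈ U, ∀ y ∈ U, Φ.B x y = 0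

/-- The number of nonzero singular vectors. -/
noncomputable def ns : ℕ := Nat.card {v : V // v ≠ 0 ∧ Φ.Q v = 0}

/-- The type of the form. -/
structure IsTy (t : Ty) (n : ℕ) : Prop where
  nd : Φ.Nd
  kd : t.kd = P.k
  dim : finrank F V = t.dim n
  ns : (Φ.ns : ℤ) = t.sing n P.q
  ord : (Nat.card Φ.Iso : ℤ) = t.ord n P.q
  pos : t = .Dm → 0 < n
  odd : t = .B → Odd P.q

/-- A group between the commutator subgroup and the group of isometries. -/
structure Rep (Γ : Type) [Group Γ] where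
  ι : Γ →* (V ≃ₗ[F] V)
  inj : Function.Injective ι
  le : ι.range ≤ Φ.Iso
  der : Φ.Der ≤ ι.range

end Frm

/-- The form attached to a quadratic form. -/
def Frm.ofQ {F V : Type} [Field F] [AddCommGroup V] [Module F V] (Q : QuadraticForm F V) :
    Frm (Sca.og F) V where
  B := Q.polarBilin
  Q := Q
  sym x y := (QuadraticMap.polar_comm Q y x).trans (one_mul _).symm
  add x y := QuadraticMap.map_add Q x y
  smul a x := Q.map_smul a x
  diag x := (QuadraticMap.polar_self Q x).trans (by simp [Sca.ρ, Sca.og])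
  tr x := ⟨Q x, rfl⟩

/-- The prime used to separate the symplectic from the orthogonal groups. -/
def BCp (q m r : ℕ) : Prop := (Prim q (2 * m) r ∧ q ^ m % 4 = 1) ∨ (Prim q m r ∧ q ^ m % 4 = 3)

end Pool.Agent.Lib.MP_7d41f7_al
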