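import Pool.Agent.Lib.MP_7d41f7_al.C.FTy

/-! Elements of order prime to the characteristic. -/

set_option autoImplicit false

namespace Pool.Agent.Lib.MP_7d41f7_al

open Module

variable {F V : Type} [Field F] [Finite F] {P : Sca F} [AddCommGroup V] [Module F V] [Finite V]
  {Φ : Frm P V}

section

variable {g h : V ≃ₗ[F] V}

omit [Finite F] [Finite V] in
theorem stb_fx (hc : Commute g h) : Stb h (fx g) := fun w hw => by
  rw [mem_fx] at hw ⊢
  rw [← LinearEquiv.mul_apply, hc.eq, LinearEquiv.mul_apply, hw]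

omit [Finite F] [Finite V] in
theorem stb_mv (hc : Commute g h) : Stb h (mv g) := fun w hw => by
  obtain ⟨v, rfl⟩ := mem_mv.1 hw
  exact mem_mv.2 ⟨h v, by rw [map_sub, ← LinearEquiv.mul_apply, hc.eq, LinearEquiv.mul_apply]⟩

omit [Finite F] in
theorem finrank_mv_fx (g : V ≃ₗ[F] V) : finrank F (mv g) + finrank F (fx g) = finrank F V :=
  LinearMap.finrank_range_add_finrank_ker _

omit [Finite F] [Finite V] in
theorem mv_pow (g : V ≃ₗ[F] V) (n : ℕ) : mv (g ^ n) ≤ mv g := by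
  intro w hw
  obtain ⟨v, rfl⟩ := mem_mv.1 hw
  clear hw
  induction n with
  | zero => simp
  | succ n ih =>
    have := add_mem (mem_mv.2 ⟨(g ^ n) v, rfl⟩ : _ ∈ mv g) ih
    rwa [sub_add_sub_cancel, ← LinearEquiv.mul_apply, ← pow_succ'] at this

omit [Finite F] in
theorem compl_fx {m : ℕ} (hg : g ^ m = 1) (hm : (m : F) ≠ 0) : IsCompl (fx g) (mv g) := by
  have hd : Disjoint (fx g) (mv g) := Submodule.disjoint_def.2 fun x hx hy => by
    obtain ⟨v, rfl⟩ := mem_mv.1 hy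
    have h1 : ∀ i : ℕ, (g ^ i) v = v + (i : F) • (g v - v) := fun i => by
      induction i with
      | zero => simp
      | succ i ih =>
        rw [pow_succ', LinearEquiv.mul_apply, ih, map_add, map_smul, mem_fx.1 hx, Nat.cast_succ,
          add_smul, one_smul]
        abel
    have h2 := h1 m
    rw [hg, LinearEquiv.coe_one, id, left_eq_add] at h2
    exact (smul_eq_zero.1 h2).resolve_left hm
  exact ⟨hd, codisjoint_iff.2 (Submodule.eq_top_of_disjoint _ _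
    (by rw [add_comm, finrank_mv_fx]) hd)⟩

end

namespace Frm

variable {g x y : V ≃ₗ[F] V} {W : Submodule F V} {r m : ℕ} {t : Ty}

omit [Finite F] [Finite V] in
theorem perp_fx_mv (hg : g ∈ Φ.Iso) {v w : V} (hv : v ∈ fx g) (hw : w ∈ mv g) : Φ.B v w = 0 := by
  obtain ⟨u, rfl⟩ := mem_mv.1 hw
  rw [map_sub, ← hg.1 v u, mem_fx.1 hv, sub_self]

theorem nd_fx (hn : Φ.Nd) (hg : g ∈ Φ.Iso) (h1 : g ^ m = 1) (hm : (m : F) ≠ 0) :
    (Φ.res (fx g)).Nd := by
  refine Φ.res_nd.2 fun x hx h => hn x fun y => ?_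
  obtain ⟨a, ha, b, hb, rfl⟩ := Submodule.mem_sup.1
    ((compl_fx h1 hm).sup_eq_top.ge (Submodule.mem_top (x := y)))
  rw [map_add, h a ha, perp_fx_mv hg hx hb, add_zero]

theorem nd_mv (hn : Φ.Nd) (hg : g ∈ Φ.Iso) (h1 : g ^ m = 1) (hm : (m : F) ≠ 0) :
    (Φ.res (mv g)).Nd := by
  refine Φ.res_nd.2 fun x hx h => hn x fun y => ?_
  obtain ⟨a, ha, b, hb, rfl⟩ := Submodule.mem_sup.1
    ((compl_fx h1 hm).sup_eq_top.ge (Submodule.mem_top (x := y)))
  rw [map_add, h b hb, B_comm0 (perp_fx_mv hg ha hx), add_zero]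

theorem mem_mv_of_perp (hn : Φ.Nd) (hg : g ∈ Φ.Iso) (h1 : g ^ m = 1) (hm : (m : F) ≠ 0) {v : V}
    (h : ∀ w ∈ fx g, Φ.B v w = 0) : v ∈ mv g := by
  obtain ⟨a, ha, b, hb, rfl⟩ := Submodule.mem_sup.1
    ((compl_fx h1 hm).sup_eq_top.ge (Submodule.mem_top (x := v)))
  have : a = 0 := Φ.res_nd.1 (nd_fx hn hg h1 hm) a ha fun y hy => by
    have := h y hy
    rwa [map_add, LinearMap.add_apply, B_comm0 (perp_fx_mv hg hy hb), add_zero] at this
  rwa [this, zero_add]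

theorem mem_fx_of_perp (hn : Φ.Nd) (hg : g ∈ Φ.Iso) {v : V} (h : ∀ w ∈ mv g, Φ.B v w = 0) :
    v ∈ fx g := by
  refine mem_fx.2 (sub_eq_zero.1 (hn _ fun y => ?_))
  obtain ⟨y, rfl⟩ := g.surjective y
  have := h _ (mem_mv.2 ⟨y, rfl⟩)
  rw [map_sub] at this
  rw [map_sub, LinearMap.sub_apply, hg.1, ← neg_sub, this, neg_zero]

theorem le_of_dvd (hn : Φ.Nd) (hr : r.Prime) (h2 : 2 < P.j r) (h : r ∣ Nat.card Φ.Iso) :
    P.k.wt * P.j r ≤ finrank F V := by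
  obtain ⟨t, n, hT⟩ := exists_ty hn
  have h3 := ord_le (t := t) (n := n) (q := P.q) hr (hT.kd ▸ h2)
    (hT.ord ▸ Int.natCast_dvd_natCast.2 h)
  rw [hT.dim, Sca.j, ← hT.kd]
  exact (Nat.mul_le_mul_left _ h3).trans (wt_dim t n).1

theorem triv (hW : (Φ.res W).Nd) (hy : y ∈ Φ.Iso) (hs : Stb y W) (hr : r.Prime) (h2 : 2 < P.j r)
    {a : ℕ} (h1 : y ^ r ^ a = 1) (hd : finrank F W < P.k.wt * P.j r) : ∀ w ∈ W, y w = w := by
  obtain ⟨y', hy', e⟩ := exists_res hy hs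
  have h3 : ∀ (i : ℕ) (w : W), ((y' ^ i) w : V) = (y ^ i) w := fun i w => by
    induction i with
    | zero => rfl
    | succ i ih => rw [pow_succ', pow_succ', LinearEquiv.mul_apply, LinearEquiv.mul_apply, e, ih]
  have h4 : y' ^ r ^ a = 1 := LinearEquiv.ext fun w => Subtype.ext (by rw [h3, h1]; rfl)
  obtain ⟨i, -, hi⟩ := (Nat.dvd_prime_pow hr).1 (orderOf_dvd_of_pow_eq_one h4)
  rcases i with _ | i
  · intro w hw
    rw [← e ⟨w, hw⟩, orderOf_eq_one_iff.1 hi]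
    rfl
  · refine absurd (le_of_dvd hW hr h2 ?_) hd.not_ge
    exact (dvd_pow_self r i.succ_ne_zero).trans (hi ▸ Subgroup.orderOf_dvd_natCard _ hy')

theorem min_mv (hn : Φ.Nd) (hx : x ∈ Φ.Iso) (hr : r.Prime) (h2 : 2 < P.j r) (h1 : x ^ r = 1)
    (h0 : x ≠ 1) : P.k.wt * P.j r ≤ finrank F (mv x) := by
  by_contra hd
  have hm := P.cast_ne hr (lt_trans two_pos h2)
  have h3 := triv (a := 1) (nd_mv hn hx h1 hm) hx (stb_mv (Commute.refl x)) hr h2
    (by rwa [pow_one]) (not_le.1 hd)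
  refine h0 (LinearEquiv.ext fun v => sub_eq_zero.1 ?_)
  have h4 : x v - v ∈ mv x := mem_mv.2 ⟨v, rfl⟩
  exact Submodule.disjoint_def.1 (compl_fx h1 hm).disjoint _ (mem_fx.2 (h3 _ h4)) h4

omit [Finite F] in
theorem fminb_free (hr : r.Prime) (h1 : x ^ r = 1) (S : V → Prop) (hS : ∀ v, S v → S (x v))
    (h0 : ∀ v, S v → x v ≠ v) : r ∣ Nat.card {v // S v} := by
  classical
  have := Fintype.ofFinite {v // S v}
  have := Fact.mk hr
  let f : Function.End {v // S v} := fun v => ⟨x v, hS _ v.2⟩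
  have h2 : ∀ (n : ℕ) v, ((f ^ n) v).1 = (x ^ n) v := fun n => by
    induction n with
    | zero => exact fun _ => rfl
    | succ n ih => exact fun v => by rw [pow_succ, pow_succ]; exact ih (f v)
  have h3 := Equiv.Perm.card_fixedPoints_modEq (f := f) (p := r) (n := 1)
    (funext fun v => Subtype.ext (by rw [pow_one, h2, h1]; rfl))
  have : IsEmpty f.fixedPoints := ⟨fun v => h0 _ v.1.2 (congrArg Subtype.val v.2)⟩
  rw [Fintype.card_eq_zero (α := f.fixedPoints), Nat.modEq_zero_iff_dvd] at h3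
  rwa [Nat.card_eq_fintype_card]

theorem free_dvd (hx : x ∈ Φ.Iso) (hr : r.Prime) (h1 : x ^ r = 1) (h0 : ∀ v, x v = v → v = 0) :
    (r : ℤ) ∣ (Nat.card F : ℤ) ^ finrank F V - 1 ∧ r ∣ Φ.ns := by
  classical
  refine ⟨?_, fminb_free hr h1 _ (fun v h => ⟨x.map_ne_zero_iff.2 h.1, (hx.2 v).trans h.2⟩)
    fun v h e => h.1 (h0 v e)⟩
  have h2 := fminb_free hr h1 (fun v => ¬ v = 0) (fun v h => x.map_ne_zero_iff.2 h)
    fun v h e => h (h0 v e)
  have := Fintype.ofFinite V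
  rw [Nat.card_eq_fintype_card, Fintype.card_subtype_compl, Fintype.card_subtype_eq,
    ← Nat.card_eq_fintype_card] at h2
  have h3 := Int.natCast_dvd_natCast.2 h2
  rwa [Nat.cast_sub Nat.card_pos, Module.natCard_eq_pow_finrank (K := F), Nat.cast_pow,
    Nat.cast_one] at h3

theorem fminb_res (hx : x ∈ Φ.Iso) (hs : Stb x W) (hr : r.Prime) (h1 : x ^ r = 1)
    (h0 : ∀ w ∈ W, x w = w → w = 0) :
    (r : ℤ) ∣ (P.k.fc P.q : ℤ) ^ finrank F W - 1 ∧ r ∣ (Φ.res W).ns := by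
  obtain ⟨g, hg, h⟩ := exists_res hx hs
  have h2 : ∀ (n : ℕ) (w : W), ((g ^ n) w : V) = (x ^ n) w := fun n => by
    induction n with
    | zero => exact fun _ => rfl
    | succ n ih =>
      exact fun w => by rw [pow_succ, pow_succ, LinearEquiv.mul_apply, ih, h, LinearEquiv.mul_apply]
  rw [← P.card]
  exact free_dvd hg hr (LinearEquiv.ext fun w => Subtype.ext (by rw [h2, h1]; rfl))
    fun w e => Subtype.ext (h0 w w.2 ((h w).symm.trans (congrArg Subtype.val e)))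

theorem fpf_ty (hW : (Φ.res W).IsTy t m) (hx : x ∈ Φ.Iso) (hs : Stb x W) (hr : r.Prime)
    (h2 : 2 < P.j r) (h1 : x ^ r = 1) (h0 : ∀ w ∈ W, x w = w → w = 0) :
    P.j r ∣ m ∧ t ≠ .B ∧ (r : ℤ) ∣ t.sing m P.q := by
  obtain ⟨h3, h4⟩ := fminb_res hx hs hr h1 h0
  have h5 : (r : ℤ) ∣ t.sing m P.q := hW.ns ▸ Int.natCast_dvd_natCast.2 h4
  rw [hW.dim] at h3
  simp only [Sca.j] at h2 ⊢
  rw [← hW.kd] at h2 h3 ⊢
  exact ⟨(div_dim hr h2 h3 h5).1, (div_dim hr h2 h3 h5).2, h5⟩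

theorem no_fix (hn : Φ.Nd) (hx : x ∈ Φ.Iso) (hr : r.Prime) (h2 : 2 < P.j r) (h1 : x ^ r = 1)
    (h0 : x ≠ 1) {U : Submodule F V} (hU : Φ.Ti U) (h3 : 2 * finrank F U < P.k.wt * P.j r)
    (h4 : finrank F V < 2 * finrank F U + P.k.wt * P.j r) : ¬ Stb x U := fun hs => by
  have hm := P.cast_ne hr (by omega)
  have h5 : finrank F (U ⊓ mv x : Submodule F V) = 0 := by
    by_contra h
    have h6 := (fminb_res (W := U ⊓ mv x) hx
      (fun w hw => ⟨hs w hw.1, stb_mv (Commute.refl x) w hw.2⟩) hr h1 fun w hw e =>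
        Submodule.disjoint_def.1 (compl_fx h1 hm).disjoint w (mem_fx.2 e) hw.2).1
    have h7 : P.k.wt * P.j r ≤ _ := fc_ord h6 (Nat.pos_of_ne_zero h)
    have h8 := Submodule.finrank_mono (inf_le_left : U ⊓ mv x ≤ U)
    omega
  have h6 : U ≤ fx x := fun u hu => mem_fx.2 (sub_eq_zero.1 ((Submodule.eq_bot_iff _).1
    (Submodule.finrank_eq_zero.1 h5) _ ⟨sub_mem (hs u hu) hu, mem_mv.2 ⟨u, rfl⟩⟩))
  have h7 := (nd_fx hn hx h1 hm).two_dim (U := U.comap (fx x).subtype)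
    fun a ha b hb => hU.2 a ha b hb
  rw [(Submodule.comapSubtypeEquivOfLe h6).finrank_eq] at h7
  have h8 := min_mv hn hx hr h2 h1 h0
  have h9 := finrank_mv_fx x
  omega

end Frm

end Pool.Agent.Lib.MP_7d41f7_al
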