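import Pool.Agent.Lib.MP_7d41f7_al.C.AS

/-! The scalar data. -/

set_option autoImplicit false

namespace Pool.Agent.Lib.MP_7d41f7_al

variable {F : Type} [Field F] [Finite F] (P : Sca F)

namespace Sca

theorem σσ (a : F) : P.σ (P.σ a) = a := by
  by_cases h : P.k = .U
  · have := Fintype.ofFinite F
    have hc : Fintype.card F = P.q ^ 2 := by rw [← Nat.card_eq_fintype_card, P.card, h]; rfl
    rw [P.σU h, P.σU h, ← pow_mul, ← sq, ← hc, FiniteField.pow_card]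
  · rw [P.σN h, P.σN h]

omit [Finite F] in
theorem ε_sq : P.ε * P.ε = 1 := by
  rcases P.kind with h | h | h <;> simp [ε, h]

omit [Finite F] in
theorem σ_ε : P.σ P.ε = P.ε := by
  rcases P.kind with h | h | h <;> simp [ε, h]

omit [Finite F] in
theorem ε_ne : P.ε ≠ 0 := left_ne_zero_of_mul_eq_one P.ε_sq

omit [Finite F] in
theorem τ_add (a b : F) : P.τ (a + b) = P.τ a + P.τ b := by
  rcases P.kind with h | h | h <;> simp [τ, h]
  ring

omit [Finite F] in
theorem τ_zero : P.τ 0 = 0 := by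
  rcases P.kind with h | h | h <;> simp [τ, h]

omit [Finite F] in
theorem τ_neg (a : F) : P.τ (-a) = -P.τ a := by
  rcases P.kind with h | h | h <;> simp [τ, h]
  ring

theorem τ_sym (a : F) : P.τ (P.ε * P.σ a) = P.τ a := by
  rcases P.kind with h | h | h
  · rw [τ_U h, τ_U h, ε_U h, one_mul, σσ, add_comm]
  · rw [τ_S h, τ_S h]
  · rw [τ_O h, τ_O h, ε_O h, one_mul, σ_O h]

theorem τ_norm (c a : F) : P.τ (c * P.σ c * a) = c * P.σ c * P.τ a := by
  rcases P.kind with h | h | h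
  · rw [τ_U h, τ_U h, map_mul, map_mul, σσ]
    ring
  · rw [τ_S h, τ_S h, mul_zero]
  · rw [τ_O h, τ_O h]

theorem pp : ∃ p f : ℕ, p.Prime ∧ 0 < f ∧ P.q = p ^ f ∧ CharP F p := by
  have := Fintype.ofFinite F
  obtain ⟨p, hp, m, hp', hm⟩ := FiniteField.card' F
  rw [← Nat.card_eq_fintype_card, P.card] at hm
  have h1 : P.q ∣ P.k.fc P.q ∧ (P.q = 1 → P.k.fc P.q = 1) := by
    cases P.k <;> simp +contextual [Kd.fc]
  obtain ⟨f, -, e⟩ := (Nat.dvd_prime_pow hp').1 (hm ▸ h1.1)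
  refine ⟨p, f, hp', Nat.pos_of_ne_zero ?_, e, hp⟩
  rintro rfl
  exact (Nat.one_lt_pow m.ne_zero hp'.one_lt).ne' (hm ▸ h1.2 e)

theorem q2 : 2 ≤ P.q := by
  obtain ⟨p, f, hp, hf, e, -⟩ := P.pp
  exact e ▸ Nat.one_lt_pow hf.ne' hp.one_lt

theorem cast_ne {r : ℕ} (hr : r.Prime) (h : 0 < P.j r) : (r : F) ≠ 0 := by
  obtain ⟨p, f, hp, hf, e, _⟩ := P.pp
  rw [Ne, CharP.cast_eq_zero_iff F p, Nat.prime_dvd_prime_iff_eq hp hr]
  rintro rfl
  exact Ord.not_dvd_q hr h (e ▸ dvd_pow_self p hf.ne')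

theorem two_ne : (2 : F) ≠ 0 ↔ Odd P.q := by
  obtain ⟨p, f, hp, hf, e, _⟩ := P.pp
  rw [e, Nat.odd_pow_iff hf.ne', Ne, ← Nat.cast_ofNat, CharP.cast_eq_zero_iff F p,
    Nat.prime_dvd_prime_iff_eq hp Nat.prime_two]
  exact ⟨hp.odd_of_ne_two, fun h e => absurd (e ▸ h) (by decide)⟩

omit P in
theorem fparb_roots {q : ℕ} (hq : 2 ≤ q) (e : F) (H : AddSubgroup F)
    (h : ∀ a ∈ H, a ^ q = e * a) : Nat.card H ≤ q := by
  classical
  have := Fintype.ofFinite F
  have hl : (Polynomial.C e * Polynomial.X : Polynomial F).natDegree <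
      (Polynomial.X ^ q : Polynomial F).natDegree := by
    rw [Polynomial.natDegree_X_pow]
    exact (Polynomial.natDegree_C_mul_le _ _).trans_lt (by rw [Polynomial.natDegree_X]; omega)
  have hd := Polynomial.natDegree_sub_eq_left_of_natDegree_lt hl
  rw [Polynomial.natDegree_X_pow] at hd
  have h0 : (Polynomial.X ^ q - Polynomial.C e * Polynomial.X : Polynomial F) ≠ 0 :=
    Polynomial.ne_zero_of_natDegree_gt (n := 0) (by omega)
  rw [← hd, Nat.card_eq_fintype_card, Fintype.card_subtype]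
  refine Polynomial.card_le_degree_of_subset_roots fun a ha => (Polynomial.mem_roots h0).2 ?_
  simp [h a (Finset.mem_filter.1 ha).2]

theorem fparb_tr (h : P.k = .U) : Nat.card (AddMonoidHom.mk' P.τ P.τ_add).ker = P.q ∧
    ∀ a, P.σ a = a → ∃ c, P.τ c = a := by
  set T := AddMonoidHom.mk' P.τ P.τ_add with hT
  set R := (P.σ.toAddMonoidHom - AddMonoidHom.id F).ker with hR
  have hm : ∀ a, a ∈ R ↔ P.σ a = a := fun a => by simp [hR, sub_eq_zero]
  have h1 : Nat.card T.ker ≤ P.q := fparb_roots P.q2 (-1) _ fun a ha => by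
    have e : P.τ a = 0 := ha
    rw [τ_U h, P.σU h] at e
    linear_combination e
  have h2 : Nat.card R ≤ P.q := fparb_roots P.q2 1 _ fun a ha => by
    rw [← P.σU h, (hm a).1 ha, one_mul]
  have h3 : T.range ≤ R := by
    rintro _ ⟨a, rfl⟩
    refine (hm _).2 ?_
    change P.σ (P.τ a) = P.τ a
    rw [τ_U h, map_add, σσ, add_comm]
  have h4 := (AddSubgroup.card_le_of_le h3).trans h2
  have h5 := T.ker.card_mul_index
  rw [AddSubgroup.index_ker, P.card, h] at h5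
  change _ = P.q ^ 2 at h5
  have hq := P.q2
  refine ⟨le_antisymm h1 (by nlinarith), fun a ha => ?_⟩
  have h6 := AddSubgroup.eq_of_le_of_card_ge h3 (h2.trans (by nlinarith))
  exact (h6.ge ((hm a).2 ha) : a ∈ T.range)

theorem card_τ {c : F} (h : ∃ a, P.τ a = c) : Nat.card {a // P.τ a = c} = P.tk := by
  obtain ⟨a, rfl⟩ := h
  rcases P.kind with h | h | h
  · rw [tk_U h, ← (P.fparb_tr h).1]
    exact Nat.card_congr ((AddMonoidHom.mk' P.τ P.τ_add).fiberEquivKer a)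
  · have e := P.card
    rw [h] at e
    rw [tk_S h]
    exact (Nat.card_congr (Equiv.subtypeUnivEquiv fun b => by rw [τ_S h, τ_S h])).trans e
  · rw [tk_O h]
    simp [τ_O h]

variable {P}

theorem tr_surj (h : P.k = .U) {a : F} (ha : P.σ a = a) : ∃ c, P.τ c = a :=
  (P.fparb_tr h).2 a ha

omit [Finite F] in
theorem fparb_units (h : P.k = .U) : Nat.card Fˣ = (P.q + 1) * (P.q - 1) := by
  rw [Nat.card_units, P.card, h, ← Nat.sq_sub_sq, one_pow]
  rfl

theorem card_norm (h : P.k = .U) : Nat.card {c : F // c * P.σ c = 1} = P.q + 1 := by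
  have e := IsCyclic.card_powMonoidHom_ker Fˣ (P.q + 1)
  rw [fparb_units h, Nat.gcd_eq_right (Dvd.intro _ rfl)] at e
  rw [← e]
  have hm : ∀ u : (powMonoidHom (P.q + 1) : Fˣ →* Fˣ).ker, (u.1 : F) * P.σ u.1 = 1 := by
    intro u
    have e1 : u.1 ^ (P.q + 1) = 1 := u.2
    rw [P.σU h, ← pow_succ', ← Units.val_pow_eq_pow_val, e1, Units.val_one]
  refine (Nat.card_eq_of_bijective (fun u => (⟨u.1, hm u⟩ : {c : F // c * P.σ c = 1}))
    ⟨fun u v e => ?_, fun c => ?_⟩).symm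
  · exact Subtype.ext (Units.ext (congrArg Subtype.val e))
  · refine ⟨⟨Units.mk0 c.1 (left_ne_zero_of_mul_eq_one c.2), Units.ext ?_⟩, rfl⟩
    have e1 := c.2
    rw [P.σU h, ← pow_succ'] at e1
    simpa using e1

theorem norm_surj (h : P.k = .U) {a : F} (ha : P.σ a = a) : ∃ c, c * P.σ c = a := by
  rcases eq_or_ne a 0 with rfl | h0
  · exact ⟨0, zero_mul _⟩
  have hq := P.q2
  have e1 := IsCyclic.card_powMonoidHom_range Fˣ (P.q + 1)
  have e2 := IsCyclic.card_powMonoidHom_ker Fˣ (P.q - 1)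
  rw [fparb_units h, Nat.gcd_eq_right (Dvd.intro _ rfl), Nat.mul_div_cancel_left _ (by omega)] at e1
  rw [fparb_units h, Nat.gcd_eq_right (Dvd.intro_left _ rfl)] at e2
  have e3 : (powMonoidHom (P.q + 1) : Fˣ →* Fˣ).range = (powMonoidHom (P.q - 1)).ker := by
    refine Subgroup.eq_of_le_of_card_ge ?_ (e2.trans e1.symm).le
    rintro _ ⟨u, rfl⟩
    change (u ^ (P.q + 1)) ^ (P.q - 1) = 1
    rw [← pow_mul, ← fparb_units h, pow_card_eq_one']
  have e4 : Units.mk0 a h0 ∈ (powMonoidHom (P.q - 1) : Fˣ →* Fˣ).ker := by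
    refine Units.ext (mul_right_cancel₀ h0 ?_)
    change a ^ (P.q - 1) * a = 1 * a
    rw [← pow_succ, Nat.sub_add_cancel (by omega), ← P.σU h, ha, one_mul]
  obtain ⟨u, hu⟩ := e3.ge e4
  refine ⟨u, ?_⟩
  rw [P.σU h, ← pow_succ', ← Units.val_pow_eq_pow_val]
  exact congrArg Units.val hu

variable (P)

theorem norm_ord : ∃ m : ℕ, 0 < m ∧ (∀ c : F, c * P.σ c = 1 → c ^ m = 1) ∧
    ∀ r, r.Prime → r ∣ m → P.j r ≤ 2 := by
  by_cases h : P.k = .U
  · refine ⟨P.q + 1, by omega, fun c hc => by rwa [P.σU h, ← pow_succ'] at hc, fun r hr hd => ?_⟩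
    refine (Nat.le_of_dvd one_pos ((Ord.dvd_iff 1).1 ?_)).trans one_le_two
    rw [h]
    exact (Int.natCast_dvd_natCast.2 hd).trans ⟨-1, by simp [Kd.bs]; ring⟩
  · refine ⟨2, two_pos, fun c hc => by rwa [P.σN h, ← sq] at hc, fun r hr hd => ?_⟩
    by_contra hj
    exact Ord.ne_two (by omega : 1 < P.j r) ((Nat.prime_dvd_prime_iff_eq hr Nat.prime_two).1 hd)

end Sca

end Pool.Agent.Lib.MP_7d41f7_al
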