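import Pool.Agent.Lib.MP_7d41f7_al.C.FCnt
import Pool.Agent.Lib.MP_7d41f7_al.C.FAn

/-! Types, generation, similarity. -/

set_option autoImplicit false

namespace Pool.Agent.Lib.MP_7d41f7_al

open Module

variable {F V : Type} [Field F] [Finite F] {P : Sca F} [AddCommGroup V] [Module F V] [Finite V]
  {Φ : Frm P V}

namespace Frm

theorem ftya_step {e f : V} (hn : Φ.Nd) (h : Φ.Hyp e f) {t : Ty} {n : ℕ}
    (ht : (Φ.res (Φ.pl e f)).IsTy t n) : Φ.IsTy t (t.nx n) := by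
  have hc : Nat.card F = t.kd.fc P.q := by
    rw [ht.kd]
    exact P.card
  have htk : P.tk = t.kd.tk P.q := by rw [ht.kd]
  have hns : (Φ.ns : ℤ) = t.sing (t.nx n) P.q := by
    have h1 := h.ns_step
    rw [ht.ns, ht.dim, hc, htk, ← sing_step ht.pos] at h1
    exact add_right_cancel h1
  refine ⟨hn, ht.kd, ?_, hns, ?_, ?_, ht.odd⟩
  · rw [dim_step, ← ht.dim, h.finrank_pl]
  · rw [ord_step ht.pos, h.card_iso hn]
    push_cast
    rw [hns, ht.ord, ht.dim, hc, htk]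
  · rintro rfl
    exact Nat.succ_pos _

theorem exists_ty (hn : Φ.Nd) : ∃ t n, Φ.IsTy t n := by
  induction hd : finrank F V using Nat.strong_induction_on generalizing V with
  | _ d ih =>
    by_cases ha : ∀ v, Φ.Q v = 0 → v = 0
    · exact an_ty hn ha
    · obtain ⟨e, he⟩ := not_forall.1 ha
      obtain ⟨he, h0⟩ := Classical.not_imp.1 he
      obtain ⟨f, h⟩ := hn.partner' he h0
      obtain ⟨t, n, ht⟩ := ih _ (by have := h.finrank_pl; omega) (h.nd_pl hn) rfl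
      exact ⟨t, _, ftya_step hn h ht⟩

omit [Finite F] in
theorem ftyb_mv {e f : V} (h : Φ.Hyp e f) {g : V ≃ₗ[F] V} {a : Φ.pl e f ≃ₗ[F] Φ.pl e f}
    (h1 : g e = e) (h2 : g f = f) (h3 : ∀ x : Φ.pl e f, g x = a x) :
    finrank F (mv g) ≤ finrank F (mv a) := by
  have : Module.Finite F V := Module.Finite.of_finite
  rw [← Submodule.finrank_map_subtype_eq]
  refine Submodule.finrank_mono fun v hv => ?_
  obtain ⟨w, rfl⟩ := mem_mv.1 hv
  refine ⟨_, mem_mv.2 ⟨⟨_, h.dec w⟩, rfl⟩, ?_⟩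
  rw [Submodule.subtype_apply, Submodule.coe_sub, ← h3]
  simp only [map_sub, map_smul, h1, h2]
  abel

theorem ftyb_le (n : ℕ) : ∀ (V : Type) [AddCommGroup V] [Module F V] [Finite V] (Φ : Frm P V),
    finrank F V = n → Φ.Nd → Φ.Iso ≤ Φ.Sm := by
  induction n using Nat.strong_induction_on with
  | _ n ih =>
  intro V _ _ _ Φ hd hn g hg
  have : Module.Finite F V := Module.Finite.of_finite
  by_cases h2 : n ≤ 2
  · exact Subgroup.subset_closure ⟨hg, (Submodule.finrank_le _).trans (hd ▸ h2)⟩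
  obtain ⟨e, h0, he⟩ := exists_sing (Φ := Φ) (by omega)
  obtain ⟨f, h⟩ := hn.partner' he h0
  obtain ⟨s, hs, h1, h3⟩ := trans_hyp hn (h.map hg) h
  obtain ⟨φ, -, hφ, hr⟩ := h.ext
  obtain ⟨a, ha⟩ := hr (s * g) (mul_mem (Sm_le hs) hg) h1 h3
  have key : ∀ b (hb : b ∈ (Φ.res (Φ.pl e f)).Sm), φ ⟨b, Sm_le hb⟩ ∈ Φ.Sm := by
    intro b hb
    induction hb using Subgroup.closure_induction with
    | mem x hx =>
      obtain ⟨p1, p2, p3, p4⟩ := hφ ⟨x, hx.1⟩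
      exact Subgroup.subset_closure ⟨p1, (ftyb_mv h p2 p3 p4).trans hx.2⟩
    | one => exact (map_one φ).symm ▸ one_mem Φ.Sm
    | mul x y hx hy ihx ihy =>
      exact (map_mul φ ⟨x, Sm_le hx⟩ ⟨y, Sm_le hy⟩).symm ▸ mul_mem ihx ihy
    | inv x hx ihx => exact (map_inv φ ⟨x, Sm_le hx⟩).symm ▸ inv_mem ihx
  have h4 := key a (ih _ (by have := h.finrank_pl; omega) _ _ rfl (h.nd_pl hn) a.2)
  exact (Subgroup.mul_mem_cancel_left _ hs).1 (ha ▸ h4)

theorem le_Sm (hn : Φ.Nd) : Φ.Iso ≤ Φ.Sm := ftyb_le _ V Φ rfl hn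

theorem exists_ti (hn : Φ.Nd) {k : ℕ} (hk : 2 * k + 1 ≤ finrank F V) :
    ∃ U : Submodule F V, Φ.Ti U ∧ finrank F U = k := by
  induction k generalizing V with
  | zero =>
    refine ⟨⊥, ⟨fun x hx => ?_, fun x hx y _ => ?_⟩, finrank_bot F V⟩
    · rw [(Submodule.mem_bot F).1 hx, Q_zero]
    · rw [(Submodule.mem_bot F).1 hx, map_zero, LinearMap.zero_apply]
  | succ k ih =>
    obtain ⟨e, h0, he⟩ := exists_sing (Φ := Φ) (by omega)
    obtain ⟨f, h⟩ := hn.partner' he h0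
    obtain ⟨U, hU, hd⟩ := ih (h.nd_pl hn) (by have := h.finrank_pl; omega)
    have key : ∀ x ∈ Submodule.span F {e} ⊔ U.map (Φ.pl e f).subtype,
        ∃ a : F, ∃ u ∈ U, x = a • e + (0 : F) • f + (u : V) := by
      intro x hx
      obtain ⟨y, hy, z, ⟨u, hu, rfl⟩, rfl⟩ := Submodule.mem_sup.1 hx
      obtain ⟨a, rfl⟩ := Submodule.mem_span_singleton.1 hy
      exact ⟨a, u, hu, by simp⟩
    refine ⟨Submodule.span F {e} ⊔ U.map (Φ.pl e f).subtype, ⟨fun x hx => ?_, fun x hx y hy => ?_⟩,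
      ?_⟩
    · obtain ⟨a, u, hu, rfl⟩ := key x hx
      rw [h.Q_dec a 0 u.2, map_zero, mul_zero, P.τ_zero, zero_add]
      exact hU.1 u hu
    · obtain ⟨a, u, hu, rfl⟩ := key x hx
      obtain ⟨b, w, hw, rfl⟩ := key y hy
      rw [h.B_dec a 0 b 0 u.2 w.2, map_zero, mul_zero, zero_mul, mul_zero, zero_add, zero_add]
      exact hU.2 u hu w hw
    · have hdis : Disjoint (U.map (Φ.pl e f).subtype) (Submodule.span F {e}) := by
        rw [Submodule.disjoint_span_singleton' h0]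
        rintro ⟨u, -, hu⟩
        have h1 : Φ.B (u : V) f = 0 := u.2.2
        rw [show (u : V) = e from hu, h.ef] at h1
        exact one_ne_zero h1
      have h1 := Submodule.finrank_sup_add_finrank_inf_eq (Submodule.span F {e})
        (U.map (Φ.pl e f).subtype)
      rw [hdis.symm.eq_bot, finrank_bot, finrank_span_singleton h0,
        Submodule.finrank_map_subtype_eq, hd] at h1
      omega

omit [Finite F] in
theorem ftyb_ns : Φ.ns = 0 ↔ ∀ v, Φ.Q v = 0 → v = 0 := by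
  rw [ns, Finite.card_eq_zero_iff]
  exact ⟨fun h v hv => by_contra fun h0 => h.false ⟨v, h0, hv⟩,
    fun h => ⟨fun v => v.2.1 (h _ v.2.2)⟩⟩

theorem ftyb_hyp (hn : Φ.Nd) (h : Φ.ns ≠ 0) : ∃ e f, Φ.Hyp e f := by
  rw [Ne, ftyb_ns] at h
  push Not at h
  obtain ⟨e, he, h0⟩ := h
  exact ⟨e, hn.partner' he h0⟩

theorem ftyb_sim (h : P.k = .O) (n : ℕ) : ∀ (V W : Type) [AddCommGroup V] [Module F V] [Finite V]
    [AddCommGroup W] [Module F W] [Finite W] (Φ : Frm P V) (Ψ : Frm P W), finrank F V = n →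
    Φ.Nd → Ψ.Nd → finrank F V = finrank F W → Φ.ns = Ψ.ns →
    ∃ (c : F) (g : V ≃ₗ[F] W), c ≠ 0 ∧ ∀ x, Ψ.Q (g x) = c * Φ.Q x := by
  induction n using Nat.strong_induction_on with
  | _ n ih =>
  intro V W _ _ _ _ _ _ Φ Ψ hV hn hn' hd hs
  by_cases h0 : Φ.ns = 0
  · exact an_sim h (ftyb_ns.1 h0) (ftyb_ns.1 (hs ▸ h0)) hd
  obtain ⟨e, f, h1⟩ := ftyb_hyp hn h0
  obtain ⟨e', f', h2⟩ := ftyb_hyp hn' (hs ▸ h0)
  have d1 := h1.finrank_pl
  have d2 := h2.finrank_pl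
  have d3 : finrank F (Φ.pl e f) = finrank F (Ψ.pl e' f') := by omega
  have s1 := h1.ns_step
  have s2 := h2.ns_step
  rw [hs, d3, s2, add_right_inj, mul_right_inj' (Nat.cast_ne_zero.2 Nat.card_pos.ne'),
    add_left_inj, Nat.cast_inj] at s1
  obtain ⟨c, g, hc, hg⟩ :=
    ih _ (by omega) _ _ _ _ rfl (h1.nd_pl hn) (h2.nd_pl hn') d3 s1.symm
  obtain ⟨φ, hφ⟩ := h1.equiv
  obtain ⟨ψ, hψ⟩ := h2.equiv
  refine ⟨c, φ.symm ≪≫ₗ (LinearEquiv.smulOfNeZero F F c hc).prodCongr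
    ((LinearEquiv.refl F F).prodCongr g) ≪≫ₗ ψ, hc, fun x => ?_⟩
  obtain ⟨⟨a, b, y⟩, rfl⟩ := φ.surjective x
  rw [LinearEquiv.trans_apply, LinearEquiv.trans_apply, LinearEquiv.symm_apply_apply]
  change Ψ.Q (ψ (c * a, b, g y)) = _
  rw [hφ, hψ, h1.Q_dec _ _ y.2, h2.Q_dec _ _ (g y).2, Sca.τ_O h, Sca.τ_O h]
  have := hg y
  rw [res_Q, res_Q] at this
  rw [this]
  ring

theorem similar (h : P.k = .O) {W : Type} [AddCommGroup W] [Module F W] [Finite W] {Ψ : Frm P W}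
    (hn : Φ.Nd) (hn' : Ψ.Nd) (hd : finrank F V = finrank F W) (hs : Φ.ns = Ψ.ns) :
    ∃ (c : F) (g : V ≃ₗ[F] W), c ≠ 0 ∧ ∀ x, Ψ.Q (g x) = c * Φ.Q x :=
  ftyb_sim h _ V W Φ Ψ rfl hn hn' hd hs

end Frm

end Pool.Agent.Lib.MP_7d41f7_al
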