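import Pool.Agent.Lib.MP_7d41f7_al.C.FBas

/-! Transitivity on hyperbolic pairs. -/

set_option autoImplicit false

namespace Pool.Agent.Lib.MP_7d41f7_al

open Module

variable {F V : Type} [Field F] [Finite F] {P : Sca F} [AddCommGroup V] [Module F V] [Finite V]
  {Φ : Frm P V}

namespace Frm

variable {e f e' f' : V}

omit [Finite F] [Finite V] in
theorem fwita_rank {g : V ≃ₗ[F] V} (u v : V) (h : ∀ x, ∃ a b : F, g x - x = a • u + b • v) :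
    finrank F (mv g) ≤ 2 := by
  classical
  have h1 : mv g ≤ Submodule.span F (({u, v} : Finset V) : Set V) := fun w hw => by
    obtain ⟨x, rfl⟩ := mem_mv.1 hw
    obtain ⟨a, b, h2⟩ := h x
    rw [Finset.coe_pair, Submodule.mem_span_pair]
    exact ⟨a, b, h2.symm⟩
  exact (Submodule.finrank_mono h1).trans
    ((finrank_span_finset_le_card _).trans Finset.card_le_two)

theorem Hyp.move (hn : Φ.Nd) (h : Φ.Hyp e f) (h' : Φ.Hyp e' f') (hp : Φ.pl e' f' = Φ.pl e f) :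
    ∃ g ∈ Φ.Iso, g e = e' ∧ g f = f' ∧ (∀ x ∈ Φ.pl e f, g x = x) ∧ finrank F (mv g) ≤ 2 := by
  obtain ⟨L, hL⟩ : ∃ L : V →ₗ[F] V,
      ∀ x, L x = x + Φ.B x f • (e' - e) + (P.ε * Φ.B x e) • (f' - f) :=
    ⟨LinearMap.id + (Φ.B.flip f).smulRight (e' - e) + (P.ε • Φ.B.flip e).smulRight (f' - f),
      fun _ => rfl⟩
  have h1 : L e = e' := by rw [hL, h.ef, h.ee]; simp
  have h2 : L f = f' := by rw [hL, h.ff, h.fe, P.ε_sq]; simp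
  have h3 : ∀ x ∈ Φ.pl e f, L x = x := fun x hx => by
    rw [hL, (Φ.mem_pl.1 hx).1, (Φ.mem_pl.1 hx).2]; simp
  obtain ⟨g, hg, h4⟩ := h.mk_iso hn h' L h1 h2 (fun x hx => by rw [h3 x hx, hp]; exact ⟨hx, rfl⟩)
    fun x hx y hy => by rw [h3 x hx, h3 y hy]
  exact ⟨g, hg, (h4 e).trans h1, (h4 f).trans h2, fun x hx => (h4 x).trans (h3 x hx),
    fwita_rank (e' - e) (f' - f) fun x => ⟨Φ.B x f, P.ε * Φ.B x e, by rw [h4, hL]; abel⟩⟩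

theorem Hyp.eich (hn : Φ.Nd) (h : Φ.Hyp e f) (h' : Φ.Hyp e f') :
    ∃ g ∈ Φ.Iso, g e = e ∧ g f = f' ∧ finrank F (mv g) ≤ 2 := by
  obtain ⟨L, hL⟩ : ∃ L : V →ₗ[F] V, ∀ x, L x = x + (P.ε * Φ.B x e) • (f' - f) +
      (-(Φ.B x f' - Φ.B x f - Φ.B f f' * (P.ε * Φ.B x e))) • e :=
    ⟨LinearMap.id + (P.ε • Φ.B.flip e).smulRight (f' - f) +
      (-(Φ.B.flip f' - Φ.B.flip f - Φ.B f f' • P.ε • Φ.B.flip e)).smulRight e, fun _ => rfl⟩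
  have h1 : L e = e := by rw [hL, h.ef, h.ee, h'.ef]; simp
  have h2 : L f = f' := by rw [hL, h.ff, h.fe, P.ε_sq]; simp
  have h3 : ∀ x ∈ Φ.pl e f, L x = x + (-Φ.B x f') • e := fun x hx => by
    rw [hL, (Φ.mem_pl.1 hx).1, (Φ.mem_pl.1 hx).2]; simp
  refine (h.mk_iso hn h' L h1 h2 (fun x hx => ?_) fun x hx y hy => ?_).elim fun g ⟨hg, h4⟩ =>
    ⟨g, hg, (h4 e).trans h1, (h4 f).trans h2, fwita_rank (f' - f) e fun x =>
      ⟨P.ε * Φ.B x e, -(Φ.B x f' - Φ.B x f - Φ.B f f' * (P.ε * Φ.B x e)), by rw [h4, hL]; abel⟩⟩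
  · have h5 := (Φ.mem_pl.1 hx).1
    rw [h3 x hx, Q_add0 (by rw [B_smul, h5, mul_zero]), Φ.smul, h.qe, mul_zero, add_zero, mem_pl,
      map_add, LinearMap.add_apply, LinearMap.add_apply, smul_B, smul_B, h5, h.ee, h'.ef]
    simp
  · rw [h3 x hx, h3 y hy, map_add, map_add, LinearMap.add_apply, LinearMap.add_apply, B_smul,
      B_smul, smul_B, smul_B, (Φ.mem_pl.1 hx).1, B_comm0 (Φ.mem_pl.1 hy).1, h.ee]
    simp

theorem fwitb_one (hn : Φ.Nd) (he : Φ.Q e = 0) (he' : Φ.Q e' = 0) (h : Φ.B e e' ≠ 0) :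
    ∃ g ∈ Φ.Sm, g e = e' := by
  obtain ⟨c, hc, h1⟩ := hyp_scale he he' h
  obtain ⟨c', hc', h2⟩ := hyp_scale he' he fun h0 => h (B_comm0 h0)
  obtain ⟨g, hg, h3, -, -, h4⟩ := h1.move hn h2 (Submodule.ext fun x => by
    rw [mem_pl, mem_pl, B_smul, B_smul, mul_eq_zero, mul_eq_zero, map_eq_zero P.σ,
      map_eq_zero P.σ, or_iff_right hc, or_iff_right hc', and_comm])
  exact ⟨g, Subgroup.subset_closure ⟨hg, h4⟩, h3⟩

theorem trans_vec (hn : Φ.Nd) (he : Φ.Q e = 0) (h0 : e ≠ 0) (he' : Φ.Q e' = 0) (h0' : e' ≠ 0) :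
    ∃ g ∈ Φ.Sm, g e = e' := by
  by_cases h : Φ.B e e' = 0
  swap
  · exact fwitb_one hn he he' h
  obtain ⟨w, h1, h2⟩ : ∃ w, Φ.B e w ≠ 0 ∧ Φ.B e' w ≠ 0 := by
    obtain ⟨w₁, h1⟩ := not_forall.1 fun k => h0 (hn e k)
    obtain ⟨w₂, h2⟩ := not_forall.1 fun k => h0' (hn e' k)
    by_cases h3 : Φ.B e' w₁ = 0
    · by_cases h4 : Φ.B e w₂ = 0
      · exact ⟨w₁ + w₂, by rwa [map_add, h4, add_zero], by rwa [map_add, h3, zero_add]⟩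
      · exact ⟨w₂, h4, h2⟩
    · exact ⟨w₁, h1, h3⟩
  obtain ⟨w', h3, h4⟩ : ∃ w', Φ.B e w' = 1 ∧ Φ.B e' w' ≠ 0 :=
    ⟨P.σ (Φ.B e w)⁻¹ • w, by rw [B_smul, P.σσ, inv_mul_cancel₀ h1], by
      rw [B_smul, P.σσ]
      exact mul_ne_zero (inv_ne_zero h1) h2⟩
  obtain ⟨c, hc⟩ := Φ.tr w'
  have h5 : Φ.Q (w' + (-c) • e) = 0 := by
    rw [Φ.add, Φ.smul, he, mul_zero, add_zero, B_smul, Φ.sym e w', h3, map_one, mul_one, mul_comm,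
      P.τ_sym, P.τ_neg, hc, add_neg_cancel]
  obtain ⟨g, hg, h6⟩ := fwitb_one hn he h5 (by
    rw [map_add, B_smul, B_self he, mul_zero, add_zero, h3]
    exact one_ne_zero)
  obtain ⟨g', hg', h7⟩ := fwitb_one hn h5 he' fun k => h4 (by
    have h8 := B_comm0 k
    rwa [map_add, B_smul, B_comm0 h, mul_zero, add_zero] at h8)
  exact ⟨g' * g, mul_mem hg' hg, by rw [LinearEquiv.mul_apply, h6, h7]⟩

theorem trans_hyp (hn : Φ.Nd) (h : Φ.Hyp e f) (h' : Φ.Hyp e' f') :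
    ∃ g ∈ Φ.Sm, g e = e' ∧ g f = f' := by
  obtain ⟨g, hg, rfl⟩ := trans_vec hn h.qe h.ne h'.qe h'.ne
  obtain ⟨g', hg', h1, h2, h3⟩ := (h.map (Sm_le hg)).eich hn h'
  exact ⟨g' * g, mul_mem (Subgroup.subset_closure ⟨hg', h3⟩) hg, h1, h2⟩

theorem Hyp.ext (h : Φ.Hyp e f) : ∃ φ : (Φ.res (Φ.pl e f)).Iso →* (V ≃ₗ[F] V),
    Function.Injective φ ∧ (∀ a, φ a ∈ Φ.Iso ∧ φ a e = e ∧ φ a f = f ∧
      ∀ x : Φ.pl e f, φ a x = a.1 x) ∧ ∀ g ∈ Φ.Iso, g e = e → g f = f → g ∈ φ.range := by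
  obtain ⟨ψ, hψ⟩ := h.equiv
  let θ : (Φ.res (Φ.pl e f)).Iso → V ≃ₗ[F] V := fun a => ψ.symm ≪≫ₗ
    ((LinearEquiv.refl F F).prodCongr ((LinearEquiv.refl F F).prodCongr a.1) ≪≫ₗ ψ)
  have h1 : ∀ a s t x, θ a (ψ (s, t, x)) = ψ (s, t, a.1 x) := fun a s t x => by simp [θ]
  have h2 : ∀ {g g' : V ≃ₗ[F] V}, (∀ s t x, g (ψ (s, t, x)) = g' (ψ (s, t, x))) → g = g' :=
    fun k => LinearEquiv.ext fun v => by
      obtain ⟨⟨s, t, x⟩, rfl⟩ := ψ.surjective v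
      exact k s t x
  have h3 : ∀ a (x : Φ.pl e f), θ a x = a.1 x := fun a x => by simpa [hψ] using h1 a 0 0 x
  refine ⟨MonoidHom.mk' θ fun a b => h2 fun s t x => by
    rw [LinearEquiv.mul_apply, h1, h1, h1]
    rfl, fun a b k => ?_, fun a => ⟨⟨fun v w => ?_, fun v => ?_⟩, ?_, ?_, h3 a⟩,
    fun g hg k1 k2 => ?_⟩
  · exact Subtype.ext (LinearEquiv.ext fun x => Subtype.ext
      ((h3 a x).symm.trans ((LinearEquiv.congr_fun k _).trans (h3 b x))))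
  · obtain ⟨⟨s, t, x⟩, rfl⟩ := ψ.surjective v
    obtain ⟨⟨s', t', x'⟩, rfl⟩ := ψ.surjective w
    rw [MonoidHom.mk'_apply, h1, h1, hψ, hψ, hψ, hψ, h.B_dec _ _ _ _ (a.1 x).2 (a.1 x').2,
      h.B_dec _ _ _ _ x.2 x'.2]
    exact congrArg _ (a.2.1 x x')
  · obtain ⟨⟨s, t, x⟩, rfl⟩ := ψ.surjective v
    rw [MonoidHom.mk'_apply, h1, hψ, hψ, h.Q_dec _ _ (a.1 x).2, h.Q_dec _ _ x.2]
    exact congrArg _ (a.2.2 x)
  · simpa [hψ] using h1 a 1 0 0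
  · simpa [hψ] using h1 a 0 1 0
  · obtain ⟨g', hg', k3⟩ := exists_res hg (W := Φ.pl e f) fun w hw =>
      ⟨k1 ▸ (hg.1 w e).trans hw.1, k2 ▸ (hg.1 w f).trans hw.2⟩
    refine ⟨⟨g', hg'⟩, h2 fun s t x => ?_⟩
    rw [MonoidHom.mk'_apply, h1, hψ, hψ, map_add, map_add, map_smul, map_smul, k1, k2, k3]

end Frm

end Pool.Agent.Lib.MP_7d41f7_al
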