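import Pool.Agent.Lib.MP_7d41f7_al.L.KDef

/-! The finite classical groups and the list of the classification. -/

set_option autoImplicit false

namespace Pool.Agent.Lib.MP_7d41f7_al

open Finset

/-- The quotient of a group by its centre. -/
abbrev PQ (Γ : Type) [Group Γ] : Type := Γ ⧸ Subgroup.center Γ

/-- The orthogonal group of a quadratic form. -/
def orth {F V : Type} [Field F] [AddCommGroup V] [Module F V] (Q : QuadraticForm F V) :
    Subgroup (V ≃ₗ[F] V) where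
  carrier := {g | ∀ v, Q (g v) = Q v}
  one_mem' _ := rfl
  mul_mem' ha hb v := (ha _).trans (hb v)
  inv_mem' {g} hg v := (hg _).symm.trans (congrArg Q (g.apply_symm_apply v))

/-- `S` is isomorphic to the quotient of `Γ` by its centre. -/
def IsPQ (S Γ : Type) [Group S] [Group Γ] : Prop := Nonempty (S ≃* PQ Γ)

/-- `S` is isomorphic to the projective symplectic group `PSp(2 n, q)`. -/
def IsSp (S : Type) [Group S] (n q : ℕ) : Prop :=
  ∃ (F : Type) (_ : Field F) (_ : Finite F), Nat.card F = q ∧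
    IsPQ S (Matrix.symplecticGroup (Fin n) F)

/-- `S` is isomorphic to the projective special unitary group `PSU(n, q)`. -/
def IsSU (S : Type) [Group S] (n q : ℕ) : Prop :=
  ∃ (F : Type) (_ : Field F) (_ : Finite F) (_ : StarRing F), Nat.card F = q ^ 2 ∧
    (∃ a : F, star a ≠ a) ∧ IsPQ S (Matrix.specialUnitaryGroup (Fin n) F)

/-- The polar form of `Q` is nondegenerate and `S` is isomorphic to `PΩ(Q)`, the commutator
subgroup of the orthogonal group modulo its centre. -/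
def OmQ (S : Type) [Group S] {F V : Type} [Field F] [AddCommGroup V] [Module F V]
    (Q : QuadraticForm F V) : Prop :=
  Q.polarBilin.Nondegenerate ∧ IsPQ S (commutator (orth Q))

/-- `S` is isomorphic to `PΩ(Q)` for a quadratic form `Q` in `n` variables over the field with `q`
elements whose polar form is nondegenerate. -/
def IsOm (S : Type) [Group S] (n q : ℕ) : Prop :=
  ∃ (F : Type) (_ : Field F) (_ : Finite F) (Q : QuadraticForm F (Fin n → F)), Nat.card F = q ∧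
    OmQ S Q

/-- The order formula of `PSU(m, u)`. -/
def OrdU (m : ℕ) (u h : ℤ) : Prop :=
  h * Int.gcd m (u + 1) = u ^ (m * (m - 1) / 2) * ∏ i ∈ Icc 2 m, (u ^ i - (-1) ^ i)

/-- The order formula of `PSp(2 m, u)` and `Ω(2 m + 1, u)`. -/
def OrdB (m : ℕ) (u h : ℤ) : Prop :=
  h * Int.gcd 2 (u - 1) = u ^ (m * m) * ∏ i ∈ Icc 1 m, (u ^ (2 * i) - 1)

/-- The order formula of `PΩ^ε(2 m, u)`. -/
def OrdD (ε : ℤ) (m : ℕ) (u h : ℤ) : Prop :=
  h * Int.gcd 4 (u ^ m - ε) = u ^ (m * (m - 1)) * (u ^ m - ε) * ∏ i ∈ Icc 1 (m - 1), (u ^ (2 * i) - 1)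

/-- The order formulas of the exceptional groups of Lie type. -/
def ExcOrd (u h : ℤ) : Prop :=
  h = u ^ 6 * (u ^ 6 - 1) * (u ^ 2 - 1) ∨
  h = u ^ 24 * (u ^ 12 - 1) * (u ^ 8 - 1) * (u ^ 6 - 1) * (u ^ 2 - 1) ∨
  h * Int.gcd 3 (u - 1) = u ^ 36 * (u ^ 12 - 1) * (u ^ 9 - 1) * (u ^ 8 - 1) * (u ^ 6 - 1) *
    (u ^ 5 - 1) * (u ^ 2 - 1) ∨
  h * Int.gcd 3 (u + 1) = u ^ 36 * (u ^ 12 - 1) * (u ^ 9 + 1) * (u ^ 8 - 1) * (u ^ 6 - 1) *
    (u ^ 5 + 1) * (u ^ 2 - 1) ∨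
  h * Int.gcd 2 (u - 1) = u ^ 63 * (u ^ 18 - 1) * (u ^ 14 - 1) * (u ^ 12 - 1) * (u ^ 10 - 1) *
    (u ^ 8 - 1) * (u ^ 6 - 1) * (u ^ 2 - 1) ∨
  h = u ^ 120 * (u ^ 30 - 1) * (u ^ 24 - 1) * (u ^ 20 - 1) * (u ^ 18 - 1) * (u ^ 14 - 1) *
    (u ^ 12 - 1) * (u ^ 8 - 1) * (u ^ 2 - 1) ∨
  h = u ^ 12 * (u ^ 8 + u ^ 4 + 1) * (u ^ 6 - 1) * (u ^ 2 - 1) ∨
  h = u ^ 2 * (u ^ 2 + 1) * (u - 1) ∨
  h = u ^ 3 * (u ^ 3 + 1) * (u - 1) ∨
  h = u ^ 12 * (u ^ 6 + 1) * (u ^ 4 - 1) * (u ^ 3 + 1) * (u - 1)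

/-- `H` is on the list of the classification of finite simple groups: it is isomorphic to an
alternating group or to a projective special linear group, or isomorphic to a unitary, symplectic
or orthogonal group and of the order given by the formula for it, or its order is that of an
exceptional group of Lie type, of a sporadic group or of the Tits group. -/
def OnList (H : Type) [Group H] : Prop :=
  (∃ m : ℕ, Nonempty (H ≃* alternatingGroup (Fin m))) ∨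
  (∃ (m : ℕ) (K : Type) (_ : Field K) (_ : Finite K),
    Nonempty (H ≃* Matrix.ProjectiveSpecialLinearGroup (Fin m) K)) ∨
  (∃ m u : ℕ, 3 ≤ m ∧ IsSU H m u ∧ OrdU m u (Nat.card H)) ∨
  (∃ m u : ℕ, 2 ≤ m ∧ (IsSp H m u ∨ IsOm H (2 * m + 1) u) ∧ OrdB m u (Nat.card H)) ∨
  (∃ m u : ℕ, 4 ≤ m ∧ IsOm H (2 * m) u ∧
    (OrdD 1 m u (Nat.card H) ∨ OrdD (-1) m u (Nat.card H))) ∨
  (∃ u : ℕ, IsPrimePow u ∧ ExcOrd u (Nat.card H)) ∨ Nat.card H ∈ sporOrd

end Pool.Agent.Lib.MP_7d41f7_al
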