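import Pool.Agent.Lib.MP_7d41f7_al.C.XDefs
import Pool.Agent.Lib.MP_7d41f7_al.L.SPerm
import Pool.Agent.Lib.MP_7d41f7_al.Dz

/-! Restriction of a character of defect zero to a normal subgroup with abelian quotient. -/

set_option autoImplicit false

namespace Pool.Agent.Lib.MP_7d41f7_al

open Finset Subgroup Pool.Agent.Lib.MP_b6945b_al

variable {G : Type} [Group G] [Fintype G]

theorem cliff_sq_aux (J : IrrData G) {f : G → ℂ} (hf : IsCF f) {m : Fin J.n → ℕ}
    (hm : ∀ j, mlt J f j = m j) :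
    ∑ c, f c⁻¹ * f c = Fintype.card G * ((∑ j, m j ^ 2 : ℕ) : ℂ) := by
  have hG : (Fintype.card G : ℂ) ≠ 0 := Nat.cast_ne_zero.2 Fintype.card_ne_zero
  have h : ∀ c, f c⁻¹ * f c = ∑ j, m j * (J.χ j c⁻¹ * f c) := fun c => by
    rw [expand J hf c⁻¹, sum_mul]
    exact sum_congr rfl fun j _ => by rw [hm, mul_assoc]
  simp only [h]
  rw [sum_comm, Nat.cast_sum, mul_sum]
  refine sum_congr rfl fun j _ => ?_
  rw [← mul_sum, (div_eq_iff hG).1 (hm j)]
  push_cast
  ring

/-- The sum of the squares counts the linear characters of the quotient that fix the character. -/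
theorem cliff_sq (M : Subgroup G) [M.Normal] [Fintype M] (hc : commutator G ≤ M) (I : IrrData G)
    (J : IrrData M) (i : Fin I.n) {m : Fin J.n → ℕ}
    (hm : ∀ j, mlt J (res M (I.χ i)) j = m j) : ∑ j, m j ^ 2 ∣ M.index := by
  classical
  let _ : CommGroup (G ⧸ M) := { QuotientGroup.Quotient.group M with
    mul_comm := (Normal.quotient_commutative_iff_commutator_le.2 hc).is_comm.comm }
  let q : G → Additive (G ⧸ M) := fun g => Additive.ofMul (g : G ⧸ M)
  let S : Subgroup (AddChar (Additive (G ⧸ M)) ℂ) :=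
    { carrier := {ψ | ∀ g, ψ (q g) * I.χ i g = I.χ i g}
      one_mem' := fun g => one_mul _
      mul_mem' := fun {ψ φ} h1 h2 g => by rw [AddChar.mul_apply, mul_assoc, h2, h1]
      inv_mem' := fun {ψ} h g => by
        rw [AddChar.inv_apply, ← h g, ← mul_assoc, ← AddChar.map_add_eq_mul, neg_add_cancel,
          AddChar.map_zero_eq_one, one_mul, h g] }
  have hQ : Fintype.card (Additive (G ⧸ M)) = M.index := by
    rw [← Nat.card_eq_fintype_card]
    rfl
  have h1 : ∀ ψ : AddChar (Additive (G ⧸ M)) ℂ, ∑ g, ψ (q g) * (I.χ i g⁻¹ * I.χ i g) =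
      if ψ ∈ S then (Fintype.card G : ℂ) else 0 := fun ψ => by
    obtain ⟨k, hk⟩ := loce_twist I ⟨⟨fun g => ψ (q g), ψ.map_zero_eq_one⟩,
      fun g h => ψ.map_add_eq_mul (q g) (q h)⟩ i
    have e : k = i ↔ ψ ∈ S := ⟨fun e g => by rw [← e]; exact e ▸ (hk g).symm,
      fun e => I.χ_injective (funext fun g => (hk g).trans (e g))⟩
    simp only [← e, ← I.orth i k]
    exact sum_congr rfl fun g _ => by rw [hk, mul_left_comm]; rfl
  have h2 : ∑ g, ∑ ψ : AddChar (Additive (G ⧸ M)) ℂ, ψ (q g) * (I.χ i g⁻¹ * I.χ i g) =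
      M.index * ∑ c : M, res M (I.χ i) c⁻¹ * res M (I.χ i) c := by
    simp only [← sum_mul, AddChar.sum_apply_eq_ite, hQ, ite_mul, zero_mul]
    rw [← sum_filter, ← mul_sum, sum_subtype (p := (· ∈ M)) _ fun g => by
      rw [mem_filter, and_iff_right (mem_univ g)]
      exact QuotientGroup.eq_one_iff g]
    rfl
  rw [sum_comm, cliff_sq_aux J (IsCF.res (I.χ_conj i) M) hm, ← mul_assoc, ← Nat.cast_mul,
    ← Nat.card_eq_fintype_card, index_mul_card, Nat.card_eq_fintype_card] at h2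
  simp only [h1] at h2
  rw [← sum_filter, sum_const, nsmul_eq_mul, mul_comm] at h2
  have h3 := Nat.cast_injective (mul_left_cancel₀ (Nat.cast_ne_zero.2 Fintype.card_ne_zero) h2)
  rw [← h3, ← hQ, ← AddChar.card_eq, ← Fintype.card_subtype, ← Nat.card_eq_fintype_card,
    ← Nat.card_eq_fintype_card]
  exact card_subgroup_dvd_card S

omit [Fintype G] in
theorem cliff_eq_perm (M : Subgroup G) [M.Normal] [Fintype M] (J : IrrData M) (g : G) :
    ∃ σ : Equiv.Perm (Fin J.n), ∀ k c, J.χ (σ k) c = J.χ k (MulAut.conjNormal g c) := by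
  choose σ hσ using loce_aut J (MulAut.conjNormal g)
  refine ⟨Equiv.ofBijective σ (Finite.injective_iff_bijective.1 fun a b h =>
    J.χ_injective (funext fun c => ?_)), hσ⟩
  rw [← (MulAut.conjNormal g).apply_symm_apply c, ← hσ, ← hσ, h]

theorem cliff_eq_conv {H : Type} [Group H] [Fintype H] (J : IrrData H) (k l : Fin J.n) (y : H) :
    J.d k * ∑ c, J.χ k c⁻¹ * J.χ l (c * y) = if l = k then Fintype.card H * J.χ l y else 0 := by
  have h := congrArg (fun U => (U * J.ρ l y).trace) (J.idem k l)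
  simp only [sum_mul, Matrix.trace_sum, Matrix.smul_mul, Matrix.trace_smul, smul_eq_mul,
    ← map_mul] at h
  have := IrrData.card_ne (H := H)
  split_ifs at h ⊢ with e
  · rw [one_mul] at h
    rw [show J.χ l y = _ from h.symm, mul_sum, mul_sum]
    exact sum_congr rfl fun c _ => by unfold IrrData.χ; field_simp
  · rw [zero_mul, Matrix.trace_zero] at h
    rw [← mul_zero (Fintype.card H : ℂ), ← h, mul_sum, mul_sum]
    exact sum_congr rfl fun c _ => by unfold IrrData.χ; field_simp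

theorem cliff_eq_const (M : Subgroup G) [M.Normal] [Fintype M] (I : IrrData G) (J : IrrData M)
    (i : Fin I.n) {w : Fin J.n → ℂ}
    (hw : ∀ g k k', (∀ c, J.χ k' c = J.χ k (MulAut.conjNormal g c)) → w k' = w k) :
    ∃ ω, ∀ k, mlt J (res M (I.χ i)) k ≠ 0 → w k = ω := by
  classical
  obtain ⟨z, hz⟩ : ∃ z : G → ℂ, ∀ g, z g =
    if h : g ∈ M then ∑ k, w k * J.χ k 1 * J.χ k (⟨g, h⟩ : M)⁻¹ else 0 := ⟨_, fun _ => rfl⟩
  have h1 : IsCF z := fun g c => by
    rw [hz, hz]
    by_cases hc : c ∈ M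
    · obtain ⟨s, hs⟩ := cliff_eq_perm M J g
      rw [dif_pos hc, dif_pos (‹M.Normal›.conj_mem c hc g)]
      refine Fintype.sum_equiv s _ _ fun k => ?_
      rw [hw g k _ (hs k), hs, hs, map_one, map_inv]
      rfl
    · rw [dif_neg hc, dif_neg fun h => hc (by simpa [mul_assoc] using ‹M.Normal›.conj_mem _ h g⁻¹)]
  have h2 : ∀ y : M, ∑ k, (Fintype.card M * w k * mlt J (res M (I.χ i)) k) * J.χ k y =
      ∑ k, (I.om i z * mlt J (res M (I.χ i)) k) * J.χ k y := fun y => by
    have h := congrArg (fun U => (U * I.ρ i y).trace) (I.fourier_cf h1 i)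
    simp only [sum_mul, Matrix.trace_sum, Matrix.smul_mul, Matrix.trace_smul, smul_eq_mul,
      ← map_mul, one_mul] at h
    have e := expand J (IsCF.res (I.χ_conj i) M)
    rw [← Fintype.sum_of_injective _ M.subtype_injective
      (fun c => z c * res M (I.χ i) (c * y)) _ (fun g hg => by
        rw [hz, dif_neg fun h => hg ⟨⟨g, h⟩, rfl⟩, zero_mul]) fun _ => rfl,
      show (I.ρ i y).trace = _ from e y, mul_sum] at h
    simp only [mul_assoc] at h ⊢
    rw [← h]
    simp only [hz, SetLike.coe_mem, dif_pos, sum_mul]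
    rw [sum_comm]
    refine sum_congr rfl fun k _ => ?_
    have h3 : ∑ l, w k * mlt J (res M (I.χ i)) l * (J.d k * ∑ c, J.χ k c⁻¹ * J.χ l (c * y)) =
        Fintype.card M * (w k * (mlt J (res M (I.χ i)) k * J.χ k y)) := by
      simp only [cliff_eq_conv, mul_ite, mul_zero, sum_ite_eq', mem_univ, if_true]
      ring
    rw [← h3]
    simp only [mul_sum]
    rw [sum_comm]
    refine sum_congr rfl fun c _ => ?_
    rw [e (c * y), mul_sum, J.χ_one]
    exact sum_congr rfl fun l _ => by ring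
  refine ⟨I.om i z / Fintype.card M, fun k hk => ?_⟩
  have h3 : ∀ a : Fin J.n → ℂ, ∑ y, J.χ k y⁻¹ * ∑ l, a l * J.χ l y = a k * Fintype.card M :=
    fun a => by
      simp only [mul_sum, mul_left_comm _ (a _)]
      rw [sum_comm]
      simp only [← mul_sum, J.orth, mul_ite, mul_zero, sum_ite_eq', mem_univ, if_true]
  have h4 := (h3 _).symm.trans ((sum_congr rfl fun y _ => congrArg _ (h2 y)).trans (h3 _))
  rw [eq_div_iff IrrData.card_ne, mul_comm]
  exact mul_right_cancel₀ hk (mul_right_cancel₀ IrrData.card_ne h4)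

/-- Degrees and multiplicities are invariant under conjugation. -/
theorem cliff_eq (M : Subgroup G) [M.Normal] [Fintype M] (I : IrrData G)
    (J : IrrData M) (i : Fin I.n) {m : Fin J.n → ℕ}
    (hm : ∀ j, mlt J (res M (I.χ i)) j = m j) {j j₀ : Fin J.n} (h : m j ≠ 0) (h₀ : m j₀ ≠ 0) :
    J.d j = J.d j₀ ∧ m j = m j₀ := by
  have h1 : ∀ {k}, m k ≠ 0 → mlt J (res M (I.χ i)) k ≠ 0 := fun hk => by
    rw [hm]
    exact_mod_cast hk
  obtain ⟨a, ha⟩ := cliff_eq_const M I J i (w := fun k => J.d k) fun g k k' e => by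
    rw [← J.χ_one, ← J.χ_one, e, map_one]
  obtain ⟨b, hb⟩ := cliff_eq_const M I J i (w := fun k => m k) fun g k k' e => by
    simp only [← hm, mlt, e, map_inv]
    exact congrArg (· / _) (Fintype.sum_equiv (MulAut.conjNormal g).toEquiv _ _ fun c =>
      congrArg _ (I.χ_conj i g c).symm)
  exact ⟨by exact_mod_cast (ha j (h1 h)).trans (ha j₀ (h1 h₀)).symm,
    by exact_mod_cast (hb j (h1 h)).trans (hb j₀ (h1 h₀)).symm⟩

/-- Clifford: a constituent of the restriction is again of defect zero. -/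
theorem cliff (M : Subgroup G) [M.Normal] [Fintype M] (hc : commutator G ≤ M) (I : IrrData G)
    (J : IrrData M) (i : Fin I.n) {r c : ℕ} (hr : r.Prime) (hi : ¬ r ∣ M.index)
    (hd : Nat.card G = I.d i * c) (hrc : ¬ r ∣ c) : ∃ j c', Nat.card M = J.d j * c' ∧ ¬ r ∣ c' ∧
      ∀ z : M, I.χ i z = I.d i → J.ρ j z = 1 := by
  choose m h1 h2 using mlt_nat J ((I.ρ i).comp M.subtype)
  have hm : ∀ j, mlt J (res M (I.χ i)) j = m j := h1
  have hcf : IsCF (res M (I.χ i)) := IsCF.res (I.χ_conj i) M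
  have e1 : I.d i = ∑ j, m j * J.d j := by
    have := expand J hcf 1
    simp only [hm, IrrData.χ_one, res, OneMemClass.coe_one] at this
    exact_mod_cast this
  obtain ⟨j, -, hj⟩ := exists_ne_zero_of_sum_ne_zero (e1 ▸ (I.pos i).ne')
  have hj := left_ne_zero_of_mul hj
  have e2 : ∀ F : ℕ → ℕ → ℕ, (∀ d, F 0 d = 0) → ∑ k, F (m k) (J.d k) =
      (univ.filter fun k => m k ≠ 0).card * F (m j) (J.d j) := fun F hF => by
    rw [← smul_eq_mul, ← sum_const, sum_filter]
    refine sum_congr rfl fun k _ => ?_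
    split_ifs with h
    · obtain ⟨a, b⟩ := cliff_eq M I J i hm h hj
      rw [a, b]
    · rw [not_not.1 h, hF]
  have e3 := cliff_sq M hc I J i hm
  rw [e2 (fun a _ => a ^ 2) (by simp)] at e3
  rw [e2 (fun a d => a * d) (by simp)] at e1
  obtain ⟨c', hc'⟩ := deg_dvd J j
  refine ⟨j, c', hc', fun h => ?_, fun z hz => ?_⟩
  · have e4 : c' * M.index = (univ.filter fun k => m k ≠ 0).card * m j * c :=
      Nat.eq_of_mul_eq_mul_left (J.pos j) (by
        rw [← mul_assoc, ← hc', card_mul_index, hd, e1]; ring)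
    exact (hr.dvd_mul.1 (e4 ▸ h.mul_right _)).elim
      (fun h => hi ((h.trans ⟨m j, by ring⟩).trans e3)) hrc
  · have k1 : I.ρ i z = 1 := ker_of_trace _ _ hz
    have k2 := J.class_sum (fun c : M => I.χ i (c⁻¹ : M)) (fun h g => by
      rw [show (h * g * h⁻¹)⁻¹ = h * g⁻¹ * h⁻¹ by group]; exact hcf h g⁻¹) j
    have k3 : J.ρ j z * ∑ g : M, I.χ i (g⁻¹ : M) • J.ρ j g = ∑ g : M, I.χ i (g⁻¹ : M) • J.ρ j g := by
      rw [mul_sum]
      refine Fintype.sum_equiv (Equiv.mulLeft z) _ _ fun g => ?_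
      simp [IrrData.χ, show I.ρ i (z : G)⁻¹ = 1 by
        simpa [k1] using (map_mul (I.ρ i) (z : G) (z : G)⁻¹).symm]
    rw [k2, mul_smul_comm, mul_one] at k3
    refine smul_right_injective _ (div_ne_zero (fun h => hj ?_) (J.d_ne j)) k3
    have := h2 j
    simp only [mul_comm (J.χ j _)] at this
    exact_mod_cast this.symm.trans (div_eq_zero_iff.2 (Or.inl h))

/-- A character with `Z` in its kernel is a character of the quotient. -/
theorem van_lift (J : IrrData G) (j : Fin J.n) (Z : Subgroup G) [Z.Normal]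
    (hZ : ∀ z ∈ Z, J.ρ j z = 1) {y : G} (hy : J.χ j y = 0) :
    orderOf (QuotientGroup.mk y : G ⧸ Z) ∈ Vo (G ⧸ Z) := by
  classical
  have := Fintype.ofFinite (G ⧸ Z)
  obtain ⟨K⟩ := exists_irrData (G ⧸ Z)
  have hf : ∀ F : G ⧸ Z → ℂ, ∑ g : G, F g = Nat.card Z * ∑ q, F q := fun F => by
    rw [← sum_fiberwise univ (QuotientGroup.mk : G → G ⧸ Z), mul_sum]
    refine sum_congr rfl fun q _ => ?_
    rw [sum_congr rfl fun g hg => congrArg F (mem_filter.1 hg).2, sum_const, nsmul_eq_mul]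
    congr 2
    simpa using QuotientGroup.card_preimage_mk Z {q}
  obtain ⟨k, hk⟩ := exists_idx K (QuotientGroup.lift Z (J.ρ j) hZ) (by
    have h1 := hf fun q => (QuotientGroup.lift Z (J.ρ j) hZ q⁻¹).trace *
      (QuotientGroup.lift Z (J.ρ j) hZ q).trace
    have h2 := J.orth j j
    rw [if_pos rfl, ← Nat.card_eq_fintype_card, card_eq_card_quotient_mul_card_subgroup Z,
      mul_comm, Nat.cast_mul] at h2
    rw [← Nat.card_eq_fintype_card]
    exact mul_left_cancel₀ (Nat.cast_ne_zero.2 Nat.card_pos.ne') (h1.symm.trans h2))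
  exact (mem_Vo K _).2 ⟨_, rfl, k, (hk _).trans hy⟩

theorem van_quot (M : Subgroup G) [M.Normal] (hc : commutator G ≤ M) (I : IrrData G)
    (i : Fin I.n) {r c : ℕ} (hr : r.Prime) (hi : ¬ r ∣ M.index) (hd : Nat.card G = I.d i * c)
    (hrc : ¬ r ∣ c) (hZ : ∀ z : M, z ∈ center M → I.χ i z = I.d i) (y : PQ M)
    (hy : r ∣ orderOf y) : orderOf y ∈ Vo (PQ M) := by
  have := Fintype.ofFinite M
  obtain ⟨J⟩ := exists_irrData M
  obtain ⟨j, c', h1, h2, h3⟩ := cliff M hc I J i hr hi hd hrc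
  obtain ⟨y, rfl⟩ := QuotientGroup.mk_surjective y
  exact van_lift J j _ (fun z hz => h3 z (hZ z hz))
    (dz J j hr h1 h2 (hy.trans (orderOf_map_dvd (QuotientGroup.mk' _) y)))

end Pool.Agent.Lib.MP_7d41f7_al
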