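import Pool.Agent.Lib.MP_7d41f7_al.C.XDefs

/-! Polar spaces and their dual polar graphs: objects. -/

set_option autoImplicit false

namespace Pool.Agent.Lib.MP_7d41f7_al

open Finset Module Polynomial
open scoped Classical

variable {F V : Type} [Field F] [AddCommGroup V] [Module F V]

/-- The totally singular subspaces of a polar space of rank `N`. -/
structure Polar (T : Submodule F V → Prop) (N t : ℕ) : Prop where
  down : ∀ {U W : Submodule F V}, T U → W ≤ U → T W
  le : ∀ {U : Submodule F V}, T U → finrank F U ≤ N
  cnt : ∀ {H : Submodule F V}, T H → finrank F H + 1 = N →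
    Nat.card {U : Submodule F V // T U ∧ finrank F U = N ∧ H ≤ U} = t + 1
  nbr : ∀ {U W : Submodule F V}, T U → finrank F U = N → T W →
    finrank F (U ⊓ W : Submodule F V) + 1 = finrank F W → ∃! U' : Submodule F V,
      T U' ∧ finrank F U' = N ∧ W ≤ U' ∧ finrank F (U ⊓ U' : Submodule F V) + 1 = N
  opp : ∃ U U' : Submodule F V, T U ∧ T U' ∧ finrank F U = N ∧ finrank F U' = N ∧ U ⊓ U' = ⊥

/-- The number of points of a projective space. -/
def gq (s j : ℕ) : ℤ := ∑ i ∈ range j, (s : ℤ) ^ i

/-- The eigenvalues of the dual polar graph. -/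
def th (s N t j : ℕ) : ℤ := t * gq s (N - j) - gq s j

/-- The polynomial with the given roots. -/
noncomputable def pol (θ : ℕ → ℤ) (s : Finset ℕ) : ℤ[X] := ∏ l ∈ s, (X - C (θ l))

/-- The totally singular subspaces of dimension `k`. -/
def TS (T : Submodule F V → Prop) (k : ℕ) : Type :=
  {W : Submodule F V // T W ∧ finrank F W = k}

noncomputable instance [Finite V] (T : Submodule F V → Prop) (k : ℕ) : Fintype (TS T k) :=
  have : Finite (TS T k) := Finite.of_injective (fun W : TS T k => (W.1 : Set V)) fun _ _ h =>
    Subtype.ext (SetLike.coe_injective h)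
  Fintype.ofFinite _

noncomputable instance (T : Submodule F V → Prop) (k : ℕ) : DecidableEq (TS T k) :=
  Classical.decEq _

/-- The incidence matrix. -/
noncomputable def inc (T : Submodule F V → Prop) (N k : ℕ) : Matrix (TS T N) (TS T k) ℤ :=
  Matrix.of fun U W => if W.1 ≤ U.1 then 1 else 0

/-- The adjacency matrix of the dual polar graph. -/
noncomputable def adjm (T : Submodule F V → Prop) (N : ℕ) : Matrix (TS T N) (TS T N) ℤ :=
  Matrix.of fun U U' => if finrank F (U.1 ⊓ U'.1 : Submodule F V) + 1 = N then 1 else 0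

end Pool.Agent.Lib.MP_7d41f7_al
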