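import Pool.Agent.Lib.MP_7d41f7_al.C.FCnt
import Pool.Agent.Lib.MP_7d41f7_al.C.PDef

/-! The totally singular subspaces of a form: counting. -/

set_option autoImplicit false

namespace Pool.Agent.Lib.MP_7d41f7_al

open Module

/-- The Witt index. -/
def Ty.wi : Ty → ℕ → ℕ
  | .U, n => n / 2
  | .Dm, n => n - 1
  | _, n => n

/-- The number of further maximal subspaces over a next-to-maximal one. -/
def Ty.tt : Ty → ℕ → ℕ → ℕ
  | .U, n, q => q ^ (1 + 2 * (n % 2))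
  | .Dp, _, _ => 1
  | .Dm, _, q => q ^ 2
  | _, _, q => q

/-- The number of nonzero singular vectors in rank `N` with parameter `t`. -/
def sg (s t N : ℕ) : ℤ := ((s : ℤ) ^ N - 1) * (t * s ^ (N - 1) + 1)

theorem sing_eq {t : Ty} {n q : ℕ} (h : t = .Dm → 0 < n) :
    t.sing n q = sg (t.kd.fc q) (t.tt n q) (t.wi n) := by
  cases t
  · obtain ⟨m, rfl | rfl⟩ := Nat.even_or_odd' n
    · rcases m with _ | m
      · simp [Ty.sing, sg, Ty.wi]
      · have e1 : 2 * (m + 1) / 2 = m + 1 := by omega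
        have e2 : 2 * (m + 1) % 2 = 0 := by omega
        have e3 : 2 * (m + 1) - 1 = 2 * m + 1 := by omega
        simp only [Ty.sing, sg, Ty.wi, Ty.tt, Ty.kd, Kd.fc, e1, e2, e3, Nat.add_sub_cancel,
          pow_succ, pow_mul]
        push_cast
        ring
    · have e1 : (2 * m + 1) / 2 = m := by omega
      have e2 : (2 * m + 1) % 2 = 1 := by omega
      rcases m with _ | m
      · simp [Ty.sing, sg, Ty.wi]
      · simp only [Ty.sing, sg, Ty.wi, Ty.tt, Ty.kd, Kd.fc, e1, e2, Nat.add_sub_cancel,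
          pow_succ, pow_mul]
        push_cast
        ring
  all_goals rcases n with _ | _ | n <;> simp [Ty.sing, sg, Ty.wi, Ty.tt, Ty.kd, Kd.fc] at h ⊢ <;> ring

variable {F V : Type} [Field F] [Finite F] {P : Sca F} [AddCommGroup V] [Module F V] [Finite V]
  {Φ : Frm P V}

namespace Frm

variable (Φ) in
/-- The orthogonal complement. -/
def perp (U : Submodule F V) : Submodule F V := ⨅ u ∈ U, LinearMap.ker (Φ.B.flip u)

omit [Finite F] [Finite V] in
theorem mem_perp {U : Submodule F V} {v : V} : v ∈ Φ.perp U ↔ ∀ u ∈ U, Φ.B v u = 0 := by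
  simp [perp]

variable (Φ) in
/-- A nondegenerate form of rank `N` with parameter `t`. -/
structure Rk (N t : ℕ) : Prop where
  nd : Φ.Nd
  pos : 0 < t
  ns : (Φ.ns : ℤ) = sg (Nat.card F) t N
  dim : (Nat.card F : ℤ) ^ finrank F V * P.tk = t * (Nat.card F : ℤ) ^ (2 * N)

theorem IsTy.rk {t : Ty} {n : ℕ} (h : Φ.IsTy t n) : Φ.Rk (t.wi n) (t.tt n P.q) := by
  have hs : Nat.card F = t.kd.fc P.q := h.kd ▸ P.card
  have h2 : 0 < P.q := by have := P.q2; omega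
  refine ⟨h.nd, by cases t <;> simp only [Ty.tt] <;> positivity, hs ▸ h.ns.trans (sing_eq h.pos), ?_⟩
  have hp := h.pos
  rw [h.dim, hs, Sca.tk, ← h.kd]
  cases t
  · obtain ⟨m, rfl | rfl⟩ := Nat.even_or_odd' n
    · simp [Ty.wi, Ty.tt, Ty.kd, Kd.fc, Kd.tk, Ty.dim, mul_comm]
    · have e1 : (2 * m + 1) / 2 = m := by omega
      have e2 : (2 * m + 1) % 2 = 1 := by omega
      simp only [Ty.wi, Ty.tt, Ty.kd, Kd.fc, Kd.tk, Ty.dim, e1, e2]
      push_cast
      ring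
  all_goals rcases n with _ | n <;>
    simp [Ty.wi, Ty.tt, Ty.kd, Kd.fc, Kd.tk, Ty.dim] at hp ⊢ <;> ring

variable {N t : ℕ} {e f : V} {U W H : Submodule F V}

theorem Rk.down (h : Φ.Rk N t) (he : Φ.Hyp e f) :
    ∃ M, N = M + 1 ∧ (Φ.res (Φ.pl e f)).Rk M t := by
  have hs : (Nat.card F : ℤ) ≠ 0 := Nat.cast_ne_zero.2 Nat.card_pos.ne'
  rcases N with _ | M
  · have : Nonempty {v : V // v ≠ 0 ∧ Φ.Q v = 0} := ⟨⟨e, he.ne, he.qe⟩⟩
    have h1 := h.ns
    simp [sg, Frm.ns, Nat.card_pos.ne'] at h1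
  have h1 : (Nat.card F : ℤ) ^ finrank F (Φ.pl e f) * P.tk = t * (Nat.card F : ℤ) ^ (2 * M) := by
    have h2 := h.dim
    rw [← he.finrank_pl] at h2
    exact mul_left_cancel₀ (pow_ne_zero 2 hs) (by linear_combination h2)
  refine ⟨M, rfl, he.nd_pl h.nd, h.pos, mul_left_cancel₀ hs ?_, h1⟩
  have h2 := he.ns_step
  rw [h.ns, mul_assoc, h1] at h2
  rcases M with _ | M
  · simp only [sg] at h2 ⊢
    linear_combination -h2
  · simp only [sg, Nat.add_sub_cancel] at h2 ⊢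
    linear_combination -h2

theorem Ti.cut (hU : Φ.Ti U) (he : Φ.Hyp e f) (h : e ∈ U) :
    (Φ.res (Φ.pl e f)).Ti (U.comap (Φ.pl e f).subtype) ∧
      finrank F (U.comap (Φ.pl e f).subtype) + 1 = finrank F U ∧
      ∀ v, v ∈ U ↔ ∃ (a : F) (x : Φ.pl e f), x ∈ U.comap (Φ.pl e f).subtype ∧ v = a • e + x := by
  have h1 : ∀ v, v ∈ U ↔ ∃ (a : F) (x : Φ.pl e f), x ∈ U.comap (Φ.pl e f).subtype ∧
      v = a • e + x := fun v => ⟨fun hv => ⟨Φ.B v f, ⟨v - Φ.B v f • e, by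
        simpa [hU.2 v hv e h] using he.dec v⟩, U.sub_mem hv (U.smul_mem _ h), by simp⟩,
    fun ⟨a, x, hx, hv⟩ => hv ▸ U.add_mem (U.smul_mem a h) hx⟩
  refine ⟨⟨fun x hx => hU.1 x hx, fun x hx y hy => hU.2 x hx y hy⟩, ?_, h1⟩
  have h2 : U = (U.comap (Φ.pl e f).subtype).map (Φ.pl e f).subtype ⊔ Submodule.span F {e} := by
    refine le_antisymm (fun v hv => ?_) (sup_le (Submodule.map_comap_le _ _) (by simpa using h))
    obtain ⟨a, x, hx, rfl⟩ := (h1 v).1 hv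
    exact add_mem (Submodule.mem_sup_right (Submodule.smul_mem _ a (Submodule.subset_span rfl)))
      (Submodule.mem_sup_left (Submodule.mem_map_of_mem hx))
  have h3 : e ∉ (U.comap (Φ.pl e f).subtype).map (Φ.pl e f).subtype := fun ⟨x, _, hx⟩ =>
    one_ne_zero (he.ef.symm.trans (hx ▸ x.2.2))
  conv_rhs => rw [h2, Submodule.finrank_sup_span_singleton h3, Submodule.finrank_map_subtype_eq]

theorem Rk.card_perp {k : ℕ} (h : Φ.Rk N t) (hU : Φ.Ti U) (hk : finrank F U = k) : k ≤ N ∧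
    (Nat.card {v // v ∈ Φ.perp U ∧ Φ.Q v = 0} : ℤ) =
      (Nat.card F : ℤ) ^ k * (sg (Nat.card F) t (N - k) + 1) := by
  induction k generalizing V N with
  | zero =>
    obtain rfl := Submodule.finrank_eq_zero.1 hk
    refine ⟨N.zero_le, ?_⟩
    rw [pow_zero, one_mul, Nat.sub_zero, ← h.ns, Frm.ns, ← Nat.cast_add_one, ← Finite.card_option]
    classical
    refine congrArg _ (Nat.card_congr (Equiv.symm (Equiv.ofBijective (fun x => x.elim
      ⟨0, zero_mem _, Q_zero⟩ fun v => ⟨v.1, by simp [mem_perp], v.2.2⟩) ⟨?_, fun v => ?_⟩)))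
    · rintro (_ | x) (_ | y) e
      · rfl
      · exact absurd (congrArg Subtype.val e).symm y.2.1
      · exact absurd (congrArg Subtype.val e) x.2.1
      · exact congrArg some (Subtype.ext (Subtype.ext_iff.1 e :))
    · by_cases e : v.1 = 0
      · exact ⟨none, Subtype.ext e.symm⟩
      · exact ⟨some ⟨v.1, e, v.2.2⟩, rfl⟩
  | succ k ih =>
    obtain ⟨e, he, h0⟩ := Submodule.exists_mem_ne_zero_of_ne_bot
      (p := U) (fun e => by rw [e, finrank_bot] at hk; omega)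
    obtain ⟨f, hf⟩ := h.nd.partner' (hU.1 e he) h0
    obtain ⟨M, rfl, hM⟩ := h.down hf
    obtain ⟨h1, h2, h3⟩ := hU.cut hf he
    obtain ⟨h4, h5⟩ := ih hM h1 (by omega)
    refine ⟨by omega, ?_⟩
    rw [Nat.add_sub_add_right, pow_succ', mul_assoc, ← h5, ← Nat.cast_mul, ← Nat.card_prod]
    have hp : ∀ a : F, ∀ x ∈ Φ.pl e f, ∀ y ∈ Φ.pl e f, ∀ b : F,
        Φ.B (a • e + x) (b • e + y) = Φ.B x y := fun a x hx y hy b => by
      simpa using hf.B_dec a 0 b 0 hx hy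
    have hq : ∀ a : F, ∀ x ∈ Φ.pl e f, Φ.Q (a • e + x) = Φ.Q x := fun a x hx => by
      simpa [P.τ_zero] using hf.Q_dec a 0 hx
    refine congrArg _ (Nat.card_congr (Equiv.symm (Equiv.ofBijective
      (fun x => ⟨x.1 • e + x.2.1.1, mem_perp.2 fun u hu => ?_, (hq _ _ x.2.1.2).trans x.2.2.2⟩)
      ⟨fun x y e' => ?_, fun v => ?_⟩)))
    · obtain ⟨a, y, hy, rfl⟩ := (h3 u).1 hu
      exact (hp _ _ x.2.1.2 _ y.2 _).trans (mem_perp.1 x.2.2.1 y hy)
    · have e1 : x.1 • e + x.2.1.1 = y.1 • e + y.2.1.1 := congrArg Subtype.val e'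
      have e2 : x.1 = y.1 := by
        simpa [hf.ef, (Φ.mem_pl.1 x.2.1.2).2, (Φ.mem_pl.1 y.2.1.2).2] using
          congrArg (fun v => Φ.B v f) e1
      exact Prod.ext e2 (Subtype.ext (Subtype.ext (add_left_cancel (e2 ▸ e1))))
    · have e1 : v.1 - Φ.B v.1 f • e ∈ Φ.pl e f := by
        simpa [mem_perp.1 v.2.1 e he] using hf.dec v.1
      refine ⟨⟨Φ.B v.1 f, ⟨_, e1⟩, mem_perp.2 fun y hy => ?_, ?_⟩, Subtype.ext (by simp)⟩
      · refine (hp (Φ.B v.1 f) _ e1 _ y.2 0).symm.trans ?_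
        simpa using mem_perp.1 v.2.1 y hy
      · exact (hq (Φ.B v.1 f) _ e1).symm.trans (by simpa using v.2.2)

omit [Finite F] [Finite V] in
theorem Ti.mono (hU : Φ.Ti U) (h : W ≤ U) : Φ.Ti W :=
  ⟨fun x hx => hU.1 x (h hx), fun x hx y hy => hU.2 x (h hx) y (h hy)⟩

theorem Ti.sup (hU : Φ.Ti U) {v : V} (hv : v ∈ Φ.perp U) (h0 : Φ.Q v = 0) :
    Φ.Ti (U ⊔ Submodule.span F {v}) := by
  have h1 : ∀ x ∈ U ⊔ Submodule.span F {v}, ∃ u ∈ U, ∃ a : F, x = a • v + u := fun x hx => by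
    obtain ⟨u, hu, w, hw, rfl⟩ := Submodule.mem_sup.1 hx
    obtain ⟨a, rfl⟩ := Submodule.mem_span_singleton.1 hw
    exact ⟨u, hu, a, add_comm _ _⟩
  refine ⟨fun x hx => ?_, fun x hx y hy => ?_⟩
  · obtain ⟨u, hu, a, rfl⟩ := h1 x hx
    rw [Q_add0 (by rw [smul_B, mem_perp.1 hv u hu, mul_zero]), Φ.smul, h0, hU.1 u hu]
    simp
  · obtain ⟨u, hu, a, rfl⟩ := h1 x hx
    obtain ⟨w, hw, b, rfl⟩ := h1 y hy
    simp [mem_perp.1 hv w hw, B_comm0 (mem_perp.1 hv u hu), hU.2 u hu w hw, B_self h0]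

theorem Rk.max (h : Φ.Rk N t) (hU : Φ.Ti U) (hk : finrank F U = N) {v : V} (hv : v ∈ Φ.perp U)
    (h0 : Φ.Q v = 0) : v ∈ U := by
  by_contra e
  have h1 := (h.card_perp (hU.sup hv h0) rfl).1
  rw [Submodule.finrank_sup_span_singleton e] at h1
  omega

theorem Rk.exists_ti (h : Φ.Rk N t) {k : ℕ} (hk : k ≤ N) :
    ∃ U : Submodule F V, Φ.Ti U ∧ finrank F U = k := by
  induction k with
  | zero => exact ⟨⊥, ⟨by simp [Q_zero], by simp⟩, finrank_bot F V⟩
  | succ k ih =>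
    obtain ⟨U, hU, h1⟩ := ih (by omega)
    obtain ⟨v, hv, h0, e⟩ : ∃ v ∈ Φ.perp U, Φ.Q v = 0 ∧ v ∉ U := by
      by_contra! e
      have h2 : Nat.card {v // v ∈ Φ.perp U ∧ Φ.Q v = 0} ≤ Nat.card U :=
        Nat.card_le_card_of_injective (fun v => ⟨v.1, e _ v.2.1 v.2.2⟩)
          fun _ _ e => Subtype.ext (congrArg (fun x : U => x.1) e)
      rw [Module.natCard_eq_pow_finrank (K := F) (V := U), h1, ← Nat.cast_le (α := ℤ),
        (h.card_perp hU h1).2, Nat.cast_pow] at h2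
      have h3 : (1 : ℤ) < Nat.card F := by exact_mod_cast Finite.one_lt_card
      have h4 : 0 < sg (Nat.card F) t (N - k) :=
        mul_pos (sub_pos.2 (one_lt_pow₀ h3 (by omega))) (by positivity)
      nlinarith [pow_pos (zero_lt_one.trans h3) k]
    exact ⟨_, hU.sup hv h0, by rw [Submodule.finrank_sup_span_singleton e, h1]⟩

end Frm

end Pool.Agent.Lib.MP_7d41f7_al
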