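import Pool.Agent.Lib.MP_7d41f7_al.C.VA

/-! The totally singular subspaces form a polar space. -/

set_option autoImplicit false

namespace Pool.Agent.Lib.MP_7d41f7_al

open Module

variable {F V : Type} [Field F] [Finite F] {P : Sca F} [AddCommGroup V] [Module F V] [Finite V]
  {Φ : Frm P V} {N t : ℕ} {U W H : Submodule F V}

namespace Frm

omit [Finite F] in
theorem cnt_aux1 {v : V} (hv : v ∉ H) :
    finrank F (H ⊔ Submodule.span F {v} : Submodule F V) = finrank F H + 1 := by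
  have h1 := Submodule.finrank_sup_add_finrank_inf_eq H (Submodule.span F {v})
  have h0 : v ≠ 0 := fun e => hv (e ▸ H.zero_mem)
  rw [((Submodule.disjoint_span_singleton' h0).2 hv).eq_bot, finrank_bot,
    finrank_span_singleton h0] at h1
  exact h1

/-- count the singular vectors of `perp H` outside `H` along `v ↦ H ⊔ span {v}` -/
theorem Rk.cnt (h : Φ.Rk N t) (hH : Φ.Ti H) (hk : finrank F H + 1 = N) :
    Nat.card {U : Submodule F V // Φ.Ti U ∧ finrank F U = N ∧ H ≤ U} = t + 1 := by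
  classical
  have := Fintype.ofFinite V
  have := Fintype.ofFinite (Submodule F V)
  subst hk
  have c : ∀ U : Submodule F V,
      (Finset.univ.filter (· ∈ U)).card = Nat.card F ^ finrank F U := fun U => by
    rw [← Module.natCard_eq_pow_finrank, Nat.card_eq_fintype_card, Fintype.card_subtype]
  have h1 := (h.card_perp hH rfl).2
  rw [Nat.card_eq_fintype_card, Fintype.card_subtype, Nat.add_sub_cancel_left] at h1
  rw [Nat.card_eq_fintype_card, Fintype.card_subtype]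
  have h2 := Finset.card_eq_sum_card_fiberwise (f := fun v => H ⊔ Submodule.span F {v})
    (s := Finset.univ.filter (fun v => v ∈ Φ.perp H ∧ Φ.Q v = 0) \ Finset.univ.filter (· ∈ H))
    (t := Finset.univ.filter fun U => Φ.Ti U ∧ finrank F U = finrank F H + 1 ∧ H ≤ U)
    fun v hv => by
      simp only [Finset.coe_sdiff, Finset.coe_filter, Finset.mem_univ, true_and, Set.mem_sdiff,
        Set.mem_ofPred_eq] at hv ⊢
      exact ⟨hH.sup hv.1.1 hv.1.2, cnt_aux1 hv.2, le_sup_left⟩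
  rw [Finset.sum_congr rfl (g := fun _ => Nat.card F ^ (finrank F H + 1) - Nat.card F ^ finrank F H)
    fun U hU => by
      obtain ⟨-, a, b, d⟩ := Finset.mem_filter.1 hU
      rw [← b, ← c, ← c, ← Finset.card_sdiff_of_subset fun v hv => by
        simpa using d (by simpa using hv)]
      congr 1
      ext v
      simp only [Finset.mem_filter, Finset.mem_sdiff, Finset.mem_univ, true_and]
      refine ⟨fun e => ⟨e.2 ▸ Submodule.mem_sup_right (Submodule.mem_span_singleton_self v),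
        e.1.2⟩, fun e => ⟨⟨⟨mem_perp.2 fun u hu => a.2 _ e.1 _ (d hu), a.1 _ e.1⟩, e.2⟩, ?_⟩⟩
      exact Submodule.eq_of_le_of_finrank_eq
        (sup_le d ((Submodule.span_singleton_le_iff_mem _ _).2 e.1)) ((cnt_aux1 e.2).trans b.symm),
    Finset.sum_const, smul_eq_mul, Finset.card_sdiff_of_subset fun v hv => by
      have hv' : v ∈ H := by simpa using hv
      simpa using ⟨mem_perp.2 fun u hu => hH.2 _ hv' _ hu, hH.1 _ hv'⟩, c] at h2
  have h3 : 1 < Nat.card F := Finite.one_lt_card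
  have h4 : Nat.card F ^ finrank F H < Nat.card F ^ (finrank F H + 1) :=
    Nat.pow_lt_pow_right h3 (Nat.lt_succ_self _)
  have h5 : (Finset.univ.filter fun v => v ∈ Φ.perp H ∧ Φ.Q v = 0).card =
      (t + 1) * (Nat.card F ^ (finrank F H + 1) - Nat.card F ^ finrank F H) +
        Nat.card F ^ finrank F H := by
    zify [h4.le]
    rw [h1, sg]
    ring
  rw [h5, Nat.add_sub_cancel] at h2
  exact (Nat.eq_of_mul_eq_mul_right (Nat.sub_pos_of_lt h4) h2).symm

omit [Finite F] in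
theorem Rk.nbr_aux (φ : V →ₗ[F] F) {u : V} (hu : u ∈ U) (h : φ u ≠ 0) :
    U ⊓ LinearMap.ker φ ⊔ Submodule.span F {u} = U ∧
      finrank F (U ⊓ LinearMap.ker φ : Submodule F V) + 1 = finrank F U := by
  have h1 : U ⊓ LinearMap.ker φ ⊔ Submodule.span F {u} = U :=
    le_antisymm (sup_le inf_le_left ((Submodule.span_singleton_le_iff_mem _ _).2 hu)) fun x hx =>
      Submodule.mem_sup.2 ⟨x - (φ x / φ u) • u, ⟨U.sub_mem hx (U.smul_mem _ hu), by simp [h]⟩, _,
        Submodule.mem_span_singleton.2 ⟨φ x / φ u, rfl⟩, sub_add_cancel _ _⟩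
  exact ⟨h1, (Submodule.finrank_sup_span_singleton (p := U ⊓ LinearMap.ker φ) (v := u)
    fun e => h e.2).symm.trans (by rw [h1])⟩

/-- For `w ∈ W` outside `U` take the span of `w` and of the vectors of `U` orthogonal to `w`. -/
theorem Rk.nbr (h : Φ.Rk N t) (hU : Φ.Ti U) (hk : finrank F U = N) (hW : Φ.Ti W)
    (hd : finrank F (U ⊓ W : Submodule F V) + 1 = finrank F W) : ∃! U' : Submodule F V,
      Φ.Ti U' ∧ finrank F U' = N ∧ W ≤ U' ∧ finrank F (U ⊓ U' : Submodule F V) + 1 = N := by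
  obtain ⟨w, hw, hw'⟩ := SetLike.not_le_iff_exists.1 fun e : W ≤ U => by
    rw [inf_eq_right.2 e] at hd; omega
  obtain ⟨u, hu, h0⟩ : ∃ u ∈ U, Φ.B u w ≠ 0 := by
    by_contra! e
    exact hw' (h.max hU hk (mem_perp.2 fun u hu => B_comm0 (e u hu)) (hW.1 w hw))
  have h1 := (Rk.nbr_aux (Φ.B.flip w) hu h0).2
  have h2 : ∀ X : Submodule F V, Φ.Ti X → w ∈ X → U ⊓ X ≤ U ⊓ LinearMap.ker (Φ.B.flip w) :=
    fun X hX e x hx => ⟨hx.1, hX.2 x hx.2 w e⟩
  have h3 : Φ.Ti (U ⊓ LinearMap.ker (Φ.B.flip w) ⊔ Submodule.span F {w}) :=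
    (hU.mono inf_le_left).sup (mem_perp.2 fun x hx => B_comm0 hx.2) (hW.1 w hw)
  have h4 := Submodule.finrank_sup_span_singleton (p := U ⊓ LinearMap.ker (Φ.B.flip w)) (v := w)
    fun e => hw' e.1
  have h5 : U ⊓ W ⊔ Submodule.span F {w} = W := Submodule.eq_of_le_of_finrank_eq
    (sup_le inf_le_right ((Submodule.span_singleton_le_iff_mem _ _).2 hw))
    ((Submodule.finrank_sup_span_singleton (p := U ⊓ W) (v := w) fun e => hw' e.1).trans hd)
  refine ⟨_, ⟨h3, by omega, h5.ge.trans (sup_le_sup_right (h2 W hW hw) _), ?_⟩, fun X hX => ?_⟩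
  · rw [le_antisymm (h2 _ h3 (Submodule.mem_sup_right (Submodule.mem_span_singleton_self w)))
      (le_inf inf_le_left le_sup_left), h1, hk]
  · have h6 := Submodule.eq_of_le_of_finrank_eq (h2 X hX.1 (hX.2.2.1 hw))
      (by have := hX.2.2.2; omega)
    exact (Submodule.eq_of_le_of_finrank_eq (sup_le (h6.ge.trans inf_le_right)
      ((Submodule.span_singleton_le_iff_mem _ _).2 (hX.2.2.1 hw)))
        (by have := hX.2.1; omega)).symm

/-- Take a maximal `U'` with `finrank (U ⊓ U')` least. -/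
theorem Rk.opp (h : Φ.Rk N t) : ∃ U U' : Submodule F V,
    Φ.Ti U ∧ Φ.Ti U' ∧ finrank F U = N ∧ finrank F U' = N ∧ U ⊓ U' = ⊥ := by
  obtain ⟨U, hU, hk⟩ := h.exists_ti le_rfl
  obtain ⟨U', ⟨hU', hk'⟩, hm⟩ := exists_minimalFor_of_wellFoundedLT
    (fun X : Submodule F V => Φ.Ti X ∧ finrank F X = N)
    (fun X => finrank F (U ⊓ X : Submodule F V)) ⟨U, hU, hk⟩
  refine ⟨U, U', hU, hU', hk, hk', (Submodule.eq_bot_iff _).2 fun e he => by_contra fun h0 => ?_⟩
  obtain ⟨φ, hφ, -⟩ := Submodule.exists_le_ker_of_notMem (p := (⊥ : Submodule F V)) h0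
  obtain ⟨h1, h2⟩ := Rk.nbr_aux φ he.2 hφ
  have h3 := h.cnt (hU'.mono inf_le_left) (h2.trans hk')
  have := Nat.finite_of_card_ne_zero (h3.trans_ne t.succ_ne_zero)
  have := Finite.one_lt_card_iff_nontrivial.1 ((Nat.succ_lt_succ h.pos).trans_eq h3.symm)
  obtain ⟨⟨X, hX, hx, hH⟩, hne⟩ := exists_ne (⟨U', hU', hk', inf_le_left⟩ :
    {X : Submodule F V // Φ.Ti X ∧ finrank F X = N ∧ U' ⊓ LinearMap.ker φ ≤ X})
  have h4 := Submodule.finrank_lt_finrank_of_lt ((inf_le_left : U' ⊓ X ≤ U').lt_of_ne fun e =>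
    hne (Subtype.ext (Submodule.eq_of_le_of_finrank_eq (inf_eq_left.1 e) (hk'.trans hx.symm)).symm))
  have h5 := Submodule.eq_of_le_of_finrank_le (le_inf inf_le_left hH) (by omega)
  have h6 : U ⊓ X ≤ U' := fun v hv => h.max hU' hk' (mem_perp.2 fun u hu => by
    obtain ⟨a, ha, b, hb, rfl⟩ := Submodule.mem_sup.1 (h1.ge hu)
    obtain ⟨c, rfl⟩ := Submodule.mem_span_singleton.1 hb
    rw [map_add, B_smul, hX.2 v hv.2 a (hH ha), hU.2 v hv.1 e he.1, mul_zero, add_zero])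
      (hU.1 v hv.1)
  have h7 := Submodule.finrank_lt_finrank_of_lt ((le_inf inf_le_left h6).lt_of_ne fun e1 =>
    hφ (h5.ge ⟨he.2, (e1.ge he).2⟩).2)
  exact (hm ⟨hX, hx⟩ h7.le).not_gt h7

theorem Rk.polar (h : Φ.Rk N t) : Polar Φ.Ti N t :=
  ⟨Ti.mono, fun hU => (h.card_perp hU rfl).1, h.cnt, h.nbr, h.opp⟩

omit [Finite F] [Finite V] in
theorem Ti.map {g : V ≃ₗ[F] V} (hg : g ∈ Φ.Iso) (hU : Φ.Ti U) : Φ.Ti (U.map g.toLinearMap) :=
  ⟨by rintro _ ⟨x, hx, rfl⟩; exact (hg.2 x).trans (hU.1 x hx),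
    by rintro _ ⟨x, hx, rfl⟩ _ ⟨y, hy, rfl⟩; exact (hg.1 x y).trans (hU.2 x hx y hy)⟩

/-- A hyperbolic pair adapted to two maximal subspaces. -/
theorem Rk.adapt (h : Φ.Rk N t) (hN : 0 < N) (hU : Φ.Ti U) (hk : finrank F U = N) (hW : Φ.Ti W)
    (hl : finrank F W = N) : ∃ e f, Φ.Hyp e f ∧ e ∈ U ∧ if U ⊓ W = ⊥ then f ∈ W else e ∈ W := by
  split_ifs with h0
  · obtain ⟨e, he, e0⟩ := Submodule.exists_mem_ne_zero_of_ne_bot
      (p := U) (fun e => by rw [e, finrank_bot] at hk; omega)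
    obtain ⟨w, hw, h1⟩ : ∃ w ∈ W, Φ.B e w ≠ 0 := by
      by_contra! h1
      exact e0 (h0.le ⟨he, h.max hW hl (mem_perp.2 h1) (hU.1 e he)⟩)
    obtain ⟨c, -, hc⟩ := hyp_scale (hU.1 e he) (hW.1 w hw) h1
    exact ⟨e, _, hc, he, W.smul_mem c hw⟩
  · obtain ⟨e, he, e0⟩ := Submodule.exists_mem_ne_zero_of_ne_bot h0
    obtain ⟨f, hf⟩ := h.nd.partner' (hU.1 e he.1) e0
    exact ⟨e, f, hf, he.1, he.2⟩

theorem Ti.cut' {e f : V} (hU : Φ.Ti U) (he : Φ.Hyp e f) (h : f ∈ U) :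
    (Φ.res (Φ.pl e f)).Ti (U.comap (Φ.pl e f).subtype) ∧
      finrank F (U.comap (Φ.pl e f).subtype) + 1 = finrank F U ∧
      ∀ v, v ∈ U ↔ ∃ (a : F) (x : Φ.pl e f), x ∈ U.comap (Φ.pl e f).subtype ∧ v = a • f + x := by
  have e1 : Φ.pl e f = Φ.pl f (P.ε • e) := by
    ext x
    simp [mem_pl, P.σ_ε, P.ε_ne, and_comm]
  rw [e1]
  exact hU.cut he.symm h

theorem ext_pair {e f : V} (he : Φ.Hyp e f) {U' W' : Submodule F V} (hU : Φ.Ti U) (hW : Φ.Ti W)
    (hU' : Φ.Ti U') (hW' : Φ.Ti W') (h1 : e ∈ U) (h2 : e ∈ U')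
    (h3 : (e ∈ W ∧ e ∈ W') ∨ (f ∈ W ∧ f ∈ W')) {a : Φ.pl e f ≃ₗ[F] Φ.pl e f}
    (ha : a ∈ (Φ.res (Φ.pl e f)).Iso)
    (h4 : (U.comap (Φ.pl e f).subtype).map a.toLinearMap = U'.comap (Φ.pl e f).subtype)
    (h5 : (W.comap (Φ.pl e f).subtype).map a.toLinearMap = W'.comap (Φ.pl e f).subtype) :
    ∃ g ∈ Φ.Iso, U.map g.toLinearMap = U' ∧ W.map g.toLinearMap = W' := by
  obtain ⟨φ, -, h6, -⟩ := he.ext
  obtain ⟨g1, g2, g3, g4⟩ := h6 ⟨a, ha⟩
  have key : ∀ {v : V} {X X' : Submodule F V}, φ ⟨a, ha⟩ v = v →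
      (∀ u, u ∈ X ↔ ∃ (c : F) (x : Φ.pl e f), x ∈ X.comap (Φ.pl e f).subtype ∧ u = c • v + x) →
      (∀ u, u ∈ X' ↔ ∃ (c : F) (x : Φ.pl e f), x ∈ X'.comap (Φ.pl e f).subtype ∧ u = c • v + x) →
      (X.comap (Φ.pl e f).subtype).map a.toLinearMap = X'.comap (Φ.pl e f).subtype →
      X.map (φ ⟨a, ha⟩).toLinearMap = X' := fun {v X X'} hv hX hX' h => by
    ext u
    rw [hX', ← h]
    constructor
    · rintro ⟨w, hw, rfl⟩
      obtain ⟨c, x, hx, rfl⟩ := (hX w).1 hw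
      exact ⟨c, a x, Submodule.mem_map_of_mem hx, by simp [hv, g4]⟩
    · rintro ⟨c, _, ⟨x, hx, rfl⟩, rfl⟩
      exact ⟨c • v + x, (hX _).2 ⟨c, x, hx, rfl⟩, by simp [hv, g4]⟩
  refine ⟨_, g1, key g2 (hU.cut he h1).2.2 (hU'.cut he h2).2.2 h4, ?_⟩
  rcases h3 with h | h
  · exact key g2 (hW.cut he h.1).2.2 (hW'.cut he h.2).2.2 h5
  · exact key g3 (hW.cut' he h.1).2.2 (hW'.cut' he h.2).2.2 h5

/-- Witt's theorem for pairs of maximal subspaces. -/
theorem Rk.witt (h : Φ.Rk N t) {U' W' : Submodule F V} (hU : Φ.Ti U) (hW : Φ.Ti W)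
    (hU' : Φ.Ti U') (hW' : Φ.Ti W') (h1 : finrank F U = N) (h2 : finrank F W = N)
    (h3 : finrank F U' = N) (h4 : finrank F W' = N)
    (h5 : finrank F (U ⊓ W : Submodule F V) = finrank F (U' ⊓ W' : Submodule F V)) :
    ∃ g ∈ Φ.Iso, U.map g.toLinearMap = U' ∧ W.map g.toLinearMap = W' := by
  induction N generalizing V with
  | zero =>
    obtain rfl := Submodule.finrank_eq_zero.1 h1
    obtain rfl := Submodule.finrank_eq_zero.1 h2
    obtain rfl := Submodule.finrank_eq_zero.1 h3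
    obtain rfl := Submodule.finrank_eq_zero.1 h4
    exact ⟨1, one_mem _, by simp, by simp⟩
  | succ M ih =>
    obtain ⟨e₀, f₀, he₀, a1, a2⟩ := h.adapt M.succ_pos hU h1 hW h2
    obtain ⟨e, f, he, b1, b2⟩ := h.adapt M.succ_pos hU' h3 hW' h4
    obtain ⟨g, hg, rfl, rfl⟩ := trans_hyp h.nd he₀ he
    replace hg := Sm_le hg
    obtain ⟨M', e1, hM⟩ := h.down he
    obtain rfl : M = M' := by omega
    have c1 := hU.map hg
    have c2 := hW.map hg
    have d1 : g e₀ ∈ U.map g.toLinearMap := Submodule.mem_map_of_mem a1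
    have d2 : finrank F (U.map g.toLinearMap ⊓ W.map g.toLinearMap : Submodule F V) =
        finrank F (U ⊓ W : Submodule F V) := by
      rw [← Submodule.map_inf _ g.injective, LinearEquiv.finrank_map_eq]
    have d3 := (c1.cut he d1).2.1
    have d4 := (hU'.cut he b1).2.1
    rw [LinearEquiv.finrank_map_eq] at d3
    have d5 : U ⊓ W = ⊥ ↔ U' ⊓ W' = ⊥ := by
      rw [← Submodule.finrank_eq_zero, h5, Submodule.finrank_eq_zero]
    suffices H : ∃ g' ∈ Φ.Iso, (U.map g.toLinearMap).map g'.toLinearMap = U' ∧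
        (W.map g.toLinearMap).map g'.toLinearMap = W' by
      obtain ⟨g', k1, k2, k3⟩ := H
      exact ⟨g' * g, mul_mem k1 hg, (Submodule.map_comp _ _ U).trans k2,
        (Submodule.map_comp _ _ W).trans k3⟩
    by_cases h0 : U ⊓ W = ⊥
    · rw [if_pos h0] at a2
      rw [if_pos (d5.1 h0)] at b2
      have d6 : g f₀ ∈ W.map g.toLinearMap := Submodule.mem_map_of_mem a2
      have d7 := (c2.cut' he d6).2.1
      have d8 := (hW'.cut' he b2).2.1
      rw [LinearEquiv.finrank_map_eq] at d7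
      rw [h0, finrank_bot, Submodule.finrank_eq_zero] at d2
      obtain ⟨a, ha, k1, k2⟩ := ih hM (c1.cut he d1).1 (c2.cut' he d6).1 (hU'.cut he b1).1
        (hW'.cut' he b2).1 (by omega) (by omega) (by omega) (by omega)
        (by rw [← Submodule.comap_inf, ← Submodule.comap_inf, d2, d5.1 h0])
      exact ext_pair he c1 c2 hU' hW' d1 b1 (.inr ⟨d6, b2⟩) ha k1 k2
    · rw [if_neg h0] at a2
      rw [if_neg (mt d5.2 h0)] at b2
      have d6 : g e₀ ∈ W.map g.toLinearMap := Submodule.mem_map_of_mem a2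
      have d7 := (c2.cut he d6).2.1
      have d8 := (hW'.cut he b2).2.1
      rw [LinearEquiv.finrank_map_eq] at d7
      have d9 := ((c1.mono inf_le_left).cut he ⟨d1, d6⟩).2.1
      have d10 := ((hU'.mono inf_le_left).cut he ⟨b1, b2⟩).2.1
      obtain ⟨a, ha, k1, k2⟩ := ih hM (c1.cut he d1).1 (c2.cut he d6).1 (hU'.cut he b1).1
        (hW'.cut he b2).1 (by omega) (by omega) (by omega) (by omega)
        (by rw [← Submodule.comap_inf, ← Submodule.comap_inf]; omega)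
      exact ext_pair he c1 c2 hU' hW' d1 b1 (.inl ⟨d6, b2⟩) ha k1 k2

end Frm

end Pool.Agent.Lib.MP_7d41f7_al
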