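import Pool.Agent.Lib.MP_7d41f7_al.C.KDef
import Pool.Agent.Lib.MP_7d41f7_al.L.Defs

/-! Classical groups: the interface between the group `S` and the unknown group. -/

set_option autoImplicit false

namespace Pool.Agent.Lib.MP_7d41f7_al

open Finset

/-- The kinds of forms: hermitian, alternating, quadratic. -/
inductive Kd | U | S | O
  deriving DecidableEq

/-- The types of nondegenerate forms. -/
inductive Ty | U | C | B | Dp | Dm
  deriving DecidableEq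

/-- The kind of a type. -/
def Ty.kd : Ty → Kd
  | .U => .U
  | .C => .S
  | _ => .O

/-- The base of the order formula. -/
def Kd.bs : Kd → ℕ → ℤ
  | .U, q => -q
  | _, q => q ^ 2

/-- The weight of a class. -/
def Kd.wt : Kd → ℕ
  | .U => 1
  | _ => 2

/-- The order of the field. -/
def Kd.fc : Kd → ℕ → ℕ
  | .U, q => q ^ 2
  | _, q => q

/-- The dimension. -/
def Ty.dim : Ty → ℕ → ℕ
  | .U, n => n
  | .B, n => 2 * n + 1
  | _, n => 2 * n

/-- The order of the group of isometries. -/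
def Ty.ord : Ty → ℕ → ℤ → ℤ
  | .U, n, q => q ^ (n * (n - 1) / 2) * ∏ i ∈ Icc 1 n, (q ^ i - (-1) ^ i)
  | .C, n, q => q ^ (n * n) * ∏ i ∈ Icc 1 n, (q ^ (2 * i) - 1)
  | .B, n, q => 2 * (q ^ (n * n) * ∏ i ∈ Icc 1 n, (q ^ (2 * i) - 1))
  | .Dp, n, q => if n = 0 then 1 else
      2 * (q ^ (n * (n - 1)) * (q ^ n - 1) * ∏ i ∈ Icc 1 (n - 1), (q ^ (2 * i) - 1))
  | .Dm, n, q => 2 * (q ^ (n * (n - 1)) * (q ^ n + 1) * ∏ i ∈ Icc 1 (n - 1), (q ^ (2 * i) - 1))

/-- The number of nonzero singular vectors. -/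
def Ty.sing : Ty → ℕ → ℤ → ℤ
  | .U, n, q => (q ^ n - (-1) ^ n) * (q ^ (n - 1) - (-1) ^ (n - 1))
  | .Dp, n, q => (q ^ n - 1) * (q ^ (n - 1) + 1)
  | .Dm, n, q => (q ^ n + 1) * (q ^ (n - 1) - 1)
  | _, n, q => q ^ (2 * n) - 1

/-- The order of `b` modulo `r` (zero if `r` is a prime divisor of `b`). -/
noncomputable def Ord (b : ℤ) (r : ℕ) : ℕ := orderOf (b : ZMod r)

/-- What is known about a group with the order and the vanishing orders of the classical group of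
type `t` and rank parameter `n` over the field attached to `q`. -/
structure XData (G : Type) [Group G] (t : Ty) (n q : ℕ) : Prop where
  card : ∃ c : ℕ, (Nat.card G : ℤ) * c = t.ord n q ∧ ∀ r, r.Prime → r ∣ c → Ord (t.kd.bs q) r ≤ 2
  cyc : ∀ r, r.Prime → n + 4 < 2 * Ord (t.kd.bs q) r → Cyc G r
  adj : ∀ r u, r.Prime → u.Prime → u ≠ r → n + 4 < 2 * Ord (t.kd.bs q) r →
    n ≤ 2 * Ord (t.kd.bs q) u → Adj G u r → Ord (t.kd.bs q) u ∣ Ord (t.kd.bs q) r
  adjL : t = .B ∨ t = .C → ∀ r u, Prim q (2 * n) r → Prim q n u → ¬ Adj G u r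

/-- The order of the section determines the family. -/
structure HOut (H : Type) [Group H] (t : Ty) (n q : ℕ) : Prop where
  alt : ∀ m : ℕ, IsEmpty (H ≃* alternatingGroup (Fin m))
  lin : ∀ (m : ℕ) (K : Type) [Field K] [Finite K], IsEmpty (H ≃* PL m K)
  uni : ∀ m u : ℕ, IsPrimePow u → 3 ≤ m → OrdU m u (Nat.card H) → t = .U ∧ m = n ∧ u = q
  sym : ∀ m u : ℕ, IsPrimePow u → 2 ≤ m → OrdB m u (Nat.card H) →
    (t = .B ∨ t = .C) ∧ m = n ∧ u = q
  dp : ∀ m u : ℕ, IsPrimePow u → 4 ≤ m → OrdD 1 m u (Nat.card H) → t = .Dp ∧ m = n ∧ u = q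
  dm : ∀ m u : ℕ, IsPrimePow u → 4 ≤ m → OrdD (-1) m u (Nat.card H) → t = .Dm ∧ m = n ∧ u = q
  exc : ∀ u : ℕ, IsPrimePow u → ¬ ExcOrd u (Nat.card H)
  spor : Nat.card H ∉ sporOrd

end Pool.Agent.Lib.MP_7d41f7_al
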